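import Pool.Agent.N875.X15.TamU
import Pool.Agent.Y809.BSD14.Tam1
import Pool.Agent.W97.MT.Defs

/-!
# The minimal equation of the twist of `X_0(15)` by `m = 1 mod 4`
-/

set_option autoImplicit false

namespace Pool.Agent.N875.X15

open WeierstrassCurve
open Pool.Agent.Y700 (PtP SingRed E0 tam VR)
open Pool.Agent.W97.MT (IsGloballyMinimal)

/-- The twist of `X_0(15)` by `m = 1 mod 4`. -/
def WN (m : ℤ) : WeierstrassCurve ℤ := ⟨1, -((7 * m + 1) / 4), 0, -(9 * m ^ 2), 0⟩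

/-- the twist of `X_0(15)` by `m` over `ℚ` -/
noncomputable abbrev WNQ (m : ℤ) : WeierstrassCurve ℚ := (WN m).map (Int.castRingHom ℚ)

theorem WN_k (k : ℤ) : WN (4 * k + 1) = ⟨1, -(7 * k + 2), 0, -(9 * (4 * k + 1) ^ 2), 0⟩ := by
  unfold WN
  have h : (7 * (4 * k + 1) + 1) / 4 = 7 * k + 2 := by omega
  rw [h]

theorem WN_Δ {m : ℤ} (hm : m % 4 = 1) : (WN m).Δ = 3 ^ 4 * 5 ^ 4 * m ^ 6 := by
  obtain ⟨k, rfl⟩ : ∃ k, m = 4 * k + 1 := ⟨m / 4, by omega⟩
  rw [WN_k]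
  simp only [WeierstrassCurve.Δ, WeierstrassCurve.b₂, WeierstrassCurve.b₄, WeierstrassCurve.b₆,
    WeierstrassCurve.b₈]
  ring

/-- the change of coordinates -/
theorem vr {m : ℤ} (hm : m % 4 = 1) (F : Type) [Field F] [CharZero F] :
    VR ((Em m).map (Int.castRingHom F)) ((WN m).map (Int.castRingHom F)) 2 0 1 0 := by
  obtain ⟨k, rfl⟩ : ∃ k, m = 4 * k + 1 := ⟨m / 4, by omega⟩
  rw [WN_k]
  constructor
  · exact two_ne_zero
  all_goals simp [Em]
  · ring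
  · ring

lemma prime_pow_dvd {q : ℕ} (hq : q.Prime) {m : ℤ} (hs : Squarefree m)
    (h : ((q : ℤ)) ^ 12 ∣ 3 ^ 4 * 5 ^ 4 * m ^ 6) : False := by
  have : Fact q.Prime := ⟨hq⟩
  have hm0 : m ≠ 0 := hs.ne_zero
  have hm' : (m : ℚ_[q]) ≠ 0 := by exact_mod_cast hm0
  have hne : ((3 : ℤ) ^ 4 * 5 ^ 4 * m ^ 6) ≠ 0 :=
    mul_ne_zero (by norm_num) (pow_ne_zero _ hm0)
  have h1 : 12 ≤ padicValInt q (3 ^ 4 * 5 ^ 4 * m ^ 6) := by
    have := (padicValInt_dvd_iff (p := q) 12 (3 ^ 4 * 5 ^ 4 * m ^ 6)).1 h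
    exact this.resolve_left hne
  have h2 : padicValInt q m ≤ 1 := by
    by_contra hcon
    push Not at hcon
    have h3 : (q : ℤ) ^ 2 ∣ m := (padicValInt_dvd_iff (p := q) 2 m).2 (Or.inr hcon)
    rw [pow_two] at h3
    have h4 := hs _ h3
    exact hq.one_lt.ne' (Nat.isUnit_iff.1 (Int.ofNat_isUnit.1 h4))
  have e1 : padicValInt q (3 ^ 4 * 5 ^ 4 * m ^ 6) =
      4 * padicValInt q 3 + 4 * padicValInt q 5 + 6 * padicValInt q m := by
    rw [padicValInt.mul (by norm_num) (pow_ne_zero _ hm0), padicValInt.mul (by norm_num) (by norm_num)]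
    have hp : ∀ (a : ℤ) (_ : a ≠ 0) (n : ℕ), padicValInt q (a ^ n) = n * padicValInt q a := by
      intro a ha n
      induction n with
      | zero => simp
      | succ n ih => rw [pow_succ, padicValInt.mul (pow_ne_zero _ ha) ha, ih]; ring
    rw [hp 3 (by norm_num), hp 5 (by norm_num), hp m hm0]
  have h3 : padicValInt q 3 + padicValInt q 5 ≤ 1 := by
    have e3 : padicValInt q 3 = padicValNat q 3 := by
      rw [show (3 : ℤ) = ((3 : ℕ) : ℤ) by norm_num, padicValInt.of_nat]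
    have e5 : padicValInt q 5 = padicValNat q 5 := by
      rw [show (5 : ℤ) = ((5 : ℕ) : ℤ) by norm_num, padicValInt.of_nat]
    rw [e3, e5]
    by_cases h3 : q = 3
    · subst h3
      rw [padicValNat_self, padicValNat.eq_zero_of_not_dvd (by norm_num : ¬ 3 ∣ 5)]
    · have : Fact (Nat.Prime 3) := ⟨Nat.prime_three⟩
      rw [padicValNat.eq_zero_of_not_dvd (n := 3) (fun h =>
        h3 ((Nat.prime_dvd_prime_iff_eq hq Nat.prime_three).1 h)), zero_add]
      by_cases h5 : q = 5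
      · subst h5
        rw [padicValNat_self]
      · rw [padicValNat.eq_zero_of_not_dvd (n := 5) (fun h =>
          h5 ((Nat.prime_dvd_prime_iff_eq hq (by norm_num)).1 h))]
        norm_num
  omega

theorem min_WN {m : ℤ} (hm : m % 4 = 1) (hs : Squarefree m) : IsGloballyMinimal (WN m) := by
  have hΔ := WN_Δ hm
  have hM0 : m ≠ 0 := hs.ne_zero
  refine ⟨?_, ?_⟩
  · rw [hΔ]
    exact mul_ne_zero (by norm_num) (pow_ne_zero _ hM0)
  · intro W' C h
    have h1 := congrArg WeierstrassCurve.Δ h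
    rw [WeierstrassCurve.variableChange_Δ, WeierstrassCurve.map_Δ, WeierstrassCurve.map_Δ] at h1
    simp only [eq_intCast] at h1
    obtain ⟨q, hq⟩ : ∃ q : ℚ, q = ((C.u⁻¹ : ℚˣ) : ℚ) := ⟨_, rfl⟩
    rw [← hq] at h1
    have hq0 : q ≠ 0 := by rw [hq]; exact Units.ne_zero _
    have h2 : (q.num : ℚ) ^ 12 * ((WN m).Δ : ℚ) = (W'.Δ : ℚ) * (q.den : ℚ) ^ 12 := by
      have hd : (q.den : ℚ) ≠ 0 := by exact_mod_cast q.den_ne_zero
      rw [← h1]
      have hnd : q * q.den = q.num := Rat.mul_den_eq_num q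
      rw [← hnd]
      ring
    have h3 : q.num ^ 12 * (WN m).Δ = W'.Δ * (q.den : ℤ) ^ 12 := by exact_mod_cast h2
    have hcop : IsCoprime ((q.den : ℤ) ^ 12) (q.num ^ 12) := by
      refine IsCoprime.pow ?_
      rw [Int.isCoprime_iff_gcd_eq_one, Int.gcd_comm]
      exact q.reduced
    have h4 : (q.den : ℤ) ^ 12 ∣ (WN m).Δ :=
      hcop.dvd_of_dvd_mul_left ⟨W'.Δ, by rw [h3]; ring⟩
    rw [hΔ] at h4
    have h8 : q.den = 1 := by
      by_contra hne
      obtain ⟨r, hr, hrd⟩ := Nat.exists_prime_and_dvd hne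
      refine prime_pow_dvd hr hs (dvd_trans ?_ h4)
      exact pow_dvd_pow_of_dvd (by exact_mod_cast hrd) 12
    rw [h8] at h3
    have h9 : W'.Δ = q.num ^ 12 * (WN m).Δ := by rw [h3]; simp
    rw [h9, abs_mul]
    have h10 : 1 ≤ |q.num ^ 12| := by
      apply Int.one_le_abs
      exact pow_ne_zero _ (Rat.num_ne_zero.2 hq0)
    nlinarith [abs_nonneg (WN m).Δ]

/-! ### Tamagawa numbers -/

section tam

variable {p : ℕ} [hp : Fact p.Prime] {m : ℤ}

lemma WN_Δ_ne (h4 : m % 4 = 1) (F : Type) [Field F] [CharZero F] :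
    ((WN m).map (Int.castRingHom F)).Δ ≠ 0 := by
  rw [WeierstrassCurve.map_Δ, WN_Δ h4]
  simp only [eq_intCast]
  have : (3 ^ 4 * 5 ^ 4 * m ^ 6 : ℤ) ≠ 0 :=
    mul_ne_zero (by norm_num) (pow_ne_zero _ (by rintro rfl; norm_num at h4))
  exact_mod_cast this

theorem tam_WN_odd (hp2 : p ≠ 2) (h4 : m % 4 = 1) : tam (WN m) p = tam (Em m) p := by
  symm
  refine tam_VR (vr h4 ℚ_[p]) (WN_Δ_ne h4 ℚ_[p]) (norm_two hp2) ?_ ?_ ?_
  · rw [norm_zero]; exact zero_le_one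
  · rw [norm_one]
  · rw [norm_zero]; exact zero_le_one

theorem tam_WN_good (h4 : m % 4 = 1) (h : ¬ p ∣ 15) (hpm : ¬ (p : ℤ) ∣ m) : tam (WN m) p = 1 := by
  refine Pool.Agent.Y809.BSD14.t_TGOOD (WN m) p ?_
  rw [WN_Δ h4]
  have hpr : Prime (p : ℤ) := Nat.prime_iff_prime_int.1 hp.out
  intro h1
  rcases hpr.dvd_or_dvd h1 with h2 | h2
  · apply h
    rcases hpr.dvd_or_dvd h2 with h3 | h3
    · have h5 := hpr.dvd_of_dvd_pow h3
      have h6 : p ∣ 3 := by exact_mod_cast h5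
      exact h6.trans (by norm_num)
    · have h5 := hpr.dvd_of_dvd_pow h3
      have h6 : p ∣ 5 := by exact_mod_cast h5
      exact h6.trans (by norm_num)
  · exact hpm (hpr.dvd_of_dvd_pow h2)

theorem tam_WN_ram (h4 : m % 4 = 1) (hs : Squarefree m) (hpm : (p : ℤ) ∣ m) :
    tam (WN m) p = 4 := by
  have hp2 : p ≠ 2 := by
    rintro rfl
    omega
  rw [tam_WN_odd hp2 h4]
  exact tam_ram hp2 hs hpm

theorem tam_WN_three (h4 : m % 4 = 1) (h3 : m % 3 = 1) : tam (WN m) 3 = 2 := by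
  rw [tam_WN_odd (by norm_num) h4]
  exact tam_three h3

theorem tam_WN_five [Fact (Nat.Prime 5)] (h4 : m % 4 = 1) (h5 : m % 5 = 2 ∨ m % 5 = 3) :
    tam (WN m) 5 = 2 := by
  rw [tam_WN_odd (by norm_num) h4]
  exact tam_five h5

end tam

end Pool.Agent.N875.X15
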