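import Pool.Agent.N875.X15.Lin
import Pool.Agent.N875.X15.Rank

/-!
# The criterion in elementary terms, `m = -n`, `n ≡ 3 mod 4`
-/

set_option autoImplicit false

namespace Pool.Agent.N875.X15

/-- The elementary form of the condition: `n = b c`, `b` is a square modulo `c` and `c` is a square
modulo `b` only in the trivial cases. -/
def Qc (n : ℕ) : Prop := ∀ b c : ℕ, b * c = n →
  (∀ p : ℕ, p.Prime → p ∣ c → jacobiSym b p = 1) →
  (∀ p : ℕ, p.Prime → p ∣ b → jacobiSym c p = 1) → b = 1 ∨ c = 1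

section

variable {p : ℕ} [hp : Fact p.Prime]

lemma zmod_of_sq {n : ℤ} (h : IsSquare (n : ℚ_[p])) : IsSquare ((n : ℤ) : ZMod p) := by
  obtain ⟨r, hr⟩ := h
  have h1 : ‖r‖ ≤ 1 := by
    by_contra hcon
    push Not at hcon
    have h2 : ‖(n : ℚ_[p])‖ ≤ 1 := Padic.norm_int_le_one n
    rw [hr, norm_mul] at h2
    nlinarith
  obtain ⟨v, hv⟩ : ∃ v : ℤ_[p], (v : ℚ_[p]) = r := ⟨⟨r, h1⟩, rfl⟩
  have h2 : ((n : ℤ) : ℤ_[p]) = v * v := by
    apply Subtype.ext
    rw [PadicInt.coe_mul, hv]
    push_cast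
    exact hr
  have h3 := congrArg (PadicInt.toZMod (p := p)) h2
  rw [map_mul, map_intCast] at h3
  exact ⟨_, h3⟩

lemma jac_of_sq {n : ℤ} (hn : ¬ (p : ℤ) ∣ n) (h : IsSquare (n : ℚ_[p])) : jacobiSym n p = 1 := by
  rw [← jacobiSym.legendreSym.to_jacobiSym]
  rw [legendreSym.eq_one_iff p (fun h0 => hn ((ZMod.intCast_zmod_eq_zero_iff_dvd n p).1 h0))]
  exact zmod_of_sq h

/-- a squarefree number divisible by `p` is not a square -/
lemma not_sq {d : ℤ} (hd : Squarefree d) (hpd : (p : ℤ) ∣ d) : ¬ IsSquare (d : ℚ_[p]) := by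
  intro hsq
  have h1 : IsSquare ((1 : ℚ_[p]) * d) := by rwa [one_mul]
  exact not_dvd_of_even one_ne_zero (by rw [Padic.valuation_one]; exact Even.zero) hd h1 hpd

end

/-- reciprocity for numbers `≡ 1 mod 4` -/
lemma recip {d : ℤ} (hd : d % 4 = 1) {p : ℕ} (hp : Odd p) : jacobiSym d p = jacobiSym p d.natAbs := by
  rcases le_or_gt 0 d with h | h
  · have h1 : (d.natAbs : ℤ) = d := Int.natAbs_of_nonneg h
    rw [← h1, Int.natAbs_natCast]
    exact jacobiSym.quadratic_reciprocity_one_mod_four (by omega) hp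
  · have h1 : (d.natAbs : ℤ) = -d := by
      rw [Int.natCast_natAbs, abs_of_neg h]
    have h3 : d = -1 * (d.natAbs : ℤ) := by rw [h1]; ring
    have h4 : d.natAbs % 4 = 3 := by omega
    conv_lhs => rw [h3]
    rw [jacobiSym.mul_left, jacobiSym.at_neg_one hp]
    have h5 : p % 4 = 1 ∨ p % 4 = 3 := by
      have := Nat.odd_iff.1 hp
      omega
    rcases h5 with h5 | h5
    · rw [ZMod.χ₄_nat_one_mod_four h5, one_mul]
      exact (jacobiSym.quadratic_reciprocity_one_mod_four h5 (Nat.odd_iff.2 (by omega))).symm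
    · rw [ZMod.χ₄_nat_three_mod_four h5,
        jacobiSym.quadratic_reciprocity_three_mod_four h4 h5]
      ring

section

variable {n : ℕ}

lemma ram_iff (h4 : n % 4 = 3) (p : ℕ) : Ram (-(n : ℤ)) p ↔ p ∣ n := by
  unfold Ram
  rw [dvd_neg, Int.natCast_dvd_natCast]
  constructor
  · rintro (h | h)
    · exact h
    · omega
  · exact fun h => Or.inl h

/-- divisors -/
lemma dvd_of_primes {b n : ℕ} (hb : Squarefree b) (h : ∀ p : ℕ, p.Prime → p ∣ b → p ∣ n) :
    b ∣ n := by
  rw [← Nat.prod_primeFactors_of_squarefree hb]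
  by_cases hn : n = 0
  · rw [hn]; exact dvd_zero _
  have : b.primeFactors ⊆ n.primeFactors := by
    intro p hp
    rw [Nat.mem_primeFactors] at hp ⊢
    exact ⟨hp.1, h p hp.1 hp.2.1, hn⟩
  exact (Finset.prod_dvd_prod_of_subset _ _ _ this).trans (Nat.prod_primeFactors_dvd n)

theorem nc_of (hn : Squarefree n) (h4 : n % 4 = 3) (h : Qc n) : NC (-(n : ℤ)) := by
  intro d hd hds hsup hloc
  obtain ⟨b, rfl⟩ := Int.eq_ofNat_of_zero_le hd.le
  have hbs : Squarefree b := Int.squarefree_natCast.1 hds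
  have hbn : b ∣ n := dvd_of_primes hbs (fun p hp hpb =>
    (ram_iff h4 p).1 (hsup p hp (by exact_mod_cast hpb)))
  obtain ⟨c, hc⟩ := hbn
  have hcop : Nat.Coprime b c := by
    rw [hc] at hn
    exact Nat.coprime_of_squarefree_mul hn
  have hcs : Squarefree c := hn.squarefree_of_dvd ⟨b, by rw [hc, mul_comm]⟩
  have hodd : ∀ p : ℕ, p.Prime → p ∣ n → p ≠ 2 := by
    rintro p hp hpn rfl
    omega
  have hnz : Squarefree (-(n : ℤ)) := by
    intro x hx
    rw [dvd_neg] at hx
    exact Int.squarefree_natCast.2 hn x hx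
  rcases h b c hc.symm (fun p hp hpc => by
      have : Fact p.Prime := ⟨hp⟩
      have hpn : p ∣ n := hpc.trans ⟨b, by rw [hc, mul_comm]⟩
      have hpb : ¬ (p : ℤ) ∣ (b : ℤ) := by
        intro h1
        have h2 : p ∣ b := by exact_mod_cast h1
        exact hp.one_lt.ne' (Nat.eq_one_of_dvd_coprimes hcop h2 hpc)
      rcases hloc p (hodd p hp hpn) (by rw [dvd_neg]; exact_mod_cast hpn) with h1 | h1
      · exact jac_of_sq hpb h1
      · exfalso
        push_cast at h1
        rw [neg_neg] at h1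
        have hb0 : ((b : ℕ) : ℚ_[p]) ≠ 0 := by exact_mod_cast hbs.ne_zero
        have h2 := even_val (mul_ne_zero hb0 (by exact_mod_cast hn.ne_zero)) h1
        have h3 := val_zero (p := p) hpb
        have h4' := val_one (p := p) (n := (n : ℤ)) (by exact_mod_cast hpn)
          (Int.squarefree_natCast.2 hn)
        push_cast at h3 h4'
        rw [Padic.valuation_mul hb0 (by exact_mod_cast hn.ne_zero), h3, h4'] at h2
        exact absurd h2 (by decide))
    (fun p hp hpb => by
      have : Fact p.Prime := ⟨hp⟩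
      have hpn : p ∣ n := hpb.trans ⟨c, hc⟩
      have hpc : ¬ (p : ℤ) ∣ (c : ℤ) := by
        intro h1
        have h2 : p ∣ c := by exact_mod_cast h1
        exact hp.one_lt.ne' (Nat.eq_one_of_dvd_coprimes hcop hpb h2)
      rcases hloc p (hodd p hp hpn) (by rw [dvd_neg]; exact_mod_cast hpn) with h1 | h1
      · exact absurd h1 (not_sq hds (by exact_mod_cast hpb))
      · refine jac_of_sq hpc ?_
        push_cast at h1 ⊢
        rw [neg_neg] at h1
        have hb0 : ((b : ℕ) : ℚ_[p]) ≠ 0 := by exact_mod_cast hbs.ne_zero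
        have e : (b : ℚ_[p]) * (n : ℚ_[p]) = (b * b) * c := by
          rw [hc]; push_cast; ring
        rw [e] at h1
        exact sq_cancel (mul_ne_zero hb0 hb0) (IsSquare.mul_self _) h1) with h1 | h1
  · left
    rw [h1]
    rfl
  · right
    rw [neg_neg, hc, h1, mul_one]

theorem rc_of (hn : Squarefree n) (h4 : n % 4 = 3) (h : Qc n) : RC (-(n : ℤ)) := by
  intro d hds hsup h14 hloc
  have hd4 : d % 4 = 1 := h14 (by omega)
  set b := d.natAbs with hb
  have hbs : Squarefree b := Int.squarefree_natAbs.2 hds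
  have hbn : b ∣ n := dvd_of_primes hbs (fun p hp hpb =>
    (ram_iff h4 p).1 (hsup p hp (Int.natCast_dvd.2 hpb)))
  obtain ⟨c, hc⟩ := hbn
  have hcop : Nat.Coprime b c := by
    rw [hc] at hn
    exact Nat.coprime_of_squarefree_mul hn
  have hcs : Squarefree c := hn.squarefree_of_dvd ⟨b, by rw [hc, mul_comm]⟩
  have hodd : ∀ p : ℕ, p.Prime → p ∣ n → Odd p := by
    intro p hp hpn
    rcases hp.eq_two_or_odd' with h1 | h1
    · subst h1
      omega
    · exact h1
  -- the complementary divisor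
  obtain ⟨e, he⟩ : d ∣ -(n : ℤ) := by
    rw [dvd_neg, ← Int.natAbs_dvd]
    have h1 : b ∣ n := ⟨c, hc⟩
    exact_mod_cast h1
  have he4 : e % 4 = 1 := by
    have h1 : d % 4 * (e % 4) % 4 = 1 := by
      rw [← Int.mul_emod, ← he]
      omega
    rw [hd4] at h1
    omega
  have hec : e.natAbs = c := by
    have h1 := congrArg Int.natAbs he
    rw [Int.natAbs_mul, Int.natAbs_neg, Int.natAbs_natCast, hc] at h1
    exact (Nat.eq_of_mul_eq_mul_left (Nat.pos_of_ne_zero hbs.ne_zero) h1).symm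
  have hd0 : d ≠ 0 := hds.ne_zero
  rcases transpose_criterion hn h4 h b c hc.symm (fun p hp hpc => by
      have : Fact p.Prime := ⟨hp⟩
      have hpn : p ∣ n := hpc.trans ⟨b, by rw [hc, mul_comm]⟩
      have hpb : ¬ (p : ℤ) ∣ d := by
        intro h1
        have h2 : p ∣ b := Int.natCast_dvd.1 h1
        exact hp.one_lt.ne' (Nat.eq_one_of_dvd_coprimes hcop h2 hpc)
      rw [hb, ← recip hd4 (hodd p hp hpn)]
      rcases hloc p ((ram_iff h4 p).2 hpn) with h1 | h1
      · exact jac_of_sq hpb h1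
      · exfalso
        have hd0' : (d : ℚ_[p]) ≠ 0 := by exact_mod_cast hd0
        have hn0 : ((-(n : ℤ) : ℤ) : ℚ_[p]) ≠ 0 := by
          have h0 : (-(n : ℤ) : ℤ) ≠ 0 := by
            have := hn.ne_zero
            omega
          exact_mod_cast h0
        have h2 := even_val (mul_ne_zero hd0' hn0) h1
        rw [Padic.valuation_mul hd0' hn0, val_zero hpb, val_one (by
          rw [dvd_neg]; exact_mod_cast hpn) (fun x hx => by
            rw [dvd_neg] at hx
            exact Int.squarefree_natCast.2 hn x hx)] at h2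
        exact absurd h2 (by decide))
    (fun p hp hpb => by
      have : Fact p.Prime := ⟨hp⟩
      have hpn : p ∣ n := hpb.trans ⟨c, hc⟩
      have hpe : ¬ (p : ℤ) ∣ e := by
        intro h1
        have h2 : p ∣ c := by rw [← hec]; exact Int.natCast_dvd.1 h1
        exact hp.one_lt.ne' (Nat.eq_one_of_dvd_coprimes hcop hpb h2)
      rw [← hec, ← recip he4 (hodd p hp hpn)]
      rcases hloc p ((ram_iff h4 p).2 hpn) with h1 | h1
      · exact absurd h1 (not_sq hds (Int.natCast_dvd.2 hpb))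
      · refine jac_of_sq hpe ?_
        have hd0' : (d : ℚ_[p]) ≠ 0 := by exact_mod_cast hd0
        rw [he] at h1
        push_cast at h1
        have e' : (d : ℚ_[p]) * (d * e) = (d * d) * e := by ring
        rw [e'] at h1
        exact sq_cancel (mul_ne_zero hd0' hd0') (IsSquare.mul_self _) h1) with h1 | h1
  · left
    omega
  · right
    have h2 : b = n := by rw [hc, h1, mul_one]
    omega

/-- **The algebraic side for `n ≡ 23, 47 mod 60`.** -/
theorem rank_sha_of_Qc (hn : Squarefree n) (h60 : n % 60 = 23 ∨ n % 60 = 47) (h : Qc n) :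
    Module.finrank ℤ (EQm (-(n : ℤ))).toAffine.Point = 0 ∧
    ∀ (k : ℕ) (x : Pool.Agent.TH841.SH.D.Sha (EQm (-(n : ℤ)))), (2 ^ k : ℕ) • x = 0 → x = 0 := by
  have h4 : n % 4 = 3 := by omega
  refine rank_sha ⟨?_, ?_, by omega, by omega⟩ (rc_of hn h4 h) (nc_of hn h4 h)
  · have := hn.ne_zero
    omega
  · intro x hx
    rw [dvd_neg] at hx
    exact Int.squarefree_natCast.2 hn x hx

end

end Pool.Agent.N875.X15
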