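import Pool.Agent.N875.X15.Main
import Pool.Agent.N875.X15.Min

/-!
# The torsion subgroup of `E_m(ℚ)`, `m < 0`
-/

set_option autoImplicit false

namespace Pool.Agent.N875.X15

open WeierstrassCurve
open Pool.Agent.TH841.SH (IsR)

open scoped Classical

section dbl

variable {K : Type} [Field K] [DecidableEq K] {W : WeierstrassCurve K} {a b c : K}

/-- doubling -/
lemma dbl_sq (h : IsR W a b c) (h2 : (2 : K) ≠ 0) {x y : K} (hP : W.toAffine.Nonsingular x y)
    (hy : y ≠ 0) {X Y : K} (H : W.toAffine.Nonsingular X Y)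
    (he : (Affine.Point.some x y hP + Affine.Point.some x y hP : W.toAffine.Point) =
      Affine.Point.some X Y H) : IsSquare (X - a) := by
  have hneg : y ≠ W.toAffine.negY x y := by
    intro h1
    apply hy
    rw [Affine.negY, h.h1, h.h3] at h1
    have : 2 * y = 0 := by linear_combination h1
    exact (mul_eq_zero.1 this).resolve_left h2
  rw [Affine.Point.add_self_of_Y_ne hneg] at he
  injection he with e1 e2
  have q1 := (isR_eqn h).1 hP.1
  have hs : W.toAffine.slope x x y y = (3 * x ^ 2 - 2 * (a + b + c) * x + (a * b + a * c + b * c)) /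
      (2 * y) := by
    rw [Affine.slope_of_Y_ne rfl hneg, Affine.negY, h.h1, h.h2, h.h3, h.h4]
    congr 1
    · ring
    · ring
  rw [Affine.addX, hs, h.h1, h.h2, zero_mul, add_zero] at e1
  refine ⟨((x - a) * (x - b) + (x - a) * (x - c) - (x - b) * (x - c)) / (2 * y), ?_⟩
  rw [← e1]
  field_simp
  linear_combination (-4 * ((x - b) + (x - c))) * q1

end dbl

variable {m : ℤ}

/-- there is no rational point of order four -/
theorem no_four (hm : m < 0) (hns : ¬ IsSquare (-(m : ℚ))) (P : (EQm m).toAffine.Point)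
    (h : (P + P) + (P + P) = 0) : P + P = 0 := by
  by_contra hne
  have hR := isR m
  obtain ⟨e, he, hP2, hee⟩ := two_tor hR two_ne_zero h hne
  have hmQ : (m : ℚ) < 0 := by exact_mod_cast hm
  rcases P with _ | ⟨x, y, hxy⟩
  · exact hne (add_zero _)
  have hy : y ≠ 0 := by
    rintro rfl
    exact hne (dbl_T hR hxy)
  have k1 := dbl_sq hR two_ne_zero hxy hy he hP2
  have k2 := dbl_sq hR.rot two_ne_zero hxy hy he hP2
  have k3 := dbl_sq hR.rot.rot two_ne_zero hxy hy he hP2
  rcases hee with rfl | rfl | rfl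
  · have : (((0 : ℤ)) : ℚ) - ((-9 * m : ℤ) : ℚ) = 9 * m := by push_cast; ring
    rw [this] at k2
    have := k2.nonneg
    linarith
  · apply hns
    have e1 : ((-9 * m : ℤ) : ℚ) - ((0 : ℤ) : ℚ) = 3 * 3 * -(m : ℚ) := by push_cast; ring
    rw [e1] at k1
    exact sq_cancel (by norm_num : (3 * 3 : ℚ) ≠ 0) ⟨3, rfl⟩ k1
  · have : (((16 * m : ℤ)) : ℚ) - ((0 : ℤ) : ℚ) = 16 * m := by push_cast; ring
    rw [this] at k1
    have := k1.nonneg
    linarith

/-- the points killed by two -/
theorem mem_T4 (hm : m ≠ 0) {P : (EQm m).toAffine.Point} (h : P + P = 0) : P ∈ T4 hm := by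
  by_cases hP : P = 0
  · rw [hP]
    unfold T4
    exact Finset.mem_insert_self _ _
  · obtain ⟨x, hx, rfl, hxx⟩ := two_tor (isR m) two_ne_zero h hP
    unfold T4
    rw [Finset.mem_insert, Finset.mem_insert, Finset.mem_insert, Finset.mem_singleton]
    right
    rcases hxx with rfl | rfl | rfl
    · left
      congr 1
    · right; left
      congr 1
      push_cast
      rfl
    · right; right
      congr 1
      push_cast
      rfl

/-- a group with four elements killed by two and no element of order four -/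
theorem card_four {A : Type} [AddCommGroup A] [Finite A] (h2 : Nat.card {x : A // x + x = 0} = 4)
    (h4 : ∀ x : A, (x + x) + (x + x) = 0 → x + x = 0) : ∃ t : ℕ, Odd t ∧ Nat.card A = 4 * t := by
  let f : A →+ A := (AddMonoidHom.id A) + (AddMonoidHom.id A)
  have hf : ∀ x, f x = x + x := fun x => rfl
  have hker : Nat.card f.ker = 4 := by
    rw [← h2]
    exact Nat.card_congr (Equiv.subtypeEquivRight fun x => by rw [AddMonoidHom.mem_ker, hf])
  refine ⟨Nat.card f.range, ?_, ?_⟩
  · rw [← Nat.not_even_iff_odd]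
    intro he
    have : Fact (Nat.Prime 2) := ⟨Nat.prime_two⟩
    obtain ⟨x, hx⟩ := exists_prime_addOrderOf_dvd_card' (G := f.range) 2 (even_iff_two_dvd.1 he)
    have hx2 : x + x = 0 := by
      rw [← two_nsmul, ← hx]
      exact addOrderOf_nsmul_eq_zero x
    obtain ⟨⟨y, ⟨z, hz⟩⟩, rfl⟩ : ∃ y, y = x := ⟨x, rfl⟩
    have h5 : y + y = 0 := congrArg Subtype.val hx2
    rw [hf] at hz
    rw [← hz] at h5
    have h6 := h4 z h5
    have h7 : y = 0 := by rw [← hz, h6]
    have h8 : (⟨y, ⟨z, hz⟩⟩ : f.range) = 0 := Subtype.ext h7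
    rw [h8, addOrderOf_zero] at hx
    exact absurd hx (by norm_num)
  · have h1 := AddSubgroup.card_eq_card_quotient_mul_card_addSubgroup f.ker
    rw [hker] at h1
    have h3 : Nat.card (A ⧸ f.ker) = Nat.card f.range :=
      Nat.card_congr (QuotientAddGroup.quotientKerEquivRange f).toEquiv
    rw [h1, h3, mul_comm]

theorem finite_tors {A : Type} [AddCommGroup A] (h : AddGroup.FG A) :
    Finite (AddCommGroup.torsion A) := by
  have h1 : Module.Finite ℤ A := Module.Finite.iff_addGroup_fg.2 h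
  have h2 : IsNoetherian ℤ A := isNoetherian_of_isNoetherianRing_of_finite ℤ A
  have h3 : (AddSubgroup.toIntSubmodule (AddCommGroup.torsion A)).FG := IsNoetherian.noetherian _
  have h4 : Module.Finite ℤ (AddSubgroup.toIntSubmodule (AddCommGroup.torsion A)) :=
    Module.Finite.iff_fg.2 h3
  have h5 : Module.Finite ℤ (AddCommGroup.torsion A) := h4
  refine Module.finite_of_fg_torsion (AddCommGroup.torsion A) ?_
  rintro ⟨x, hx⟩
  have h6 : IsOfFinAddOrder x := hx
  obtain ⟨n, hn, hnx⟩ := isOfFinAddOrder_iff_nsmul_eq_zero.1 h6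
  refine ⟨⟨(n : ℤ), ?_⟩, ?_⟩
  · rw [mem_nonZeroDivisors_iff_ne_zero]
    exact_mod_cast hn.ne'
  · apply Subtype.ext
    show ((n : ℤ) • x) = 0
    rw [natCast_zsmul]
    exact hnx

/-- **The order of the torsion subgroup.** -/
theorem tors_Em (hm : m < 0) (hns : ¬ IsSquare (-(m : ℚ))) :
    ∃ t : ℕ, Odd t ∧ Nat.card (AddCommGroup.torsion (EQm m).toAffine.Point) = 4 * t := by
  have : Finite (AddCommGroup.torsion (EQm m).toAffine.Point) := finite_tors (fg_E hm.ne)
  refine card_four ?_ ?_
  · have e : {x : AddCommGroup.torsion (EQm m).toAffine.Point // x + x = 0} ≃ (T4 hm.ne : Finset _) :=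
      { toFun := fun x => ⟨x.1.1, mem_T4 hm.ne (congrArg Subtype.val x.2)⟩
        invFun := fun x => ⟨⟨x.1, by
          have h1 : IsOfFinAddOrder x.1 := isOfFinAddOrder_iff_nsmul_eq_zero.2
            ⟨2, two_pos, by rw [two_nsmul]; exact T4_two hm.ne _ x.2⟩
          exact h1⟩, Subtype.ext (T4_two hm.ne _ x.2)⟩
        left_inv := fun x => rfl
        right_inv := fun x => rfl }
    rw [Nat.card_congr e, Nat.card_eq_fintype_card, Fintype.card_coe, T4_card]
  · rintro ⟨x, hx⟩ h
    apply Subtype.ext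
    exact no_four hm hns x (congrArg Subtype.val h)

theorem tors_congr {A B : Type} [AddCommGroup A] [AddCommGroup B] (e : A ≃+ B) :
    Nat.card (AddCommGroup.torsion A) = Nat.card (AddCommGroup.torsion B) := by
  refine Nat.card_congr
    { toFun := fun x => ⟨e x.1, ?_⟩
      invFun := fun x => ⟨e.symm x.1, ?_⟩
      left_inv := fun x => Subtype.ext (e.symm_apply_apply _)
      right_inv := fun x => Subtype.ext (e.apply_symm_apply _) }
  · have h1 : IsOfFinAddOrder x.1 := x.2
    exact (e : A →+ B).isOfFinAddOrder h1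
  · have h1 : IsOfFinAddOrder x.1 := x.2
    exact (e.symm : B →+ A).isOfFinAddOrder h1

/-- the order of the torsion subgroup, for the minimal equation -/
theorem tors_WN (h4 : m % 4 = 1) (hm : m < 0) (hns : ¬ IsSquare (-(m : ℚ))) :
    ∃ t : ℕ, Odd t ∧ Nat.card (AddCommGroup.torsion (WNQ m).toAffine.Point) = 4 * t := by
  obtain ⟨t, ht, h⟩ := tors_Em hm hns
  refine ⟨t, ht, ?_⟩
  rw [← h]
  exact tors_congr ((vr h4 ℚ).equiv (WN_Δ_ne h4 ℚ))

end Pool.Agent.N875.X15
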