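import Pool.Agent.N875.X15.Tor4
import Pool.Agent.N875.X15.Crit
import Pool.Agent.Z488.Coc
import Pool.Agent.Y210.Z702.LOT
import Pool.Agent.Z290.COB
import Pool.Agent.Z932.Z702.Trn
import Pool.Agent.Z894.LG

/-!
# The converse: `E_m(ℚ)` finite and `Ш[2] = 0` imply the criterion
-/

set_option autoImplicit false

namespace Pool.Agent.N875.X15

open Pool.Agent.Z702 (LocI WZ coc S_COC S_LOT S_COB S_TRN)
open Pool.Agent.TH841.SH.D (shaCoc cob Coch Sha cob_zero)

/-- points such that all the factors are squares -/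
lemma pt_all (p : ℕ) [hp : Fact p.Prime] (m : ℤ) : ∃ X Y r0 r1 r2 : ℚ_[p], X = r0 ^ 2 ∧
    X + 4 * m = r1 ^ 2 ∧ X + 64 * m = r2 ^ 2 ∧ Y = r0 * r1 * r2 ∧ r0 ≠ 0 ∧ r1 ≠ 0 ∧ r2 ≠ 0 := by
  obtain ⟨x, y, hy, hxy, ⟨r0, h0⟩, ⟨r1, h1⟩, ⟨r2, h2⟩⟩ :=
    Pool.Agent.TH841.SH.pt_pad p 0 (-4 * m) (-64 * m)
  push_cast at h0 h1 h2 hxy
  have hne : (x - 0) * (x - -4 * (m : ℚ_[p])) * (x - -64 * m) ≠ 0 := by
    rw [← hxy]; exact pow_ne_zero 2 hy
  refine ⟨x, r0 * r1 * r2, r0, r1, r2, ?_, ?_, ?_, rfl, ?_, ?_, ?_⟩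
  · linear_combination h0
  · linear_combination h1
  · linear_combination h2
  · rintro rfl
    rw [h0] at hne
    simp at hne
  · rintro rfl
    rw [h1] at hne
    simp at hne
  · rintro rfl
    rw [h2] at hne
    simp at hne

lemma sq15 : IsSquare ((1 : ℤ) : ZMod 5) := ⟨1, by decide⟩

lemma sq45 : IsSquare ((4 : ℤ) : ZMod 5) := ⟨2, by decide⟩

section loc

variable {p : ℕ} [hp : Fact p.Prime] {m d : ℤ}

lemma locI_sq (hd : d ≠ 0) (h : IsSquare (d : ℚ_[p])) :
    LocI ℚ_[p] (-34 * m) (225 * m ^ 2) d := by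
  obtain ⟨X, Y, r0, r1, r2, e0, e1, e2, eY, n0, n1, n2⟩ := pt_all p m
  obtain ⟨e, he⟩ := h
  have hd' : (d : ℚ_[p]) ≠ 0 := by exact_mod_cast hd
  have he0 : e ≠ 0 := by
    rintro rfl
    apply hd'
    rw [he, mul_zero]
  refine ⟨X, Y, r0 / e, by rw [e0]; exact pow_ne_zero 2 n0, ?_, ?_⟩
  · push_cast
    rw [eY, mul_pow, mul_pow, ← e0, ← e1, ← e2]
    ring
  · rw [e0, he]
    field_simp

lemma locI_neg (hm : m ≠ 0) (hd : d ≠ 0) (h : IsSquare ((d : ℚ_[p]) * (-m))) :
    LocI ℚ_[p] (-34 * m) (225 * m ^ 2) d := by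
  obtain ⟨X, Y, r0, r1, r2, e0, e1, e2, eY, n0, n1, n2⟩ := pt_all p m
  obtain ⟨e, he⟩ := h
  have hd' : (d : ℚ_[p]) ≠ 0 := by exact_mod_cast hd
  have hm' : (m : ℚ_[p]) ≠ 0 := by exact_mod_cast hm
  have he0 : e ≠ 0 := by
    rintro rfl
    rw [mul_zero] at he
    exact mul_ne_zero hd' (neg_ne_zero.2 hm') he
  have hr1 : r1 ^ 2 ≠ 0 := pow_ne_zero 2 n1
  refine ⟨-4 * m * (r2 / r1) ^ 2, 240 * m ^ 2 * Y / (r1 ^ 2) ^ 2, 2 * e * r2 / (d * r1),
    mul_ne_zero (mul_ne_zero (by norm_num) hm') (pow_ne_zero 2 (div_ne_zero n2 n1)), ?_, ?_⟩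
  · push_cast
    rw [eY]
    have h1 : (4 : ℚ_[p]) * m = r1 ^ 2 - r0 ^ 2 := by rw [← e1, e0]; ring
    have h2 : r2 ^ 2 = r0 ^ 2 + 64 * m := by rw [← e2, e0]
    have h3 : r1 ^ 2 = r0 ^ 2 + 4 * m := by rw [← e1, e0]
    have h4 : (240 * (m : ℚ_[p]) ^ 2 * (r0 * r1 * r2) / (r1 ^ 2) ^ 2) ^ 2 =
        57600 * (m : ℚ_[p]) ^ 4 * r0 ^ 2 * r2 ^ 2 / (r1 ^ 2) ^ 3 := by
      field_simp
      ring
    have h5 : -4 * (m : ℚ_[p]) * (r2 / r1) ^ 2 = -4 * m * r2 ^ 2 / r1 ^ 2 := by
      rw [div_pow]; ring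
    rw [h4, h5, h2]
    have hr1' : r0 ^ 2 + 4 * (m : ℚ_[p]) ≠ 0 := by rw [← h3]; exact hr1
    rw [h3]
    field_simp
    ring
  · have h1 : -4 * (m : ℚ_[p]) * (r2 / r1) ^ 2 = 4 * (e * e) * r2 ^ 2 / (d * r1 ^ 2) := by
      rw [← he, div_pow]
      field_simp
    rw [h1]
    field_simp
    ring

/-- squares in `ℚ_[p]` from squares modulo `p` -/
lemma sq_of_zmod (hp2 : p ≠ 2) {n : ℤ} (hn : ¬ (p : ℤ) ∣ n) (h : IsSquare ((n : ℤ) : ZMod p)) :
    IsSquare (n : ℚ_[p]) := by
  obtain ⟨t, ht⟩ := h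
  have ht0 : t ≠ 0 := by
    rintro rfl
    rw [mul_zero] at ht
    exact hn ((ZMod.intCast_zmod_eq_zero_iff_dvd n p).1 ht)
  set s : ℤ := (t.val : ℤ) with hs
  have hst : ((s : ℤ) : ZMod p) = t := by
    rw [hs]
    simp
  have hns : ¬ (p : ℤ) ∣ s := by
    intro h1
    apply ht0
    rw [← hst]
    exact (ZMod.intCast_zmod_eq_zero_iff_dvd s p).2 h1
  have hdv : (p : ℤ) ∣ n - s * s := by
    apply (ZMod.intCast_zmod_eq_zero_iff_dvd (n - s * s) p).1
    push_cast at ht hst ⊢
    rw [ht, hst, sub_self]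
  have hs0 : ((s * s : ℤ) : ℚ_[p]) ≠ 0 := by
    have h1 : s ≠ 0 := by rintro h1; rw [h1] at hns; exact hns (dvd_zero _)
    exact_mod_cast mul_ne_zero h1 h1
  have h1 : ‖((n : ℤ) : ℚ_[p]) - ((s * s : ℤ) : ℚ_[p])‖ < ‖((s * s : ℤ) : ℚ_[p])‖ := by
    have e1 : ‖((s * s : ℤ) : ℚ_[p])‖ = 1 := by
      refine le_antisymm (Padic.norm_int_le_one _) ?_
      rw [← not_lt, Padic.norm_intCast_lt_one_iff]
      intro h2
      rcases (Nat.prime_iff_prime_int.1 hp.out).dvd_or_dvd h2 with h3 | h3 <;> exact hns h3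
    rw [e1, ← Int.cast_sub, Padic.norm_intCast_lt_one_iff]
    exact hdv
  have h2 := (close hp2 hs0 h1).1
  rw [mul_comm] at h2
  refine sq_cancel hs0 ⟨(s : ℚ_[p]), by push_cast; ring⟩ h2

end loc

/-- **All the local conditions**, `m ≡ 1 mod 4`. -/
theorem loc_all {m d : ℤ} (hm : Cls m) (h4 : m % 4 = 1) (hd : 0 < d)
    (hsup : ∀ p : ℕ, p.Prime → (p : ℤ) ∣ d → (p : ℤ) ∣ m)
    (hloc : ∀ (p : ℕ) [Fact p.Prime], p ≠ 2 → (p : ℤ) ∣ m →
      IsSquare (d : ℚ_[p]) ∨ IsSquare ((d : ℚ_[p]) * (-m))) :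
    (∀ (p : ℕ) [Fact p.Prime], LocI ℚ_[p] (-34 * m) (225 * m ^ 2) d) ∧
      LocI ℝ (-34 * m) (225 * m ^ 2) d := by
  have hm0 : m ≠ 0 := hm.neg.ne
  have hb0 : (225 * m ^ 2 : ℤ) ≠ 0 := mul_ne_zero (by norm_num) (pow_ne_zero 2 hm0)
  have hc : (-34 * m) ^ 2 - 4 * (225 * m ^ 2) = 256 * m ^ 2 := by ring
  refine ⟨fun p hp => ?_, ?_⟩
  · by_cases hp2 : p = 2
    · subst hp2
      have hdo : ¬ (2 : ℤ) ∣ d := by
        intro h
        have := hsup 2 Nat.prime_two (by exact_mod_cast h)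
        have h2 : (2 : ℤ) ∣ m := by exact_mod_cast this
        omega
      have sq8 : ∀ n : ℤ, n % 8 = 1 → IsSquare (n : ℚ_[2]) := by
        intro n hn
        have h1 : PadicInt.toZModPow (p := 2) 3 (n : ℤ_[2]) = 1 := by
          rw [map_intCast]
          have h2 : ((8 : ℕ) : ℤ) ∣ n - 1 := by push_cast; omega
          have h3 := (ZMod.intCast_zmod_eq_zero_iff_dvd (n - 1) 8).2 h2
          push_cast at h3
          exact sub_eq_zero.1 h3
        have h2 := sq_of_mod8 _ h1
        simpa using h2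
      have hm' : (m : ℚ_[2]) ≠ 0 := by exact_mod_cast hm0
      have hd' : (d : ℚ_[2]) ≠ 0 := by exact_mod_cast hd.ne'
      have h4m : ((4 - m : ℤ) : ℚ_[2]) ≠ 0 := by
        have : (4 - m : ℤ) ≠ 0 := by omega
        exact_mod_cast this
      -- the special point
      obtain ⟨w, hw⟩ := sq8 ((4 - m) * (4 + 15 * m)) (by
        have e : (4 - m) * (4 + 15 * m) = 16 + 56 * m - 15 * (m * m) := by ring
        have h5 : m % 8 = 1 ∨ m % 8 = 5 := by omega
        have h6 : m * m % 8 = 1 := by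
          rw [Int.mul_emod]
          rcases h5 with h | h <;> rw [h] <;> norm_num
        rw [e]
        omega)
      push_cast at hw h4m
      have h15 : (4 + 15 * (m : ℚ_[2])) ≠ 0 := by
        have : (4 + 15 * m : ℤ) ≠ 0 := by omega
        exact_mod_cast this
      have cases4 : d % 8 = 1 ∨ (d * -m) % 8 = 1 ∨ (d * (4 - m)) % 8 = 1 ∨
          (d * (-m * (4 - m))) % 8 = 1 := by
        have h5 : m % 8 = 1 ∨ m % 8 = 5 := by omega
        have h6 : d % 8 = 1 ∨ d % 8 = 3 ∨ d % 8 = 5 ∨ d % 8 = 7 := by omega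
        have hd8 : d ≡ d % 8 [ZMOD 8] := (Int.mod_modEq d 8).symm
        have hm8 : m ≡ m % 8 [ZMOD 8] := (Int.mod_modEq m 8).symm
        have h48 : 4 - m ≡ 4 - m % 8 [ZMOD 8] := (Int.ModEq.refl 4).sub hm8
        have e1 : (d * -m) % 8 = ((d % 8) * (-(m % 8))) % 8 := hd8.mul hm8.neg
        have e2 : (d * (4 - m)) % 8 = ((d % 8) * ((4 - m % 8))) % 8 := hd8.mul h48
        have e3 : (d * (-m * (4 - m))) % 8 = ((d % 8) * ((-(m % 8)) * (4 - m % 8))) % 8 :=
          hd8.mul (hm8.neg.mul h48)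
        rw [e1, e2, e3]
        rcases h5 with h5 | h5 <;> rcases h6 with h6 | h6 | h6 | h6 <;> rw [h5, h6] <;> norm_num
      rcases cases4 with h | h | h | h
      · exact locI_sq hd.ne' (sq8 _ h)
      · refine locI_neg hm0 hd.ne' ?_
        have := sq8 _ h
        push_cast at this
        exact this
      · obtain ⟨e, he⟩ := sq8 _ h
        push_cast at he
        have he0 : e ≠ 0 := by
          rintro rfl
          rw [mul_zero] at he
          exact mul_ne_zero hd' h4m he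
        refine ⟨4 * (4 - m), 16 * w, 2 * e / d, mul_ne_zero (by norm_num) h4m, ?_, ?_⟩
        · push_cast
          have : (16 * w) ^ 2 = 256 * (w * w) := by ring
          rw [this, ← hw]
          ring
        · have : (d : ℚ_[2]) * (2 * e / d) ^ 2 = 4 * (e * e) / d := by
            field_simp
            ring
          rw [this, ← he]
          field_simp
      · obtain ⟨e, he⟩ := sq8 _ h
        push_cast at he
        have he0 : e ≠ 0 := by
          rintro rfl
          rw [mul_zero] at he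
          exact mul_ne_zero hd' (mul_ne_zero (neg_ne_zero.2 hm') h4m) he
        refine ⟨-m * (4 + 15 * m), 15 * m ^ 2 * w, w * e / (d * (4 - m)),
          mul_ne_zero (neg_ne_zero.2 hm') h15, ?_, ?_⟩
        · push_cast
          have : (15 * (m : ℚ_[2]) ^ 2 * w) ^ 2 = 225 * m ^ 4 * (w * w) := by ring
          rw [this, ← hw]
          ring
        · have : (d : ℚ_[2]) * (w * e / (d * (4 - m))) ^ 2 =
              (w * w) * (e * e) / (d * (4 - m) ^ 2) := by
            field_simp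
          rw [this, ← he, ← hw]
          field_simp
    · by_cases hpm : (p : ℤ) ∣ m
      · rcases hloc p hp2 hpm with h | h
        · exact locI_sq hd.ne' h
        · exact locI_neg hm0 hd.ne' h
      · have hpd : ¬ (p : ℤ) ∣ d := fun h => hpm (hsup p hp.out h)
        by_cases hsq : IsSquare ((d : ℤ) : ZMod p)
        · exact locI_sq hd.ne' (sq_of_zmod hp2 hpd hsq)
        · by_cases hsq' : IsSquare (((d * -m : ℤ)) : ZMod p)
          · refine locI_neg hm0 hd.ne' ?_
            have h1 : ¬ (p : ℤ) ∣ d * -m := by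
              intro h
              rcases (Nat.prime_iff_prime_int.1 hp.out).dvd_or_dvd h with h3 | h3
              · exact hpd h3
              · exact hpm (by rwa [dvd_neg] at h3)
            have := sq_of_zmod hp2 h1 hsq'
            push_cast at this
            exact this
          · -- the primes of good reduction
            have hp3 : p ≠ 3 := by
              rintro rfl
              have h1 : m % 3 = 1 := by
                have := hm.m3
                have h12 : m % 3 ≠ 0 := fun h => hpm (Int.dvd_of_emod_eq_zero h)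
                omega
              have h2 : d % 3 = 1 ∨ d % 3 = 2 := by
                have h12 : d % 3 ≠ 0 := fun h => hpd (Int.dvd_of_emod_eq_zero h)
                omega
              rcases h2 with h2 | h2
              · apply hsq
                refine ⟨1, ?_⟩
                have h3 : ((3 : ℕ) : ℤ) ∣ d - 1 := by push_cast; omega
                have h4 := (ZMod.intCast_zmod_eq_zero_iff_dvd (d - 1) 3).2 h3
                push_cast at h4
                rw [mul_one]
                exact sub_eq_zero.1 h4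
              · apply hsq'
                refine ⟨1, ?_⟩
                have h3 : ((3 : ℕ) : ℤ) ∣ d * -m - 1 := by
                  push_cast
                  have h5 : (d * -m) % 3 = 1 := by
                    rw [Int.mul_emod, h2]
                    have : (-m) % 3 = 2 := by omega
                    rw [this]
                    norm_num
                  omega
                have h4 := (ZMod.intCast_zmod_eq_zero_iff_dvd (d * -m - 1) 3).2 h3
                rw [mul_one]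
                have h5 : ((d * -m - 1 : ℤ) : ZMod 3) = ((d * -m : ℤ) : ZMod 3) - 1 := by
                  push_cast; ring
                rw [h5] at h4
                exact sub_eq_zero.1 h4
            have hp5 : p ≠ 5 := by
              rintro rfl
              have h1 : m % 5 = 2 ∨ m % 5 = 3 := by
                rcases hm.m5 with h | h | h
                · exact absurd (Int.dvd_of_emod_eq_zero h) hpm
                · exact Or.inl h
                · exact Or.inr h
              have h2 : d % 5 ≠ 0 := fun h => hpd (Int.dvd_of_emod_eq_zero h)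
              have key : ∀ (k e : ℤ), (k - e) % 5 = 0 → ((k : ℤ) : ZMod 5) = (e : ZMod 5) := by
                intro k e h
                have h3 : ((5 : ℕ) : ℤ) ∣ k - e := by push_cast; exact Int.dvd_of_emod_eq_zero h
                have h4 := (ZMod.intCast_zmod_eq_zero_iff_dvd (k - e) 5).2 h3
                push_cast at h4
                exact sub_eq_zero.1 h4
              have sq1 : IsSquare ((1 : ℤ) : ZMod 5) := sq15
              have sq4 : IsSquare ((4 : ℤ) : ZMod 5) := sq45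
              have h3 : d % 5 = 1 ∨ d % 5 = 4 ∨ d % 5 = 2 ∨ d % 5 = 3 := by omega
              rcases h3 with h3 | h3 | h3
              · apply hsq
                rw [key d 1 (by omega)]
                exact sq1
              · apply hsq
                rw [key d 4 (by omega)]
                exact sq4
              · apply hsq'
                have h5 : (d * -m) % 5 = 1 ∨ (d * -m) % 5 = 4 := by
                  have h6 : (-m) % 5 = 2 ∨ (-m) % 5 = 3 := by omega
                  rw [Int.mul_emod]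
                  rcases h3 with h3 | h3 <;> rcases h6 with h6 | h6 <;> rw [h3, h6] <;> norm_num
                rcases h5 with h5 | h5
                · rw [key (d * -m) 1 (by omega)]
                  exact sq1
                · rw [key (d * -m) 4 (by omega)]
                  exact sq4
            have hpr : Prime (p : ℤ) := Nat.prime_iff_prime_int.1 hp.out
            have hz : ∀ n : ℤ, ¬ (p : ℤ) ∣ n → ((n : ℤ) : ZMod p) ≠ 0 := fun n hn h =>
              hn ((ZMod.intCast_zmod_eq_zero_iff_dvd n p).1 h)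
            have hb : ((225 * m ^ 2 : ℤ) : ZMod p) ≠ 0 := by
              apply hz
              intro h
              rcases hpr.dvd_or_dvd h with h3 | h3
              · have e : (225 : ℤ) = 3 ^ 2 * 5 ^ 2 := by norm_num
                rw [e] at h3
                rcases hpr.dvd_or_dvd h3 with h5 | h5
                · exact not_dvd_of_prime Nat.prime_three hp3 (hpr.dvd_of_dvd_pow h5)
                · exact not_dvd_of_prime Nat.prime_five hp5 (hpr.dvd_of_dvd_pow h5)
              · exact hpm (hpr.dvd_of_dvd_pow h3)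
            refine Pool.Agent.Z894.LG.aux p (-34 * m) (225 * m ^ 2) d hp2 hb ?_ hd.ne' ?_
            · have e : (((-34 * m : ℤ) : ZMod p)) ^ 2 - 4 * ((225 * m ^ 2 : ℤ) : ZMod p) =
                  (16 * (m : ZMod p)) ^ 2 := by
                push_cast; ring
              rw [e]
              apply quadraticChar_sq_one'
              have h16 : ¬ (p : ℤ) ∣ 16 * m := by
                intro h
                rcases hpr.dvd_or_dvd h with h3 | h3
                · have e : (16 : ℤ) = 2 ^ 4 := by norm_num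
                  rw [e] at h3
                  exact not_dvd_of_prime Nat.prime_two hp2 (hpr.dvd_of_dvd_pow h3)
                · exact hpm h3
              have := hz _ h16
              push_cast at this
              exact this
            · rcases quadraticChar_dichotomy (hz d hpd) with h | h
              · exfalso
                exact hsq ((quadraticChar_one_iff_isSquare (hz d hpd)).1 h)
              · exact h
  · -- the real place
    obtain ⟨x, y, hy, hxy, ⟨r0, h0⟩, -, -⟩ := Pool.Agent.TH841.SH.pt_real 0 (-4 * m) (-64 * m)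
    push_cast at h0 hxy
    have hne : (x - 0) * (x - -4 * (m : ℝ)) * (x - -64 * m) ≠ 0 := by
      rw [← hxy]; exact pow_ne_zero 2 hy
    have hx0 : x ≠ 0 := by
      rintro rfl
      simp at hne
    have hx1 : x = r0 * r0 := by linear_combination h0
    have hdR : (0 : ℝ) < d := by exact_mod_cast hd
    refine ⟨x, y, r0 / Real.sqrt d, hx0, ?_, ?_⟩
    · rw [hxy]
      push_cast
      ring
    · rw [div_pow, Real.sq_sqrt hdR.le, hx1]
      field_simp

/-- a nontrivial element of `Ш[2]` from an everywhere locally trivial class -/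
theorem sha_ex15 {m d : ℤ} (hm : m < 0) (hns : ¬ IsSquare (-(m : ℚ))) (hd : d ≠ 0)
    (n1 : ¬ IsSquare (d : ℚ)) (n2 : ¬ IsSquare ((d : ℚ) * (-m)))
    (hl : ∀ (p : ℕ) [Fact p.Prime], LocI ℚ_[p] (-34 * m) (225 * m ^ 2) d)
    (hr : LocI ℝ (-34 * m) (225 * m ^ 2) d)
    (hf : Finite (WZ (-34 * m) (225 * m ^ 2)).toAffine.Point) :
    ∃ x : Sha (WZ (-34 * m) (225 * m ^ 2)), x ≠ 0 ∧ x + x = 0 := by
  have hm0 : m ≠ 0 := hm.ne
  have hb : (225 * m ^ 2 : ℤ) ≠ 0 := mul_ne_zero (by norm_num) (pow_ne_zero 2 hm0)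
  have hab : (-34 * m) ^ 2 - 4 * (225 * m ^ 2) ≠ 0 := by
    have : (-34 * m) ^ 2 - 4 * (225 * m ^ 2) = 256 * m ^ 2 := by ring
    rw [this]
    exact mul_ne_zero (by norm_num) (pow_ne_zero 2 hm0)
  have h1 : S_COC := Pool.Agent.Z488.t_COC
  have h2 : S_LOT := Pool.Agent.Y210.Z702.t_LOT
  have h3 : S_COB := Pool.Agent.Z290.COBf.t_COB
  have hc : coc hb d ∈ shaCoc (WZ (-34 * m) (225 * m ^ 2)) := ⟨(h1 _ _ hb d).1,
    fun p _ => h2 _ _ hb d hab hd ℚ_[p] (hl p), h2 _ _ hb d hab hd ℝ hr⟩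
  let N : AddSubgroup (shaCoc (WZ (-34 * m) (225 * m ^ 2))) :=
    (cob (WZ (-34 * m) (225 * m ^ 2))).addSubgroupOf (shaCoc (WZ (-34 * m) (225 * m ^ 2)))
  let y : shaCoc (WZ (-34 * m) (225 * m ^ 2)) := ⟨coc hb d, hc⟩
  refine ⟨(QuotientAddGroup.mk y : shaCoc (WZ (-34 * m) (225 * m ^ 2)) ⧸ N), ?_, ?_⟩
  · intro h0
    have h0' : (QuotientAddGroup.mk y : shaCoc (WZ (-34 * m) (225 * m ^ 2)) ⧸ N) = 0 := h0
    rw [QuotientAddGroup.eq_zero_iff, AddSubgroup.mem_addSubgroupOf] at h0'
    rcases h3 _ _ hb d hab hd h0' with h | h | h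
    · exact n1 h
    · apply n1
      obtain ⟨r, hr'⟩ := h
      have hm' : (m : ℚ) ≠ 0 := by exact_mod_cast hm0
      refine ⟨r / (16 * m), ?_⟩
      push_cast at hr'
      field_simp
      linear_combination hr'
    · rcases tor4 hm hns hf h with h | h
      · exact n1 h
      · exact n2 h
  · have h5 : (QuotientAddGroup.mk (y + y) : shaCoc (WZ (-34 * m) (225 * m ^ 2)) ⧸ N) = 0 := by
      rw [QuotientAddGroup.eq_zero_iff, AddSubgroup.mem_addSubgroupOf]
      have h6 : ((y + y : shaCoc (WZ (-34 * m) (225 * m ^ 2))) :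
          Coch (WZ (-34 * m) (225 * m ^ 2))) = 0 := (h1 _ _ hb d).2
      rw [h6]
      exact cob_zero _
    exact h5

/-- transport to the curve `E_m` -/
theorem trnE {m : ℤ} (hm : m ≠ 0) :
    (Finite (WZ (-34 * m) (225 * m ^ 2)).toAffine.Point ↔ Finite (EQm m).toAffine.Point) ∧
    ((∀ x : Sha (WZ (-34 * m) (225 * m ^ 2)), x + x = 0 → x = 0) ↔
      ∀ x : Sha (EQm m), x + x = 0 → x = 0) := by
  have hmQ : (m : ℚ) ≠ 0 := by exact_mod_cast hm
  have hv : Pool.Agent.Y700.VR (WZ (-34 * m) (225 * m ^ 2)) (EQm m) 1 (9 * m) 0 0 := by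
    refine ⟨one_ne_zero, ?_, ?_, ?_, ?_, ?_⟩
    · show (1 : ℚ) * (((0 : ℤ)) : ℚ) = 0 + 2 * 0
      norm_num
    · show (1 : ℚ) ^ 2 * (((-7 * m : ℤ)) : ℚ) = ((-34 * m : ℤ) : ℚ) - 0 * 0 + 3 * (9 * m) - 0 ^ 2
      push_cast
      ring
    · show (1 : ℚ) ^ 3 * (((0 : ℤ)) : ℚ) = 0 + (9 * m) * 0 + 2 * 0
      norm_num
    · show (1 : ℚ) ^ 4 * (((-144 * m ^ 2 : ℤ)) : ℚ) = ((225 * m ^ 2 : ℤ) : ℚ) - 0 * 0 +
        2 * (9 * m) * ((-34 * m : ℤ) : ℚ) - (0 + 9 * m * 0) * 0 + 3 * (9 * m) ^ 2 - 2 * 0 * 0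
      push_cast
      ring
    · show (1 : ℚ) ^ 6 * (((0 : ℤ)) : ℚ) = 0 + (9 * m) * ((225 * m ^ 2 : ℤ) : ℚ) +
        (9 * m) ^ 2 * ((-34 * m : ℤ) : ℚ) + (9 * m) ^ 3 - 0 * 0 - 0 ^ 2 - (9 * m) * 0 * 0
      push_cast
      ring
  have hT : S_TRN := Pool.Agent.Z932.Z702.t_TRN
  obtain ⟨h1, h2, -⟩ := hT _ _ _ _ _ _ hv (by
    rw [WeierstrassCurve.map_Δ]
    have e : (Em m).Δ = 2 ^ 12 * 3 ^ 4 * 5 ^ 4 * m ^ 6 := by
      simp only [Em, WeierstrassCurve.Δ, WeierstrassCurve.b₂, WeierstrassCurve.b₄,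
        WeierstrassCurve.b₆, WeierstrassCurve.b₈]
      ring
    have h0 : (Em m).Δ ≠ 0 := by
      rw [e]
      exact mul_ne_zero (by norm_num) (pow_ne_zero 6 hm)
    show (((Em m).Δ : ℤ) : ℚ) ≠ 0
    exact_mod_cast h0)
  exact ⟨h1, h2⟩

/-- **The converse**, `m ≡ 1 mod 4`. -/
theorem nc_of_fin {m : ℤ} (hm : Cls m) (h4 : m % 4 = 1) (hf : Finite (EQm m).toAffine.Point)
    (hs : ∀ x : Sha (EQm m), x + x = 0 → x = 0) : NC m := by
  intro d hd hds hsup hloc
  by_contra hcon
  push Not at hcon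
  have hm0 : m ≠ 0 := hm.neg.ne
  have hsup' : ∀ p : ℕ, p.Prime → (p : ℤ) ∣ d → (p : ℤ) ∣ m := by
    intro p hp hpd
    rcases hsup p hp hpd with h | h
    · exact h
    · omega
  obtain ⟨l1, l2⟩ := loc_all hm h4 hd hsup' hloc
  -- squares of rational numbers
  have sqz : ∀ n : ℤ, Squarefree n → IsSquare (n : ℚ) → n = 1 := by
    intro n hn hsq
    rw [Rat.isSquare_intCast_iff] at hsq
    obtain ⟨r, hr⟩ := hsq
    have h1 : IsUnit r := hn r ⟨1, by rw [hr]; ring⟩
    rcases Int.isUnit_iff.1 h1 with h | h <;> rw [hr, h] <;> norm_num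
  have hsn : Squarefree (-m) := fun x hx => hm.sqf x (by rwa [dvd_neg] at hx)
  have hns : ¬ IsSquare (-(m : ℚ)) := by
    intro h
    have h1 := sqz (-m) hsn (by push_cast; exact h)
    have := hm.m3
    omega
  have n1 : ¬ IsSquare (d : ℚ) := fun h => hcon.1 (sqz d hds h)
  have hdm : d ∣ m := by
    have h1 : d.natAbs ∣ m.natAbs := dvd_of_primes (Int.squarefree_natAbs.2 hds) (fun p hp hpd =>
      Int.natCast_dvd.1 (hsup' p hp (Int.natCast_dvd.2 hpd)))
    exact Int.natAbs_dvd_natAbs.1 h1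
  have n2 : ¬ IsSquare ((d : ℚ) * (-m)) := by
    intro h
    obtain ⟨c, hc⟩ := hdm
    have hd' : (d : ℚ) ≠ 0 := by exact_mod_cast hd.ne'
    have h1 : IsSquare (((-c : ℤ)) : ℚ) := by
      have e : (d : ℚ) * (-m) = (d * d) * (((-c : ℤ)) : ℚ) := by
        rw [hc]; push_cast; ring
      rw [e] at h
      exact sq_cancel (mul_ne_zero hd' hd') (IsSquare.mul_self _) h
    have hcs : Squarefree (-c) := by
      intro x hx
      refine hm.sqf x ?_
      rw [hc]
      rw [dvd_neg] at hx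
      exact hx.mul_left d
    have h2 := sqz _ hcs h1
    apply hcon.2
    have : c = -1 := by omega
    rw [hc, this]
    ring
  obtain ⟨t1, t2⟩ := trnE hm0
  obtain ⟨x, hx, hxx⟩ := sha_ex15 hm.neg hns hd.ne' n1 n2 (fun p _ => l1 p) l2 (t1.2 hf)
  exact hx (t2.2 hs x hxx)

end Pool.Agent.N875.X15
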