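import Pool.Agent.N875.X15.Trans

/-!
# No nontrivial ramified norm implies no nontrivial decomposition of the second kind
-/

set_option autoImplicit false

namespace Pool.Agent.N875.X15

open Finset

/-- the transposition for sets of natural numbers -/
theorem transN (P : Finset ℕ) (hP : P.Nonempty) (R : ℕ → ℕ → ZMod 2) (S0 : Finset ℕ)
    (h : ∀ S : Finset ℕ, S ⊆ P → (∀ q ∈ P, q ∉ S → ∑ p ∈ S, R q p = 0) →
      (∀ q ∈ S, ∑ p ∈ P.erase q, R p q + ∑ p ∈ S.erase q, R q p = 0) → S = ∅ ∨ S = S0)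
    (S : Finset ℕ) (hS : S ⊆ P) (h1 : ∀ q ∈ P, q ∉ S → ∑ p ∈ S, R p q = 0)
    (h2 : ∀ q ∈ S, ∑ p ∈ P \ S, R p q = 0) : S = ∅ ∨ S = P := by
  classical
  obtain ⟨p0, hp0⟩ := hP
  have hne : Nonempty {p // p ∈ P} := ⟨⟨p0, hp0⟩⟩
  set em : {p // p ∈ P} ↪ ℕ := Function.Embedding.subtype _ with hem
  have emv : ∀ p : {p // p ∈ P}, em p = p.1 := fun p => rfl
  have mem : ∀ (s : Finset {p // p ∈ P}) (q : {p // p ∈ P}), q.1 ∈ s.map em ↔ q ∈ s := by
    intro s q
    rw [← emv, Finset.mem_map' em]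
  have sub : ∀ s : Finset {p // p ∈ P}, s.map em ⊆ P := by
    intro s p hp
    obtain ⟨q, -, rfl⟩ := Finset.mem_map.1 hp
    exact q.2
  have huniv : (univ : Finset {p // p ∈ P}).map em = P := by
    ext p
    rw [Finset.mem_map]
    constructor
    · rintro ⟨q, -, rfl⟩
      exact q.2
    · intro hp
      exact ⟨⟨p, hp⟩, Finset.mem_univ _, rfl⟩
  have hsum : ∀ (s : Finset {p // p ∈ P}) (f : ℕ → ZMod 2), ∑ p ∈ s, f p.1 = ∑ p ∈ s.map em, f p := by
    intro s f
    rw [Finset.sum_map]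
    rfl
  have key := transA (fun p q : {p // p ∈ P} => R p.1 q.1) (S0.subtype (· ∈ P)) (fun s c1 c2 => by
    rcases h (s.map em) (sub s) (fun q hq hqs => by
        have h3 := c1 ⟨q, hq⟩ (fun h4 => hqs ((mem s ⟨q, hq⟩).2 h4))
        rw [hsum s (fun p => R q p)] at h3
        exact h3) (fun q hq => by
        obtain ⟨q', hq', rfl⟩ := Finset.mem_map.1 hq
        have h3 := c2 q' hq'
        rw [hsum (univ.erase q') (fun p => R p q'.1), hsum (s.erase q') (fun p => R q'.1 p),
          Finset.map_erase, Finset.map_erase, huniv] at h3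
        exact h3) with h3 | h3
    · left
      exact Finset.map_eq_empty.1 h3
    · right
      ext p
      rw [Finset.mem_subtype, ← h3, mem])
  have hSm : (S.subtype (· ∈ P)).map em = S := by
    ext p
    rw [Finset.mem_map]
    constructor
    · rintro ⟨q, hq, rfl⟩
      exact Finset.mem_subtype.1 hq
    · intro hp
      exact ⟨⟨p, hS hp⟩, Finset.mem_subtype.2 hp, rfl⟩
  rcases key (S.subtype (· ∈ P)) (fun q hq => by
      rw [hsum _ (fun p => R p q.1), hSm]
      exact h1 q.1 q.2 (fun h3 => hq (Finset.mem_subtype.2 h3))) (fun q hq => by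
      rw [hsum _ (fun p => R p q.1), Finset.compl_eq_univ_sdiff, Finset.map_sdiff, huniv, hSm]
      exact h2 q.1 (Finset.mem_subtype.1 hq)) with h3 | h3
  · left
    rw [← hSm, h3, Finset.map_empty]
  · right
    rw [← hSm, h3, huniv]

/-! ### signed odd parts -/

/-- the odd part with the sign such that it is `1 mod 4` -/
def oe (d : ℤ) : ℤ := ∏ p ∈ d.natAbs.primeFactors.erase 2, sgp p

lemma odd_pf {d : ℤ} {p : ℕ} (h : p ∈ d.natAbs.primeFactors.erase 2) :
    p.Prime ∧ p ≠ 2 ∧ (p : ℤ) ∣ d := by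
  obtain ⟨h1, h2⟩ := Finset.mem_erase.1 h
  obtain ⟨h3, h4, -⟩ := Nat.mem_primeFactors.1 h2
  exact ⟨h3, h1, Int.natCast_dvd.2 h4⟩

lemma oe_mod (d : ℤ) : oe d % 4 = 1 := by
  rw [← gd_two]
  refine gd_prod Nat.prime_two _ _ fun p hp => ?_
  rw [gd_two]
  exact sgp_mod (odd_pf hp).1 (odd_pf hp).2.1

lemma prod_abs (s : Finset ℕ) : (∏ p ∈ s, sgp p).natAbs = ∏ p ∈ s, p := by
  classical
  induction s using Finset.induction_on with
  | empty => rfl
  | insert a s ha ih => rw [Finset.prod_insert ha, Finset.prod_insert ha, Int.natAbs_mul, ih, sgp_abs]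

/-- the decomposition -/
theorem oe_cases {d : ℤ} (hd : Squarefree d) :
    (¬ (2 : ℤ) ∣ d ∧ (d = oe d ∨ d = -oe d)) ∨ ((2 : ℤ) ∣ d ∧ (d = 2 * oe d ∨ d = -2 * oe d)) := by
  have h1 : ∏ p ∈ d.natAbs.primeFactors, p = d.natAbs :=
    Nat.prod_primeFactors_of_squarefree (Int.squarefree_natAbs.2 hd)
  have hab : (oe d).natAbs = ∏ p ∈ d.natAbs.primeFactors.erase 2, p := prod_abs _
  by_cases h2 : (2 : ℤ) ∣ d
  · right
    refine ⟨h2, ?_⟩
    have h3 : 2 ∈ d.natAbs.primeFactors := Nat.mem_primeFactors.2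
      ⟨Nat.prime_two, by
        have h4 : ((2 : ℕ) : ℤ) ∣ d := h2
        exact Int.natCast_dvd.1 h4, Int.natAbs_ne_zero.2 hd.ne_zero⟩
    rw [← Finset.mul_prod_erase _ _ h3, ← hab] at h1
    omega
  · left
    refine ⟨h2, ?_⟩
    have h3 : 2 ∉ d.natAbs.primeFactors := by
      intro h4
      apply h2
      have h5 := (Nat.mem_primeFactors.1 h4).2.1
      have h6 : ((2 : ℕ) : ℤ) ∣ d := Int.natCast_dvd.2 h5
      exact h6
    rw [← Finset.erase_eq_of_notMem h3, ← hab] at h1
    omega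

/-- the ramified primes -/
def PR (m : ℤ) : Finset ℕ := (if m % 4 = 1 then m.natAbs else 2 * m.natAbs).primeFactors

lemma mem_PR {m : ℤ} (hm : m ≠ 0) {p : ℕ} : p ∈ PR m ↔ p.Prime ∧ Ram m p := by
  unfold PR Ram
  have h0 : m.natAbs ≠ 0 := Int.natAbs_ne_zero.2 hm
  by_cases h : m % 4 = 1
  · rw [if_pos h, Nat.mem_primeFactors, ← Int.natCast_dvd]
    constructor
    · rintro ⟨h1, h2, -⟩
      exact ⟨h1, Or.inl h2⟩
    · rintro ⟨h1, h2 | h2⟩
      · exact ⟨h1, h2, h0⟩
      · exact absurd h h2.2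
  · rw [if_neg h, Nat.mem_primeFactors]
    constructor
    · rintro ⟨h1, h2, -⟩
      refine ⟨h1, ?_⟩
      rcases h1.dvd_mul.1 h2 with h3 | h3
      · exact Or.inr ⟨(Nat.prime_dvd_prime_iff_eq h1 Nat.prime_two).1 h3, h⟩
      · exact Or.inl (Int.natCast_dvd.2 h3)
    · rintro ⟨h1, h2 | h2⟩
      · exact ⟨h1, (Int.natCast_dvd.1 h2).mul_left _, by omega⟩
      · exact ⟨h1, by rw [h2.1]; exact Nat.dvd_mul_right _ _, by omega⟩

/-- the part at `2` of the discriminant -/
def d2 (m : ℤ) : ℤ := m / oe m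

lemma d2_spec {m : ℤ} (hm : Squarefree m) : m = d2 m * oe m ∧
    ((¬ (2 : ℤ) ∣ m ∧ (d2 m = 1 ∨ d2 m = -1)) ∨ ((2 : ℤ) ∣ m ∧ (d2 m = 2 ∨ d2 m = -2))) := by
  have h0 : oe m ≠ 0 := by
    have := oe_mod m
    intro h
    rw [h] at this
    norm_num at this
  have key : ∀ c : ℤ, m = c * oe m → d2 m = c := by
    intro c hc
    have e : m / oe m = c * oe m / oe m := by rw [← hc]
    unfold d2
    rw [e]
    exact Int.mul_ediv_cancel c h0
  rcases oe_cases hm with ⟨h2, h | h⟩ | ⟨h2, h | h⟩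
  · have e := key 1 (by rw [one_mul]; exact h)
    exact ⟨by rw [e, one_mul]; exact h, Or.inl ⟨h2, Or.inl e⟩⟩
  · have e := key (-1) (by rw [neg_one_mul]; exact h)
    exact ⟨by rw [e, neg_one_mul]; exact h, Or.inl ⟨h2, Or.inr e⟩⟩
  · have e := key 2 h
    exact ⟨by rw [e]; exact h, Or.inr ⟨h2, Or.inl e⟩⟩
  · have e := key (-2) h
    exact ⟨by rw [e]; exact h, Or.inr ⟨h2, Or.inr e⟩⟩

/-- the generators -/
def ps (m : ℤ) (p : ℕ) : ℤ := if p = 2 then d2 m else sgp p

lemma ps_odd {m : ℤ} {p : ℕ} (h : p ≠ 2) : ps m p = sgp p := if_neg h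

lemma ps_two {m : ℤ} : ps m 2 = d2 m := if_pos rfl

/-- products of the generators -/
lemma prod_ps (m : ℤ) (S : Finset ℕ) :
    ∏ p ∈ S, ps m p = (if 2 ∈ S then d2 m else 1) * ∏ p ∈ S.erase 2, sgp p := by
  have h1 : ∏ p ∈ S.erase 2, ps m p = ∏ p ∈ S.erase 2, sgp p :=
    Finset.prod_congr rfl fun p hp => ps_odd (Finset.ne_of_mem_erase hp)
  by_cases h : 2 ∈ S
  · rw [if_pos h, ← h1, ← ps_two, Finset.mul_prod_erase _ _ h]
  · rw [if_neg h, one_mul, ← h1, Finset.erase_eq_of_notMem h]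

lemma two_mem_PR {m : ℤ} (hm : m ≠ 0) : 2 ∈ PR m ↔ m % 4 ≠ 1 := by
  rw [mem_PR hm]
  constructor
  · rintro ⟨-, h | h⟩
    · push_cast at h
      omega
    · exact h.2
  · intro h
    exact ⟨Nat.prime_two, Or.inr ⟨rfl, h⟩⟩

lemma PR_erase {m : ℤ} (hm : m ≠ 0) : (PR m).erase 2 = m.natAbs.primeFactors.erase 2 := by
  ext p
  rw [Finset.mem_erase, Finset.mem_erase, mem_PR hm, Nat.mem_primeFactors]
  constructor
  · rintro ⟨h1, h2, h3 | h3⟩
    · exact ⟨h1, h2, Int.natCast_dvd.1 h3, Int.natAbs_ne_zero.2 hm⟩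
    · exact absurd h3.1 h1
  · rintro ⟨h1, h2, h3, -⟩
    exact ⟨h1, h2, Or.inl (Int.natCast_dvd.2 h3)⟩

lemma prod_PR {m : ℤ} (hm : Squarefree m) : ∏ p ∈ PR m, ps m p = m := by
  have hm0 := hm.ne_zero
  rw [prod_ps, PR_erase hm0]
  obtain ⟨h1, h2⟩ := d2_spec hm
  have h3 : (∏ p ∈ m.natAbs.primeFactors.erase 2, sgp p) = oe m := rfl
  rw [h3]
  by_cases h : m % 4 = 1
  · rw [if_neg (by rw [two_mem_PR hm0]; simp [h]), one_mul]
    have h4 := oe_mod m
    rcases h2 with ⟨-, h5 | h5⟩ | ⟨h5, -⟩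
    · rw [h5, one_mul] at h1
      exact h1.symm
    · rw [h5] at h1
      omega
    · omega
  · rw [if_pos (by rw [two_mem_PR hm0]; exact h)]
    exact h1.symm

lemma gd_ps {m : ℤ} (hm : Squarefree m) {p q : ℕ} (hp : p.Prime) (hq : q.Prime) (hpq : p ≠ q) :
    Gd q (ps m p) := by
  by_cases h : q = 2
  · subst h
    rw [gd_two, ps_odd hpq]
    exact sgp_mod hp hpq
  · rw [gd_odd h]
    by_cases h2 : p = 2
    · subst h2
      rw [ps_two]
      intro h3
      have h4 : (q : ℤ) ∣ ((2 : ℕ) : ℤ) := by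
        rcases (d2_spec hm).2 with ⟨-, h5 | h5⟩ | ⟨-, h5 | h5⟩
        · rw [h5] at h3
          exact h3.trans (one_dvd _)
        · rw [h5, dvd_neg] at h3
          exact h3.trans (one_dvd _)
        · rw [h5] at h3
          exact h3
        · rw [h5, dvd_neg] at h3
          exact h3
      exact h ((Nat.prime_dvd_prime_iff_eq hq Nat.prime_two).1 (by exact_mod_cast h4))
    · rw [ps_odd h2, dvd_sgp]
      intro h3
      exact hpq ((Nat.prime_dvd_prime_iff_eq hq hp).1 h3).symm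

lemma gd_nat {p q : ℕ} (hp : p.Prime) (hq : q.Prime) (hq2 : q ≠ 2) (hpq : p ≠ q) :
    Gd q (p : ℤ) := by
  rw [gd_odd hq2]
  intro h3
  exact hpq ((Nat.prime_dvd_prime_iff_eq hq hp).1 (by exact_mod_cast h3)).symm

lemma sqf_prod (S : Finset ℕ) (h : ∀ p ∈ S, p.Prime) : Squarefree (∏ p ∈ S, p) := by
  classical
  induction S using Finset.induction_on with
  | empty => rw [Finset.prod_empty]; exact squarefree_one
  | insert a s ha ih =>
    have hap := h a (Finset.mem_insert_self _ _)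
    rw [Finset.prod_insert ha, Nat.squarefree_mul]
    · exact ⟨hap.squarefree, ih fun p hp => h p (Finset.mem_insert_of_mem hp)⟩
    · refine Nat.Coprime.prod_right fun p hp => ?_
      exact (Nat.coprime_primes hap (h p (Finset.mem_insert_of_mem hp))).2
        (fun he => ha (he ▸ hp))

/-- the hypothesis of the transposition -/
theorem nc_sets {m : ℤ} (hs : Squarefree m) (hN : NC m) (S : Finset ℕ)
    (hS : S ⊆ PR m) (h1 : ∀ q ∈ PR m, q ∉ S → ∑ p ∈ S, ra p (ps m q) = 0)
    (h2 : ∀ q ∈ S, ∑ p ∈ (PR m).erase q, ra q (ps m p) + ∑ p ∈ S.erase q, ra p (ps m q) = 0) :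
    S = ∅ ∨ S = m.natAbs.primeFactors := by
  have hm0 := hs.ne_zero
  have hpr : ∀ p ∈ PR m, p.Prime := fun p hp => ((mem_PR hm0).1 hp).1
  -- reciprocity
  have hrec : ∀ q : ℕ, q.Prime → q ≠ 2 → ∀ T : Finset ℕ, T ⊆ PR m →
      ∑ p ∈ T, ra p (ps m q) = ∑ p ∈ T, ra q ((p : ℕ) : ℤ) := by
    intro q hq hq2 T hT
    refine Finset.sum_congr rfl fun p hp => ?_
    unfold ra
    rw [ps_odd hq2, recip_ch (hpr p (hT hp)) hq hq2, ch_odd hq2]
  set d : ℤ := ∏ p ∈ S, ((p : ℕ) : ℤ) with hd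
  have hdn : d = ((∏ p ∈ S, p : ℕ) : ℤ) := by rw [hd]; push_cast; rfl
  have hsqN : Squarefree (∏ p ∈ S, p) := sqf_prod S fun p hp => hpr p (hS hp)
  have hpd : ∀ p : ℕ, p.Prime → ((p : ℤ) ∣ d ↔ p ∈ S) := by
    intro p hp
    rw [hdn, Int.natCast_dvd_natCast, Prime.dvd_finsetProd_iff hp.prime]
    constructor
    · rintro ⟨q, hq, hpq⟩
      rw [(Nat.prime_dvd_prime_iff_eq hp (hpr q (hS hq))).1 hpq]
      exact hq
    · intro h
      exact ⟨p, h, dvd_rfl⟩
  have hdpos : 0 < d := Finset.prod_pos fun p hp => by exact_mod_cast (hpr p (hS hp)).pos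
  have hNC := hN d hdpos (by rw [hdn]; exact Int.squarefree_natCast.2 hsqN) (fun p hp hpd' =>
    ((mem_PR hm0).1 (hS ((hpd p hp).1 hpd'))).2) (fun q hq hq2 hqm => by
    have hqP : q ∈ PR m := (mem_PR hm0).2 ⟨hq.out, Or.inl hqm⟩
    by_cases hqS : q ∈ S
    · right
      have h3 := h2 q hqS
      rw [hrec q hq.out hq2 _ ((Finset.erase_subset _ _).trans hS)] at h3
      have g1 : ∀ p ∈ (PR m).erase q, Gd q (ps m p) := fun p hp =>
        gd_ps hs (hpr p (Finset.mem_of_mem_erase hp)) hq.out (Finset.ne_of_mem_erase hp)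
      have g2 : ∀ p ∈ S.erase q, Gd q ((p : ℕ) : ℤ) := fun p hp =>
        gd_nat (hpr p (hS (Finset.mem_of_mem_erase hp))) hq.out hq2 (Finset.ne_of_mem_erase hp)
      have h4 := congrArg sg h3
      rw [sg_add, sg_sum_ra hq.out _ _ g1, sg_sum_ra hq.out _ _ g2,
        ← ch_mul (gd_prod hq.out _ _ g1) (gd_prod hq.out _ _ g2)] at h4
      have h5 := (ch_iff (gd_mul hq.out (gd_prod hq.out _ _ g1) (gd_prod hq.out _ _ g2))).1 h4
      have e1 : ps m q * ∏ p ∈ (PR m).erase q, ps m p = m := by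
        rw [Finset.mul_prod_erase _ _ hqP, prod_PR hs]
      have e2 : ((q : ℕ) : ℤ) * ∏ p ∈ S.erase q, ((p : ℕ) : ℤ) = d :=
        Finset.mul_prod_erase _ _ hqS
      have hneg : IsSquare (((-(sgp q * q) : ℤ)) : ℚ_[q]) := by
        unfold sgp
        split_ifs with h6
        · have h7 : IsSquare ((-1 : ℤ) : ℚ_[q]) := by
            refine sq_of_zmod hq2 ?_ ?_
            · intro h8
              have h9 : q ∣ 1 := by
                rw [dvd_neg] at h8
                exact_mod_cast h8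
              exact hq.out.one_lt.ne' (Nat.dvd_one.1 h9)
            · push_cast
              rw [ZMod.exists_sq_eq_neg_one_iff]
              omega
          have e3 : (((-((q : ℤ) * q) : ℤ)) : ℚ_[q]) = ((-1 : ℤ) : ℚ_[q]) * (q * q) := by
            push_cast
            ring
          rw [e3]
          exact h7.mul (IsSquare.mul_self _)
        · have e3 : (((-(-(q : ℤ) * q) : ℤ)) : ℚ_[q]) = (q : ℚ_[q]) * q := by
            push_cast
            ring
          rw [e3]
          exact IsSquare.mul_self _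
      have e4 : ((d : ℤ) : ℚ_[q]) * (-(m : ℚ_[q])) = (((-(sgp q * q) : ℤ)) : ℚ_[q]) *
          ((((∏ p ∈ (PR m).erase q, ps m p) * ∏ p ∈ S.erase q, ((p : ℕ) : ℤ) : ℤ)) : ℚ_[q]) := by
        rw [← ps_odd (m := m) hq2]
        have : d * (-m) = (-(ps m q * q)) * ((∏ p ∈ (PR m).erase q, ps m p) *
          ∏ p ∈ S.erase q, ((p : ℕ) : ℤ)) := by
          rw [← e2]
          conv_lhs => rw [← e1]
          ring
        exact_mod_cast this
      rw [e4]
      exact hneg.mul h5
    · left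
      have h3 := h1 q hqP hqS
      rw [hrec q hq.out hq2 _ hS] at h3
      have g2 : ∀ p ∈ S, Gd q ((p : ℕ) : ℤ) := fun p hp =>
        gd_nat (hpr p (hS hp)) hq.out hq2 (fun h => hqS (h ▸ hp))
      rw [sum_ra hq.out _ _ g2] at h3
      exact (ch_iff (gd_prod hq.out _ _ g2)).1 h3)
  rcases hNC with h3 | h3
  · left
    rw [Finset.eq_empty_iff_forall_notMem]
    intro p hp
    have h4 := (hpd p (hpr p (hS hp))).2 hp
    rw [h3] at h4
    have h5 : p ∣ 1 := by exact_mod_cast h4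
    exact (hpr p (hS hp)).one_lt.ne' (Nat.dvd_one.1 h5)
  · right
    ext p
    rw [Nat.mem_primeFactors]
    constructor
    · intro hp
      have hpp := hpr p (hS hp)
      have h4 := (hpd p hpp).2 hp
      rw [h3, dvd_neg] at h4
      exact ⟨hpp, Int.natCast_dvd.1 h4, Int.natAbs_ne_zero.2 hm0⟩
    · rintro ⟨hpp, h4, -⟩
      rw [← hpd p hpp, h3, dvd_neg]
      exact Int.natCast_dvd.2 h4

lemma PR_ne {m : ℤ} (hm : m < 0) : (PR m).Nonempty := by
  rw [Finset.nonempty_iff_ne_empty]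
  intro he
  have h1 : m % 4 = 1 := by
    by_contra h
    have := (two_mem_PR hm.ne).2 h
    rw [he] at this
    exact absurd this (Finset.notMem_empty 2)
  unfold PR at he
  rw [if_pos h1, Nat.primeFactors_eq_empty] at he
  omega

/-- **No nontrivial ramified norm implies no nontrivial decomposition of the second kind.** -/
theorem rc_of_nc {m : ℤ} (hm : m < 0) (hs : Squarefree m) (hN : NC m) : RC m := by
  classical
  intro d hds hsup h14 hloc
  have hm0 := hs.ne_zero
  have hd0 := hds.ne_zero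
  set S : Finset ℕ := (PR m).filter (fun p : ℕ => if p = 2 then ¬ IsSquare (d : ℚ_[2]) else
    (p : ℤ) ∣ d) with hS
  have hSP : S ⊆ PR m := Finset.filter_subset _ _
  have hpr : ∀ p ∈ PR m, p.Prime := fun p hp => ((mem_PR hm0).1 hp).1
  have h2S : 2 ∈ S ↔ 2 ∈ PR m ∧ ¬ IsSquare (d : ℚ_[2]) := by
    rw [hS, Finset.mem_filter, if_pos rfl]
  have hpS : ∀ p : ℕ, p ≠ 2 → (p ∈ S ↔ p.Prime ∧ (p : ℤ) ∣ d) := by
    intro p hp2
    rw [hS, Finset.mem_filter, if_neg hp2, mem_PR hm0]
    constructor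
    · rintro ⟨⟨h1, -⟩, h2⟩
      exact ⟨h1, h2⟩
    · rintro ⟨h1, h2⟩
      exact ⟨⟨h1, hsup p h1 h2⟩, h2⟩
  have he : S.erase 2 = d.natAbs.primeFactors.erase 2 := by
    ext p
    rw [Finset.mem_erase, Finset.mem_erase]
    refine and_congr_right fun hp2 => ?_
    rw [hpS p hp2, Nat.mem_primeFactors, Int.natCast_dvd]
    have := Int.natAbs_ne_zero.2 hd0
    tauto
  have hv : ∀ (q : ℕ) [Fact q.Prime], ¬ (q : ℤ) ∣ d → (q : ℤ) ∣ m → ¬ IsSquare ((d : ℚ_[q]) * m) := by
    intro q _ h1 h2 h3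
    have hd0' : (d : ℚ_[q]) ≠ 0 := by exact_mod_cast hd0
    have hm0' : (m : ℚ_[q]) ≠ 0 := by exact_mod_cast hm0
    have h4 := even_val (mul_ne_zero hd0' hm0') h3
    rw [Padic.valuation_mul hd0' hm0', val_zero h1, val_one h2 hs] at h4
    exact absurd h4 (by decide)
  have hv' : ∀ (q : ℕ) [Fact q.Prime], (q : ℤ) ∣ d → ¬ (q : ℤ) ∣ m →
      ¬ IsSquare ((d : ℚ_[q]) * m) := by
    intro q _ h1 h2 h3
    have hd0' : (d : ℚ_[q]) ≠ 0 := by exact_mod_cast hd0
    have hm0' : (m : ℚ_[q]) ≠ 0 := by exact_mod_cast hm0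
    have h4 := even_val (mul_ne_zero hd0' hm0') h3
    rw [Padic.valuation_mul hd0' hm0', val_zero h2, val_one h1 hds] at h4
    exact absurd h4 (by decide)
  have hsq : ∀ (q : ℕ) [Fact q.Prime], q ∈ PR m → q ∉ S → IsSquare (d : ℚ_[q]) := by
    intro q hq hqP hqS
    have hR := ((mem_PR hm0).1 hqP).2
    by_cases h2 : q = 2
    · subst h2
      by_contra hcon
      exact hqS (h2S.2 ⟨hqP, hcon⟩)
    · have hqd : ¬ (q : ℤ) ∣ d := fun h => hqS ((hpS q h2).2 ⟨hq.out, h⟩)
      have hqm : (q : ℤ) ∣ m := hR.resolve_right (fun h => h2 h.1)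
      exact (hloc q hR).resolve_right (hv q hqd hqm)
  have hsq' : ∀ (q : ℕ) [Fact q.Prime], q ∈ S → IsSquare ((d : ℚ_[q]) * m) := by
    intro q hq hqS
    have hR := ((mem_PR hm0).1 (hSP hqS)).2
    refine (hloc q hR).resolve_left ?_
    by_cases h2 : q = 2
    · subst h2
      exact (h2S.1 hqS).2
    · exact not_sq hds ((hpS q h2).1 hqS).2
  -- the product
  have hprod : ∏ p ∈ S, ps m p = d := by
    rw [prod_ps, he]
    have h3 : (∏ p ∈ d.natAbs.primeFactors.erase 2, sgp p) = oe d := rfl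
    rw [h3]
    have ho := oe_mod d
    have hom := oe_mod m
    obtain ⟨e1, e2⟩ := d2_spec hs
    have hcases := oe_cases hds
    by_cases hP : 2 ∈ PR m
    · have hm4 := (two_mem_PR hm0).1 hP
      by_cases h2 : IsSquare (d : ℚ_[2])
      · rw [if_neg (fun h => (h2S.1 h).2 h2), one_mul]
        have hnd : ¬ (2 : ℤ) ∣ d := fun h => not_sq (p := 2) hds h h2
        have h8 := Pool.Agent.Y667.RP.mod_of_sq hnd h2
        rcases hcases with ⟨-, h | h⟩ | ⟨h, -⟩
        · exact h.symm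
        · omega
        · exact absurd h hnd
      · have h2S' : 2 ∈ S := h2S.2 ⟨hP, h2⟩
        rw [if_pos h2S']
        have h5 := hsq' 2 h2S'
        by_cases hm2 : (2 : ℤ) ∣ m
        · have hd2 : (2 : ℤ) ∣ d := by
            by_contra hcon
            exact hv 2 hcon hm2 h5
          obtain ⟨d', hd'⟩ := hd2
          obtain ⟨m', hm'⟩ := hm2
          have hodd' : ¬ (2 : ℤ) ∣ d' := by
            rintro ⟨k, hk⟩
            have := hds 2 ⟨k, by rw [hd', hk]; ring⟩
            exact absurd (Int.isUnit_iff.1 this) (by norm_num)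
          have hodm' : ¬ (2 : ℤ) ∣ m' := by
            rintro ⟨k, hk⟩
            have := hs 2 ⟨k, by rw [hm', hk]; ring⟩
            exact absurd (Int.isUnit_iff.1 this) (by norm_num)
          have h6 : IsSquare (((d' * m' : ℤ)) : ℚ_[2]) := by
            have e : (d : ℚ_[2]) * m = (2 * 2) * (((d' * m' : ℤ)) : ℚ_[2]) := by
              rw [hd', hm']; push_cast; ring
            rw [e] at h5
            exact sq_cancel (mul_ne_zero two_ne_zero two_ne_zero) (IsSquare.mul_self _) h5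
          have h7 := Pool.Agent.Y667.RP.mod_of_sq (d := d' * m') (by
            intro h
            rcases Int.prime_two.dvd_or_dvd h with h | h
            · exact hodd' h
            · exact hodm' h) h6
          have h8 : (d' % 8) * (m' % 8) % 8 = 1 := by rw [← Int.mul_emod]; exact h7
          rcases e2 with ⟨h, -⟩ | ⟨-, h | h⟩
          · exact absurd ⟨m', hm'⟩ h
          · rw [h] at e1 ⊢
            have hm'' : m' = oe m := by omega
            rcases hcases with ⟨h9, -⟩ | ⟨-, h9 | h9⟩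
            · exact absurd ⟨d', hd'⟩ h9
            · exact h9.symm
            · exfalso
              have : d' = -oe d := by omega
              have c1 : m' % 8 = 1 ∨ m' % 8 = 5 := by omega
              have c2 : d' % 8 = 3 ∨ d' % 8 = 7 := by omega
              rcases c1 with c1 | c1 <;> rcases c2 with c2 | c2 <;> rw [c1, c2] at h8 <;> omega
          · rw [h] at e1 ⊢
            have hm'' : m' = -oe m := by omega
            rcases hcases with ⟨h9, -⟩ | ⟨-, h9 | h9⟩
            · exact absurd ⟨d', hd'⟩ h9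
            · exfalso
              have : d' = oe d := by omega
              have c1 : m' % 8 = 3 ∨ m' % 8 = 7 := by omega
              have c2 : d' % 8 = 1 ∨ d' % 8 = 5 := by omega
              rcases c1 with c1 | c1 <;> rcases c2 with c2 | c2 <;> rw [c1, c2] at h8 <;> omega
            · exact h9.symm
        · have hd2 : ¬ (2 : ℤ) ∣ d := fun h => hv' 2 h hm2 h5
          have h6 : IsSquare (((d * m : ℤ)) : ℚ_[2]) := by
            push_cast
            exact h5
          have h7 := Pool.Agent.Y667.RP.mod_of_sq (d := d * m) (by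
            intro h
            rcases Int.prime_two.dvd_or_dvd h with h | h
            · exact hd2 h
            · exact hm2 h) h6
          have h8 : (d % 8) * (m % 8) % 8 = 1 := by rw [← Int.mul_emod]; exact h7
          rcases e2 with ⟨-, h | h⟩ | ⟨h, -⟩
          · rw [h] at e1
            omega
          · rw [h] at e1 ⊢
            rcases hcases with ⟨-, h9 | h9⟩ | ⟨h9, -⟩
            · exfalso
              have c1 : m % 8 = 3 ∨ m % 8 = 7 := by omega
              have c2 : d % 8 = 1 ∨ d % 8 = 5 := by omega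
              rcases c1 with c1 | c1 <;> rcases c2 with c2 | c2 <;> rw [c1, c2] at h8 <;> omega
            · rw [neg_one_mul]
              exact h9.symm
            · exact absurd h9 hd2
          · exact absurd h hm2
    · rw [if_neg (fun h => hP (hSP h)), one_mul]
      have hm4 : m % 4 = 1 := by
        by_contra h
        exact hP ((two_mem_PR hm0).2 h)
      have hd4 := h14 hm4
      rcases hcases with ⟨-, h | h⟩ | ⟨h, -⟩
      · exact h.symm
      · omega
      · omega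
  have hgS : ∀ q ∈ PR m, q ∉ S → ∀ p ∈ S, Gd q (ps m p) := fun q hq hqS p hp =>
    gd_ps hs (hpr p (hSP hp)) (hpr q hq) (fun h => hqS (h ▸ hp))
  rcases transN (PR m) (PR_ne hm) (fun p q => ra q (ps m p)) m.natAbs.primeFactors
    (fun T hT c1 c2 => nc_sets hs hN T hT c1 c2) S hSP (fun q hq hqS => by
      have : Fact q.Prime := ⟨hpr q hq⟩
      rw [sum_ra (hpr q hq) _ _ (hgS q hq hqS), ch_iff (gd_prod (hpr q hq) _ _ (hgS q hq hqS)), hprod]
      exact hsq q hq hqS) (fun q hqS => by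
      have hq := hpr q (hSP hqS)
      have : Fact q.Prime := ⟨hq⟩
      have g : ∀ p ∈ PR m \ S, Gd q (ps m p) := fun p hp =>
        gd_ps hs (hpr p (Finset.mem_sdiff.1 hp).1) hq (fun h => (Finset.mem_sdiff.1 hp).2 (h ▸ hqS))
      rw [sum_ra hq _ _ g, ch_iff (gd_prod hq _ _ g)]
      have h5 := hsq' q hqS
      have e : (d : ℚ_[q]) * m = (d * d) * (((∏ p ∈ PR m \ S, ps m p : ℤ)) : ℚ_[q]) := by
        have e1 : m = d * ∏ p ∈ PR m \ S, ps m p := by
          conv_lhs => rw [← prod_PR hs]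
          rw [← hprod, mul_comm]
          exact (Finset.prod_sdiff hSP).symm
        have e2 : (m : ℚ_[q]) = d * (((∏ p ∈ PR m \ S, ps m p : ℤ)) : ℚ_[q]) := by
          exact_mod_cast congrArg (Int.cast : ℤ → ℚ_[q]) e1
        rw [e2]
        ring
      rw [e] at h5
      have hd0' : (d : ℚ_[q]) ≠ 0 := by exact_mod_cast hd0
      exact sq_cancel (mul_ne_zero hd0' hd0') (IsSquare.mul_self _) h5) with h | h
  · left
    rw [← hprod, h, Finset.prod_empty]
  · right
    rw [← hprod, h, prod_PR hs]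

end Pool.Agent.N875.X15
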