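import Pool.Agent.N875.X15.Main
import Pool.Agent.N875.X15.Min
import Pool.Agent.N969.P15.Defs

/-!
# The short equation, and the condition of `Pool.Agent.N969.P15.Defs`
-/

set_option autoImplicit false

namespace Pool.Agent.N875.X15

open WeierstrassCurve
open Pool.Agent.TH841.SH.D (Sha)
open Pool.Agent.Y700 (VR)
open Pool.Agent.Z702 (S_TRN)

/-- the same condition -/
theorem qc_P15 {n : ℕ} (hn : n ≠ 0) : Pool.Agent.N969.P15.Qc n ↔ Qc n := by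
  have key : ∀ b c x : ℕ, b * c = n → ((∀ p ∈ c.primeFactors, jacobiSym x p = 1) ↔
      (∀ p : ℕ, p.Prime → p ∣ c → jacobiSym x p = 1)) := by
    intro b c x h
    have hc : c ≠ 0 := by
      rintro rfl
      exact hn (by rw [← h, mul_zero])
    constructor
    · intro h1 p hp hpc
      exact h1 p (Nat.mem_primeFactors.2 ⟨hp, hpc, hc⟩)
    · intro h1 p hp
      obtain ⟨h2, h3, -⟩ := Nat.mem_primeFactors.1 hp
      exact h1 p h2 h3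
  unfold Pool.Agent.N969.P15.Qc Qc
  constructor
  · intro h b c hbc h1 h2
    exact h b c hbc ((key b c b hbc).2 h1) ((key c b c (by rw [mul_comm]; exact hbc)).2 h2)
  · intro h b c hbc h1 h2
    exact h b c hbc ((key b c b hbc).1 h1) ((key c b c (by rw [mul_comm]; exact hbc)).1 h2)

/-- the short equation of the twist of `X_0(15)` by `m` -/
def WS (m : ℤ) : WeierstrassCurve ℚ :=
  ⟨0, 0, 0, ((-12987 * m ^ 2 : ℤ) : ℚ), ((-263466 * m ^ 3 : ℤ) : ℚ)⟩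

theorem Em_Δ (m : ℤ) : (Em m).Δ = 2 ^ 12 * 3 ^ 4 * 5 ^ 4 * m ^ 6 := by
  simp only [Em, WeierstrassCurve.Δ, WeierstrassCurve.b₂, WeierstrassCurve.b₄,
    WeierstrassCurve.b₆, WeierstrassCurve.b₈]
  ring

theorem EQm_Δ_ne {m : ℤ} (hm : m ≠ 0) : (EQm m).Δ ≠ 0 := by
  rw [WeierstrassCurve.map_Δ, Em_Δ]
  show ((2 ^ 12 * 3 ^ 4 * 5 ^ 4 * m ^ 6 : ℤ) : ℚ) ≠ 0
  have : (2 ^ 12 * 3 ^ 4 * 5 ^ 4 * m ^ 6 : ℤ) ≠ 0 := mul_ne_zero (by norm_num) (pow_ne_zero 6 hm)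
  exact_mod_cast this

theorem vrS (m : ℤ) : VR (WS m) (EQm m) 3 (-21 * m) 0 0 := by
  refine ⟨by norm_num, ?_, ?_, ?_, ?_, ?_⟩
  · show (3 : ℚ) * (((0 : ℤ)) : ℚ) = 0 + 2 * 0
    norm_num
  · show (3 : ℚ) ^ 2 * (((-7 * m : ℤ)) : ℚ) = 0 - 0 * 0 + 3 * (-21 * m) - 0 ^ 2
    push_cast
    ring
  · show (3 : ℚ) ^ 3 * (((0 : ℤ)) : ℚ) = 0 + (-21 * m) * 0 + 2 * 0
    norm_num
  · show (3 : ℚ) ^ 4 * (((-144 * m ^ 2 : ℤ)) : ℚ) = ((-12987 * m ^ 2 : ℤ) : ℚ) - 0 * 0 +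
      2 * (-21 * m) * 0 - (0 + -21 * m * 0) * 0 + 3 * (-21 * m) ^ 2 - 2 * 0 * 0
    push_cast
    ring
  · show (3 : ℚ) ^ 6 * (((0 : ℤ)) : ℚ) = ((-263466 * m ^ 3 : ℤ) : ℚ) +
      (-21 * m) * ((-12987 * m ^ 2 : ℤ) : ℚ) +
      (-21 * m) ^ 2 * 0 + (-21 * m) ^ 3 - 0 * 0 - 0 ^ 2 - (-21 * m) * 0 * 0
    push_cast
    ring

/-- transport between the equations -/
theorem trnS {m : ℤ} (hm : m ≠ 0) :
    (Finite (WS m).toAffine.Point ↔ Finite (EQm m).toAffine.Point) ∧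
    ((∀ x : Sha (WS m), x + x = 0 → x = 0) ↔ ∀ x : Sha (EQm m), x + x = 0 → x = 0) := by
  have hT : S_TRN := Pool.Agent.Z932.Z702.t_TRN
  obtain ⟨h1, h2, -⟩ := hT _ _ _ _ _ _ (vrS m) (EQm_Δ_ne hm)
  exact ⟨h1, h2⟩

/-- transport to the minimal equation -/
theorem trnN {m : ℤ} (h4 : m % 4 = 1) :
    (Finite (EQm m).toAffine.Point ↔ Finite (WNQ m).toAffine.Point) ∧
    ((∀ x : Sha (EQm m), x + x = 0 → x = 0) ↔ ∀ x : Sha (WNQ m), x + x = 0 → x = 0) := by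
  have hT : S_TRN := Pool.Agent.Z932.Z702.t_TRN
  obtain ⟨h1, h2, -⟩ := hT _ _ _ _ _ _ (vr h4 ℚ) (WN_Δ_ne h4 ℚ)
  exact ⟨h1, h2⟩

/-- finite group of points and no element of order two of `Ш`, for the three equations -/
def Fin2 (W : WeierstrassCurve ℚ) : Prop :=
  Finite W.toAffine.Point ∧ ∀ x : Sha W, x + x = 0 → x = 0

theorem fin2_S {m : ℤ} (hm : m ≠ 0) : Fin2 (WS m) ↔ Fin2 (EQm m) :=
  and_congr (trnS hm).1 (trnS hm).2

theorem fin2_N {m : ℤ} (h4 : m % 4 = 1) : Fin2 (WNQ m) ↔ Fin2 (EQm m) :=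
  and_congr (trnN h4).1.symm (trnN h4).2.symm

theorem fin2_pow {W : WeierstrassCurve ℚ} (h : Fin2 W) (k : ℕ) (x : Sha W)
    (hx : (2 ^ k : ℕ) • x = 0) : x = 0 := Pool.Agent.Y667.SHA.no_tor h.2 k x hx

theorem fin2_rank {W : WeierstrassCurve ℚ} (h : Fin2 W) :
    Module.finrank ℤ W.toAffine.Point = 0 := by
  have := h.1
  rw [Module.finrank_eq_zero_iff_isTorsion]
  intro x
  refine ⟨⟨(Nat.card W.toAffine.Point : ℤ), ?_⟩, ?_⟩
  · rw [mem_nonZeroDivisors_iff_ne_zero]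
    exact_mod_cast (Nat.card_pos (α := W.toAffine.Point)).ne'
  · show (Nat.card W.toAffine.Point : ℤ) • x = 0
    rw [natCast_zsmul]
    exact card_nsmul_eq_zero'

/-- **The algebraic side for `n ≡ 23, 47 mod 60`**, for the short equation. -/
theorem fin2_iff {n : ℕ} (hn : Squarefree n) (h60 : n % 60 = 23 ∨ n % 60 = 47) :
    Fin2 (WS (-(n : ℤ))) ↔ Pool.Agent.N969.P15.Qc n := by
  have h0 : (-(n : ℤ)) ≠ 0 := by
    have := hn.ne_zero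
    omega
  rw [fin2_S h0, qc_P15 hn.ne_zero, ← crit_iff hn h60]
  rfl

/-- the same for the minimal equation -/
theorem fin2_iff' {n : ℕ} (hn : Squarefree n) (h60 : n % 60 = 23 ∨ n % 60 = 47) :
    Fin2 (WNQ (-(n : ℤ))) ↔ Pool.Agent.N969.P15.Qc n := by
  rw [fin2_N (by omega), qc_P15 hn.ne_zero, ← crit_iff hn h60]
  rfl

end Pool.Agent.N875.X15
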