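import Pool.Agent.N875.X15.Even
import Pool.Agent.N973.P15.Defs3

/-!
# The algebraic side for all negative fundamental discriminants `-n` such that `3` is not inert and `5`
# does not split in `ℚ(√-n)`
-/

set_option autoImplicit false

namespace Pool.Agent.N875.X15

open Pool.Agent.N969.P15 (Ev Qe Cls0 Cls0e)
open Pool.Agent.N973.P15 (Cl3 Cl3e Cl15 Cl15e Cl5 Cl5e)
open Pool.Agent.TH841.SH.D (Sha)

/-- odd discriminants of the class -/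
def Ao (n : ℕ) : Prop := Squarefree n ∧ n % 4 = 3 ∧ n % 3 ≠ 1 ∧ (n % 5 = 0 ∨ n % 5 = 2 ∨ n % 5 = 3)

/-- even discriminants of the class -/
def Ae (n : ℕ) : Prop := Ev n ∧ n % 3 ≠ 1 ∧ (n % 5 = 0 ∨ n % 5 = 2 ∨ n % 5 = 3)

lemma ao_of0 {n : ℕ} (h : Cls0 n) : Ao n := by
  obtain ⟨h1, h2⟩ := h
  exact ⟨h1, by omega, by omega, by omega⟩

lemma ao_of3 {n : ℕ} (h : Cl3 n) : Ao n := by
  obtain ⟨h1, h2, h3, h4⟩ := h
  exact ⟨h1, h2, by omega, by omega⟩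

lemma ao_of15 {n : ℕ} (h : Cl15 n) : Ao n := by
  obtain ⟨h1, h2, h3, h4⟩ := h
  exact ⟨h1, h2, by omega, by omega⟩

lemma ao_of5 {n : ℕ} (h : Cl5 n) : Ao n := by
  obtain ⟨h1, h2, h3, h4⟩ := h
  exact ⟨h1, h2, by omega, by omega⟩

lemma ao_cases {n : ℕ} (h : Ao n) : Cls0 n ∨ Cl3 n ∨ Cl15 n ∨ Cl5 n := by
  obtain ⟨h1, h2, h3, h4⟩ := h
  rcases (by omega : n % 3 = 0 ∨ n % 3 = 2) with h5 | h5
  · rcases h4 with h4 | h4
    · exact Or.inr (Or.inr (Or.inl ⟨h1, h2, Nat.dvd_of_mod_eq_zero h5, Nat.dvd_of_mod_eq_zero h4⟩))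
    · exact Or.inr (Or.inl ⟨h1, h2, Nat.dvd_of_mod_eq_zero h5, h4⟩)
  · rcases h4 with h4 | h4
    · exact Or.inr (Or.inr (Or.inr ⟨h1, h2, h5, Nat.dvd_of_mod_eq_zero h4⟩))
    · exact Or.inl ⟨h1, by omega⟩

lemma ae_of0 {n : ℕ} (h : Cls0e n) : Ae n := by
  obtain ⟨h1, h2, h3⟩ := h
  exact ⟨h1, by omega, by omega⟩

lemma ae_of3 {n : ℕ} (h : Cl3e n) : Ae n := by
  obtain ⟨h1, h2, h3⟩ := h
  exact ⟨h1, by omega, by omega⟩

lemma ae_of15 {n : ℕ} (h : Cl15e n) : Ae n := by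
  obtain ⟨h1, h2, h3⟩ := h
  exact ⟨h1, by omega, by omega⟩

lemma ae_of5 {n : ℕ} (h : Cl5e n) : Ae n := by
  obtain ⟨h1, h2, h3⟩ := h
  exact ⟨h1, by omega, by omega⟩

lemma ae_cases {n : ℕ} (h : Ae n) : Cls0e n ∨ Cl3e n ∨ Cl15e n ∨ Cl5e n := by
  obtain ⟨h1, h3, h4⟩ := h
  rcases (by omega : n % 3 = 0 ∨ n % 3 = 2) with h5 | h5
  · rcases h4 with h4 | h4
    · exact Or.inr (Or.inr (Or.inl ⟨h1, Nat.dvd_of_mod_eq_zero h5, Nat.dvd_of_mod_eq_zero h4⟩))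
    · exact Or.inr (Or.inl ⟨h1, Nat.dvd_of_mod_eq_zero h5, h4⟩)
  · rcases h4 with h4 | h4
    · exact Or.inr (Or.inr (Or.inr ⟨h1, h5, Nat.dvd_of_mod_eq_zero h4⟩))
    · exact Or.inl ⟨h1, h5, h4⟩

lemma cls_ao {n : ℕ} (h : Ao n) : Cls (-(n : ℤ)) := by
  obtain ⟨h1, h2, h3, h4⟩ := h
  refine ⟨?_, ?_, by omega, by omega⟩
  · have := h1.ne_zero
    omega
  · intro x hx
    rw [dvd_neg] at hx
    exact Int.squarefree_natCast.2 h1 x hx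

lemma cls_ae {n : ℕ} (h : Ae n) : Cls (-((n / 4 : ℕ) : ℤ)) := by
  obtain ⟨⟨m, rfl, hs, h4⟩, h3, h5⟩ := h
  have e4 : 4 * m / 4 = m := by omega
  rw [e4]
  refine ⟨?_, ?_, by omega, by omega⟩
  · have := hs.ne_zero
    omega
  · intro x hx
    rw [dvd_neg] at hx
    exact Int.squarefree_natCast.2 hs x hx

/-- **Odd discriminants**: the criterion. -/
theorem crit_ao {n : ℕ} (h : Ao n) : Fin2 (EQm (-(n : ℤ))) ↔ Pool.Agent.N969.P15.Qc n := by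
  rw [qc_P15 h.1.ne_zero]
  have h4 := h.2.1
  constructor
  · rintro ⟨h1, h2⟩
    exact qc_of_nc h.1 h4 (nc_of_fin (cls_ao h) (by omega) h1 h2)
  · intro hQ
    obtain ⟨h1, h2⟩ := finite_of_crit (cls_ao h) (rc_of h.1 h4 hQ) (nc_of h.1 h4 hQ)
    refine ⟨h1, fun x hx => h2 1 x ?_⟩
    rw [pow_one, two_nsmul]
    exact hx

/-- the same for the short equation -/
theorem crit_ao_S {n : ℕ} (h : Ao n) : Fin2 (WS (-(n : ℤ))) ↔ Pool.Agent.N969.P15.Qc n := by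
  rw [fin2_S (cls_ao h).neg.ne]
  exact crit_ao h

/-- the same for the minimal equation -/
theorem crit_ao_N {n : ℕ} (h : Ao n) : Fin2 (WNQ (-(n : ℤ))) ↔ Pool.Agent.N969.P15.Qc n := by
  have h4 := h.2.1
  rw [fin2_N (by omega)]
  exact crit_ao h

/-- **Even discriminants**: rank zero and `Ш[2^∞] = 0`. -/
theorem fin_ae {n : ℕ} (h : Ae n) (hQ : Qe n) : Fin2 (EQm (-((n / 4 : ℕ) : ℤ))) := by
  obtain ⟨h1, h2⟩ := rank_sha_of_nc (cls_ae h) ((nc_iff_Qe h.1).2 hQ)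
  refine ⟨h1, fun x hx => h2 1 x ?_⟩
  rw [pow_one, two_nsmul]
  exact hx

/-- the same for the short equation -/
theorem fin_ae_S {n : ℕ} (h : Ae n) (hQ : Qe n) : Fin2 (WS (-((n / 4 : ℕ) : ℤ))) := by
  rw [fin2_S (cls_ae h).neg.ne]
  exact fin_ae h hQ

end Pool.Agent.N875.X15
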