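import Pool.Agent.N875.X15.Odd
import Pool.Agent.Y667.RP.Two

/-!
# Local conditions at the prime 2 for the curves `y² = x (x + 9 m) (x - 16 m)`
-/

set_option autoImplicit false

namespace Pool.Agent.N875.X15

open Pool.Agent.Y667.RP (sq_near_one mod_of_sq)

lemma norm_le_pow_iff {x : ℚ_[2]} (hx : x ≠ 0) (n : ℕ) :
    ‖x‖ ≤ 1 / 2 ^ n ↔ (n : ℤ) ≤ x.valuation := by
  rw [Padic.norm_eq_zpow_neg_valuation hx]
  have e : (1 : ℝ) / 2 ^ n = ((2 : ℕ) : ℝ) ^ (-(n : ℤ)) := by
    rw [zpow_neg, zpow_natCast]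
    norm_num
  rw [e, zpow_le_zpow_iff_right₀ (by norm_num)]
  omega

/-- close numbers in `ℚ_[2]` -/
lemma close2 {x y : ℚ_[2]} (hx : x ≠ 0) (hy : y ≠ 0) (hxy : x - y ≠ 0)
    (h : y.valuation + 3 ≤ (x - y).valuation) :
    IsSquare (x * y) ∧ x.valuation = y.valuation := by
  have h1 : ‖(x - y) / y‖ ≤ 1 / 8 := by
    have h2 : (x - y) / y ≠ 0 := div_ne_zero hxy hy
    have h3 : (((x - y) / y).valuation : ℤ) = (x - y).valuation - y.valuation := by
      rw [div_eq_mul_inv, Padic.valuation_mul hxy (inv_ne_zero hy), Padic.valuation_inv]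
      ring
    have h4 := (norm_le_pow_iff h2 3).2 (by rw [h3]; push_cast; omega)
    norm_num at h4 ⊢
    exact h4
  obtain ⟨r, hr⟩ := sq_near_one h1
  constructor
  · refine ⟨r * y, ?_⟩
    have : r * y * (r * y) = (r * r) * (y * y) := by ring
    rw [this, ← hr]
    field_simp
    ring
  · have h2 : ‖x - y‖ < ‖y‖ := (norm_lt_iff hxy hy).2 (by omega)
    have h3 : x = y + (x - y) := by ring
    have h4 : ‖x‖ = ‖y‖ := by
      rw [h3]
      exact (IsUltrametricDist.norm_add_eq_max_of_norm_ne_norm h2.ne').trans (max_eq_left h2.le)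
    exact (norm_eq_iff hx hy).1 h4

/-- numbers congruent to 1 modulo 8 -/
lemma sq_of_mod8 (t : ℤ_[2]) (h : PadicInt.toZModPow 3 t = 1) : IsSquare (t : ℚ_[2]) := by
  have h1 : PadicInt.toZModPow 3 (t - 1) = 0 := by rw [map_sub, h, map_one, sub_self]
  have h2 : (t - 1) ∈ RingHom.ker (PadicInt.toZModPow (p := 2) 3) := h1
  rw [PadicInt.ker_toZModPow, ← PadicInt.norm_le_pow_iff_mem_span_pow] at h2
  have h3 : ‖((t - 1 : ℤ_[2]) : ℚ_[2])‖ ≤ 1 / 8 := by
    have e : ‖(t - 1 : ℤ_[2])‖ = ‖((t - 1 : ℤ_[2]) : ℚ_[2])‖ := rfl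
    rw [← e]
    refine h2.trans (le_of_eq ?_)
    norm_num
  have h4 := sq_near_one h3
  have h5 : (1 : ℚ_[2]) + ((t - 1 : ℤ_[2]) : ℚ_[2]) = t := by
    push_cast
    ring
  rwa [h5] at h4

/-- the unit part of a number -/
lemma unit_part {x : ℚ_[2]} (hx : x ≠ 0) : ∃ s : ℤ_[2], ‖s‖ = 1 ∧
    x = (2 : ℚ_[2]) ^ x.valuation * s := by
  have h2 : (2 : ℚ_[2]) ^ x.valuation ≠ 0 := zpow_ne_zero _ two_ne_zero
  have h3 : ‖(2 : ℚ_[2])‖ = 1 / 2 := by
    have : (2 : ℚ_[2]) = ((2 : ℕ) : ℚ_[2]) := by norm_num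
    rw [this, Padic.norm_p]
    norm_num
  have h1 : ‖x / (2 : ℚ_[2]) ^ x.valuation‖ = 1 := by
    rw [norm_div, norm_zpow, h3, Padic.norm_eq_zpow_neg_valuation hx]
    rw [div_eq_one_iff_eq (zpow_ne_zero _ (by norm_num))]
    rw [one_div, inv_zpow, ← zpow_neg]
    norm_num
  refine ⟨⟨x / (2 : ℚ_[2]) ^ x.valuation, h1.le⟩, h1, ?_⟩
  show x = _ * (x / _)
  field_simp

lemma unit_odd {s : ℤ_[2]} (hs : ‖s‖ = 1) :
    PadicInt.toZModPow 3 s ∈ ({1, 3, 5, 7} : Set (ZMod (2 ^ 3))) := by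
  have h1 : IsUnit s := PadicInt.isUnit_iff.2 hs
  have h2 := h1.map (PadicInt.toZModPow (p := 2) 3)
  have h3 : ∀ t : ZMod (2 ^ 3), IsUnit t → t = 1 ∨ t = 3 ∨ t = 5 ∨ t = 7 := by decide
  rcases h3 _ h2 with h | h | h | h <;> simp [h]

lemma int_of_sq {t : ℤ_[2]} {y : ℚ_[2]} (h : y ^ 2 = t) : ∃ r : ℤ_[2], r ^ 2 = t := by
  have h1 : ‖y‖ ≤ 1 := by
    by_contra hcon
    push Not at hcon
    have h2 : ‖(t : ℚ_[2])‖ ≤ 1 := t.2
    rw [← h, norm_pow] at h2
    nlinarith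
  obtain ⟨r, hr⟩ : ∃ r : ℤ_[2], (r : ℚ_[2]) = y := ⟨⟨y, h1⟩, rfl⟩
  refine ⟨r, ?_⟩
  apply Subtype.ext
  rw [PadicInt.coe_pow, hr]
  exact h

lemma val_add_eq {p : ℕ} [Fact p.Prime] {x e : ℚ_[p]} (hx : x ≠ 0) (he : e ≠ 0)
    (hxe : x + e ≠ 0) (h : x.valuation < e.valuation) : (x + e).valuation = x.valuation := by
  have h2 : ‖e‖ < ‖x‖ := (norm_lt_iff he hx).2 h
  have h4 : ‖x + e‖ = ‖x‖ :=
    (IsUltrametricDist.norm_add_eq_max_of_norm_ne_norm h2.ne').trans (max_eq_left h2.le)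
  exact (norm_eq_iff hxe hx).1 h4

lemma mod8_int {m : ℤ} (hm4 : m % 4 = 1) :
    PadicInt.toZModPow (p := 2) 3 (m : ℤ_[2]) = 1 ∨ PadicInt.toZModPow (p := 2) 3 (m : ℤ_[2]) = 5 := by
  rw [map_intCast]
  have h : m % 8 = 1 ∨ m % 8 = 5 := by omega
  rcases h with h | h
  · left
    have : ((8 : ℕ) : ℤ) ∣ m - 1 := by push_cast; omega
    have h2 := (ZMod.intCast_zmod_eq_zero_iff_dvd (m - 1) 8).2 this
    push_cast at h2
    exact sub_eq_zero.1 h2
  · right
    have : ((8 : ℕ) : ℤ) ∣ m - 5 := by push_cast; omega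
    have h2 := (ZMod.intCast_zmod_eq_zero_iff_dvd (m - 5) 8).2 this
    push_cast at h2
    exact sub_eq_zero.1 h2

/-- **The second coordinate at 2.** -/
theorem two_v {m : ℤ} (hm : m ≠ 0) {u : ℚ_[2]} (hu : u ≠ 0)
    (hv : u + 9 * m ≠ 0) (hw : u - 16 * m ≠ 0)
    (hs : IsSquare (u * (u + 9 * m) * (u - 16 * m))) :
    IsSquare (u + 9 * m) ∨ IsSquare ((u + 9 * m) * m) ∨
      (IsSquare ((u + 9 * m) * (5 * m)) ∧ IsSquare (m : ℚ_[2])) := by
  have hm' : (m : ℚ_[2]) ≠ 0 := by exact_mod_cast hm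
  have v2 : ((2 : ℚ_[2])).valuation = 1 := by
    have : (2 : ℚ_[2]) = ((2 : ℕ) : ℚ_[2]) := by norm_num
    rw [this, Padic.valuation_p]
  have v16 : (16 * (m : ℚ_[2])).valuation = 4 + (m : ℚ_[2]).valuation := by
    rw [Padic.valuation_mul (by norm_num) hm']
    congr 1
    have : (16 : ℚ_[2]) = 2 ^ 4 := by norm_num
    rw [this, Padic.valuation_pow, v2]
    norm_num
  have v9 : (9 * (m : ℚ_[2])).valuation = (m : ℚ_[2]).valuation := by
    rw [Padic.valuation_mul (by norm_num) hm']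
    have h9 : (9 : ℚ_[2]).valuation = 0 := by
      have h1 : ‖(9 : ℚ_[2])‖ = 1 := by
        have : (9 : ℚ_[2]) = ((9 : ℤ) : ℚ_[2]) := by norm_num
        rw [this]
        rw [Padic.norm_intCast_eq_one_iff]
        norm_num
      have h2 : ‖(9 : ℚ_[2])‖ = ‖(1 : ℚ_[2])‖ := by rw [h1, norm_one]
      rw [norm_eq_iff (by norm_num) one_ne_zero] at h2
      rw [h2, Padic.valuation_one]
    rw [h9, zero_add]
  have neg : ∀ x : ℚ_[2], (-x).valuation = x.valuation := by
    intro x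
    by_cases hx : x = 0
    · rw [hx, neg_zero]
    exact (norm_eq_iff (neg_ne_zero.2 hx) hx).1 (norm_neg x)
  rcases le_or_gt (u.valuation + 3) (4 + (m : ℚ_[2]).valuation) with c1 | c1
  · left
    have h1 := (close2 hw hu (by
      rw [sub_sub_cancel_left]
      exact neg_ne_zero.2 (mul_ne_zero (by norm_num) hm')) (by
      rw [sub_sub_cancel_left, neg, v16]
      exact c1)).1
    have e : u * (u + 9 * m) * (u - 16 * m) = ((u - 16 * m) * u) * (u + 9 * m) := by ring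
    rw [e] at hs
    exact sq_cancel (mul_ne_zero hw hu) h1 hs
  · rcases le_or_gt ((m : ℚ_[2]).valuation + 3) u.valuation with c2 | c2
    · right; left
      have h9 : (9 * (m : ℚ_[2])) ≠ 0 := mul_ne_zero (by norm_num) hm'
      have h1 := (close2 hv h9 (by
        rw [add_sub_cancel_right]
        exact hu) (by
        rw [add_sub_cancel_right, v9]
        exact c2)).1
      obtain ⟨r, hr⟩ := h1
      refine ⟨r / 3, ?_⟩
      have : r / 3 * (r / 3) = r * r / 9 := by ring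
      rw [this, ← hr]
      ring
    · right; right
      have c3 : u.valuation = (m : ℚ_[2]).valuation + 2 := by omega
      have h4 : (u / (4 * m)).valuation = 0 := by
        rw [div_eq_mul_inv, Padic.valuation_mul hu (inv_ne_zero (mul_ne_zero (by norm_num) hm')),
          Padic.valuation_inv, Padic.valuation_mul (by norm_num) hm', c3]
        have : (4 : ℚ_[2]) = 2 ^ 2 := by norm_num
        rw [this, Padic.valuation_pow, v2]
        push_cast
        ring
      obtain ⟨s, hs1, hs2⟩ := unit_part (div_ne_zero hu (mul_ne_zero (by norm_num : (4 : ℚ_[2]) ≠ 0)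
        hm'))
      rw [h4, zpow_zero, one_mul] at hs2
      have hu' : u = 4 * m * s := by
        rw [← hs2]
        field_simp
      have hodd := unit_odd hs1
      have k1 : PadicInt.toZModPow 3 (s * (4 * s + 9) * (s - 4)) = 1 := by
        rw [map_mul, map_mul, map_add, map_mul, map_sub]
        have e4 : PadicInt.toZModPow (p := 2) 3 4 = 4 := by
          have := map_ofNat (PadicInt.toZModPow (p := 2) 3) 4
          exact this
        have e9 : PadicInt.toZModPow (p := 2) 3 9 = 9 := by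
          have := map_ofNat (PadicInt.toZModPow (p := 2) 3) 9
          exact this
        rw [e4, e9]
        have : ∀ t : ZMod (2 ^ 3), t = 1 ∨ t = 3 ∨ t = 5 ∨ t = 7 →
          t * (4 * t + 9) * (t - 4) = 1 := by decide
        apply this
        simpa using hodd
      have k2 : PadicInt.toZModPow 3 (5 * (4 * s + 9)) = 1 := by
        rw [map_mul, map_add, map_mul]
        have e4 : PadicInt.toZModPow (p := 2) 3 4 = 4 := by
          have := map_ofNat (PadicInt.toZModPow (p := 2) 3) 4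
          exact this
        have e9 : PadicInt.toZModPow (p := 2) 3 9 = 9 := by
          have := map_ofNat (PadicInt.toZModPow (p := 2) 3) 9
          exact this
        have e5 : PadicInt.toZModPow (p := 2) 3 5 = 5 := by
          have := map_ofNat (PadicInt.toZModPow (p := 2) 3) 5
          exact this
        rw [e4, e9, e5]
        have : ∀ t : ZMod (2 ^ 3), t = 1 ∨ t = 3 ∨ t = 5 ∨ t = 7 →
          5 * (4 * t + 9) = 1 := by decide
        apply this
        simpa using hodd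
      have q1 := sq_of_mod8 _ k1
      have q2 := sq_of_mod8 _ k2
      have c4 : ((4 : ℤ_[2]) : ℚ_[2]) = 4 := rfl
      have c9 : ((9 : ℤ_[2]) : ℚ_[2]) = 9 := rfl
      have c5 : ((5 : ℤ_[2]) : ℚ_[2]) = 5 := rfl
      push_cast at q1 q2
      rw [c4, c9] at q1
      rw [c4, c9, c5] at q2
      constructor
      · have e : (u + 9 * m) * (5 * m) = (m * m) * (5 * (4 * (s : ℚ_[2]) + 9)) := by
          rw [hu']
          ring
        rw [e]
        exact (IsSquare.mul_self _).mul q2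
      · have e : u * (u + 9 * m) * (u - 16 * m) = ((4 * m * (4 * m)) *
            ((s : ℚ_[2]) * (4 * (s : ℚ_[2]) + 9) * ((s : ℚ_[2]) - 4))) * m := by
          rw [hu']
          ring
        rw [e] at hs
        refine sq_cancel ?_ ((IsSquare.mul_self _).mul q1) hs
        intro h0
        have : u * (u + 9 * m) * (u - 16 * m) = 0 := by rw [e, h0, zero_mul]
        exact mul_ne_zero (mul_ne_zero hu hv) hw this

/-- **The first coordinate at 2**, `m ≡ 1 mod 4`. -/
theorem two_u {m : ℤ} (hm4 : m % 4 = 1) {u : ℚ_[2]} (hu : u ≠ 0)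
    (hv : u + 9 * m ≠ 0) (hw : u - 16 * m ≠ 0)
    (hs : IsSquare (u * (u + 9 * m) * (u - 16 * m))) : Even u.valuation := by
  have hm : m ≠ 0 := by rintro rfl; simp at hm4
  have hm' : (m : ℚ_[2]) ≠ 0 := by exact_mod_cast hm
  have v2 : ((2 : ℚ_[2])).valuation = 1 := by
    have : (2 : ℚ_[2]) = ((2 : ℕ) : ℚ_[2]) := by norm_num
    rw [this, Padic.valuation_p]
  have hunit : ∀ n : ℤ, ¬ (2 : ℤ) ∣ n → (n : ℚ_[2]).valuation = 0 := by
    intro n hn
    have hn0 : (n : ℚ_[2]) ≠ 0 := by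
      have : n ≠ 0 := by rintro rfl; simp at hn
      exact_mod_cast this
    have h1 : ‖(n : ℚ_[2])‖ = 1 := by
      refine le_antisymm (Padic.norm_int_le_one n) ?_
      rw [← not_lt, Padic.norm_intCast_lt_one_iff]
      exact_mod_cast hn
    have h2 : ‖(n : ℚ_[2])‖ = ‖(1 : ℚ_[2])‖ := by rw [h1, norm_one]
    rw [norm_eq_iff hn0 one_ne_zero] at h2
    rw [h2, Padic.valuation_one]
  have v9 : (9 * (m : ℚ_[2])).valuation = 0 := by
    have := hunit (9 * m) (by omega)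
    push_cast at this
    exact this
  have v16 : (-(16 * (m : ℚ_[2]))).valuation = 4 := by
    have e : -(16 * (m : ℚ_[2])) = 2 ^ 4 * ((-m : ℤ) : ℚ_[2]) := by push_cast; ring
    have h0 : ((-m : ℤ) : ℚ_[2]) ≠ 0 := by exact_mod_cast neg_ne_zero.2 hm
    rw [e, Padic.valuation_mul (by norm_num) h0, hunit (-m) (by omega), Padic.valuation_pow, v2]
    norm_num
  have h9 : (9 * (m : ℚ_[2])) ≠ 0 := mul_ne_zero (by norm_num) hm'
  have h16 : -(16 * (m : ℚ_[2])) ≠ 0 := neg_ne_zero.2 (mul_ne_zero (by norm_num) hm')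
  have hsum : Even (u.valuation + (u + 9 * m).valuation + (u - 16 * m).valuation) := by
    have := even_val (mul_ne_zero (mul_ne_zero hu hv) hw) hs
    rwa [Padic.valuation_mul (mul_ne_zero hu hv) hw, Padic.valuation_mul hu hv] at this
  by_contra hodd
  rw [Int.not_even_iff_odd] at hodd
  obtain ⟨k, hk⟩ := hodd
  obtain ⟨r, hr⟩ := hsum
  obtain ⟨s, hs1, hs2⟩ := unit_part hu
  have hodd := unit_odd hs1
  obtain ⟨y, hy⟩ := hs
  have key : ∀ t : ℤ_[2], (∃ z : ℚ_[2], z ^ 2 = t) → PadicInt.toZModPow 3 t ≠ 3 ∧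
      PadicInt.toZModPow 3 t ≠ 7 := by
    rintro t ⟨z, hz⟩
    obtain ⟨r, hr⟩ := int_of_sq hz
    rw [← hr, map_pow]
    have : ∀ t : ZMod (2 ^ 3), t ^ 2 ≠ 3 ∧ t ^ 2 ≠ 7 := by decide
    exact this _
  have c8 : PadicInt.toZModPow (p := 2) 3 8 = 8 := map_ofNat (PadicInt.toZModPow (p := 2) 3) 8
  have c9 : PadicInt.toZModPow (p := 2) 3 9 = 9 := map_ofNat (PadicInt.toZModPow (p := 2) 3) 9
  have c2 : PadicInt.toZModPow (p := 2) 3 2 = 2 := map_ofNat (PadicInt.toZModPow (p := 2) 3) 2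
  have d8 : ((8 : ℤ_[2]) : ℚ_[2]) = 8 := rfl
  have d9 : ((9 : ℤ_[2]) : ℚ_[2]) = 9 := rfl
  have d2 : ((2 : ℤ_[2]) : ℚ_[2]) = 2 := rfl
  have hmm := mod8_int hm4
  rcases lt_or_ge u.valuation 0 with c | c
  · have e1 := val_add_eq hu h9 hv (by rw [v9]; exact c)
    have e2 := val_add_eq hu h16 (by rwa [← sub_eq_add_neg]) (by rw [v16]; omega)
    rw [← sub_eq_add_neg] at e2
    omega
  · rcases le_or_gt u.valuation 3 with c' | c'
    · have c'' : u.valuation = 1 ∨ u.valuation = 3 := by omega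
      rcases c'' with c'' | c''
      · rw [c'', zpow_one] at hs2
        have h1 := key (s * (s - 8 * m) * (2 * s + 9 * m)) ⟨y / 2, by
          push_cast
          rw [d8, d9, d2, div_pow, pow_two, ← hy, hs2]
          ring⟩
        rw [map_mul, map_mul, map_sub, map_add, map_mul, map_mul, map_mul, c8, c9, c2] at h1
        have h2 : ∀ t μ : ZMod (2 ^ 3), (t = 1 ∨ t = 3 ∨ t = 5 ∨ t = 7) → (μ = 1 ∨ μ = 5) →
          ¬ (t * (t - 8 * μ) * (2 * t + 9 * μ) ≠ 3 ∧ t * (t - 8 * μ) * (2 * t + 9 * μ) ≠ 7) := by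
          decide
        exact h2 _ _ (by simpa using hodd) hmm h1
      · have e3 : (2 : ℚ_[2]) ^ (3 : ℤ) = 8 := by norm_num
        rw [c'', e3] at hs2
        have h1 := key (s * (s - 2 * m) * (8 * s + 9 * m)) ⟨y / 8, by
          push_cast
          rw [d8, d9, d2, div_pow, pow_two, ← hy, hs2]
          ring⟩
        rw [map_mul, map_mul, map_sub, map_add, map_mul, map_mul, map_mul, c8, c9, c2] at h1
        have h2 : ∀ t μ : ZMod (2 ^ 3), (t = 1 ∨ t = 3 ∨ t = 5 ∨ t = 7) → (μ = 1 ∨ μ = 5) →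
          ¬ (t * (t - 2 * μ) * (8 * t + 9 * μ) ≠ 3 ∧ t * (t - 2 * μ) * (8 * t + 9 * μ) ≠ 7) := by
          decide
        exact h2 _ _ (by simpa using hodd) hmm h1
    · have e1 := val_add_eq h9 hu (by rwa [add_comm]) (by rw [v9]; omega)
      have e2 := val_add_eq h16 hu (by rwa [add_comm, ← sub_eq_add_neg]) (by rw [v16]; omega)
      rw [add_comm] at e1
      rw [add_comm, ← sub_eq_add_neg] at e2
      omega

end Pool.Agent.N875.X15
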