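import Mathlib

/-!
# The two sides of Redei's criterion, `n ≡ 3 mod 4`
-/

set_option autoImplicit false

namespace Pool.Agent.N875.X15

open scoped Classical

/-- a kernel contained in a line -/
lemma ker_transpose {ι : Type} [Fintype ι] [DecidableEq ι] (M : Matrix ι ι (ZMod 2))
    (u : ι → ZMod 2) (h : ∀ x : ι → ZMod 2, M.transpose.mulVec x = 0 → x = 0 ∨ x = u)
    (v : ι → ZMod 2) (hv : v ≠ 0) (hv' : M.mulVec v = 0) :
    ∀ y : ι → ZMod 2, M.mulVec y = 0 → y = 0 ∨ y = v := by
  have h1 : Module.finrank (ZMod 2) (LinearMap.ker (Matrix.mulVecLin M.transpose)) ≤ 1 := by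
    by_cases hu : M.transpose.mulVec u = 0
    · refine finrank_le_one (⟨u, hu⟩ : LinearMap.ker (Matrix.mulVecLin M.transpose)) ?_
      rintro ⟨w, hw⟩
      rcases h w hw with h2 | h2
      · exact ⟨0, by rw [zero_smul]; exact Subtype.ext h2.symm⟩
      · exact ⟨1, by rw [one_smul]; exact Subtype.ext h2.symm⟩
    · refine finrank_le_one (0 : LinearMap.ker (Matrix.mulVecLin M.transpose)) ?_
      rintro ⟨w, hw⟩
      rcases h w hw with h2 | h2
      · exact ⟨0, by rw [zero_smul]; exact Subtype.ext h2.symm⟩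
      · exact absurd (by rw [← h2]; exact hw) hu
  have e1 := LinearMap.finrank_range_add_finrank_ker (Matrix.mulVecLin M.transpose)
  have e2 := LinearMap.finrank_range_add_finrank_ker (Matrix.mulVecLin M)
  have e3 : Module.finrank (ZMod 2) (LinearMap.range (Matrix.mulVecLin M.transpose)) =
    Module.finrank (ZMod 2) (LinearMap.range (Matrix.mulVecLin M)) := Matrix.rank_transpose M
  have h2 : Module.finrank (ZMod 2) (LinearMap.ker (Matrix.mulVecLin M)) ≤ 1 := by omega
  obtain ⟨w, hw⟩ := finrank_le_one_iff.1 h2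
  obtain ⟨c, hc⟩ := hw ⟨v, hv'⟩
  have h01 : ∀ c : ZMod 2, c = 0 ∨ c = 1 := by decide
  have hwv : (w : ι → ZMod 2) = v := by
    have h3 := congrArg Subtype.val hc
    rcases h01 c with rfl | rfl
    · rw [zero_smul] at h3
      exact absurd h3.symm hv
    · rw [one_smul] at h3
      exact h3
  intro y hy
  obtain ⟨c', hc'⟩ := hw ⟨y, hy⟩
  have h3 := congrArg Subtype.val hc'
  rcases h01 c' with rfl | rfl
  · rw [zero_smul] at h3
    exact Or.inl h3.symm
  · rw [one_smul] at h3
    right
    rw [← hwv]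
    exact h3.symm

/-- the sign of an element of `𝔽₂` -/
def sg (x : ZMod 2) : ℤ := if x = 0 then 1 else -1

lemma sg_add (x y : ZMod 2) : sg (x + y) = sg x * sg y := by
  revert x y
  decide

lemma sg_inj {x : ZMod 2} : sg x = 1 ↔ x = 0 := by
  revert x
  decide

lemma sg_sum {ι : Type} (s : Finset ι) (f : ι → ZMod 2) : sg (∑ i ∈ s, f i) = ∏ i ∈ s, sg (f i) := by
  induction s using Finset.induction_on with
  | empty => simp [sg]
  | insert a s ha ih => rw [Finset.sum_insert ha, Finset.prod_insert ha, sg_add, ih]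

/-- the additive Jacobi symbol -/
noncomputable def ad (a : ℤ) (n : ℕ) : ZMod 2 := if jacobiSym a n = 1 then 0 else 1

lemma sg_ad {a : ℤ} {n : ℕ} (h : IsCoprime a (n : ℤ)) : sg (ad a n) = jacobiSym a n := by
  unfold ad
  rcases jacobiSym.eq_one_or_neg_one (a := a) (b := n) (Int.isCoprime_iff_gcd_eq_one.1 h) with h1 | h1
  · rw [if_pos h1, h1]
    rfl
  · rw [h1, if_neg (by decide)]
    rfl

/-- **The two sides of Redei's criterion.** -/
theorem transpose_criterion {n : ℕ} (hn : Squarefree n) (h4 : n % 4 = 3)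
    (h : ∀ b c : ℕ, b * c = n → (∀ p : ℕ, p.Prime → p ∣ c → jacobiSym b p = 1) →
      (∀ p : ℕ, p.Prime → p ∣ b → jacobiSym c p = 1) → b = 1 ∨ c = 1) :
    ∀ b c : ℕ, b * c = n → (∀ p : ℕ, p.Prime → p ∣ c → jacobiSym p b = 1) →
      (∀ p : ℕ, p.Prime → p ∣ b → jacobiSym p c = 1) → b = 1 ∨ c = 1 := by
  have hodd : ∀ p ∈ n.primeFactors, p.Prime ∧ p % 2 = 1 ∧ p ∣ n := by
    intro p hp
    rw [Nat.mem_primeFactors] at hp
    refine ⟨hp.1, ?_, hp.2.1⟩
    rcases hp.1.eq_two_or_odd with h1 | h1
    · exfalso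
      rw [h1] at hp
      have := hp.2.1
      omega
    · exact h1
  let ι := {p : ℕ // p ∈ n.primeFactors}
  have hco : ∀ p q : ι, p ≠ q → IsCoprime (((p : ℕ) : ℤ)) ((q : ℕ) : ℤ) := by
    intro p q hpq
    rw [Nat.isCoprime_iff_coprime]
    exact (Nat.coprime_primes (hodd p p.2).1 (hodd q q.2).1).2 (fun h => hpq (Subtype.ext h))
  let a : ι → ι → ZMod 2 := fun p q => ad ((p : ℕ) : ℤ) (q : ℕ)
  let M : Matrix ι ι (ZMod 2) := Matrix.of fun q p =>
    if q = p then ∑ r ∈ Finset.univ.erase q, a q r else a q p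
  -- products over sets of primes
  have hprod : ∀ (q : ι) (s : Finset ι), q ∉ s →
      sg (∑ p ∈ s, a p q) = jacobiSym ((∏ p ∈ s, (p : ℕ) : ℕ) : ℤ) (q : ℕ) := by
    intro q s hs
    rw [sg_sum, Nat.cast_prod]
    have : ∀ (s : Finset ι), jacobiSym (∏ p ∈ s, ((p : ℕ) : ℤ)) (q : ℕ) =
        ∏ p ∈ s, jacobiSym ((p : ℕ) : ℤ) (q : ℕ) := by
      intro s
      induction s using Finset.induction_on with
      | empty => simp [jacobiSym.one_left]
      | insert a s ha ih => rw [Finset.prod_insert ha, Finset.prod_insert ha, jacobiSym.mul_left, ih]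
    rw [this]
    refine Finset.prod_congr rfl fun p hp => ?_
    exact sg_ad (hco p q (fun h => hs (h ▸ hp)))
  have hprod' : ∀ (q : ι) (s : Finset ι), q ∉ s →
      sg (∑ p ∈ s, a q p) = jacobiSym ((q : ℕ) : ℤ) (∏ p ∈ s, (p : ℕ) : ℕ) := by
    intro q s hs
    rw [sg_sum]
    have : ∀ (s : Finset ι), jacobiSym ((q : ℕ) : ℤ) (∏ p ∈ s, (p : ℕ)) =
        ∏ p ∈ s, jacobiSym ((q : ℕ) : ℤ) (p : ℕ) := by
      intro s
      induction s using Finset.induction_on with
      | empty => simp [jacobiSym.one_right]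
      | insert a s ha ih =>
        have : NeZero (a : ℕ) := ⟨(hodd a a.2).1.ne_zero⟩
        have : NeZero (∏ p ∈ s, (p : ℕ)) := ⟨Finset.prod_ne_zero_iff.2
          (fun p _ => (hodd p p.2).1.ne_zero)⟩
        rw [Finset.prod_insert ha, Finset.prod_insert ha, jacobiSym.mul_right, ih]
    rw [this]
    refine Finset.prod_congr rfl fun p hp => ?_
    exact sg_ad (hco q p (fun h => hs (h ▸ hp)))
  -- the product of all primes
  have hall : ∏ p : ι, (p : ℕ) = n := by
    have h1 : ∏ p : ι, (p : ℕ) = ∏ p ∈ n.primeFactors, p :=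
      Finset.prod_coe_sort n.primeFactors (fun p => p)
    rw [h1]
    exact Nat.prod_primeFactors_of_squarefree hn
  have hspl : ∀ s : Finset ι, (∏ p ∈ s, (p : ℕ)) * ∏ p ∈ sᶜ, (p : ℕ) = n := by
    intro s
    rw [Finset.prod_mul_prod_compl, hall]
  -- the diagonal
  have hdiag : ∀ q : ι, ∑ r ∈ Finset.univ.erase q, a q r = ∑ r ∈ Finset.univ.erase q, a r q := by
    intro q
    have h1 : sg (∑ r ∈ Finset.univ.erase q, a q r) = sg (∑ r ∈ Finset.univ.erase q, a r q) := by
      rw [hprod q _ (Finset.notMem_erase _ _), hprod' q _ (Finset.notMem_erase _ _)]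
      set k := ∏ p ∈ Finset.univ.erase q, (p : ℕ) with hk
      have hqk : (q : ℕ) * k = n := by
        rw [hk, Finset.mul_prod_erase _ _ (Finset.mem_univ q), hall]
      have hq2 := (hodd q q.2).2.1
      have hk2 : k % 2 = 1 := by
        rcases Nat.mod_two_eq_zero_or_one k with h | h
        · exfalso
          have : (q : ℕ) * k % 2 = 0 := by rw [Nat.mul_mod, h, mul_zero, Nat.zero_mod]
          omega
        · exact h
      have h5 : (q : ℕ) % 4 * (k % 4) % 4 = 3 := by rw [← Nat.mul_mod, hqk, h4]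
      have h6 : (q : ℕ) % 4 = 1 ∨ k % 4 = 1 := by
        have h7 : (q : ℕ) % 4 = 1 ∨ (q : ℕ) % 4 = 3 := by omega
        have h8 : k % 4 = 1 ∨ k % 4 = 3 := by omega
        rcases h7 with h7 | h7
        · exact Or.inl h7
        · rcases h8 with h8 | h8
          · exact Or.inr h8
          · rw [h7, h8] at h5
            omega
      rcases h6 with h6 | h6
      · exact jacobiSym.quadratic_reciprocity_one_mod_four h6 (Nat.odd_iff.2 hk2)
      · exact (jacobiSym.quadratic_reciprocity_one_mod_four h6 (Nat.odd_iff.2 hq2)).symm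
    have h01 : ∀ x y : ZMod 2, sg x = sg y → x = y := by decide
    exact h01 _ _ h1
  have hM : ∀ (y : ι → ZMod 2) (q : ι), M.mulVec y q =
      (∑ r ∈ Finset.univ.erase q, a q r) * y q + ∑ p ∈ Finset.univ.erase q, a q p * y p := by
    intro y q
    rw [Matrix.mulVec, dotProduct, ← Finset.add_sum_erase _ _ (Finset.mem_univ q)]
    congr 1
    · show (if q = q then _ else _) * _ = _
      rw [if_pos rfl]
    · refine Finset.sum_congr rfl fun p hp => ?_
      show (if q = p then _ else _) * _ = _
      rw [if_neg (Finset.ne_of_mem_erase hp).symm]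
  have hMT : ∀ (y : ι → ZMod 2) (q : ι), M.transpose.mulVec y q =
      (∑ r ∈ Finset.univ.erase q, a r q) * y q + ∑ p ∈ Finset.univ.erase q, a p q * y p := by
    intro y q
    rw [Matrix.mulVec, dotProduct, ← Finset.add_sum_erase _ _ (Finset.mem_univ q)]
    congr 1
    · show (if q = q then _ else _) * _ = _
      rw [if_pos rfl, hdiag]
    · refine Finset.sum_congr rfl fun p hp => ?_
      show (if p = q then _ else _) * _ = _
      rw [if_neg (Finset.ne_of_mem_erase hp)]
  have h01 : ∀ c : ZMod 2, c = 0 ∨ c = 1 := by decide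
  have hflt : ∀ (f : ι → ZMod 2) (y : ι → ZMod 2) (s : Finset ι),
      ∑ p ∈ s, f p * y p = ∑ p ∈ s.filter (fun p => y p = 1), f p := by
    intro f y s
    rw [Finset.sum_filter]
    refine Finset.sum_congr rfl fun p _ => ?_
    rcases h01 (y p) with h1 | h1
    · rw [h1, mul_zero, if_neg (by decide)]
    · rw [h1, mul_one, if_pos rfl]
  have hflt' : ∀ (f : ι → ZMod 2) (y : ι → ZMod 2) (s : Finset ι),
      ∑ p ∈ s, f p + ∑ p ∈ s, f p * y p = ∑ p ∈ s.filter (fun p => ¬ y p = 1), f p := by
    intro f y s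
    rw [← Finset.sum_add_distrib, Finset.sum_filter]
    refine Finset.sum_congr rfl fun p _ => ?_
    have h2 : ∀ c : ZMod 2, c + c = 0 := by decide
    rcases h01 (y p) with h1 | h1
    · rw [h1, mul_zero, add_zero, if_pos (by decide)]
    · rw [h1, mul_one, h2, if_neg (by simp)]
  have hT : ∀ x : ι → ZMod 2, M.transpose.mulVec x = 0 → x = 0 ∨ x = 1 := by
    intro x hx
    set s := Finset.univ.filter (fun p : ι => x p = 1) with hs
    have key : ∀ q : ι, (x q = 0 → jacobiSym ((∏ p ∈ s, (p : ℕ) : ℕ) : ℤ) (q : ℕ) = 1) ∧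
        (x q = 1 → jacobiSym ((∏ p ∈ sᶜ, (p : ℕ) : ℕ) : ℤ) (q : ℕ) = 1) := by
      intro q
      have h1 := congrFun hx q
      rw [hMT] at h1
      constructor
      · intro h2
        rw [h2, mul_zero, zero_add, hflt (fun p => a p q)] at h1
        have h3 : (Finset.univ.erase q).filter (fun p => x p = 1) = s := by
          ext p
          simp only [hs, Finset.mem_filter, Finset.mem_erase, Finset.mem_univ, and_true, true_and]
          constructor
          · exact fun h => h.2
          · intro h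
            refine ⟨?_, h⟩
            rintro rfl
            rw [h] at h2
            exact absurd h2 (by decide)
        rw [h3] at h1
        rw [← hprod q s (by rw [hs]; simp [h2]), h1]
        rfl
      · intro h2
        rw [h2, mul_one, hflt' (fun p => a p q)] at h1
        have h3 : (Finset.univ.erase q).filter (fun p => ¬ x p = 1) = sᶜ := by
          ext p
          simp only [hs, Finset.mem_filter, Finset.mem_erase, Finset.mem_univ, and_true,
            Finset.mem_compl, true_and]
          constructor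
          · exact fun h => h.2
          · intro h
            refine ⟨?_, h⟩
            rintro rfl
            exact h h2
        rw [h3] at h1
        rw [← hprod q sᶜ (by rw [hs]; simp [h2]), h1]
        rfl
    have hmem : ∀ (s : Finset ι) (p : ℕ), p.Prime → p ∣ ∏ q ∈ s, (q : ℕ) → ∃ q ∈ s, (q : ℕ) = p := by
      intro s p hp hps
      obtain ⟨q, hq, hpq⟩ := (Prime.dvd_finsetProd_iff hp.prime _).1 hps
      exact ⟨q, hq, ((Nat.prime_dvd_prime_iff_eq hp (hodd q q.2).1).1 hpq).symm⟩
    have hone : ∀ s : Finset ι, ∏ q ∈ s, (q : ℕ) = 1 → s = ∅ := by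
      intro s h1
      rw [Finset.eq_empty_iff_forall_notMem]
      intro q hq
      have := Finset.dvd_prod_of_mem (fun q : ι => (q : ℕ)) hq
      rw [h1, Nat.dvd_one] at this
      exact (hodd q q.2).1.one_lt.ne' this
    rcases h _ _ (hspl s) (fun p hp hpc => by
        obtain ⟨q, hq, rfl⟩ := hmem _ _ hp hpc
        refine (key q).1 ?_
        rcases h01 (x q) with h1 | h1
        · exact h1
        · exfalso
          rw [Finset.mem_compl] at hq
          exact hq (by rw [hs]; simp [h1])) (fun p hp hpc => by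
        obtain ⟨q, hq, rfl⟩ := hmem _ _ hp hpc
        refine (key q).2 ?_
        rw [hs, Finset.mem_filter] at hq
        exact hq.2) with h2 | h2
    · left
      funext q
      rcases h01 (x q) with h1 | h1
      · exact h1
      · exfalso
        have : q ∈ s := by rw [hs]; simp [h1]
        rw [hone s h2] at this
        exact absurd this (Finset.notMem_empty q)
    · right
      funext q
      rcases h01 (x q) with h1 | h1
      · exfalso
        have : q ∈ sᶜ := by
          rw [Finset.mem_compl, hs]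
          simp [h1]
        rw [hone sᶜ h2] at this
        exact absurd this (Finset.notMem_empty q)
      · exact h1
  -- the conclusion
  intro b c hbc hb hc
  have hn1 : n ≠ 1 := by omega
  obtain ⟨p0, hp0⟩ := Nat.nonempty_primeFactors.2 (show 1 < n by omega)
  have hone' : (1 : ι → ZMod 2) ≠ 0 := by
    intro h1
    have : (1 : ZMod 2) = 0 := congrFun h1 ⟨p0, hp0⟩
    exact absurd this (by decide)
  have hM1 : M.mulVec 1 = 0 := by
    funext q
    rw [hM]
    have h2 : ∀ c : ZMod 2, c + c = 0 := by decide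
    simp only [Pi.one_apply, mul_one, Pi.zero_apply]
    exact h2 _
  have hker := ker_transpose M 1 hT 1 hone' hM1
  have hbn : b ∣ n := ⟨c, hbc.symm⟩
  have hcn : c ∣ n := ⟨b, by rw [mul_comm, hbc]⟩
  have hbs : Squarefree b := hn.squarefree_of_dvd hbn
  have hcs : Squarefree c := hn.squarefree_of_dvd hcn
  have hcop : Nat.Coprime b c := by
    rw [← hbc] at hn
    exact Nat.coprime_of_squarefree_mul hn
  let y : ι → ZMod 2 := fun p => if (p : ℕ) ∣ b then 1 else 0
  set s := Finset.univ.filter (fun p : ι => y p = 1) with hs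
  have hy : ∀ p : ι, y p = 1 ↔ (p : ℕ) ∣ b := by
    intro p
    show (if (p : ℕ) ∣ b then (1 : ZMod 2) else 0) = 1 ↔ _
    split_ifs with h1
    · simp [h1]
    · simp [h1]
  have hsb : ∏ p ∈ s, (p : ℕ) = b := by
    have h1 : ∏ p ∈ s, (p : ℕ) = ∏ p ∈ b.primeFactors, p := by
      refine Finset.prod_bij (fun p _ => (p : ℕ)) ?_ ?_ ?_ ?_
      · intro p hp
        rw [hs, Finset.mem_filter] at hp
        exact Nat.mem_primeFactors.2 ⟨(hodd p p.2).1, (hy p).1 hp.2, hbs.ne_zero⟩
      · intro p _ q _ h1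
        exact Subtype.ext h1
      · intro p hp
        rw [Nat.mem_primeFactors] at hp
        refine ⟨⟨p, Nat.mem_primeFactors.2 ⟨hp.1, hp.2.1.trans hbn, hn.ne_zero⟩⟩, ?_, rfl⟩
        rw [hs, Finset.mem_filter]
        exact ⟨Finset.mem_univ _, (hy _).2 hp.2.1⟩
      · intro p _
        rfl
    rw [h1]
    exact Nat.prod_primeFactors_of_squarefree hbs
  have hsc : ∏ p ∈ sᶜ, (p : ℕ) = c := by
    have h1 := hspl s
    rw [hsb] at h1
    exact Nat.eq_of_mul_eq_mul_left (Nat.pos_of_ne_zero hbs.ne_zero) (h1.trans hbc.symm)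
  have hMy : M.mulVec y = 0 := by
    funext q
    rw [hM, Pi.zero_apply]
    rcases h01 (y q) with h1 | h1
    · rw [h1, mul_zero, zero_add, hflt (fun p => a q p)]
      have h3 : (Finset.univ.erase q).filter (fun p => y p = 1) = s := by
        ext p
        simp only [hs, Finset.mem_filter, Finset.mem_erase, Finset.mem_univ, and_true, true_and]
        constructor
        · exact fun h => h.2
        · intro h
          refine ⟨?_, h⟩
          rintro rfl
          rw [h] at h1
          exact absurd h1 (by decide)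
      rw [h3, ← sg_inj, hprod' q s (by rw [hs]; simp [h1]), hsb]
      refine hb q (hodd q q.2).1 ?_
      have h4 : (q : ℕ) ∣ b * c := by rw [hbc]; exact (hodd q q.2).2.2
      rcases (hodd q q.2).1.dvd_mul.1 h4 with h5 | h5
      · rw [(hy q).2 h5] at h1
        exact absurd h1 (by decide)
      · exact h5
    · rw [h1, mul_one, hflt' (fun p => a q p)]
      have h3 : (Finset.univ.erase q).filter (fun p => ¬ y p = 1) = sᶜ := by
        ext p
        simp only [hs, Finset.mem_filter, Finset.mem_erase, Finset.mem_univ, and_true,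
          Finset.mem_compl, true_and]
        constructor
        · exact fun h => h.2
        · intro h
          refine ⟨?_, h⟩
          rintro rfl
          exact h h1
      rw [h3, ← sg_inj, hprod' q sᶜ (by rw [hs]; simp [h1]), hsc]
      exact hc q (hodd q q.2).1 ((hy q).1 h1)
  rcases hker y hMy with h1 | h1
  · left
    by_contra hb1
    obtain ⟨p, hp, hpb⟩ := Nat.exists_prime_and_dvd hb1
    have h2 := congrFun h1 ⟨p, Nat.mem_primeFactors.2 ⟨hp, hpb.trans hbn, hn.ne_zero⟩⟩
    have h3 := (hy ⟨p, Nat.mem_primeFactors.2 ⟨hp, hpb.trans hbn, hn.ne_zero⟩⟩).2 hpb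
    rw [h3] at h2
    have h4 : (1 : ZMod 2) = 0 := h2
    exact absurd h4 (by decide)
  · right
    by_contra hc1
    obtain ⟨p, hp, hpc⟩ := Nat.exists_prime_and_dvd hc1
    have h2 := congrFun h1 ⟨p, Nat.mem_primeFactors.2 ⟨hp, hpc.trans hcn, hn.ne_zero⟩⟩
    have h3 := (hy ⟨p, Nat.mem_primeFactors.2 ⟨hp, hpc.trans hcn, hn.ne_zero⟩⟩).1 h2
    have h5 := Nat.Coprime.eq_one_of_dvd (hcop.symm.coprime_dvd_left hpc) h3
    exact hp.one_lt.ne' h5

end Pool.Agent.N875.X15
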