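import Pool.Agent.N875.X15.Conv
import Pool.Agent.Y473.FK.Alg
import Pool.Agent.Y168.FK.Leg
import Pool.Agent.Y629.FK.Sq
import Pool.Agent.Y688.FK.Amb2
import Pool.Agent.Y486.FK.Amb1

/-!
# The algebraic side: `E_{-n}(ℚ)` finite and `Ш[2] = 0` if and only if the 4-rank is zero
-/

set_option autoImplicit false

namespace Pool.Agent.N875.X15

open WeierstrassCurve
open Pool.Agent.TH841.SH.D (Sha)
open Pool.Agent.H437R2.Man.MW (crv pt_fg)

open scoped Classical in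
lemma fg_E {m : ℤ} (hm : m ≠ 0) : AddGroup.FG (EQm m).toAffine.Point := by
  have h := isR m
  have hm' : (m : ℚ) ≠ 0 := by exact_mod_cast hm
  have hW : EQm m = crv (-(((0 : ℤ)) : ℚ)) (-((-9 * m : ℤ) : ℚ)) (-((16 * m : ℤ) : ℚ)) := by
    apply WeierstrassCurve.ext
    · rw [h.h1]
      rfl
    · rw [h.h2]
      show _ = -(((0 : ℤ)) : ℚ) + -((-9 * m : ℤ) : ℚ) + -((16 * m : ℤ) : ℚ)
      ring
    · rw [h.h3]
      rfl
    · rw [h.h4]
      show _ = -(((0 : ℤ)) : ℚ) * -((-9 * m : ℤ) : ℚ) + -(((0 : ℤ)) : ℚ) * -((16 * m : ℤ) : ℚ) +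
        -((-9 * m : ℤ) : ℚ) * -((16 * m : ℤ) : ℚ)
      ring
    · rw [h.h6]
      show _ = -(((0 : ℤ)) : ℚ) * -((-9 * m : ℤ) : ℚ) * -((16 * m : ℤ) : ℚ)
      ring
  rw [hW]
  refine pt_fg ?_ ?_ ?_
  · intro h1
    apply hm'
    push_cast at h1
    linear_combination (-1 / 9 : ℚ) * h1
  · intro h1
    apply hm'
    push_cast at h1
    linear_combination (1 / 16 : ℚ) * h1
  · intro h1
    apply hm'
    push_cast at h1
    linear_combination (1 / 25 : ℚ) * h1

lemma fin_of_rank {A : Type} [AddCommGroup A] (hfg : AddGroup.FG A) (h : Module.finrank ℤ A = 0) :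
    Finite A := by
  have h1 : Module.Finite ℤ A := Module.Finite.iff_addGroup_fg.2 hfg
  have h2 := (Module.finrank_eq_zero_iff_isTorsion (R := ℤ) (M := A)).1 h
  exact Module.finite_of_fg_torsion A h2

theorem finite_of_crit {m : ℤ} (hm : Cls m) (hR : RC m) (hN : NC m) :
    Finite (EQm m).toAffine.Point ∧
    ∀ (k : ℕ) (x : Sha (EQm m)), (2 ^ k : ℕ) • x = 0 → x = 0 := by
  obtain ⟨h1, h2⟩ := rank_sha hm hR hN
  exact ⟨fin_of_rank (fg_E hm.neg.ne) h1, h2⟩

section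

variable {n : ℕ}

lemma cls_neg (hn : Squarefree n) (h60 : n % 60 = 23 ∨ n % 60 = 47) : Cls (-(n : ℤ)) := by
  refine ⟨?_, ?_, by omega, by omega⟩
  · have := hn.ne_zero
    omega
  · intro x hx
    rw [dvd_neg] at hx
    exact Int.squarefree_natCast.2 hn x hx

lemma qc_of_nc (hn : Squarefree n) (h4 : n % 4 = 3) (h : NC (-(n : ℤ))) : Qc n := by
  intro b c hbc hb hc
  have hb0 : b ≠ 0 := by rintro rfl; rw [zero_mul] at hbc; omega
  have hbs : Squarefree b := hn.squarefree_of_dvd ⟨c, hbc.symm⟩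
  have hcop : Nat.Coprime b c := by
    rw [← hbc] at hn
    exact Nat.coprime_of_squarefree_mul hn
  have key : ∀ (p : ℕ) [Fact p.Prime], p ≠ 2 → ∀ a : ℕ, ¬ p ∣ a → jacobiSym a p = 1 →
      IsSquare ((a : ℤ) : ℚ_[p]) := by
    intro p hp hp2 a hpa hj
    have hpa' : ¬ (p : ℤ) ∣ (a : ℤ) := by
      intro h1
      exact hpa (by exact_mod_cast h1)
    refine sq_of_zmod hp2 hpa' ?_
    rw [← jacobiSym.legendreSym.to_jacobiSym] at hj
    exact (legendreSym.eq_one_iff p (fun h0 =>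
      hpa' ((ZMod.intCast_zmod_eq_zero_iff_dvd (a : ℤ) p).1 h0))).1 hj
  rcases h (b : ℤ) (by exact_mod_cast Nat.pos_of_ne_zero hb0) (Int.squarefree_natCast.2 hbs)
    (fun p _ hp => (ram_iff h4 p).2 ((by exact_mod_cast hp : p ∣ b).trans ⟨c, hbc.symm⟩))
    (fun p hp hp2 hpm => by
      rw [dvd_neg] at hpm
      have hpn : p ∣ n := by exact_mod_cast hpm
      rw [← hbc] at hpn
      rcases hp.out.dvd_mul.1 hpn with h1 | h1
      · right
        have h2 : ¬ p ∣ c := fun h3 => hp.out.one_lt.ne' (Nat.eq_one_of_dvd_coprimes hcop h1 h3)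
        have h3 := key p hp2 c h2 (hc p hp.out h1)
        push_cast at h3 ⊢
        rw [neg_neg]
        have e : (b : ℚ_[p]) * (n : ℚ_[p]) = (b * b) * c := by
          rw [← hbc]; push_cast; ring
        rw [e]
        exact (IsSquare.mul_self _).mul h3
      · left
        have h2 : ¬ p ∣ b := fun h3 => hp.out.one_lt.ne' (Nat.eq_one_of_dvd_coprimes hcop h3 h1)
        exact key p hp2 b h2 (hb p hp.out h1)) with h1 | h1
  · left
    exact_mod_cast h1
  · right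
    rw [neg_neg] at h1
    have h2 : b = n := by exact_mod_cast h1
    rw [h2] at hbc
    have h3 := hn.ne_zero
    exact Nat.eq_of_mul_eq_mul_left (Nat.pos_of_ne_zero h3) (by rw [hbc, mul_one])

/-- **The algebraic criterion.** -/
theorem crit_iff (hn : Squarefree n) (h60 : n % 60 = 23 ∨ n % 60 = 47) :
    (Finite (EQm (-(n : ℤ))).toAffine.Point ∧
      ∀ x : Sha (EQm (-(n : ℤ))), x + x = 0 → x = 0) ↔ Qc n := by
  have h4 : n % 4 = 3 := by omega
  constructor
  · rintro ⟨h1, h2⟩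
    exact qc_of_nc hn h4 (nc_of_fin (cls_neg hn h60) (by omega) h1 h2)
  · intro h
    obtain ⟨h1, h2⟩ := finite_of_crit (cls_neg hn h60) (rc_of hn h4 h) (nc_of hn h4 h)
    refine ⟨h1, fun x hx => h2 1 x ?_⟩
    rw [pow_one, two_nsmul]
    exact hx

theorem sha_pow (hn : Squarefree n) (h60 : n % 60 = 23 ∨ n % 60 = 47) (h : Qc n) :
    ∀ (k : ℕ) (x : Sha (EQm (-(n : ℤ)))), (2 ^ k : ℕ) • x = 0 → x = 0 := by
  have h4 : n % 4 = 3 := by omega
  exact (finite_of_crit (cls_neg hn h60) (rc_of hn h4 h) (nc_of hn h4 h)).2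

end

/-! ### The class group -/

section cl

open Pool.Agent.Y755.FK (Rn S_AMB1 S_AMB S_SQ S_LEG)
open NumberField

/-- **The 4-rank**, `n ≡ 3 mod 4`: the class group of `ℚ(√-n)` has no element of order four if and
only if `Qc n`. -/
theorem qc_iff_class {n : ℕ} (hn : Squarefree n) (h4 : n % 4 = 3) (K : Type) [Field K]
    [NumberField K] (h2 : Module.finrank ℚ K = 2) (hs : ∃ s : K, s ^ 2 = -(n : K)) :
    (∀ c : ClassGroup (𝓞 K), c ^ 4 = 1 → c ^ 2 = 1) ↔ Qc n := by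
  classical
  have hA1 : S_AMB1 := Pool.Agent.Y486.FK.t_AMB1
  have hA : S_AMB := Pool.Agent.Y688.FK.t_AMB2 hA1
  have hS : S_SQ := Pool.Agent.Y629.FK.t_SQ
  have hL : S_LEG := Pool.Agent.Y168.FK.t_LEG
  have hc := Pool.Agent.Y473.FK.Alg.count K hA1 hA hS h2 n hn hs
  have hRn : Rn n = n := by
    unfold Rn
    rw [if_neg (by omega)]
  rw [hRn] at hc
  have hn0 := hn.ne_zero
  have hn1 : n ≠ 1 := by omega
  have hodd : ∀ p : ℕ, p.Prime → p ∣ n → p ≠ 2 := by
    rintro p hp hpn rfl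
    omega
  have hrep : ∀ b c : ℕ, b * c = n → (Pool.Agent.Y473.FK.Alg.Rep n b ↔
      (∀ p : ℕ, p.Prime → p ∣ c → jacobiSym b p = 1) ∧
        ∀ p : ℕ, p.Prime → p ∣ b → jacobiSym c p = 1) := by
    intro b c hbc
    have h1 := hL.1 b c (by rw [hbc]; exact hn)
    rw [hbc] at h1
    refine h1.trans ?_
    constructor
    · rintro ⟨h3, h4⟩
      exact ⟨fun p hp hpc => h3 p hp (hodd p hp (hpc.trans ⟨b, by rw [← hbc, mul_comm]⟩)) hpc,
        fun p hp hpb => h4 p hp (hodd p hp (hpb.trans ⟨c, hbc.symm⟩)) hpb⟩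
    · rintro ⟨h3, h4⟩
      exact ⟨fun p hp _ hpc => h3 p hp hpc, fun p hp _ hpb => h4 p hp hpb⟩
  have h1rep : Pool.Agent.Y473.FK.Alg.Rep n 1 := by
    rw [hrep 1 n (one_mul n)]
    refine ⟨fun p _ _ => ?_, fun p hp h => ?_⟩
    · rw [Nat.cast_one]; exact jacobiSym.one_left p
    · rw [Nat.dvd_one] at h
      exact absurd h hp.one_lt.ne'
  have hnrep : Pool.Agent.Y473.FK.Alg.Rep n n := by
    rw [hrep n 1 (mul_one n)]
    refine ⟨fun p hp h => ?_, fun p _ _ => ?_⟩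
    · rw [Nat.dvd_one] at h
      exact absurd h hp.one_lt.ne'
    · rw [Nat.cast_one]; exact jacobiSym.one_left p
  have hsub : ({1, n} : Finset ℕ) ⊆ n.divisors.filter (fun b => Pool.Agent.Y473.FK.Alg.Rep n b) := by
    intro b hb
    rw [Finset.mem_insert, Finset.mem_singleton] at hb
    rw [Finset.mem_filter, Nat.mem_divisors]
    rcases hb with rfl | rfl
    · exact ⟨⟨one_dvd _, hn0⟩, h1rep⟩
    · exact ⟨⟨dvd_rfl, hn0⟩, hnrep⟩
  have hcard2 : ({1, n} : Finset ℕ).card = 2 := Finset.card_pair hn1.symm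
  constructor
  · intro h b c hbc hb hcc
    have h3 : Nat.card {y : ClassGroup (𝓞 K) // ∃ x : ClassGroup (𝓞 K), x ^ 4 = 1 ∧ x ^ 2 = y} =
        1 := by
      rw [Nat.card_eq_one_iff_unique]
      refine ⟨⟨?_⟩, ⟨⟨1, 1, one_pow 4, one_pow 2⟩⟩⟩
      rintro ⟨y, x, hx, hy⟩ ⟨y', x', hx', hy'⟩
      apply Subtype.ext
      show y = y'
      rw [← hy, ← hy', h x hx, h x' hx']
    rw [h3, mul_one] at hc
    have h5 := Finset.eq_of_subset_of_card_le hsub (by rw [hc, hcard2])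
    have h6 : b ∈ n.divisors.filter (fun b => Pool.Agent.Y473.FK.Alg.Rep n b) := by
      rw [Finset.mem_filter, Nat.mem_divisors]
      exact ⟨⟨⟨c, hbc.symm⟩, hn0⟩, (hrep b c hbc).2 ⟨hb, hcc⟩⟩
    rw [← h5, Finset.mem_insert, Finset.mem_singleton] at h6
    rcases h6 with h6 | h6
    · exact Or.inl h6
    · right
      rw [h6] at hbc
      exact Nat.eq_of_mul_eq_mul_left (Nat.pos_of_ne_zero hn0) (by rw [hbc, mul_one])
  · intro h
    have h5 : n.divisors.filter (fun b => Pool.Agent.Y473.FK.Alg.Rep n b) = {1, n} := by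
      apply Finset.Subset.antisymm _ hsub
      intro b hb
      rw [Finset.mem_filter, Nat.mem_divisors] at hb
      obtain ⟨⟨⟨c, hbc⟩, -⟩, hb2⟩ := hb
      obtain ⟨h6, h7⟩ := (hrep b c hbc.symm).1 hb2
      rw [Finset.mem_insert, Finset.mem_singleton]
      rcases h b c hbc.symm h6 h7 with h8 | h8
      · exact Or.inl h8
      · right
        rw [hbc, h8, mul_one]
    rw [h5, hcard2] at hc
    have h3 : Nat.card {y : ClassGroup (𝓞 K) // ∃ x : ClassGroup (𝓞 K), x ^ 4 = 1 ∧ x ^ 2 = y} =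
        1 := by omega
    rw [Nat.card_eq_one_iff_unique] at h3
    obtain ⟨⟨h3⟩, -⟩ := h3
    intro c hc4
    have := h3 ⟨c ^ 2, c, hc4, rfl⟩ ⟨1, 1, one_pow 4, one_pow 2⟩
    exact congrArg Subtype.val this

end cl

end Pool.Agent.N875.X15
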