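import Pool.Agent.N875.X15.Glob

/-!
# The 2-Selmer group of `y² = x (x + 9 m) (x - 16 m)`, `m < 0`: global part
-/

set_option autoImplicit false

namespace Pool.Agent.N875.X15

open Pool.Agent.TH841.SH (LocC SelG)
open Pool.Agent.Y667.RP (mod_of_sq)

/-- the signs -/
lemma loc_sign {m d1 d2 : ℤ} (hm : m < 0) (hd1 : d1 ≠ 0) (hd2 : d2 ≠ 0)
    (h : LocC ℝ 0 (-9 * m) (16 * m) d1 d2) : (0 < d1 ∧ 0 < d2) ∨ (d1 < 0 ∧ d2 < 0) := by
  obtain ⟨u, hu, hv, hw, hs, h1, h2⟩ := locC_iff h
  have hm' : (m : ℝ) < 0 := by exact_mod_cast hm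
  have k1 : 0 ≤ u * d1 := by
    obtain ⟨r, hr⟩ := h1
    rw [hr]
    exact mul_self_nonneg r
  have k2 : 0 ≤ (u + 9 * m) * d2 := by
    obtain ⟨r, hr⟩ := h2
    rw [hr]
    exact mul_self_nonneg r
  have k3 : 0 < u * (u + 9 * m) * (u - 16 * m) := by
    obtain ⟨r, hr⟩ := hs
    refine lt_of_le_of_ne ?_ (mul_ne_zero (mul_ne_zero hu hv) hw).symm
    rw [hr]
    exact mul_self_nonneg r
  rcases lt_or_gt_of_ne hu with c | c
  · right
    have c2 : u + 9 * m < 0 := by linarith
    constructor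
    · by_contra hcon
      have h3 : (0 : ℝ) < d1 := by
        have : 0 < d1 := by omega
        exact_mod_cast this
      nlinarith
    · by_contra hcon
      have h3 : (0 : ℝ) < d2 := by
        have : 0 < d2 := by omega
        exact_mod_cast this
      nlinarith
  · left
    have c2 : 0 < u - 16 * m := by linarith
    have c3 : 0 < u + 9 * m := by
      by_contra hcon
      push Not at hcon
      have : u * (u + 9 * m) * (u - 16 * m) ≤ 0 :=
        mul_nonpos_of_nonpos_of_nonneg (mul_nonpos_of_nonneg_of_nonpos c.le hcon) c2.le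
      linarith
    constructor
    · by_contra hcon
      have h3 : (d1 : ℝ) < 0 := by
        have : d1 < 0 := by omega
        exact_mod_cast this
      nlinarith
    · by_contra hcon
      have h3 : (d2 : ℝ) < 0 := by
        have : d2 < 0 := by omega
        exact_mod_cast this
      nlinarith

/-- a squarefree integer is not a square times 2 -/
lemma odd_of_sq {d : ℤ} (hd : Squarefree d) (h : IsSquare (d : ℚ_[2])) : d % 8 = 1 := by
  refine mod_of_sq ?_ h
  have h1 : IsSquare ((1 : ℚ_[2]) * d) := by rwa [one_mul]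
  exact_mod_cast not_dvd_of_even one_ne_zero (by rw [Padic.valuation_one]; exact Even.zero) hd h1

/-- the second coordinate is a local decomposition of the second kind at 2 -/
lemma loc_two {m d1 d2 : ℤ} (hm : Cls m) (hd2 : Squarefree d2)
    (h : LocC ℚ_[2] 0 (-9 * m) (16 * m) d1 d2) :
    (IsSquare (d2 : ℚ_[2]) ∨ IsSquare ((d2 : ℚ_[2]) * m)) ∨ (m % 8 = 1 ∧ d2 % 4 = 1) := by
  obtain ⟨u, hu, hv, hw, hs, h1, h2⟩ := locC_iff h
  have hm0 : m ≠ 0 := hm.neg.ne
  rcases two_v hm0 hu hv hw hs with h3 | h3 | ⟨h3, h4⟩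
  · left; left
    exact sq_cancel hv h3 h2
  · left; right
    exact to_coord hv h3 h2
  · right
    have h5 := odd_of_sq hm.sqf h4
    refine ⟨h5, ?_⟩
    have h6 : IsSquare ((d2 : ℚ_[2]) * (5 * m)) := to_coord hv h3 h2
    have h7 : IsSquare ((m : ℚ_[2]) * (5 * d2)) := by
      have e : (m : ℚ_[2]) * (5 * d2) = (d2 : ℚ_[2]) * (5 * m) := by ring
      rwa [e]
    have hm' : (m : ℚ_[2]) ≠ 0 := by exact_mod_cast hm0
    have h8 : IsSquare (((5 * d2 : ℤ)) : ℚ_[2]) := by
      push_cast
      exact sq_cancel hm' h4 h7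
    have h9 : ¬ ((2 : ℕ) : ℤ) ∣ d2 := by
      have h10 : IsSquare ((5 : ℚ_[2]) * d2) := by exact_mod_cast h8
      refine not_dvd_of_even (by norm_num) ?_ hd2 h10
      have : ((5 : ℤ) : ℚ_[2]).valuation = 0 := val_zero (by norm_num)
      have h5' : (5 : ℚ_[2]).valuation = 0 := by exact_mod_cast this
      rw [h5']
      exact Even.zero
    have h11 := mod_of_sq (d := 5 * d2) (by push_cast at h9; omega) h8
    omega

lemma loc_two_odd {m d1 d2 : ℤ} (hm : Cls m) (hm4 : m % 4 = 1) (hd1 : Squarefree d1)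
    (hd2 : Squarefree d2)
    (h : LocC ℚ_[2] 0 (-9 * m) (16 * m) d1 d2) : ¬ (2 : ℤ) ∣ d1 ∧ d2 % 4 = 1 := by
  constructor
  · obtain ⟨u, hu, hv, hw, hs, h1, h2⟩ := locC_iff h
    exact_mod_cast not_dvd_of_even hu (two_u hm4 hu hv hw hs) hd1 h1
  · rcases loc_two hm hd2 h with (h1 | h1) | h1
    · have := odd_of_sq hd2 h1
      omega
    · have hmm : ¬ (2 : ℤ) ∣ m := by omega
      have h9 : ¬ ((2 : ℕ) : ℤ) ∣ d2 := by
        have h10 : IsSquare ((m : ℚ_[2]) * d2) := by rwa [mul_comm]
        have hm' : (m : ℚ_[2]) ≠ 0 := by exact_mod_cast hm.neg.ne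
        refine not_dvd_of_even hm' ?_ hd2 h10
        rw [val_zero (by exact_mod_cast hmm)]
        exact Even.zero
      have h11 := mod_of_sq (d := d2 * m) (by
        intro h12
        rcases Int.prime_two.dvd_or_dvd h12 with h13 | h13
        · exact h9 (by exact_mod_cast h13)
        · exact hmm h13) (by push_cast; exact h1)
      have h14 : d2 % 4 * (m % 4) % 4 = 1 := by
        rw [← Int.mul_emod]
        omega
      rw [hm4] at h14
      omega
    · exact h1.2

/-- **The 2-Selmer group.** -/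
theorem sel_sub {m : ℤ} (hm : Cls m) (hR : RC m) (hN : NC m) {d1 d2 : ℤ}
    (h : (d1, d2) ∈ SelG 0 (-9 * m) (16 * m)) :
    (d1, d2) ∈ ({(1, 1), (-1, m), (-m, 1), (m, m)} : Set (ℤ × ℤ)) := by
  obtain ⟨s1, s2, hR', hp⟩ := h
  simp only at s1 s2 hR' hp
  have hm0 : m ≠ 0 := hm.neg.ne
  have hsg := loc_sign hm.neg s1.ne_zero s2.ne_zero hR'
  -- the support of the coordinates
  have supp : ∀ p : ℕ, p.Prime → ((p : ℤ) ∣ d1 → Ram m p) ∧ ((p : ℤ) ∣ d2 → Ram m p) := by
    intro p hpp
    have : Fact p.Prime := ⟨hpp⟩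
    by_cases hpm : (p : ℤ) ∣ m
    · exact ⟨fun _ => Or.inl hpm, fun _ => Or.inl hpm⟩
    by_cases hp2 : p = 2
    · subst hp2
      by_cases hm4 : m % 4 = 1
      · obtain ⟨h1, h2⟩ := loc_two_odd hm hm4 s1 s2 (hp 2)
        constructor
        · intro h3
          exact absurd (by exact_mod_cast h3) h1
        · intro h3
          have : (2 : ℤ) ∣ d2 := by exact_mod_cast h3
          omega
      · exact ⟨fun _ => Or.inr ⟨rfl, hm4⟩, fun _ => Or.inr ⟨rfl, hm4⟩⟩
    · obtain ⟨h1, h2⟩ := loc_ndvd hp2 hm hpm s1 s2 (hp p)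
      exact ⟨fun h => absurd h h1, fun h => absurd h h2⟩
  -- the second coordinate
  have hd2 : d2 = 1 ∨ d2 = m := by
    refine hR d2 s2 (fun p hpp => (supp p hpp).2) (fun h4 => (loc_two_odd hm h4 s1 s2 (hp 2)).2) ?_
    intro p hpp hram
    by_cases hp2 : p = 2
    · subst hp2
      rcases loc_two hm s2 (hp 2) with h1 | h1
      · exact h1
      · exfalso
        rcases hram with h2 | ⟨-, h2⟩
        · have : (2 : ℤ) ∣ m := by exact_mod_cast h2
          omega
        · omega
    · have hpm : (p : ℤ) ∣ m := by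
        rcases hram with h | h
        · exact h
        · exact absurd h.1 hp2
      rcases loc_dvd hp2 hm.sqf hpm (hp p) with h | h | h | h
      · exact Or.inl h.2
      · exact Or.inr h.2
      · exact Or.inl h.2
      · exact Or.inr h.2
  have hmsq : ∀ (p : ℕ) [Fact p.Prime], p ≠ 2 → (p : ℤ) ∣ m → ¬ IsSquare (m : ℚ_[p]) := by
    intro p hpp _ hpm hsq
    have h1 : IsSquare ((1 : ℚ_[p]) * m) := by rwa [one_mul]
    exact not_dvd_of_even one_ne_zero (by rw [Padic.valuation_one]; exact Even.zero) hm.sqf h1 hpm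
  rcases hd2 with rfl | rfl
  · -- `d2 = 1`
    have hpos : 0 < d1 := by
      rcases hsg with h | h
      · exact h.1
      · omega
    have h1 : d1 = 1 ∨ d1 = -m := by
      refine hN d1 hpos s1 (fun p hpp => (supp p hpp).1) ?_
      intro p hpp hp2 hpm
      have h1 := hmsq p hp2 hpm
      have e1 : ((1 : ℤ) : ℚ_[p]) * m = m := by push_cast; ring
      rcases loc_dvd hp2 hm.sqf hpm (hp p) with h | h | h | h
      · exact Or.inl h.1
      · rw [e1] at h
        exact absurd h.2 h1
      · exact Or.inr h.1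
      · rw [e1] at h
        exact absurd h.2 h1
    rcases h1 with rfl | rfl <;> simp
  · -- `d2 = m`
    have hneg : d1 < 0 := by
      have := hm.neg
      rcases hsg with h | h
      · omega
      · exact h.1
    have h1 : -d1 = 1 ∨ -d1 = -d2 := by
      refine hN (-d1) (by omega) (fun x hx => s1 x (by rwa [dvd_neg] at hx)) (fun p hpp h => (supp p hpp).1 (by rwa [dvd_neg] at h)) ?_
      intro p hpp hp2 hpm
      have h1 := hmsq p hp2 hpm
      rcases loc_dvd hp2 hm.sqf hpm (hp p) with h | h | h | h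
      · exact absurd h.2 h1
      · left
        push_cast
        exact h.1
      · exact absurd h.2 h1
      · right
        push_cast
        rw [neg_mul_neg]
        exact h.1
    rcases h1 with h1 | h1
    · have : d1 = -1 := by omega
      subst this
      simp
    · have : d1 = d2 := by omega
      subst this
      simp

theorem sel_finite {m : ℤ} (hm : Cls m) (hR : RC m) (hN : NC m) :
    (SelG 0 (-9 * m) (16 * m)).Finite ∧ (SelG 0 (-9 * m) (16 * m)).ncard ≤ 4 := by
  have hsub : SelG 0 (-9 * m) (16 * m) ⊆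
      ((({(1, 1), (-1, m), (-m, 1), (m, m)} : Finset (ℤ × ℤ))) : Set (ℤ × ℤ)) := by
    rintro ⟨d1, d2⟩ h
    have := sel_sub hm hR hN h
    simpa using this
  refine ⟨(Finset.finite_toSet _).subset hsub, ?_⟩
  refine (Set.ncard_le_ncard hsub (Finset.finite_toSet _)).trans ?_
  rw [Set.ncard_coe_finset]
  exact Finset.card_le_four

end Pool.Agent.N875.X15
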