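import Pool.Agent.N875.X15.Tam
import Pool.Agent.N875.X15.Crit
import Pool.Agent.Y700.VC

/-!
# The Tamagawa numbers of `E_m` at `3` and `5`, and the change of the equation
-/

set_option autoImplicit false

namespace Pool.Agent.N875.X15

open WeierstrassCurve
open Pool.Agent.TH841.SH (IsR)
open Pool.Agent.Y700 (PtP SingRed E0 tam VR)
open Pool.Agent.Y809.BSD14 (index_of t_E0)

open scoped Classical

section sing

variable {p : ℕ} [hp : Fact p.Prime] {m : ℤ}

lemma norm_mul_eq_one {x y : ℚ_[p]} (hx : ‖x‖ = 1) (hy : ‖y‖ = 1) : ‖x * y‖ = 1 := by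
  rw [norm_mul, hx, hy, one_mul]

/-- the points which have singular reduction -/
theorem sing_iff (hp2 : p ≠ 2) {x y : ℚ_[p]}
    (h : ((Em m).map (Int.castRingHom ℚ_[p])).toAffine.Nonsingular x y) :
    SingRed (Em m) p x y ↔ ‖x‖ ≤ 1 ∧ ((‖x‖ < 1 ∧ ‖x + 9 * m‖ < 1) ∨ (‖x‖ < 1 ∧ ‖x - 16 * m‖ < 1) ∨
      (‖x + 9 * m‖ < 1 ∧ ‖x - 16 * m‖ < 1)) := by
  have e := eqnp h
  have n9 : ‖(9 : ℚ_[p]) * m‖ ≤ 1 := by
    have := norm_int (p := p) (9 * m)
    push_cast at this
    exact this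
  have n16 : ‖(16 : ℚ_[p]) * m‖ ≤ 1 := by
    have := norm_int (p := p) (16 * m)
    push_cast at this
    exact this
  have E1 : (0 : ℤ) * y - (3 * x ^ 2 + 2 * ((-7 * m : ℤ) : ℚ_[p]) * x + ((-144 * m ^ 2 : ℤ) : ℚ_[p])) =
      -(x * (x + 9 * m) + x * (x - 16 * m) + (x + 9 * m) * (x - 16 * m)) := by
    push_cast
    ring
  have E2 : ‖2 * y + ((0 : ℤ) : ℚ_[p]) * x + ((0 : ℤ) : ℚ_[p])‖ < 1 ↔ ‖y‖ < 1 := by
    push_cast
    rw [zero_mul, add_zero, add_zero, norm_mul, norm_two hp2, one_mul]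
  have E3 : ‖x‖ ≤ 1 → (‖y‖ < 1 ↔ (‖x‖ < 1 ∨ ‖x + 9 * m‖ < 1 ∨ ‖x - 16 * m‖ < 1)) := by
    intro hx
    have a1 : ‖x + 9 * m‖ ≤ 1 := (Padic.nonarchimedean _ _).trans (max_le hx n9)
    have a2 : ‖x - 16 * m‖ ≤ 1 := by
      rw [sub_eq_add_neg]
      exact (Padic.nonarchimedean _ _).trans (max_le hx (by rwa [norm_neg]))
    have e' : ‖y‖ * ‖y‖ = ‖x‖ * ‖x + 9 * m‖ * ‖x - 16 * m‖ := by
      rw [← norm_mul, ← pow_two, e, norm_mul, norm_mul]
    constructor
    · intro hy
      by_contra hcon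
      push Not at hcon
      obtain ⟨c1, c2, c3⟩ := hcon
      rw [le_antisymm hx c1, le_antisymm a1 c2, le_antisymm a2 c3] at e'
      nlinarith [norm_nonneg y]
    · intro hh
      apply norm_sq_lt
      rw [e]
      rcases hh with hh | hh | hh
      · exact norm_mul_lt (norm_mul_lt hh a1) a2
      · exact norm_mul_lt (norm_mul_lt' hx hh) a2
      · refine norm_mul_lt' ?_ hh
        rw [norm_mul]
        exact mul_le_one₀ hx (norm_nonneg _) a1
  have key : SingRed (Em m) p x y ↔ ‖x‖ ≤ 1 ∧ ‖y‖ ≤ 1 ∧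
      ‖x * (x + 9 * m) + x * (x - 16 * m) + (x + 9 * m) * (x - 16 * m)‖ < 1 ∧ ‖y‖ < 1 := by
    unfold SingRed
    show ‖x‖ ≤ 1 ∧ ‖y‖ ≤ 1 ∧ ‖((0 : ℤ) : ℚ_[p]) * y - (3 * x ^ 2 + 2 * ((-7 * m : ℤ) : ℚ_[p]) * x +
      ((-144 * m ^ 2 : ℤ) : ℚ_[p]))‖ < 1 ∧ ‖2 * y + ((0 : ℤ) : ℚ_[p]) * x + ((0 : ℤ) : ℚ_[p])‖ < 1 ↔ _
    have E1' : ((0 : ℤ) : ℚ_[p]) * y - (3 * x ^ 2 + 2 * ((-7 * m : ℤ) : ℚ_[p]) * x +
        ((-144 * m ^ 2 : ℤ) : ℚ_[p])) =
        -(x * (x + 9 * m) + x * (x - 16 * m) + (x + 9 * m) * (x - 16 * m)) := by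
      push_cast
      ring
    rw [E2, E1', norm_neg]
  rw [key]
  constructor
  · rintro ⟨hx, hy1, hd, hy⟩
    refine ⟨hx, ?_⟩
    have a1 : ‖x + 9 * m‖ ≤ 1 := (Padic.nonarchimedean _ _).trans (max_le hx n9)
    have a2 : ‖x - 16 * m‖ ≤ 1 := by
      rw [sub_eq_add_neg]
      exact (Padic.nonarchimedean _ _).trans (max_le hx (by rwa [norm_neg]))
    have hprod : ∀ s t : ℚ_[p], ‖s * t‖ < 1 → ‖s‖ < 1 ∨ ‖t‖ < 1 := by
      intro s t hst
      by_contra hcon
      push Not at hcon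
      rw [norm_mul] at hst
      nlinarith [hcon.1, hcon.2]
    rcases (E3 hx).1 hy with c | c | c
    · have : ‖(x + 9 * m) * (x - 16 * m)‖ < 1 := by
        have e2 : (x + 9 * m) * (x - 16 * m) = (x * (x + 9 * m) + x * (x - 16 * m) +
          (x + 9 * m) * (x - 16 * m)) - (x * (x + 9 * m) + x * (x - 16 * m)) := by ring
        rw [e2]
        exact norm_sub_lt hd (norm_add_lt (norm_mul_lt c a1) (norm_mul_lt c a2))
      rcases hprod _ _ this with d | d
      · exact Or.inl ⟨c, d⟩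
      · exact Or.inr (Or.inl ⟨c, d⟩)
    · have : ‖x * (x - 16 * m)‖ < 1 := by
        have e2 : x * (x - 16 * m) = (x * (x + 9 * m) + x * (x - 16 * m) +
          (x + 9 * m) * (x - 16 * m)) - (x * (x + 9 * m) + (x + 9 * m) * (x - 16 * m)) := by ring
        rw [e2]
        exact norm_sub_lt hd (norm_add_lt (norm_mul_lt' hx c) (norm_mul_lt c a2))
      rcases hprod _ _ this with d | d
      · exact Or.inl ⟨d, c⟩
      · exact Or.inr (Or.inr ⟨c, d⟩)
    · have : ‖x * (x + 9 * m)‖ < 1 := by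
        have e2 : x * (x + 9 * m) = (x * (x + 9 * m) + x * (x - 16 * m) +
          (x + 9 * m) * (x - 16 * m)) - (x * (x - 16 * m) + (x + 9 * m) * (x - 16 * m)) := by ring
        rw [e2]
        exact norm_sub_lt hd (norm_add_lt (norm_mul_lt' hx c) (norm_mul_lt' a1 c))
      rcases hprod _ _ this with d | d
      · exact Or.inr (Or.inl ⟨d, c⟩)
      · exact Or.inr (Or.inr ⟨d, c⟩)
  · rintro ⟨hx, hh⟩
    have a1 : ‖x + 9 * m‖ ≤ 1 := (Padic.nonarchimedean _ _).trans (max_le hx n9)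
    have a2 : ‖x - 16 * m‖ ≤ 1 := by
      rw [sub_eq_add_neg]
      exact (Padic.nonarchimedean _ _).trans (max_le hx (by rwa [norm_neg]))
    have hy : ‖y‖ < 1 := (E3 hx).2 (by tauto)
    refine ⟨hx, hy.le, ?_, hy⟩
    rcases hh with ⟨c, d⟩ | ⟨c, d⟩ | ⟨c, d⟩
    · exact norm_add_lt (norm_add_lt (norm_mul_lt c a1) (norm_mul_lt c a2)) (norm_mul_lt d a2)
    · exact norm_add_lt (norm_add_lt (norm_mul_lt c a1) (norm_mul_lt c a2)) (norm_mul_lt' a1 d)
    · exact norm_add_lt (norm_add_lt (norm_mul_lt' hx c) (norm_mul_lt' hx d)) (norm_mul_lt c a2)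

end sing

section two

variable {p : ℕ} [hp : Fact p.Prime] {m : ℤ}

/-- **The Tamagawa number in the case of nonsplit multiplicative reduction.** -/
theorem tam_nonsplit (hp2 : p ≠ 2) {a b c : ℚ_[p]}
    (hR : IsR ((Em m).map (Int.castRingHom ℚ_[p])) a b c)
    (hs : ∀ x y, ((Em m).map (Int.castRingHom ℚ_[p])).toAffine.Nonsingular x y →
      (SingRed (Em m) p x y ↔ ‖x - a‖ < 1))
    (hT : ((Em m).map (Int.castRingHom ℚ_[p])).toAffine.Nonsingular a 0)
    (hab : a - b ≠ 0) (hac : a - c ≠ 0) (h1 : (a - b).valuation = 2) (h2 : (a - c).valuation = 0)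
    (hn : ¬ IsSquare (a - c)) : tam (Em m) p = 2 := by
  set T : PtP (Em m) p := Affine.Point.some a 0 hT with hTd
  have dT : T + T = 0 := dbl_T hR hT
  have hTn : T ∉ E0 (Em m) p := by
    intro h
    rw [t_E0] at h
    refine h a 0 hT rfl ?_
    rw [hs a 0 hT, sub_self, norm_zero]
    exact one_pos
  refine index_of (E0 (Em m) p) (fun i : Fin 2 => if i = 0 then 0 else T) ?_ ?_ ?_
  · intro i
    by_cases hi : i = 0
    · simp [hi]
    · simp only [hi, if_false]
      exact dT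
  · intro P
    rcases P with _ | ⟨x, y, h⟩
    · refine ⟨0, ?_⟩
      rw [if_pos rfl, add_zero]
      exact (E0 (Em m) p).zero_mem
    by_cases hx1 : ‖x - a‖ < 1
    swap
    · refine ⟨0, ?_⟩
      simp only [if_true, add_zero]
      rw [t_E0]
      intro x' y' h' he hsing
      injection he with e1 e2
      subst e1
      subst e2
      exact hx1 ((hs _ _ h').1 hsing)
    refine ⟨1, ?_⟩
    have e10 : (if (1 : Fin 2) = 0 then (0 : PtP (Em m) p) else T) = T := if_neg (by decide)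
    rw [e10]
    by_cases hxa : x = a
    · subst hxa
      have hy : y = 0 := by
        have := (isR_eqn hR).1 h.1
        rw [sub_self, zero_mul, zero_mul] at this
        exact pow_eq_zero_iff two_ne_zero |>.1 this
      subst hy
      rw [dT]
      exact (E0 (Em m) p).zero_mem
    obtain ⟨X, Y, H, e, hX⟩ := add_T hR h hT hxa
    rw [hTd, e, t_E0]
    intro x' y' h' he hsing
    injection he with e1 e2
    subst e1
    subst e2
    rw [hs _ _ h', hX, norm_div] at hsing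
    have hu : x - a ≠ 0 := sub_ne_zero.2 hxa
    have hE := (isR_eqn hR).1 h.1
    have hvw : x - b ≠ 0 ∧ x - c ≠ 0 := by
      constructor
      · intro h0
        have : x - a = b - a := by linear_combination h0
        have h3 : (X - a) = -(a - c) := by
          rw [hX, this, ← neg_sub a b, div_neg, mul_div_cancel_left₀ _ hab]
        have h4 : ‖a - c‖ < 1 := by
          rw [← norm_neg, ← h3, hX, norm_div]
          exact hsing
        have := (normlt_iff hac).1 h4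
        omega
      · intro h0
        have : x - a = c - a := by linear_combination h0
        rw [this, norm_sub_rev] at hx1
        have := (normlt_iff hac).1 hx1
        omega
    have hsq : IsSquare ((x - a) * (x - b) * (x - c)) := ⟨y, by rw [← hE, pow_two]⟩
    have := val_unr hp2 (u := x - a) (v := x - b) (w := x - c) hu hvw.1 hvw.2 hsq
      (by
        have : x - b - (x - a) = a - b := by ring
        rwa [this]) (by
        have : x - c - (x - a) = a - c := by ring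
        rwa [this]) (l := 2) (by
        have : x - b - (x - a) = a - b := by ring
        rwa [this]) (by
        have : x - c - (x - a) = a - c := by ring
        rwa [this]) (by
        have : x - c - (x - a) = a - c := by ring
        rwa [this])
    have hpos : 0 < (x - a).valuation := (normlt_iff hu).1 hx1
    rcases this with c1 | c1
    · omega
    · have h5 : ‖x - a‖ ≤ ‖(a - b) * (a - c)‖ := by
        rw [norm_le_iff hu (mul_ne_zero hab hac), Padic.valuation_mul hab hac, h1, h2]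
        omega
      have h6 : 1 ≤ ‖(a - b) * (a - c)‖ / ‖x - a‖ := by
        rw [one_le_div (norm_pos_iff.2 hu)]
        exact h5
      linarith
  · intro i j hij
    fin_cases i <;> fin_cases j
    · rfl
    · exfalso
      apply hTn
      simpa using hij
    · exfalso
      apply hTn
      simpa using hij
    · rfl

end two

section three

lemma norm_lt_of_dvd {p : ℕ} [hp : Fact p.Prime] {k : ℤ} (h : (p : ℤ) ∣ k) : ‖(k : ℚ_[p])‖ < 1 :=
  (Padic.norm_intCast_lt_one_iff).2 h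

lemma not_norm_lt {p : ℕ} [hp : Fact p.Prime] {k : ℤ} (h : ¬ (p : ℤ) ∣ k) : ¬ ‖(k : ℚ_[p])‖ < 1 :=
  fun h1 => h ((Padic.norm_intCast_lt_one_iff).1 h1)

/-- The Tamagawa number at `3`. -/
theorem tam_three {m : ℤ} (h3 : m % 3 = 1) : tam (Em m) 3 = 2 := by
  have hm : m ≠ 0 := by rintro rfl; norm_num at h3
  have hm' : (m : ℚ_[3]) ≠ 0 := by exact_mod_cast hm
  have hR := isRp 3 m
  have n3 : ¬ ((3 : ℕ) : ℤ) ∣ m := by omega
  refine tam_nonsplit (by norm_num) hR ?_ (nonsingp hm (Or.inl rfl)) ?_ ?_ ?_ ?_ ?_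
  · intro x y h
    rw [sing_iff (by norm_num) h, sub_zero]
    have d9 : ‖(9 : ℚ_[3]) * m‖ < 1 := by
      have := norm_lt_of_dvd (p := 3) (k := 9 * m) ⟨3 * m, by push_cast; ring⟩
      push_cast at this
      exact this
    constructor
    · rintro ⟨-, ⟨c, -⟩ | ⟨c, -⟩ | ⟨c, d⟩⟩
      · exact c
      · exact c
      · exfalso
        have e := norm_sub_lt c d
        have e1 : x + 9 * (m : ℚ_[3]) - (x - 16 * m) = ((25 * m : ℤ) : ℚ_[3]) := by push_cast; ring
        rw [e1] at e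
        exact not_norm_lt (by omega) e
    · intro c
      exact ⟨c.le, Or.inl ⟨c, norm_add_lt c d9⟩⟩
  · rw [zero_sub, neg_mul, neg_neg]
    exact mul_ne_zero (by norm_num) hm'
  · rw [zero_sub, neg_ne_zero]
    exact mul_ne_zero (by norm_num) hm'
  · have e : (0 : ℚ_[3]) - -9 * m = ((3 : ℕ) : ℚ_[3]) ^ 2 * m := by push_cast; ring
    rw [e, Padic.valuation_mul (pow_ne_zero 2 (by norm_num)) hm', Padic.valuation_pow, val_p,
      val_zero n3]
    norm_num
  · have e : (0 : ℚ_[3]) - 16 * m = ((-16 * m : ℤ) : ℚ_[3]) := by push_cast; ring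
    rw [e]
    exact val_zero (by omega)
  · have e : (0 : ℚ_[3]) - 16 * m = ((-16 * m : ℤ) : ℚ_[3]) := by push_cast; ring
    rw [e]
    intro h
    have h1 := zmod_of_sq h
    have h2 : ((-16 * m : ℤ) : ZMod 3) = 2 := by
      have e3 : (-16 * m : ℤ) = 3 * ((-16 * m - 2) / 3) + 2 := by omega
      rw [e3]
      push_cast
      have : (3 : ZMod 3) = 0 := by decide
      rw [this, zero_mul, zero_add]
    rw [h2] at h1
    rcases sq_mod3 _ h1 with h4 | h4 <;> exact absurd h4 (by decide)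

lemma nsq5 {k : ℤ} (h : k % 5 = 2 ∨ k % 5 = 3) : ¬ IsSquare ((k : ℤ) : ZMod 5) := by
  intro h1
  have k5 : (5 : ZMod 5) = 0 := by decide
  have h2 : ((k : ℤ) : ZMod 5) = 2 ∨ ((k : ℤ) : ZMod 5) = 3 := by
    rcases h with h | h
    · left
      have e3 : k = 5 * ((k - 2) / 5) + 2 := by omega
      rw [e3]
      push_cast
      rw [k5, zero_mul, zero_add]
    · right
      have e3 : k = 5 * ((k - 3) / 5) + 3 := by omega
      rw [e3]
      push_cast
      rw [k5, zero_mul, zero_add]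
  rcases h2 with h2 | h2 <;> rw [h2] at h1 <;>
    rcases sq_mod5 _ h1 with h4 | h4 | h4 <;> exact absurd h4 (by decide)

/-- The Tamagawa number at `5`. -/
theorem tam_five [Fact (Nat.Prime 5)] {m : ℤ} (h5 : m % 5 = 2 ∨ m % 5 = 3) : tam (Em m) 5 = 2 := by
  have hm : m ≠ 0 := by rintro rfl; norm_num at h5
  have hm' : (m : ℚ_[5]) ≠ 0 := by exact_mod_cast hm
  have hR := (isRp 5 m).rot
  have n5 : ¬ ((5 : ℕ) : ℤ) ∣ m := by omega
  refine tam_nonsplit (by norm_num) hR ?_ (nonsingp hm (Or.inr (Or.inl rfl))) ?_ ?_ ?_ ?_ ?_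
  · intro x y h
    have e0 : x - -9 * (m : ℚ_[5]) = x + 9 * m := by ring
    rw [sing_iff (by norm_num) h, e0]
    have d25 : ‖(25 : ℚ_[5]) * m‖ < 1 := by
      have := norm_lt_of_dvd (p := 5) (k := 25 * m) ⟨5 * m, by push_cast; ring⟩
      push_cast at this
      exact this
    constructor
    · rintro ⟨-, ⟨-, c⟩ | ⟨c, d⟩ | ⟨c, -⟩⟩
      · exact c
      · exfalso
        have e := norm_sub_lt c d
        have e1 : x - (x - 16 * (m : ℚ_[5])) = ((16 * m : ℤ) : ℚ_[5]) := by push_cast; ring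
        rw [e1] at e
        exact not_norm_lt (by omega) e
      · exact c
    · intro c
      have e1 : x - 16 * (m : ℚ_[5]) = (x + 9 * m) - 25 * m := by ring
      refine ⟨?_, Or.inr (Or.inr ⟨c, by rw [e1]; exact norm_sub_lt c d25⟩)⟩
      have e2 : x = (x + 9 * (m : ℚ_[5])) - ((9 * m : ℤ) : ℚ_[5]) := by push_cast; ring
      rw [e2, sub_eq_add_neg]
      exact (Padic.nonarchimedean _ _).trans (max_le c.le (by rw [norm_neg]; exact norm_int _))
  · have e : -9 * (m : ℚ_[5]) - 16 * m = -25 * m := by ring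
    rw [e]
    exact mul_ne_zero (by norm_num) hm'
  · rw [sub_zero]
    exact mul_ne_zero (by norm_num) hm'
  · have e : -9 * (m : ℚ_[5]) - 16 * m = -(((5 : ℕ) : ℚ_[5]) ^ 2 * m) := by push_cast; ring
    rw [e, val_neg, Padic.valuation_mul (pow_ne_zero 2 (by norm_num)) hm', Padic.valuation_pow, val_p,
      val_zero n5]
    norm_num
  · have e : -9 * (m : ℚ_[5]) - 0 = ((-9 * m : ℤ) : ℚ_[5]) := by push_cast; ring
    rw [e]
    exact val_zero (by omega)
  · have e : -9 * (m : ℚ_[5]) - 0 = ((-9 * m : ℤ) : ℚ_[5]) := by push_cast; ring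
    rw [e]
    intro h
    have h1 := zmod_of_sq h
    exact nsq5 (by omega) h1

end three

section change

variable {p : ℕ} [hp : Fact p.Prime] {W W' : WeierstrassCurve ℤ} {u r s t : ℚ_[p]}

/-- the reduction does not depend on the integral change of coordinates -/
lemma sing_VR (h : VR (W.map (Int.castRingHom ℚ_[p])) (W'.map (Int.castRingHom ℚ_[p])) u r s t)
    (hu : ‖u‖ = 1) (hr : ‖r‖ ≤ 1) (hs : ‖s‖ ≤ 1) (ht : ‖t‖ ≤ 1) {x y : ℚ_[p]} :
    SingRed W p (u ^ 2 * x + r) (u ^ 3 * y + u ^ 2 * s * x + t) ↔ SingRed W' p x y := by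
  have e1 := h.e1
  have e2 := h.e2
  have e3 := h.e3
  have e4 := h.e4
  simp only [map_a₁, map_a₂, map_a₃, map_a₄, eq_intCast] at e1 e2 e3 e4
  have nu2 : ‖u ^ 2‖ = 1 := by rw [norm_pow, hu, one_pow]
  have nu3 : ‖u ^ 3‖ = 1 := by rw [norm_pow, hu, one_pow]
  have nu4 : ‖u ^ 4‖ = 1 := by rw [norm_pow, hu, one_pow]
  have F2 : 2 * (u ^ 3 * y + u ^ 2 * s * x + t) + (W.a₁ : ℚ_[p]) * (u ^ 2 * x + r) + W.a₃ =
      u ^ 3 * (2 * y + W'.a₁ * x + W'.a₃) := by
    linear_combination (-(u ^ 2 * x)) * e1 - e3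
  have F1 : (W.a₁ : ℚ_[p]) * (u ^ 3 * y + u ^ 2 * s * x + t) - (3 * (u ^ 2 * x + r) ^ 2 +
      2 * W.a₂ * (u ^ 2 * x + r) + W.a₄) = u ^ 4 * (W'.a₁ * y - (3 * x ^ 2 + 2 * W'.a₂ * x + W'.a₄)) -
      s * (u ^ 3 * (2 * y + W'.a₁ * x + W'.a₃)) := by
    linear_combination (-(u ^ 3 * y) + s * u ^ 2 * x) * e1 + 2 * u ^ 2 * x * e2 + s * e3 + e4
  have hx : ‖u ^ 2 * x + r‖ ≤ 1 ↔ ‖x‖ ≤ 1 := by
    constructor
    · intro h1
      have : ‖u ^ 2 * x‖ ≤ 1 := by
        have e : u ^ 2 * x = (u ^ 2 * x + r) - r := by ring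
        rw [e, sub_eq_add_neg]
        exact (Padic.nonarchimedean _ _).trans (max_le h1 (by rwa [norm_neg]))
      rwa [norm_mul, nu2, one_mul] at this
    · intro h1
      refine (Padic.nonarchimedean _ _).trans (max_le ?_ hr)
      rwa [norm_mul, nu2, one_mul]
  have hy : ‖x‖ ≤ 1 → (‖u ^ 3 * y + u ^ 2 * s * x + t‖ ≤ 1 ↔ ‖y‖ ≤ 1) := by
    intro hx1
    have h2 : ‖u ^ 2 * s * x + t‖ ≤ 1 := by
      refine (Padic.nonarchimedean _ _).trans (max_le ?_ ht)
      rw [norm_mul, norm_mul, nu2, one_mul]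
      exact mul_le_one₀ hs (norm_nonneg _) hx1
    constructor
    · intro h1
      have : ‖u ^ 3 * y‖ ≤ 1 := by
        have e : u ^ 3 * y = (u ^ 3 * y + u ^ 2 * s * x + t) - (u ^ 2 * s * x + t) := by ring
        rw [e, sub_eq_add_neg]
        exact (Padic.nonarchimedean _ _).trans (max_le h1 (by rwa [norm_neg]))
      rwa [norm_mul, nu3, one_mul] at this
    · intro h1
      rw [add_assoc]
      refine (Padic.nonarchimedean _ _).trans (max_le ?_ h2)
      rwa [norm_mul, nu3, one_mul]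
  unfold SingRed
  rw [F1, F2, hx]
  have k2 : ‖u ^ 3 * (2 * y + (W'.a₁ : ℚ_[p]) * x + W'.a₃)‖ < 1 ↔ ‖2 * y + (W'.a₁ : ℚ_[p]) * x + W'.a₃‖ < 1 := by
    rw [norm_mul, nu3, one_mul]
  constructor
  · rintro ⟨a1, a2, a3, a4⟩
    refine ⟨a1, (hy a1).1 a2, ?_, k2.1 a4⟩
    have h3 := norm_add_lt a3 (norm_mul_lt' hs a4)
    rw [sub_add_cancel, norm_mul, nu4, one_mul] at h3
    exact h3
  · rintro ⟨a1, a2, a3, a4⟩
    refine ⟨a1, (hy a1).2 a2, ?_, k2.2 a4⟩
    refine norm_sub_lt ?_ (norm_mul_lt' hs (k2.2 a4))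
    rw [norm_mul, nu4, one_mul]
    exact a3

/-- **The Tamagawa number does not depend on the integral change of coordinates.** -/
theorem tam_VR (h : VR (W.map (Int.castRingHom ℚ_[p])) (W'.map (Int.castRingHom ℚ_[p])) u r s t)
    (hD : (W'.map (Int.castRingHom ℚ_[p])).Δ ≠ 0)
    (hu : ‖u‖ = 1) (hr : ‖r‖ ≤ 1) (hs : ‖s‖ ≤ 1) (ht : ‖t‖ ≤ 1) : tam W p = tam W' p := by
  have e : E0 W' p = (E0 W p).comap (h.equiv hD).toAddMonoidHom := by
    ext P
    rw [AddSubgroup.mem_comap, t_E0, t_E0]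
    have e1 : (h.equiv hD).toAddMonoidHom P = h.fn hD P := rfl
    rw [e1]
    rcases P with _ | ⟨x, y, hn⟩
    · constructor
      · intro _ x y h1 he
        exact absurd he.symm (Affine.Point.some_ne_zero _)
      · intro _ x y h1 he
        exact absurd he.symm (Affine.Point.some_ne_zero _)
    · rw [VR.fn_some]
      constructor
      · intro h1 x' y' h' he
        injection he with e1 e2
        rw [← e1, ← e2, sing_VR h hu hr hs ht]
        exact h1 x y hn rfl
      · intro h1 x' y' h' he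
        injection he with e1 e2
        rw [← e1, ← e2, ← sing_VR h hu hr hs ht]
        exact h1 _ _ _ rfl
  unfold tam
  rw [e, AddSubgroup.index_comap_of_surjective _ (h.equiv hD).surjective]

end change

end Pool.Agent.N875.X15
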