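import Pool.Agent.N875.X15.Two
import Pool.Agent.TH841.SH.Sel

/-!
# The 2-Selmer group of `y² = x (x + 9 m) (x - 16 m)`, `m < 0`
-/

set_option autoImplicit false

namespace Pool.Agent.N875.X15

open Pool.Agent.TH841.SH (LocC SelG)
open Pool.Agent.Y667.RP (mod_of_sq)

/-- the primes that ramify in the quadratic field of `√m`, `m` squarefree -/
def Ram (m : ℤ) (p : ℕ) : Prop := (p : ℤ) ∣ m ∨ (p = 2 ∧ m % 4 ≠ 1)

/-- no nontrivial decomposition of the second kind -/
def RC (m : ℤ) : Prop := ∀ d : ℤ, Squarefree d → (∀ p : ℕ, p.Prime → (p : ℤ) ∣ d → Ram m p) →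
  (m % 4 = 1 → d % 4 = 1) →
  (∀ (p : ℕ) [Fact p.Prime], Ram m p → IsSquare (d : ℚ_[p]) ∨ IsSquare ((d : ℚ_[p]) * m)) →
  d = 1 ∨ d = m

/-- no nontrivial ramified norm -/
def NC (m : ℤ) : Prop := ∀ d : ℤ, 0 < d → Squarefree d →
  (∀ p : ℕ, p.Prime → (p : ℤ) ∣ d → Ram m p) →
  (∀ (p : ℕ) [Fact p.Prime], p ≠ 2 → (p : ℤ) ∣ m →
    IsSquare (d : ℚ_[p]) ∨ IsSquare ((d : ℚ_[p]) * (-m))) →
  d = 1 ∨ d = -m

section

variable {p : ℕ} [hp : Fact p.Prime]

lemma val_zero {n : ℤ} (hn : ¬ (p : ℤ) ∣ n) : (n : ℚ_[p]).valuation = 0 := by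
  have hn0 : (n : ℚ_[p]) ≠ 0 := by
    have : n ≠ 0 := by rintro rfl; simp at hn
    exact_mod_cast this
  have h1 : ‖(n : ℚ_[p])‖ = 1 := by
    refine le_antisymm (Padic.norm_int_le_one n) ?_
    rw [← not_lt, Padic.norm_intCast_lt_one_iff]
    exact hn
  have h2 : ‖(n : ℚ_[p])‖ = ‖(1 : ℚ_[p])‖ := by rw [h1, norm_one]
  rw [norm_eq_iff hn0 one_ne_zero] at h2
  rw [h2, Padic.valuation_one]

lemma val_p : ((p : ℕ) : ℚ_[p]).valuation = 1 := Padic.valuation_p

lemma val_one {n : ℤ} (hn : (p : ℤ) ∣ n) (hs : Squarefree n) : (n : ℚ_[p]).valuation = 1 := by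
  obtain ⟨k, rfl⟩ := hn
  have hk : ¬ (p : ℤ) ∣ k := by
    rintro ⟨j, rfl⟩
    have h1 : (p : ℤ) * p ∣ p * (p * j) := ⟨j, by ring⟩
    have h2 := hs _ h1
    rw [Int.isUnit_iff] at h2
    have := hp.out.two_le
    omega
  have hk0 : (k : ℚ_[p]) ≠ 0 := by
    have : k ≠ 0 := by rintro rfl; simp at hk
    exact_mod_cast this
  have hp0 : ((p : ℕ) : ℚ_[p]) ≠ 0 := by exact_mod_cast hp.out.ne_zero
  have e : (((p : ℤ) * k : ℤ) : ℚ_[p]) = ((p : ℕ) : ℚ_[p]) * (k : ℚ_[p]) := by push_cast; ring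
  rw [e, Padic.valuation_mul hp0 hk0, val_p, val_zero hk]
  norm_num

/-- a unit times a squarefree integer -/
lemma not_dvd_of_even {u : ℚ_[p]} (hu : u ≠ 0) (he : Even u.valuation) {d : ℤ}
    (hd : Squarefree d) (h : IsSquare (u * d)) : ¬ (p : ℤ) ∣ d := by
  intro hpd
  have hd0 : (d : ℚ_[p]) ≠ 0 := by exact_mod_cast hd.ne_zero
  have h1 := even_val (mul_ne_zero hu hd0) h
  rw [Padic.valuation_mul hu hd0, val_one hpd hd] at h1
  obtain ⟨r, hr⟩ := h1
  obtain ⟨s, hs⟩ := he
  omega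

lemma val_mul_unit {n : ℤ} (a : ℤ) (ha : ¬ (p : ℤ) ∣ a) (hn : n ≠ 0) :
    ((a : ℚ_[p]) * n).valuation = (n : ℚ_[p]).valuation := by
  have ha0 : (a : ℚ_[p]) ≠ 0 := by
    have : a ≠ 0 := by rintro rfl; simp at ha
    exact_mod_cast this
  have hn0 : (n : ℚ_[p]) ≠ 0 := by exact_mod_cast hn
  rw [Padic.valuation_mul ha0 hn0, val_zero ha, zero_add]

lemma not_dvd_of_prime {q : ℕ} (hq : q.Prime) (h : p ≠ q) : ¬ (p : ℤ) ∣ (q : ℤ) := by
  intro h1
  have h2 : p ∣ q := by exact_mod_cast h1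
  exact h ((Nat.prime_dvd_prime_iff_eq hp.out hq).1 h2)

end

lemma sq_mod5 (t : ZMod 5) (h : IsSquare t) : t = 0 ∨ t = 1 ∨ t = 4 := by
  revert t
  decide

lemma sq_mod3 (t : ZMod 3) (h : IsSquare t) : t = 0 ∨ t = 1 := by
  revert t
  decide

/-- the local condition in terms of `u = x` -/
lemma locC_iff {K : Type} [Field K] [CharZero K] {m d1 d2 : ℤ}
    (h : LocC K 0 (-9 * m) (16 * m) d1 d2) :
    ∃ u : K, u ≠ 0 ∧ u + 9 * m ≠ 0 ∧ u - 16 * m ≠ 0 ∧
      IsSquare (u * (u + 9 * m) * (u - 16 * m)) ∧ IsSquare (u * d1) ∧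
      IsSquare ((u + 9 * m) * d2) := by
  obtain ⟨x, y, hy, hxy, h1, h2⟩ := h
  push_cast at hxy h1 h2
  have e1 : x - 0 = x := sub_zero x
  have e2 : x - -9 * (m : K) = x + 9 * m := by ring
  rw [e1, e2] at hxy
  rw [e1] at h1
  rw [e2] at h2
  have h0 : x * (x + 9 * m) * (x - 16 * m) ≠ 0 := by rw [← hxy]; exact pow_ne_zero 2 hy
  exact ⟨x, left_ne_zero_of_mul (left_ne_zero_of_mul h0), right_ne_zero_of_mul
    (left_ne_zero_of_mul h0), right_ne_zero_of_mul h0, ⟨y, by rw [← hxy, pow_two]⟩, h1, h2⟩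

/-- the class of `m` -/
structure Cls (m : ℤ) : Prop where
  neg : m < 0
  sqf : Squarefree m
  m3 : m % 3 ≠ 2
  m5 : m % 5 = 0 ∨ m % 5 = 2 ∨ m % 5 = 3

section odd

variable {p : ℕ} [hp : Fact p.Prime]

lemma sq3 : IsSquare (9 : ℚ_[p]) := ⟨3, by norm_num⟩
lemma sq4 : IsSquare (16 : ℚ_[p]) := ⟨4, by norm_num⟩
lemma sq5 : IsSquare (25 : ℚ_[p]) := ⟨5, by norm_num⟩

lemma drop {c x y : ℚ_[p]} (hc : IsSquare c) (hc0 : c ≠ 0) (h : IsSquare (x * (c * y))) :
    IsSquare (x * y) := by
  have e : x * (c * y) = c * (x * y) := by ring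
  rw [e] at h
  exact sq_cancel hc0 hc h

/-- from square classes to the coordinates -/
lemma to_coord {u e : ℚ_[p]} (hu : u ≠ 0) {d : ℤ} (h : IsSquare (u * e)) (h' : IsSquare (u * d)) :
    IsSquare ((d : ℚ_[p]) * e) := by
  rw [mul_comm] at h'
  exact sq_trans hu h' h

/-- **The local condition at the odd primes dividing `m`.** -/
theorem loc_dvd (hp2 : p ≠ 2) {m d1 d2 : ℤ} (hm : Squarefree m) (hpm : (p : ℤ) ∣ m)
    (h : LocC ℚ_[p] 0 (-9 * m) (16 * m) d1 d2) :
    (IsSquare (d1 : ℚ_[p]) ∧ IsSquare (d2 : ℚ_[p])) ∨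
    (IsSquare (-(d1 : ℚ_[p])) ∧ IsSquare ((d2 : ℚ_[p]) * m)) ∨
    (IsSquare ((d1 : ℚ_[p]) * (-m)) ∧ IsSquare (d2 : ℚ_[p])) ∨
    (IsSquare ((d1 : ℚ_[p]) * m) ∧ IsSquare ((d2 : ℚ_[p]) * m)) := by
  obtain ⟨u, hu, hv, hw, hs, h1, h2⟩ := locC_iff h
  have hm0 : m ≠ 0 := hm.ne_zero
  have hm' : (m : ℚ_[p]) ≠ 0 := by exact_mod_cast hm0
  have vm := val_one hpm hm
  have n2 : ¬ (p : ℤ) ∣ (2 : ℤ) := not_dvd_of_prime Nat.prime_two hp2
  have hpr : Prime (p : ℤ) := Nat.prime_iff_prime_int.1 hp.out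
  have v16 : (16 * (m : ℚ_[p])).valuation = 1 := by
    have := val_mul_unit (p := p) (n := m) 16 (fun h => n2 (by
      have : (16 : ℤ) = 2 ^ 4 := by norm_num
      rw [this] at h
      exact hpr.dvd_of_dvd_pow h)) hm0
    push_cast at this
    rw [this, vm]
  have neg : ∀ x : ℚ_[p], (-x).valuation = x.valuation := by
    intro x
    by_cases hx : x = 0
    · rw [hx, neg_zero]
    exact (norm_eq_iff (neg_ne_zero.2 hx) hx).1 (norm_neg x)
  have E1 : u + 9 * (m : ℚ_[p]) - u = 9 * m := by ring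
  have E2 : u - 16 * (m : ℚ_[p]) - u = -(16 * m) := by ring
  have E3 : u - 16 * (m : ℚ_[p]) - (u + 9 * m) = -(25 * m) := by ring
  have E1' : u - (u + 9 * (m : ℚ_[p])) = 9 * (-m) := by ring
  have E2' : u - (u - 16 * (m : ℚ_[p])) = 16 * m := by ring
  have E3' : u + 9 * (m : ℚ_[p]) - (u - 16 * m) = 25 * m := by ring
  have n9 : (9 * (m : ℚ_[p])) ≠ 0 := mul_ne_zero (by norm_num) hm'
  have n16 : (16 * (m : ℚ_[p])) ≠ 0 := mul_ne_zero (by norm_num) hm'
  have n25 : (25 * (m : ℚ_[p])) ≠ 0 := mul_ne_zero (by norm_num) hm'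
  -- the four possibilities in terms of `u`, `v`, `w`
  have main : (IsSquare u ∧ IsSquare (u + 9 * (m : ℚ_[p]))) ∨
      (IsSquare ((u + 9 * (m : ℚ_[p])) * m) ∧ IsSquare ((u - 16 * m) * (-m))) ∨
      (IsSquare (u * (-m)) ∧ IsSquare ((u - 16 * m) * (-(m : ℚ_[p])))) ∨
      (IsSquare (u * m) ∧ IsSquare ((u + 9 * m) * (m : ℚ_[p]))) := by
    have q9 : (9 : ℚ_[p]) ≠ 0 := by norm_num
    have q16 : (16 : ℚ_[p]) ≠ 0 := by norm_num
    have q25 : (25 : ℚ_[p]) ≠ 0 := by norm_num
    have f2 : -(16 * (m : ℚ_[p])) = 16 * (-m) := by ring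
    have f3 : -(25 * (m : ℚ_[p])) = 25 * (-m) := by ring
    by_cases h5 : p = 5
    · have v9 : (9 * (m : ℚ_[p])).valuation = 1 := by
        have := val_mul_unit (p := p) (n := m) 9 (by rw [h5]; norm_num) hm0
        push_cast at this
        rw [this, vm]
      have v25 : (25 * (m : ℚ_[p])).valuation = 3 := by
        have e : (25 : ℚ_[p]) = ((p : ℕ) : ℚ_[p]) ^ 2 := by
          have h5' : ((p : ℕ) : ℚ_[p]) = 5 := by
            have := congrArg (Nat.cast : ℕ → ℚ_[p]) h5
            rw [this]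
            norm_num
          rw [h5']
          norm_num
        rw [Padic.valuation_mul (by norm_num) hm', vm, e, Padic.valuation_pow, val_p]
        norm_num
      have hs' : IsSquare ((u + 9 * (m : ℚ_[p])) * (u - 16 * m) * u) := by
        have e : (u + 9 * (m : ℚ_[p])) * (u - 16 * m) * u = u * (u + 9 * m) * (u - 16 * m) := by
          ring
        rwa [e]
      have := loc_ram hp2 (u := u + 9 * (m : ℚ_[p])) (v := u - 16 * m) (w := u) hv hw hu hs'
        (by rw [E3]; exact neg_ne_zero.2 n25) (by rw [E1', mul_neg]; exact neg_ne_zero.2 n9)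
        (by rw [E2']; exact n16) (l := 3) (k := 1) (by rw [E3, neg, v25])
        (by rw [E1', mul_neg, neg, v9]) (by rw [E2', v16]) (by norm_num) (by decide)
      rw [E1', E2', E3, E3', E2, E1, f2, f3] at this
      rcases this with ⟨a, b⟩ | ⟨a, b⟩ | ⟨a, b⟩ | ⟨a, b⟩
      · left
        refine ⟨?_, a⟩
        exact sq_cancel (mul_ne_zero hv hw) (a.mul b) hs'
      · right; right; left
        exact ⟨drop sq3 q9 b, drop sq5 q25 a⟩
      · right; right; right
        exact ⟨drop sq4 q16 b, drop sq5 q25 a⟩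
      · right; left
        exact ⟨drop sq3 q9 a, drop sq4 q16 b⟩
    · have v25 : (25 * (m : ℚ_[p])).valuation = 1 := by
        have := val_mul_unit (p := p) (n := m) 25 (fun h => by
          have e : (25 : ℤ) = (5 : ℕ) ^ 2 := by norm_num
          rw [e] at h
          exact not_dvd_of_prime (by norm_num) h5 (hpr.dvd_of_dvd_pow h)) hm0
        push_cast at this
        rw [this, vm]
      have v9 : ∃ l : ℤ, (9 * (m : ℚ_[p])).valuation = l ∧ 1 ≤ l := by
        by_cases h3 : p = 3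
        · refine ⟨3, ?_, by norm_num⟩
          have e : (9 : ℚ_[p]) = ((p : ℕ) : ℚ_[p]) ^ 2 := by
            have h3' : ((p : ℕ) : ℚ_[p]) = 3 := by
              have := congrArg (Nat.cast : ℕ → ℚ_[p]) h3
              rw [this]
              norm_num
            rw [h3']
            norm_num
          rw [Padic.valuation_mul (by norm_num) hm', vm, e, Padic.valuation_pow, val_p]
          norm_num
        · refine ⟨1, ?_, le_refl _⟩
          have := val_mul_unit (p := p) (n := m) 9 (fun h => by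
            have e : (9 : ℤ) = (3 : ℕ) ^ 2 := by norm_num
            rw [e] at h
            exact not_dvd_of_prime (by norm_num) h3 (hpr.dvd_of_dvd_pow h)) hm0
          push_cast at this
          rw [this, vm]
      obtain ⟨l, v9, hl⟩ := v9
      have := loc_ram hp2 (u := u) (v := u + 9 * (m : ℚ_[p])) (w := u - 16 * m) hu hv hw hs
        (by rw [E1]; exact n9) (by rw [E2]; exact neg_ne_zero.2 n16)
        (by rw [E3]; exact neg_ne_zero.2 n25) (l := l) (k := 1) (by rw [E1, v9])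
        (by rw [E2, neg, v16]) (by rw [E3, neg, v25]) hl (by decide)
      rw [E1', E2', E3, E3', E2, E1, f2, f3] at this
      rcases this with ⟨a, b⟩ | ⟨a, b⟩ | ⟨a, b⟩ | ⟨a, b⟩
      · left
        exact ⟨a, b⟩
      · right; left
        exact ⟨drop sq3 q9 a, drop sq4 q16 b⟩
      · right; right; left
        exact ⟨drop sq3 q9 a, drop sq5 q25 b⟩
      · right; right; right
        exact ⟨drop sq4 q16 a, drop sq5 q25 b⟩
  have hone : ∀ {x : ℚ_[p]}, IsSquare x → IsSquare (x * 1) := fun h => by rwa [mul_one]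
  rcases main with ⟨a, b⟩ | ⟨a, b⟩ | ⟨a, b⟩ | ⟨a, b⟩
  · left
    have c1 := to_coord hu (hone a) h1
    have c2 := to_coord hv (hone b) h2
    rw [mul_one] at c1 c2
    exact ⟨c1, c2⟩
  · right; left
    refine ⟨?_, to_coord hv a h2⟩
    have c : IsSquare (u * (-1)) := by
      have c1 := hs.mul (a.mul b)
      have e : u * (u + 9 * ↑m) * (u - 16 * ↑m) * ((u + 9 * ↑m) * ↑m * ((u - 16 * ↑m) * -↑m)) =
        (((u + 9 * (m : ℚ_[p])) * (u - 16 * m) * m) * ((u + 9 * (m : ℚ_[p])) * (u - 16 * m) * m)) *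
          (u * (-1)) := by ring
      rw [e] at c1
      have h0 : (u + 9 * (m : ℚ_[p])) * (u - 16 * m) * m ≠ 0 := mul_ne_zero (mul_ne_zero hv hw) hm'
      exact sq_cancel (mul_ne_zero h0 h0) (IsSquare.mul_self _) c1
    have := to_coord hu c h1
    rwa [mul_neg, mul_one] at this
  · right; right; left
    refine ⟨to_coord hu a h1, ?_⟩
    have c : IsSquare ((u + 9 * (m : ℚ_[p])) * 1) := by
      have c1 := hs.mul (a.mul b)
      have e : u * (u + 9 * ↑m) * (u - 16 * ↑m) * (u * (-m) * ((u - 16 * ↑m) * -↑m)) =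
        ((u * (u - 16 * m) * m) * (u * (u - 16 * m) * m)) *
          ((u + 9 * (m : ℚ_[p])) * 1) := by ring
      rw [e] at c1
      have h0 : u * (u - 16 * (m : ℚ_[p])) * m ≠ 0 := mul_ne_zero (mul_ne_zero hu hw) hm'
      exact sq_cancel (mul_ne_zero h0 h0) (IsSquare.mul_self _) c1
    have := to_coord hv c h2
    rwa [mul_one] at this
  · right; right; right
    exact ⟨to_coord hu a h1, to_coord hv b h2⟩

/-- **The local condition at the odd primes not dividing `m`.** -/
theorem loc_ndvd (hp2 : p ≠ 2) {m d1 d2 : ℤ} (hm : Cls m) (hpm : ¬ (p : ℤ) ∣ m)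
    (hd1 : Squarefree d1) (hd2 : Squarefree d2)
    (h : LocC ℚ_[p] 0 (-9 * m) (16 * m) d1 d2) : ¬ (p : ℤ) ∣ d1 ∧ ¬ (p : ℤ) ∣ d2 := by
  obtain ⟨u, hu, hv, hw, hs, h1, h2⟩ := locC_iff h
  have hm0 : m ≠ 0 := hm.neg.ne
  have hm' : (m : ℚ_[p]) ≠ 0 := by exact_mod_cast hm0
  have vm := val_zero hpm
  have n2 : ¬ (p : ℤ) ∣ (2 : ℤ) := not_dvd_of_prime Nat.prime_two hp2
  have hpr : Prime (p : ℤ) := Nat.prime_iff_prime_int.1 hp.out
  have v16 : (16 * (m : ℚ_[p])).valuation = 0 := by
    have := val_mul_unit (p := p) (n := m) 16 (fun h => n2 (by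
      have : (16 : ℤ) = 2 ^ 4 := by norm_num
      rw [this] at h
      exact hpr.dvd_of_dvd_pow h)) hm0
    push_cast at this
    rw [this, vm]
  have neg : ∀ x : ℚ_[p], (-x).valuation = x.valuation := by
    intro x
    by_cases hx : x = 0
    · rw [hx, neg_zero]
    exact (norm_eq_iff (neg_ne_zero.2 hx) hx).1 (norm_neg x)
  have E1 : u + 9 * (m : ℚ_[p]) - u = 9 * m := by ring
  have E2 : u - 16 * (m : ℚ_[p]) - u = -(16 * m) := by ring
  have E3 : u - 16 * (m : ℚ_[p]) - (u + 9 * m) = -(25 * m) := by ring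
  have E1' : u - (u + 9 * (m : ℚ_[p])) = 9 * (-m) := by ring
  have E2' : u - (u - 16 * (m : ℚ_[p])) = 16 * m := by ring
  have n9 : (9 * (m : ℚ_[p])) ≠ 0 := mul_ne_zero (by norm_num) hm'
  have n16 : (16 * (m : ℚ_[p])) ≠ 0 := mul_ne_zero (by norm_num) hm'
  have n25 : (25 * (m : ℚ_[p])) ≠ 0 := mul_ne_zero (by norm_num) hm'
  -- non squares
  have nsq : ∀ n : ℤ, ¬ (p : ℤ) ∣ n → IsSquare (n : ℚ_[p]) → IsSquare ((n : ℤ) : ZMod p) := by
    rintro n hn ⟨r, hr⟩
    have h1 : ‖r‖ ≤ 1 := by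
      by_contra hcon
      push Not at hcon
      have h2 : ‖(n : ℚ_[p])‖ ≤ 1 := Padic.norm_int_le_one n
      rw [hr, norm_mul] at h2
      nlinarith
    obtain ⟨v, hv⟩ : ∃ v : ℤ_[p], (v : ℚ_[p]) = r := ⟨⟨r, h1⟩, rfl⟩
    have h2 : ((n : ℤ) : ℤ_[p]) = v * v := by
      apply Subtype.ext
      rw [PadicInt.coe_mul, hv]
      push_cast
      exact hr
    have h3 := congrArg (PadicInt.toZMod (p := p)) h2
    rw [map_mul, map_intCast] at h3
    exact ⟨_, h3⟩
  have main : Even u.valuation ∧ Even (u + 9 * (m : ℚ_[p])).valuation := by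
    by_cases h5 : p = 5
    · subst h5
      have v9 : (9 * (m : ℚ_[5])).valuation = 0 := by
        have := val_mul_unit (p := 5) (n := m) 9 (by norm_num) hm0
        push_cast at this
        rw [this, vm]
      have v25 : (25 * (m : ℚ_[5])).valuation = 2 := by
        have e : (25 : ℚ_[5]) = ((5 : ℕ) : ℚ_[5]) ^ 2 := by norm_num
        rw [Padic.valuation_mul (by norm_num) hm', vm, e, Padic.valuation_pow, val_p]
        norm_num
      have hs' : IsSquare ((u + 9 * (m : ℚ_[5])) * (u - 16 * m) * u) := by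
        have e : (u + 9 * (m : ℚ_[5])) * (u - 16 * m) * u = u * (u + 9 * m) * (u - 16 * m) := by
          ring
        rwa [e]
      have := loc_unr hp2 (u := u + 9 * (m : ℚ_[5])) (v := u - 16 * m) (w := u) hv hw hu hs'
        (by rw [E3]; exact neg_ne_zero.2 n25) (by rw [E1', mul_neg]; exact neg_ne_zero.2 n9)
        (by rw [E2']; exact n16) (l := 2) (k := 0) (by rw [E3, neg, v25])
        (by rw [E1', mul_neg, neg, v9]) (by rw [E2', v16]) (by norm_num) (by decide) (by decide)
        (fun _ hsq => by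
          rw [E1'] at hsq
          have hsq' : IsSquare (((-m : ℤ) : ℤ) : ℚ_[5]) := by
            push_cast
            exact sq_cancel (by norm_num) sq3 hsq
          have h7 := nsq (-m) (by rwa [dvd_neg]) hsq'
          have h9 := sq_mod5 _ h7
          have h10 : m % 5 = 2 ∨ m % 5 = 3 := by
            rcases hm.m5 with h | h | h
            · exact absurd (Int.dvd_of_emod_eq_zero h) hpm
            · exact Or.inl h
            · exact Or.inr h
          have h11 : ∀ k : ℤ, ((-m : ℤ) : ZMod 5) = (k : ZMod 5) → (5 : ℤ) ∣ -m - k := by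
            intro k hk
            have : ((-m - k : ℤ) : ZMod 5) = 0 := by
              push_cast at hk ⊢
              rw [hk, sub_self]
            exact (ZMod.intCast_zmod_eq_zero_iff_dvd (-m - k) 5).1 this
          rcases h9 with h | h | h
          · have := h11 0 (by simpa using h)
            omega
          · have := h11 1 (by simpa using h)
            omega
          · have := h11 4 (by simpa using h)
            omega)
      exact ⟨this.2.2, this.1⟩
    · have v25 : (25 * (m : ℚ_[p])).valuation = 0 := by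
        have := val_mul_unit (p := p) (n := m) 25 (fun h => by
          have e : (25 : ℤ) = (5 : ℕ) ^ 2 := by norm_num
          rw [e] at h
          exact not_dvd_of_prime (by norm_num) h5 (hpr.dvd_of_dvd_pow h)) hm0
        push_cast at this
        rw [this, vm]
      by_cases h3 : p = 3
      · subst h3
        have v9 : (9 * (m : ℚ_[3])).valuation = 2 := by
          have e : (9 : ℚ_[3]) = ((3 : ℕ) : ℚ_[3]) ^ 2 := by norm_num
          rw [Padic.valuation_mul (by norm_num) hm', vm, e, Padic.valuation_pow, val_p]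
          norm_num
        have := loc_unr hp2 (u := u) (v := u + 9 * (m : ℚ_[3])) (w := u - 16 * m) hu hv hw hs
          (by rw [E1]; exact n9) (by rw [E2]; exact neg_ne_zero.2 n16)
          (by rw [E3]; exact neg_ne_zero.2 n25) (l := 2) (k := 0) (by rw [E1, v9])
          (by rw [E2, neg, v16]) (by rw [E3, neg, v25]) (by norm_num) (by decide) (by decide)
          (fun _ hsq => by
            rw [E2] at hsq
            have e : -(16 * (m : ℚ_[3])) = 16 * (-m) := by ring
            rw [e] at hsq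
            have hsq' : IsSquare (((-m : ℤ) : ℤ) : ℚ_[3]) := by
              push_cast
              exact sq_cancel (by norm_num) sq4 hsq
            have h7 := nsq (-m) (by rwa [dvd_neg]) hsq'
            have h9 := sq_mod3 _ h7
            have h10 : m % 3 = 1 := by
              have := hm.m3
              have h12 : m % 3 ≠ 0 := fun h => hpm (Int.dvd_of_emod_eq_zero h)
              omega
            have h11 : ∀ k : ℤ, ((-m : ℤ) : ZMod 3) = (k : ZMod 3) → (3 : ℤ) ∣ -m - k := by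
              intro k hk
              have : ((-m - k : ℤ) : ZMod 3) = 0 := by
                push_cast at hk ⊢
                rw [hk, sub_self]
              exact (ZMod.intCast_zmod_eq_zero_iff_dvd (-m - k) 3).1 this
            rcases h9 with h | h
            · have := h11 0 (by simpa using h)
              omega
            · have := h11 1 (by simpa using h)
              omega)
        exact ⟨this.1, this.2.1⟩
      · have v9 : (9 * (m : ℚ_[p])).valuation = 0 := by
          have := val_mul_unit (p := p) (n := m) 9 (fun h => by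
            have e : (9 : ℤ) = (3 : ℕ) ^ 2 := by norm_num
            rw [e] at h
            exact not_dvd_of_prime (by norm_num) h3 (hpr.dvd_of_dvd_pow h)) hm0
          push_cast at this
          rw [this, vm]
        have := loc_unr hp2 (u := u) (v := u + 9 * (m : ℚ_[p])) (w := u - 16 * m) hu hv hw hs
          (by rw [E1]; exact n9) (by rw [E2]; exact neg_ne_zero.2 n16)
          (by rw [E3]; exact neg_ne_zero.2 n25) (l := 0) (k := 0) (by rw [E1, v9])
          (by rw [E2, neg, v16]) (by rw [E3, neg, v25]) (by norm_num) (by decide) (by decide)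
          (fun h => absurd h (by norm_num))
        exact ⟨this.1, this.2.1⟩
  exact ⟨not_dvd_of_even hu main.1 hd1 h1, not_dvd_of_even hv main.2 hd2 h2⟩

end odd

end Pool.Agent.N875.X15
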