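import Pool.Agent.N875.X15.Conv3

/-!
# The 4-rank of the class group for the even discriminants
-/

set_option autoImplicit false

namespace Pool.Agent.N875.X15

open Pool.Agent.Y755.FK (Rn S_AMB1 S_AMB S_SQ S_LEG)
open Pool.Agent.N969.P15 (Ev Qe)
open NumberField

/-- a common form of the two cases of the condition at `p` -/
lemma cond_b {m b c p : ℕ} (hm : m = b * c) (hp : p.Prime) (hs : Squarefree m) (t : ℕ)
    (_ht : Nat.Coprime t p) (hpb : p ∣ b) :
    jacobiSym (((t * b) / p * (m / p) : ℕ) : ℤ) p = jacobiSym ((t * c : ℕ) : ℤ) p := by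
  obtain ⟨e, rfl⟩ := hpb
  have hpp := hp.pos
  have e1 : t * (p * e) / p = t * e := by
    rw [show t * (p * e) = p * (t * e) by ring, Nat.mul_div_cancel_left _ hpp]
  have e2 : m / p = e * c := by
    rw [hm, show p * e * c = p * (e * c) by ring, Nat.mul_div_cancel_left _ hpp]
  rw [e1, e2]
  have he : ¬ p ∣ e := by
    rintro ⟨f, rfl⟩
    have := hs p ⟨f * c, by rw [hm]; ring⟩
    exact hp.one_lt.ne' (Nat.isUnit_iff.1 this)
  have e3 : ((t * e * (e * c) : ℕ) : ℤ) = (e : ℤ) ^ 2 * ((t * c : ℕ) : ℤ) := by push_cast; ring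
  rw [e3, jacobiSym.mul_left]
  have h1 : jacobiSym ((e : ℤ) ^ 2) p = 1 := by
    apply jacobiSym.sq_one'
    rw [Int.gcd_natCast_natCast]
    exact ((Nat.Prime.coprime_iff_not_dvd hp).2 he).symm
  rw [h1, one_mul]

/-- **The 4-rank**: the class group of `ℚ(√-m)`, `n = 4 m`, has no element of order four if and only
if `Qe n`. -/
theorem qe_iff_class {n : ℕ} (h : Ev n) (hn4 : n ≠ 4) (K : Type) [Field K]
    [NumberField K] (h2 : Module.finrank ℚ K = 2) (hs : ∃ s : K, s ^ 2 = -((n / 4 : ℕ) : K)) :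
    (∀ c : ClassGroup (𝓞 K), c ^ 4 = 1 → c ^ 2 = 1) ↔ Qe n := by
  classical
  obtain ⟨m, rfl, hm, h4⟩ := h
  have e4 : 4 * m / 4 = m := by omega
  rw [e4] at hs
  have hA1 : S_AMB1 := Pool.Agent.Y486.FK.t_AMB1
  have hA : S_AMB := Pool.Agent.Y688.FK.t_AMB2 hA1
  have hS : S_SQ := Pool.Agent.Y629.FK.t_SQ
  have hL : S_LEG := Pool.Agent.Y168.FK.t_LEG
  have hc := Pool.Agent.Y473.FK.Alg.count K hA1 hA hS h2 m hm hs
  have hm0 := hm.ne_zero
  have hm1 : m ≠ 1 := by omega
  have hR0 : Rn m ≠ 0 := by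
    unfold Rn
    split_ifs <;> omega
  -- the representations
  have hrep : ∀ d : ℕ, Squarefree d → d ∣ Rn m → (Pool.Agent.Y473.FK.Alg.Rep m d ↔
      (∀ p ∈ (4 * m).primeFactors, p ≠ 2 →
        (if p ∣ d then jacobiSym ((d / p * (4 * m / 4 / p) : ℕ) : ℤ) p else jacobiSym d p) = 1)) := by
    intro d hd hdR
    rw [e4]
    have hpf : ∀ p : ℕ, p ≠ 2 → (p ∈ (4 * m).primeFactors ↔ p.Prime ∧ p ∣ m) := by
      intro p hp2
      rw [Nat.mem_primeFactors]
      constructor
      · rintro ⟨hp, h, -⟩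
        refine ⟨hp, ?_⟩
        rcases hp.dvd_mul.1 h with h | h
        · have h5 : p ∣ 2 ^ 2 := by simpa using h
          exact absurd ((Nat.prime_dvd_prime_iff_eq hp Nat.prime_two).1 (hp.dvd_of_dvd_pow h5)) hp2
        · exact h
      · rintro ⟨hp, h⟩
        exact ⟨hp, h.mul_left 4, by omega⟩
    by_cases hdm : d ∣ m
    · obtain ⟨c, hc⟩ := hdm
      have hcop : Nat.Coprime d c := by
        rw [hc] at hm
        exact Nat.coprime_of_squarefree_mul hm
      have h1 := hL.1 d c (by rw [← hc]; exact hm)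
      rw [← hc] at h1
      refine h1.trans ?_
      constructor
      · rintro ⟨h3, h4⟩ p hp hp2
        obtain ⟨hpp, hpm⟩ := (hpf p hp2).1 hp
        by_cases hpd : p ∣ d
        · rw [if_pos hpd]
          have := cond_b hc hpp hm 1 (Nat.coprime_one_left p) hpd
          rw [one_mul, one_mul] at this
          rw [this]
          exact h4 p hpp hp2 hpd
        · rw [if_neg hpd]
          rw [hc] at hpm
          exact h3 p hpp hp2 ((hpp.dvd_mul.1 hpm).resolve_left hpd)
      · intro h3
        constructor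
        · intro p hpp hp2 hpc
          have h4 := h3 p ((hpf p hp2).2 ⟨hpp, by rw [hc]; exact hpc.mul_left d⟩) hp2
          rw [if_neg (fun hpd => hpp.one_lt.ne' (Nat.eq_one_of_dvd_coprimes hcop hpd hpc))] at h4
          exact h4
        · intro p hpp hp2 hpd
          have h4 := h3 p ((hpf p hp2).2 ⟨hpp, by rw [hc]; exact hpd.mul_right c⟩) hp2
          rw [if_pos hpd] at h4
          have := cond_b hc hpp hm 1 (Nat.coprime_one_left p) hpd
          rw [one_mul, one_mul] at this
          rwa [this] at h4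
    · -- `d = 2 b`, `m` odd
      have hm4 : m % 4 = 1 := by
        by_contra hcon
        apply hdm
        have : Rn m = m := by unfold Rn; rw [if_neg hcon]
        rwa [this] at hdR
      have hRm : Rn m = 2 * m := by unfold Rn; rw [if_pos hm4]
      rw [hRm] at hdR
      have hd2 : 2 ∣ d := by
        by_contra hcon
        apply hdm
        have h5 : Nat.Coprime d 2 := ((Nat.Prime.coprime_iff_not_dvd Nat.prime_two).2 hcon).symm
        exact h5.dvd_of_dvd_mul_left hdR
      obtain ⟨b, rfl⟩ := hd2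
      have hbm : b ∣ m := Nat.dvd_of_mul_dvd_mul_left two_pos hdR
      obtain ⟨c, hc⟩ := hbm
      have hcop : Nat.Coprime b c := by
        rw [hc] at hm
        exact Nat.coprime_of_squarefree_mul hm
      have hodd : Odd (b * c) := by rw [← hc, Nat.odd_iff]; omega
      have h1 := hL.2 b c (by rw [← hc]; exact hm) hodd
      rw [← hc] at h1
      refine h1.trans ?_
      have h2m : ∀ p : ℕ, p ∣ m → p ≠ 2 := by
        rintro p hp rfl
        omega
      have hcop2 : ∀ p : ℕ, p.Prime → p ≠ 2 → Nat.Coprime 2 p := fun p hp hp2 =>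
        (Nat.coprime_primes Nat.prime_two hp).2 (Ne.symm hp2)
      constructor
      · rintro ⟨h3, h4⟩ p hp hp2
        obtain ⟨hpp, hpm⟩ := (hpf p hp2).1 hp
        by_cases hpd : p ∣ 2 * b
        · rw [if_pos hpd]
          have hpb : p ∣ b := (hpp.dvd_mul.1 hpd).resolve_left fun h5 =>
            hp2 ((Nat.prime_dvd_prime_iff_eq hpp Nat.prime_two).1 h5)
          have := cond_b hc hpp hm 2 (hcop2 p hpp hp2) hpb
          rw [this]
          push_cast
          exact h4 p hpp hpb
        · rw [if_neg hpd]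
          rw [hc] at hpm
          push_cast
          exact h3 p hpp ((hpp.dvd_mul.1 hpm).resolve_left fun h5 => hpd (h5.mul_left 2))
      · intro h3
        constructor
        · intro p hpp hpc
          have hpm : p ∣ m := by rw [hc]; exact hpc.mul_left b
          have hp2 := h2m p hpm
          have h4 := h3 p ((hpf p hp2).2 ⟨hpp, hpm⟩) hp2
          rw [if_neg (fun hpd => by
            rcases hpp.dvd_mul.1 hpd with h5 | h5
            · exact hp2 ((Nat.prime_dvd_prime_iff_eq hpp Nat.prime_two).1 h5)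
            · exact hpp.one_lt.ne' (Nat.eq_one_of_dvd_coprimes hcop h5 hpc))] at h4
          push_cast at h4
          exact h4
        · intro p hpp hpb
          have hpm : p ∣ m := by rw [hc]; exact hpb.mul_right c
          have hp2 := h2m p hpm
          have h4 := h3 p ((hpf p hp2).2 ⟨hpp, hpm⟩) hp2
          rw [if_pos (hpb.mul_left 2)] at h4
          have := cond_b hc hpp hm 2 (hcop2 p hpp hp2) hpb
          rw [this] at h4
          push_cast at h4
          exact h4
  have hmR : m ∣ Rn m := by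
    unfold Rn
    split_ifs
    · exact ⟨2, by ring⟩
    · exact dvd_rfl
  have sqR : Squarefree (Rn m) := by
    unfold Rn
    split_ifs with h5
    · rw [Nat.squarefree_mul_iff]
      refine ⟨?_, Nat.prime_two.squarefree, hm⟩
      rw [Nat.Prime.coprime_iff_not_dvd Nat.prime_two]
      omega
    · exact hm
  have h1rep : Pool.Agent.Y473.FK.Alg.Rep m 1 := ⟨1, 0, by norm_num⟩
  have hnrep : Pool.Agent.Y473.FK.Alg.Rep m m := ⟨0, 1, by norm_num⟩
  have hsub : ({1, m} : Finset ℕ) ⊆ (Rn m).divisors.filter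
      (fun b => Pool.Agent.Y473.FK.Alg.Rep m b) := by
    intro b hb
    rw [Finset.mem_insert, Finset.mem_singleton] at hb
    rw [Finset.mem_filter, Nat.mem_divisors]
    rcases hb with rfl | rfl
    · exact ⟨⟨one_dvd _, hR0⟩, h1rep⟩
    · exact ⟨⟨hmR, hR0⟩, hnrep⟩
  have hcard2 : ({1, m} : Finset ℕ).card = 2 := Finset.card_pair hm1.symm
  -- squarefree numbers supported at the primes of `4 m`
  have hdvd : ∀ d : ℕ, Squarefree d → ((∀ p ∈ d.primeFactors, p ∣ 4 * m) ↔ d ∣ Rn m) := by
    intro d hd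
    constructor
    · intro h5
      refine dvd_of_primes hd fun p hp hpd => ?_
      have h6 := h5 p (Nat.mem_primeFactors.2 ⟨hp, hpd, hd.ne_zero⟩)
      rcases hp.dvd_mul.1 h6 with h7 | h7
      · have h8 : p ∣ 2 ^ 2 := by simpa using h7
        have h9 := (Nat.prime_dvd_prime_iff_eq hp Nat.prime_two).1 (hp.dvd_of_dvd_pow h8)
        rw [h9]
        unfold Rn
        split_ifs <;> omega
      · exact h7.trans hmR
    · intro h5 p hp
      obtain ⟨hp1, hp2, -⟩ := Nat.mem_primeFactors.1 hp
      have h6 : p ∣ Rn m := hp2.trans h5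
      unfold Rn at h6
      split_ifs at h6
      · rcases hp1.dvd_mul.1 h6 with h7 | h7
        · exact (h7.trans ⟨2, by norm_num⟩ : p ∣ 4).mul_right m
        · exact h7.mul_left 4
      · exact h6.mul_left 4
  constructor
  · intro h d hd hsup hcond
    have h3 : Nat.card {y : ClassGroup (𝓞 K) // ∃ x : ClassGroup (𝓞 K), x ^ 4 = 1 ∧ x ^ 2 = y} =
        1 := by
      rw [Nat.card_eq_one_iff_unique]
      refine ⟨⟨?_⟩, ⟨⟨1, 1, one_pow 4, one_pow 2⟩⟩⟩
      rintro ⟨y, x, hx, hy⟩ ⟨y', x', hx', hy'⟩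
      apply Subtype.ext
      show y = y'
      rw [← hy, ← hy', h x hx, h x' hx']
    rw [h3, mul_one] at hc
    have h5 := Finset.eq_of_subset_of_card_le hsub (by rw [hc, hcard2])
    have hdR := (hdvd d hd).1 hsup
    have h6 : d ∈ (Rn m).divisors.filter (fun b => Pool.Agent.Y473.FK.Alg.Rep m b) := by
      rw [Finset.mem_filter, Nat.mem_divisors]
      exact ⟨⟨hdR, hR0⟩, (hrep d hd hdR).2 hcond⟩
    rw [← h5, Finset.mem_insert, Finset.mem_singleton] at h6
    rw [e4]
    exact h6
  · intro h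
    have h5 : (Rn m).divisors.filter (fun b => Pool.Agent.Y473.FK.Alg.Rep m b) = {1, m} := by
      apply Finset.Subset.antisymm _ hsub
      intro b hb
      rw [Finset.mem_filter, Nat.mem_divisors] at hb
      obtain ⟨⟨hbR, -⟩, hb2⟩ := hb
      have hbs : Squarefree b := sqR.squarefree_of_dvd hbR
      have h6 := h b hbs ((hdvd b hbs).2 hbR) ((hrep b hbs hbR).1 hb2)
      rw [e4] at h6
      rw [Finset.mem_insert, Finset.mem_singleton]
      exact h6
    rw [h5, hcard2] at hc
    have h3 : Nat.card {y : ClassGroup (𝓞 K) // ∃ x : ClassGroup (𝓞 K), x ^ 4 = 1 ∧ x ^ 2 = y} =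
        1 := by omega
    rw [Nat.card_eq_one_iff_unique] at h3
    obtain ⟨⟨h3⟩, -⟩ := h3
    intro c hc4
    have := h3 ⟨c ^ 2, c, hc4, rfl⟩ ⟨1, 1, one_pow 4, one_pow 2⟩
    exact congrArg Subtype.val this

end Pool.Agent.N875.X15
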