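import Pool.Agent.N875.X15.RcNc
import Pool.Agent.N875.X15.Short
import Pool.Agent.N969.P15.Defs2

/-!
# The condition for the even discriminants
-/

set_option autoImplicit false

namespace Pool.Agent.N875.X15

open Pool.Agent.N969.P15 (Ev Qe Cls0e)
open Pool.Agent.TH841.SH.D (Sha)

/-- **Rank zero and `Ш[2^∞] = 0`** for all twists of the class. -/
theorem rank_sha_of_nc {m : ℤ} (hm : Cls m) (hN : NC m) :
    Finite (EQm m).toAffine.Point ∧
    ∀ (k : ℕ) (x : Sha (EQm m)), (2 ^ k : ℕ) • x = 0 → x = 0 :=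
  finite_of_crit hm (rc_of_nc hm.neg hm.sqf hN) hN

/-- the condition for even discriminants -/
theorem nc_iff_Qe {n : ℕ} (h : Ev n) : NC (-((n / 4 : ℕ) : ℤ)) ↔ Qe n := by
  obtain ⟨m, rfl, hs, h4⟩ := h
  have e4 : 4 * m / 4 = m := by omega
  have hm0 : m ≠ 0 := hs.ne_zero
  have hz : Squarefree (m : ℤ) := Int.squarefree_natCast.2 hs
  rw [e4]
  have hram : ∀ p : ℕ, p.Prime → (Ram (-(m : ℤ)) p ↔ p ∣ 4 * m) := by
    intro p hp
    unfold Ram
    rw [dvd_neg, Int.natCast_dvd_natCast, hp.dvd_mul]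
    constructor
    · rintro (h | ⟨rfl, -⟩)
      · exact Or.inr h
      · exact Or.inl (by norm_num)
    · rintro (h | h)
      · right
        have h5 : p ∣ 2 ^ 2 := by simpa using h
        refine ⟨(Nat.prime_dvd_prime_iff_eq hp Nat.prime_two).1 (hp.dvd_of_dvd_pow h5), ?_⟩
        omega
      · exact Or.inl h
  have hpf : ∀ p : ℕ, p.Prime → p ≠ 2 → (p ∈ (4 * m).primeFactors ↔ p ∣ m) := by
    intro p hp hp2
    rw [Nat.mem_primeFactors]
    constructor
    · rintro ⟨-, h, -⟩
      rcases hp.dvd_mul.1 h with h | h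
      · have h5 : p ∣ 2 ^ 2 := by simpa using h
        exact absurd ((Nat.prime_dvd_prime_iff_eq hp Nat.prime_two).1 (hp.dvd_of_dvd_pow h5)) hp2
      · exact h
    · intro h
      exact ⟨hp, h.mul_left 4, by omega⟩
  -- the condition at an odd prime
  have hloc : ∀ (p : ℕ) [Fact p.Prime] (d : ℕ), Squarefree d → p ≠ 2 → p ∣ m →
      ((IsSquare (d : ℚ_[p]) ∨ IsSquare ((d : ℚ_[p]) * m)) ↔
        (if p ∣ d then jacobiSym ((d / p * (m / p) : ℕ) : ℤ) p else jacobiSym d p) = 1) := by
    intro p hp d hd hp2 hpm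
    have hdz : Squarefree (d : ℤ) := Int.squarefree_natCast.2 hd
    have hd0 : ((d : ℕ) : ℚ_[p]) ≠ 0 := by exact_mod_cast hd.ne_zero
    have hm0' : ((m : ℕ) : ℚ_[p]) ≠ 0 := by exact_mod_cast hm0
    by_cases hpd : p ∣ d
    · rw [if_pos hpd]
      obtain ⟨e, rfl⟩ := hpd
      obtain ⟨k, rfl⟩ := hpm
      have hpp := hp.out.pos
      rw [Nat.mul_div_cancel_left _ hpp, Nat.mul_div_cancel_left _ hpp]
      have nsq : ¬ IsSquare (((p * e : ℕ)) : ℚ_[p]) := by
        have := not_sq (p := p) hdz ⟨(e : ℤ), by push_cast; ring⟩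
        push_cast at this ⊢
        exact this
      have he : ¬ p ∣ e := by
        intro h
        obtain ⟨f, rfl⟩ := h
        have := hd p ⟨f, by ring⟩
        exact hp.out.one_lt.ne' (Nat.isUnit_iff.1 this)
      have hk : ¬ p ∣ k := by
        intro h
        obtain ⟨f, rfl⟩ := h
        have := hs p ⟨f, by ring⟩
        exact hp.out.one_lt.ne' (Nat.isUnit_iff.1 this)
      have hg : Gd p (((e * k : ℕ)) : ℤ) := by
        rw [gd_odd hp2]
        intro h
        rcases hp.out.dvd_mul.1 (by exact_mod_cast h : p ∣ e * k) with h | h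
        · exact he h
        · exact hk h
      have e1 : (((p * e : ℕ)) : ℚ_[p]) * ((p * k : ℕ)) = ((p : ℚ_[p]) * p) *
          ((((e * k : ℕ)) : ℤ) : ℚ_[p]) := by
        push_cast
        ring
      rw [e1, ← ch_odd hp2, ch_iff hg]
      have hpz : (p : ℚ_[p]) ≠ 0 := by exact_mod_cast hp.out.ne_zero
      constructor
      · rintro (h | h)
        · exact absurd h nsq
        · exact sq_cancel (mul_ne_zero hpz hpz) (IsSquare.mul_self _) h
      · intro h
        exact Or.inr ((IsSquare.mul_self _).mul h)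
    · rw [if_neg hpd]
      have hg : Gd p ((d : ℕ) : ℤ) := by
        rw [gd_odd hp2]
        exact_mod_cast hpd
      rw [← ch_odd hp2, ch_iff hg]
      constructor
      · rintro (h | h)
        · exact_mod_cast h
        · exfalso
          have h1 := even_val (mul_ne_zero hd0 hm0') h
          have h2 := val_zero (p := p) (n := (d : ℤ)) (by exact_mod_cast hpd)
          have h3 := val_one (p := p) (n := (m : ℤ)) (by exact_mod_cast hpm) hz
          push_cast at h2 h3
          rw [Padic.valuation_mul hd0 hm0', h2, h3] at h1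
          exact absurd h1 (by decide)
      · intro h
        left
        exact_mod_cast h
  constructor
  · intro hN d hd hsup hc
    have h1 := hN (d : ℤ) (by exact_mod_cast Nat.pos_of_ne_zero hd.ne_zero)
      (Int.squarefree_natCast.2 hd) (fun p hp hpd => (hram p hp).2 (hsup p (Nat.mem_primeFactors.2
        ⟨hp, by exact_mod_cast hpd, hd.ne_zero⟩))) (fun p hp hp2 hpm => by
        rw [dvd_neg] at hpm
        have hpm' : p ∣ m := by exact_mod_cast hpm
        have h2 := hc p ((hpf p hp.out hp2).2 hpm') hp2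
        rw [e4] at h2
        have h3 := (hloc p d hd hp2 hpm').2 h2
        push_cast
        rw [neg_neg]
        exact h3)
    rw [e4]
    rcases h1 with h1 | h1
    · left
      exact_mod_cast h1
    · right
      rw [neg_neg] at h1
      exact_mod_cast h1
  · intro hQ d hd hds hsup hc
    obtain ⟨b, rfl⟩ := Int.eq_ofNat_of_zero_le hd.le
    have hbs : Squarefree b := Int.squarefree_natCast.1 hds
    have h1 := hQ b hbs (fun p hp => by
      obtain ⟨h1, h2, -⟩ := Nat.mem_primeFactors.1 hp
      exact (hram p h1).1 (hsup p h1 (by exact_mod_cast h2))) (fun p hp hp2 => by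
      have hpp := (Nat.mem_primeFactors.1 hp).1
      have : Fact p.Prime := ⟨hpp⟩
      have hpm := (hpf p hpp hp2).1 hp
      rw [e4]
      refine (hloc p b hbs hp2 hpm).1 ?_
      have h2 := hc p hp2 (by rw [dvd_neg]; exact_mod_cast hpm)
      push_cast at h2
      rw [neg_neg] at h2
      exact h2)
    rw [e4] at h1
    rw [neg_neg]
    rcases h1 with h1 | h1
    · left
      exact_mod_cast h1
    · right
      exact_mod_cast h1

lemma cls_even {n : ℕ} (h : Cls0e n) : Cls (-((n / 4 : ℕ) : ℤ)) := by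
  obtain ⟨⟨m, rfl, hs, h4⟩, h3, h5⟩ := h
  have e4 : 4 * m / 4 = m := by omega
  rw [e4]
  refine ⟨?_, ?_, by omega, by omega⟩
  · have := hs.ne_zero
    omega
  · intro x hx
    rw [dvd_neg] at hx
    exact Int.squarefree_natCast.2 hs x hx

/-- **The algebraic side for the even discriminants `-n`, `n = 4 m`.** -/
theorem rank_sha_of_Qe {n : ℕ} (h : Cls0e n) (hQ : Qe n) :
    Fin2 (WS (-((n / 4 : ℕ) : ℤ))) := by
  have hc := cls_even h
  rw [fin2_S hc.neg.ne]
  obtain ⟨h1, h2⟩ := rank_sha_of_nc hc ((nc_iff_Qe h.1).2 hQ)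
  refine ⟨h1, fun x hx => h2 1 x ?_⟩
  rw [pow_one, two_nsmul]
  exact hx

end Pool.Agent.N875.X15
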