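import Pool.Agent.N875.X15.Conv2

/-!
# The converse for `m ≢ 1 mod 4`: local points
-/

set_option autoImplicit false

namespace Pool.Agent.N875.X15

open Pool.Agent.Z702 (LocI WZ coc S_COC S_LOT S_COB S_TRN)
open Pool.Agent.TH841.SH.D (shaCoc cob Coch Sha cob_zero)

/-- the odd primes -/
theorem loc_odd {m d : ℤ} (hm : Cls m) (hd : 0 < d) (p : ℕ) [hp : Fact p.Prime] (hp2 : p ≠ 2)
    (hsup : (p : ℤ) ∣ d → (p : ℤ) ∣ m)
    (hloc : (p : ℤ) ∣ m → IsSquare (d : ℚ_[p]) ∨ IsSquare ((d : ℚ_[p]) * (-m))) :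
    LocI ℚ_[p] (-34 * m) (225 * m ^ 2) d := by
  have hm0 : m ≠ 0 := hm.neg.ne
  by_cases hpm : (p : ℤ) ∣ m
  · rcases hloc hpm with h | h
    · exact locI_sq hd.ne' h
    · exact locI_neg hm0 hd.ne' h
  · have hpd : ¬ (p : ℤ) ∣ d := fun h => hpm (hsup h)
    by_cases hsq : IsSquare ((d : ℤ) : ZMod p)
    · exact locI_sq hd.ne' (sq_of_zmod hp2 hpd hsq)
    · by_cases hsq' : IsSquare (((d * -m : ℤ)) : ZMod p)
      · refine locI_neg hm0 hd.ne' ?_
        have h1 : ¬ (p : ℤ) ∣ d * -m := by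
          intro h
          rcases (Nat.prime_iff_prime_int.1 hp.out).dvd_or_dvd h with h3 | h3
          · exact hpd h3
          · exact hpm (by rwa [dvd_neg] at h3)
        have := sq_of_zmod hp2 h1 hsq'
        push_cast at this
        exact this
      · -- the primes of good reduction
        have hp3 : p ≠ 3 := by
          rintro rfl
          have h1 : m % 3 = 1 := by
            have := hm.m3
            have h12 : m % 3 ≠ 0 := fun h => hpm (Int.dvd_of_emod_eq_zero h)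
            omega
          have h2 : d % 3 = 1 ∨ d % 3 = 2 := by
            have h12 : d % 3 ≠ 0 := fun h => hpd (Int.dvd_of_emod_eq_zero h)
            omega
          rcases h2 with h2 | h2
          · apply hsq
            refine ⟨1, ?_⟩
            have h3 : ((3 : ℕ) : ℤ) ∣ d - 1 := by push_cast; omega
            have h4 := (ZMod.intCast_zmod_eq_zero_iff_dvd (d - 1) 3).2 h3
            push_cast at h4
            rw [mul_one]
            exact sub_eq_zero.1 h4
          · apply hsq'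
            refine ⟨1, ?_⟩
            have h3 : ((3 : ℕ) : ℤ) ∣ d * -m - 1 := by
              push_cast
              have h5 : (d * -m) % 3 = 1 := by
                rw [Int.mul_emod, h2]
                have : (-m) % 3 = 2 := by omega
                rw [this]
                norm_num
              omega
            have h4 := (ZMod.intCast_zmod_eq_zero_iff_dvd (d * -m - 1) 3).2 h3
            rw [mul_one]
            have h5 : ((d * -m - 1 : ℤ) : ZMod 3) = ((d * -m : ℤ) : ZMod 3) - 1 := by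
              push_cast; ring
            rw [h5] at h4
            exact sub_eq_zero.1 h4
        have hp5 : p ≠ 5 := by
          rintro rfl
          have h1 : m % 5 = 2 ∨ m % 5 = 3 := by
            rcases hm.m5 with h | h | h
            · exact absurd (Int.dvd_of_emod_eq_zero h) hpm
            · exact Or.inl h
            · exact Or.inr h
          have h2 : d % 5 ≠ 0 := fun h => hpd (Int.dvd_of_emod_eq_zero h)
          have key : ∀ (k e : ℤ), (k - e) % 5 = 0 → ((k : ℤ) : ZMod 5) = (e : ZMod 5) := by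
            intro k e h
            have h3 : ((5 : ℕ) : ℤ) ∣ k - e := by push_cast; exact Int.dvd_of_emod_eq_zero h
            have h4 := (ZMod.intCast_zmod_eq_zero_iff_dvd (k - e) 5).2 h3
            push_cast at h4
            exact sub_eq_zero.1 h4
          have sq1 : IsSquare ((1 : ℤ) : ZMod 5) := sq15
          have sq4 : IsSquare ((4 : ℤ) : ZMod 5) := sq45
          have h3 : d % 5 = 1 ∨ d % 5 = 4 ∨ d % 5 = 2 ∨ d % 5 = 3 := by omega
          rcases h3 with h3 | h3 | h3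
          · apply hsq
            rw [key d 1 (by omega)]
            exact sq1
          · apply hsq
            rw [key d 4 (by omega)]
            exact sq4
          · apply hsq'
            have h5 : (d * -m) % 5 = 1 ∨ (d * -m) % 5 = 4 := by
              have h6 : (-m) % 5 = 2 ∨ (-m) % 5 = 3 := by omega
              rw [Int.mul_emod]
              rcases h3 with h3 | h3 <;> rcases h6 with h6 | h6 <;> rw [h3, h6] <;> norm_num
            rcases h5 with h5 | h5
            · rw [key (d * -m) 1 (by omega)]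
              exact sq1
            · rw [key (d * -m) 4 (by omega)]
              exact sq4
        have hpr : Prime (p : ℤ) := Nat.prime_iff_prime_int.1 hp.out
        have hz : ∀ n : ℤ, ¬ (p : ℤ) ∣ n → ((n : ℤ) : ZMod p) ≠ 0 := fun n hn h =>
          hn ((ZMod.intCast_zmod_eq_zero_iff_dvd n p).1 h)
        have hb : ((225 * m ^ 2 : ℤ) : ZMod p) ≠ 0 := by
          apply hz
          intro h
          rcases hpr.dvd_or_dvd h with h3 | h3
          · have e : (225 : ℤ) = 3 ^ 2 * 5 ^ 2 := by norm_num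
            rw [e] at h3
            rcases hpr.dvd_or_dvd h3 with h5 | h5
            · exact not_dvd_of_prime Nat.prime_three hp3 (hpr.dvd_of_dvd_pow h5)
            · exact not_dvd_of_prime Nat.prime_five hp5 (hpr.dvd_of_dvd_pow h5)
          · exact hpm (hpr.dvd_of_dvd_pow h3)
        refine Pool.Agent.Z894.LG.aux p (-34 * m) (225 * m ^ 2) d hp2 hb ?_ hd.ne' ?_
        · have e : (((-34 * m : ℤ) : ZMod p)) ^ 2 - 4 * ((225 * m ^ 2 : ℤ) : ZMod p) =
              (16 * (m : ZMod p)) ^ 2 := by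
            push_cast; ring
          rw [e]
          apply quadraticChar_sq_one'
          have h16 : ¬ (p : ℤ) ∣ 16 * m := by
            intro h
            rcases hpr.dvd_or_dvd h with h3 | h3
            · have e : (16 : ℤ) = 2 ^ 4 := by norm_num
              rw [e] at h3
              exact not_dvd_of_prime Nat.prime_two hp2 (hpr.dvd_of_dvd_pow h3)
            · exact hpm h3
          have := hz _ h16
          push_cast at this
          exact this
        · rcases quadraticChar_dichotomy (hz d hpd) with h | h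
          · exfalso
            exact hsq ((quadraticChar_one_iff_isSquare (hz d hpd)).1 h)
          · exact h

/-- the real place -/
theorem loc_real {m d : ℤ} (hd : 0 < d) : LocI ℝ (-34 * m) (225 * m ^ 2) d := by
  -- the real place
  obtain ⟨x, y, hy, hxy, ⟨r0, h0⟩, -, -⟩ := Pool.Agent.TH841.SH.pt_real 0 (-4 * m) (-64 * m)
  push_cast at h0 hxy
  have hne : (x - 0) * (x - -4 * (m : ℝ)) * (x - -64 * m) ≠ 0 := by
    rw [← hxy]; exact pow_ne_zero 2 hy
  have hx0 : x ≠ 0 := by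
    rintro rfl
    simp at hne
  have hx1 : x = r0 * r0 := by linear_combination h0
  have hdR : (0 : ℝ) < d := by exact_mod_cast hd
  refine ⟨x, y, r0 / Real.sqrt d, hx0, ?_, ?_⟩
  · rw [hxy]
    push_cast
    ring
  · rw [div_pow, Real.sq_sqrt hdR.le, hx1]
    field_simp

/-! ### the prime two -/

section two

variable {m d : ℤ}

lemma locI_a (hd : d ≠ 0) (h1 : (1 : ℤ) - m ≠ 0)
    (hw : IsSquare ((1 - (m : ℚ_[2])) * (1 + 15 * m))) (he : IsSquare ((d : ℚ_[2]) * (1 - m))) :
    LocI ℚ_[2] (-34 * m) (225 * m ^ 2) d := by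
  obtain ⟨w, hw⟩ := hw
  obtain ⟨e, he⟩ := he
  have hd' : (d : ℚ_[2]) ≠ 0 := by exact_mod_cast hd
  have h1' : (1 - (m : ℚ_[2])) ≠ 0 := by exact_mod_cast h1
  refine ⟨4 * (1 - m), 8 * w, 2 * e / d, mul_ne_zero (by norm_num) h1', ?_, ?_⟩
  · push_cast
    have : (8 * w) ^ 2 = 64 * (w * w) := by ring
    rw [this, ← hw]
    ring
  · have : (d : ℚ_[2]) * (2 * e / d) ^ 2 = 4 * (e * e) / d := by
      field_simp
      ring
    rw [this, ← he]
    field_simp

lemma locI_b (hd : d ≠ 0) (hm : m ≠ 0) (h1 : (1 : ℤ) - m ≠ 0) (h15 : (1 : ℤ) + 15 * m ≠ 0)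
    (hw : IsSquare ((1 - (m : ℚ_[2])) * (1 + 15 * m)))
    (he : IsSquare ((d : ℚ_[2]) * (-m * (1 - m)))) :
    LocI ℚ_[2] (-34 * m) (225 * m ^ 2) d := by
  obtain ⟨w, hw⟩ := hw
  obtain ⟨e, he⟩ := he
  have hd' : (d : ℚ_[2]) ≠ 0 := by exact_mod_cast hd
  have hm' : (m : ℚ_[2]) ≠ 0 := by exact_mod_cast hm
  have h1' : (1 - (m : ℚ_[2])) ≠ 0 := by exact_mod_cast h1
  have h15' : (1 + 15 * (m : ℚ_[2])) ≠ 0 := by exact_mod_cast h15
  refine ⟨-4 * m * (1 + 15 * m), 120 * m ^ 2 * w, 2 * w * e / (d * (1 - m)),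
    mul_ne_zero (mul_ne_zero (by norm_num) hm') h15', ?_, ?_⟩
  · push_cast
    have : (120 * (m : ℚ_[2]) ^ 2 * w) ^ 2 = 14400 * m ^ 4 * (w * w) := by ring
    rw [this, ← hw]
    ring
  · have : (d : ℚ_[2]) * (2 * w * e / (d * (1 - m))) ^ 2 =
        4 * (w * w) * (e * e) / (d * (1 - m) ^ 2) := by
      field_simp
      ring
    rw [this, ← he, ← hw]
    field_simp

lemma locI_c (hd : d ≠ 0) (h1 : (1 : ℤ) - 4 * m ≠ 0)
    (hw : IsSquare ((1 - 4 * (m : ℚ_[2])) * (1 + 60 * m)))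
    (he : IsSquare ((d : ℚ_[2]) * (1 - 4 * m))) :
    LocI ℚ_[2] (-34 * m) (225 * m ^ 2) d := by
  obtain ⟨w, hw⟩ := hw
  obtain ⟨e, he⟩ := he
  have hd' : (d : ℚ_[2]) ≠ 0 := by exact_mod_cast hd
  have h1' : (1 - 4 * (m : ℚ_[2])) ≠ 0 := by exact_mod_cast h1
  refine ⟨1 - 4 * m, w, e / d, h1', ?_, ?_⟩
  · push_cast
    rw [pow_two, ← hw]
    ring
  · have : (d : ℚ_[2]) * (e / d) ^ 2 = (e * e) / d := by
      field_simp
    rw [this, ← he]
    field_simp

lemma locI_d (hd : d ≠ 0) (h1 : (9 : ℤ) - m ≠ 0)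
    (hw : IsSquare ((9 - (m : ℚ_[2])) * (9 + 15 * m))) (he : IsSquare ((d : ℚ_[2]) * (9 - m))) :
    LocI ℚ_[2] (-34 * m) (225 * m ^ 2) d := by
  obtain ⟨w, hw⟩ := hw
  obtain ⟨e, he⟩ := he
  have hd' : (d : ℚ_[2]) ≠ 0 := by exact_mod_cast hd
  have h1' : (9 - (m : ℚ_[2])) ≠ 0 := by exact_mod_cast h1
  refine ⟨4 * (9 - m), 24 * w, 2 * e / d, mul_ne_zero (by norm_num) h1', ?_, ?_⟩
  · push_cast
    have : (24 * w) ^ 2 = 576 * (w * w) := by ring
    rw [this, ← hw]
    ring
  · have : (d : ℚ_[2]) * (2 * e / d) ^ 2 = 4 * (e * e) / d := by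
      field_simp
      ring
    rw [this, ← he]
    field_simp

lemma sq4_mul {k : ℤ} (h : k % 8 = 1) : IsSquare (((4 * k : ℤ)) : ℚ_[2]) := by
  push_cast
  have h4 : IsSquare (4 : ℚ_[2]) := ⟨2, by norm_num⟩
  exact h4.mul (sq_int h)

end two

/-- **All the local conditions**, `m = -M`, `M ≢ 3 mod 4`. -/
theorem loc_all2 {M d : ℕ} (hm : Cls (-(M : ℤ))) (h4 : M % 4 ≠ 3) (hd : Squarefree d)
    (hsup : ∀ p : ℕ, p.Prime → p ≠ 2 → p ∣ d → p ∣ M)
    (hloc : ∀ (p : ℕ) [Fact p.Prime], p ≠ 2 → p ∣ M →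
      IsSquare (d : ℚ_[p]) ∨ IsSquare ((d : ℚ_[p]) * M)) :
    (∀ (p : ℕ) [Fact p.Prime], LocI ℚ_[p] (-34 * (-(M : ℤ))) (225 * (-(M : ℤ)) ^ 2) d) ∧
      LocI ℝ (-34 * (-(M : ℤ))) (225 * (-(M : ℤ)) ^ 2) d := by
  have hdz : d ≠ 0 := hd.ne_zero
  have hd0 : (0 : ℤ) < (d : ℤ) := by exact_mod_cast Nat.pos_of_ne_zero hdz
  have hM : Squarefree M := by
    have := hm.sqf
    rw [← Int.squarefree_natCast]
    intro x hx
    exact this x (by rwa [dvd_neg])
  have hMz : M ≠ 0 := hM.ne_zero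
  have hm0 : (-(M : ℤ)) ≠ 0 := by omega
  refine ⟨fun p hp => ?_, loc_real hd0⟩
  by_cases hp2 : p = 2
  · subst hp2
    -- the auxiliary square
    have hw : IsSquare ((1 - ((-(M : ℤ) : ℤ) : ℚ_[2])) * (1 + 15 * ((-(M : ℤ) : ℤ) : ℚ_[2]))) := by
      rcases Nat.mod_two_eq_zero_or_one M with h2 | h2
      · obtain ⟨t, rfl⟩ : ∃ t, M = 2 * t := ⟨M / 2, by omega⟩
        have ht : t % 2 = 1 := by
          by_contra hcon
          have h1 := hM 2 ⟨t / 2, by omega⟩
          exact absurd (Nat.isUnit_iff.1 h1) (by norm_num)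
        have e : (1 - ((-((2 * t : ℕ) : ℤ) : ℤ) : ℚ_[2])) * (1 + 15 * ((-((2 * t : ℕ) : ℤ) : ℤ) : ℚ_[2]))
            = (((1 - 28 * (t : ℤ) - 60 * (t : ℤ) * t : ℤ)) : ℚ_[2]) := by
          push_cast; ring
        rw [e]
        refine sq_int ?_
        obtain ⟨s, rfl⟩ : ∃ s, t = 2 * s + 1 := ⟨t / 2, by omega⟩
        push_cast
        ring_nf
        omega
      · obtain ⟨q, hq⟩ : ∃ q, M = 4 * q + 1 := ⟨M / 4, by omega⟩
        have e : (1 - ((-(M : ℤ) : ℤ) : ℚ_[2])) * (1 + 15 * ((-(M : ℤ) : ℤ) : ℚ_[2]))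
            = (((4 * ((2 * (q : ℤ) + 1) * (2 * (q : ℤ) + 1) -
              8 * (4 * q + 1) * (2 * q + 1)) : ℤ)) : ℚ_[2]) := by
          rw [hq]
          push_cast; ring
        rw [e]
        refine sq4_mul ?_
        have h1 : (2 * (q : ℤ) + 1) * (2 * q + 1) = 4 * (q * (q + 1)) + 1 := by ring
        have h2 : (q : ℤ) * (q + 1) % 2 = 0 := Int.even_iff.1 (Int.even_mul_succ_self _)
        rw [h1]
        have h3 : 8 * (4 * (q : ℤ) + 1) * (2 * q + 1) = 8 * ((4 * q + 1) * (2 * q + 1)) := by ring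
        rw [h3]
        omega
    have h15 : (1 : ℤ) + 15 * (-(M : ℤ)) ≠ 0 := by omega
    rcases at_two hM h4 hd hsup hloc with ⟨h2, h3⟩ | h3 | ⟨h2, h3⟩ | ⟨k, hk, h3, h2⟩ |
      ⟨k, hk, h2, h3⟩
    · refine locI_a hd0.ne' (by omega) hw ?_
      have e : (((d : ℤ)) : ℚ_[2]) * (1 - ((-(M : ℤ) : ℤ) : ℚ_[2])) =
          (((d * (1 + M) : ℕ) : ℤ) : ℚ_[2]) := by push_cast; ring
      rw [e]
      refine sq_int ?_
      exact_mod_cast h3
    · refine locI_sq hd0.ne' (sq_int ?_)
      exact_mod_cast h3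
    · refine locI_c hd0.ne' (by omega) ?_ ?_
      · have e : (1 - 4 * ((-(M : ℤ) : ℤ) : ℚ_[2])) * (1 + 60 * ((-(M : ℤ) : ℤ) : ℚ_[2]))
            = (((1 + 8 * (-(7 * M) - 30 * M * M) : ℤ)) : ℚ_[2]) := by
          push_cast; ring
        rw [e]
        refine sq_int ?_
        omega
      · have e : (((d : ℤ)) : ℚ_[2]) * (1 - 4 * ((-(M : ℤ) : ℤ) : ℚ_[2])) =
            (((d * (1 + 4 * M) : ℕ) : ℤ) : ℚ_[2]) := by push_cast; ring
        rw [e]
        refine sq_int ?_
        have h5 : d * (1 + 4 * M) % 8 = (d % 8) * ((1 + 4 * M) % 8) % 8 := Nat.mul_mod _ _ _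
        have h6 : (1 + 4 * M) % 8 = 5 := by omega
        have h7 : d * 5 % 8 = (d % 8) * 5 % 8 := Nat.mul_mod _ _ _
        have h8 : d * (1 + 4 * M) % 8 = 1 := by rw [h5, h6, ← h7, h3]
        exact_mod_cast h8
    · rcases h3 with h3 | h3
      · refine locI_neg hm0 hd0.ne' ?_
        have e : (((d : ℤ)) : ℚ_[2]) * (-((-(M : ℤ) : ℤ) : ℚ_[2])) =
            (((4 * k : ℤ)) : ℚ_[2]) := by
          have := congrArg (Nat.cast : ℕ → ℚ_[2]) hk
          push_cast at this ⊢
          rw [neg_neg]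
          exact this
        rw [e]
        exact sq4_mul (by exact_mod_cast h3)
      · refine locI_b hd0.ne' hm0 (by omega) h15 hw ?_
        have e : (((d : ℤ)) : ℚ_[2]) * (-((-(M : ℤ) : ℤ) : ℚ_[2]) * (1 - ((-(M : ℤ) : ℤ) : ℚ_[2]))) =
            (((4 * (k * (1 + M) : ℕ) : ℤ)) : ℚ_[2]) := by
          have := congrArg (Nat.cast : ℕ → ℚ_[2]) hk
          push_cast at this ⊢
          linear_combination (1 + (M : ℚ_[2])) * this
        rw [e]
        exact sq4_mul (by exact_mod_cast h3)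
    · -- `M ≡ 1 mod 4`, `d = 2 k`
      obtain ⟨q, hq⟩ : ∃ q, M = 4 * q + 1 := ⟨M / 4, by omega⟩
      have hq2 : (1 + M) / 2 = 2 * q + 1 := by omega
      rw [hq2] at h3
      have h5 : k * (2 * q + 1) % 8 = 1 ∨ k * (2 * q + 1) % 8 = 5 := by omega
      rcases h5 with h5 | h5
      · refine locI_a hd0.ne' (by omega) hw ?_
        have e : (((d : ℤ)) : ℚ_[2]) * (1 - ((-(M : ℤ) : ℤ) : ℚ_[2])) =
            (((4 * (k * (2 * q + 1) : ℕ) : ℤ)) : ℚ_[2]) := by
          rw [hk, hq]; push_cast; ring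
        rw [e]
        exact sq4_mul (by exact_mod_cast h5)
      · refine locI_d hd0.ne' (by omega) ?_ ?_
        · have e : (9 - ((-(M : ℤ) : ℤ) : ℚ_[2])) * (9 + 15 * ((-(M : ℤ) : ℤ) : ℚ_[2]))
              = (((4 * ((2 * (q : ℤ) + 5) * (2 * (q : ℤ) + 5) -
                8 * (4 * q + 1) * (2 * q + 5)) : ℤ)) : ℚ_[2]) := by
            rw [hq]
            push_cast; ring
          rw [e]
          refine sq4_mul ?_
          have h1 : (2 * (q : ℤ) + 5) * (2 * q + 5) = 4 * (q * (q + 1)) + 16 * q + 25 := by ring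
          have h2 : (q : ℤ) * (q + 1) % 2 = 0 := Int.even_iff.1 (Int.even_mul_succ_self _)
          rw [h1]
          have h3 : 8 * (4 * (q : ℤ) + 1) * (2 * q + 5) = 8 * ((4 * q + 1) * (2 * q + 5)) := by ring
          rw [h3]
          omega
        · have e : (((d : ℤ)) : ℚ_[2]) * (9 - ((-(M : ℤ) : ℤ) : ℚ_[2])) =
              (((4 * (k * (2 * q + 1) + 4 * k : ℕ) : ℤ)) : ℚ_[2]) := by
            rw [hk, hq]; push_cast; ring
          rw [e]
          have hk2 : k % 2 = 1 := by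
            by_contra hcon
            have : k % 2 = 0 := by omega
            have h6 : (k * (2 * q + 1)) % 2 = 0 := by
              rw [Nat.mul_mod, this, zero_mul, Nat.zero_mod]
            omega
          refine sq4_mul ?_
          have h6 : (k * (2 * q + 1) + 4 * k) % 8 = 1 := by omega
          exact_mod_cast h6
  · refine loc_odd hm hd0 p hp2 ?_ ?_
    · intro h
      rw [dvd_neg]
      exact_mod_cast hsup p hp.out hp2 (by exact_mod_cast h)
    · intro h
      rw [dvd_neg] at h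
      have := hloc p hp2 (by exact_mod_cast h)
      push_cast
      rw [neg_neg]
      exact this

/-- two positive squarefree numbers whose product is a square are equal -/
lemma eq_of_sq_mul {a b : ℕ} (ha : Squarefree a) (hb : Squarefree b)
    (h : IsSquare ((a : ℚ) * b)) : a = b := by
  have h1 : IsSquare ((((a * b : ℕ)) : ℤ) : ℚ) := by push_cast; exact h
  rw [Rat.isSquare_intCast_iff, Int.isSquare_natCast_iff] at h1
  obtain ⟨r, hr⟩ := h1
  have key : ∀ {x y : ℕ}, Squarefree x → x * y = r * r → x ∣ r := by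
    intro x y hx hxy
    have h2 : x ∣ r ^ 2 := ⟨y, by rw [pow_two]; exact hxy.symm⟩
    exact (hx.dvd_pow_iff_dvd two_ne_zero).1 h2
  have k1 := key ha hr
  have k2 := key hb (by rw [mul_comm]; exact hr)
  obtain ⟨x, hx⟩ := k1
  obtain ⟨y, hy⟩ := k2
  have ha0 := Nat.pos_of_ne_zero ha.ne_zero
  have hb0 := Nat.pos_of_ne_zero hb.ne_zero
  have h3 : b = x * r := by
    apply Nat.eq_of_mul_eq_mul_left ha0
    rw [hr, hx]; ring
  have h4 : a = y * r := by
    apply Nat.eq_of_mul_eq_mul_left hb0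
    rw [mul_comm b a, hr]
    nth_rw 1 [hy]; ring
  have hx0 : x * y * 1 = 1 := by
    have hr0 : 0 < r := by
      rcases Nat.eq_zero_or_pos r with h | h
      · rw [h, mul_zero] at h3; omega
      · exact h
    have h5 : r * (x * y) = r * 1 := by
      have : r = b * y := hy
      rw [h3] at this
      linarith
    have := Nat.eq_of_mul_eq_mul_left hr0 h5
    omega
  have hx1 : x = 1 := Nat.eq_one_of_mul_eq_one_right (by omega : x * y = 1)
  have hy1 : y = 1 := Nat.eq_one_of_mul_eq_one_left (by omega : x * y = 1)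
  rw [h3, h4, hx1, hy1]

/-- **The converse**, `m ≢ 1 mod 4`. -/
theorem nc_of_fin2 {m : ℤ} (hm : Cls m) (h4 : m % 4 ≠ 1) (hf : Finite (EQm m).toAffine.Point)
    (hs : ∀ x : Sha (EQm m), x + x = 0 → x = 0) : NC m := by
  obtain ⟨M, rfl⟩ : ∃ M : ℕ, m = -(M : ℤ) := ⟨m.natAbs, by have := hm.neg; omega⟩
  intro d hd hds hsup hloc
  by_contra hcon
  push Not at hcon
  obtain ⟨b, rfl⟩ := Int.eq_ofNat_of_zero_le hd.le
  have hbs : Squarefree b := Int.squarefree_natCast.1 hds
  have hm0 : (-(M : ℤ)) ≠ 0 := hm.neg.ne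
  have hM : Squarefree M := by
    rw [← Int.squarefree_natCast]
    intro x hx
    exact hm.sqf x (by rwa [dvd_neg])
  obtain ⟨l1, l2⟩ := loc_all2 (d := b) hm (by omega) hbs (fun p hp hp2 hpd => by
    rcases hsup p hp (by exact_mod_cast hpd) with h | h
    · rw [dvd_neg] at h
      exact_mod_cast h
    · exact absurd h.1 hp2) (fun p hp hp2 hpM => by
    have := hloc p hp2 (by rw [dvd_neg]; exact_mod_cast hpM)
    push_cast at this
    rw [neg_neg] at this
    exact this)
  have hns : ¬ IsSquare (-(((-(M : ℤ)) : ℤ) : ℚ)) := by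
    intro h
    have h1 : IsSquare (((1 : ℕ) : ℚ) * (M : ℚ)) := by
      push_cast at h ⊢
      rwa [neg_neg, ← one_mul (M : ℚ)] at h
    have h2 := eq_of_sq_mul squarefree_one hM h1
    have := hm.m3
    rw [← h2] at this
    norm_num at this
  have n1 : ¬ IsSquare (((b : ℤ)) : ℚ) := by
    intro h
    have h1 : IsSquare ((b : ℚ) * ((1 : ℕ) : ℚ)) := by
      push_cast at h ⊢
      rwa [mul_one]
    have h2 := eq_of_sq_mul hbs squarefree_one h1
    apply hcon.1
    rw [h2]
    rfl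
  have n2 : ¬ IsSquare ((((b : ℤ)) : ℚ) * (-(((-(M : ℤ)) : ℤ) : ℚ))) := by
    intro h
    have h1 : IsSquare ((b : ℚ) * (M : ℚ)) := by
      push_cast at h ⊢
      rwa [neg_neg] at h
    have h2 := eq_of_sq_mul hbs hM h1
    apply hcon.2
    rw [h2, neg_neg]
  obtain ⟨t1, t2⟩ := trnE hm0
  obtain ⟨x, hx, hxx⟩ := sha_ex15 hm.neg hns hd.ne' n1 n2 (fun p _ => l1 p) l2 (t1.2 hf)
  exact hx (t2.2 hs x hxx)

open Pool.Agent.N969.P15 (Ev Qe) in
/-- **Even discriminants**: the criterion. -/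
theorem crit_ae {n : ℕ} (h : Ae n) : Fin2 (EQm (-((n / 4 : ℕ) : ℤ))) ↔ Qe n := by
  constructor
  · rintro ⟨h1, h2⟩
    have h4 : (-((n / 4 : ℕ) : ℤ)) % 4 ≠ 1 := by
      obtain ⟨⟨m, rfl, hs, h4⟩, -⟩ := h
      have e4 : 4 * m / 4 = m := by omega
      rw [e4]
      omega
    exact (nc_iff_Qe h.1).1 (nc_of_fin2 (cls_ae h) h4 h1 h2)
  · exact fin_ae h

open Pool.Agent.N969.P15 (Ev Qe) in
/-- the same for the short equation -/
theorem crit_ae_S {n : ℕ} (h : Ae n) : Fin2 (WS (-((n / 4 : ℕ) : ℤ))) ↔ Qe n := by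
  rw [fin2_S (cls_ae h).neg.ne]
  exact crit_ae h

end Pool.Agent.N875.X15
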