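import Pool.Agent.N875.X15.Min
import Pool.Agent.R425.P.Pr

/-!
# The real period of the twists of `X_0(15)` by negative discriminants
-/

set_option autoImplicit false

namespace Pool.Agent.N875.X15

open Set Filter Topology PeriodPair MeasureTheory
open Pool.Agent.Y702.G (cubic)

/-- the lattice multiplied by `c` -/
noncomputable def sc (c : ℂ) (hc : c ≠ 0) (L : PeriodPair) : PeriodPair where
  ω₁ := c * L.ω₁
  ω₂ := c * L.ω₂
  indep := by
    have h1 : LinearIndependent ℝ ((LinearMap.mulLeft ℝ c) ∘ ![L.ω₁, L.ω₂]) := by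
      refine L.indep.map' _ ?_
      rw [LinearMap.ker_eq_bot]
      intro x y h
      exact mul_left_cancel₀ hc h
    convert h1 using 1
    funext i
    fin_cases i <;> rfl

theorem mem_sc {c : ℂ} (hc : c ≠ 0) (L : PeriodPair) (w : ℂ) :
    w ∈ (sc c hc L).lattice ↔ ∃ l ∈ L.lattice, w = c * l := by
  rw [mem_lattice]
  constructor
  · rintro ⟨m, n, rfl⟩
    refine ⟨m * L.ω₁ + n * L.ω₂, mem_lattice.2 ⟨m, n, rfl⟩, ?_⟩
    simp only [sc]
    ring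
  · rintro ⟨l, hl, rfl⟩
    obtain ⟨m, n, rfl⟩ := mem_lattice.1 hl
    refine ⟨m, n, ?_⟩
    simp only [sc]
    ring

/-- the lattices correspond to each other -/
noncomputable def scE {c : ℂ} (hc : c ≠ 0) (L : PeriodPair) : L.lattice ≃ (sc c hc L).lattice :=
  Equiv.ofBijective (fun l => ⟨c * l, (mem_sc hc L _).2 ⟨l, l.2, rfl⟩⟩) (by
    constructor
    · intro x y h
      have h1 : c * (x : ℂ) = c * (y : ℂ) := congrArg Subtype.val h
      exact Subtype.ext (mul_left_cancel₀ hc h1)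
    · intro w
      obtain ⟨l, hl, h⟩ := (mem_sc hc L _).1 w.2
      exact ⟨⟨l, hl⟩, Subtype.ext h.symm⟩)

theorem G_sc {c : ℂ} (hc : c ≠ 0) (L : PeriodPair) (n : ℕ) :
    (sc c hc L).G n = (c ^ n)⁻¹ * L.G n := by
  rw [PeriodPair.G, PeriodPair.G, ← (scE hc L).tsum_eq, ← tsum_mul_left]
  refine tsum_congr fun l => ?_
  have h1 : ((scE hc L l : (sc c hc L).lattice) : ℂ) = c * l := rfl
  rw [h1, mul_pow, mul_inv]

theorem g2_sc {c : ℂ} (hc : c ≠ 0) (L : PeriodPair) :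
    (sc c hc L).g₂ = (c ^ 4)⁻¹ * L.g₂ := by
  rw [PeriodPair.g₂, PeriodPair.g₂, G_sc]
  ring

theorem g3_sc {c : ℂ} (hc : c ≠ 0) (L : PeriodPair) :
    (sc c hc L).g₃ = (c ^ 6)⁻¹ * L.g₃ := by
  rw [PeriodPair.g₃, PeriodPair.g₃, G_sc]
  ring

/-- **The real period of the twists by negative discriminants `-n`.** -/
theorem per_neg (L : PeriodPair) (Op Om : ℝ) (hOp : 0 < Op) (hOm : 0 < Om)
    (hg2 : L.g₂ = 481 / 12) (hg3 : L.g₃ = 4879 / 216)
    (hL : ∀ w : ℂ, w ∈ L.lattice ↔ ∃ a b : ℤ, w = a * Op + b * Om * Complex.I)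
    (n : ℕ) (hn : 0 < n) (W : WeierstrassCurve ℤ) (h4 : W.c₄ = 481 * (n : ℤ) ^ 2)
    (h6 : W.c₆ = -(4879 * (n : ℤ) ^ 3)) :
    ∫ x in {x : ℝ | 0 < cubic W x}, 1 / √(cubic W x) = Om / √n := by
  have hn0 : (0 : ℝ) < n := by exact_mod_cast hn
  have hs : (0 : ℝ) < √n := Real.sqrt_pos.2 hn0
  have hs2 : (√(n : ℝ)) ^ 2 = n := Real.sq_sqrt hn0.le
  have hsC : ((√(n : ℝ) : ℝ) : ℂ) ^ 2 = (n : ℂ) := by
    rw [← Complex.ofReal_pow, hs2]
    simp
  have hs0 : ((√(n : ℝ) : ℝ) : ℂ) ≠ 0 := by exact_mod_cast hs.ne'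
  have hnC : (n : ℂ) ≠ 0 := by exact_mod_cast hn.ne'
  set c : ℂ := Complex.I / ((√(n : ℝ) : ℝ) : ℂ) with hc
  have hc0 : c ≠ 0 := div_ne_zero Complex.I_ne_zero hs0
  have c2 : c ^ 2 = -(1 / (n : ℂ)) := by
    rw [hc, div_pow, hsC, Complex.I_sq]
    ring
  have c4 : c ^ 4 = 1 / (n : ℂ) ^ 2 := by
    have : c ^ 4 = (c ^ 2) ^ 2 := by ring
    rw [this, c2]
    ring
  have c6 : c ^ 6 = -(1 / (n : ℂ) ^ 3) := by
    have : c ^ 6 = (c ^ 2) ^ 3 := by ring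
    rw [this, c2]
    ring
  refine Pool.Agent.R425.P.s_perrP W (sc c hc0 L) (Om / √n) (Op / √n) (div_pos hOm hs)
    (div_pos hOp hs) ?_ ?_ ?_
  · rw [g2_sc, hg2, h4, c4]
    push_cast
    field_simp
  · rw [g3_sc, hg3, h6, c6]
    push_cast
    field_simp
  · intro w
    rw [mem_sc]
    constructor
    · rintro ⟨l, hl, rfl⟩
      obtain ⟨a, b, rfl⟩ := (hL _).1 hl
      refine ⟨-b, a, ?_⟩
      rw [hc]
      push_cast
      field_simp
      linear_combination (b * Om : ℂ) * Complex.I_sq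
    · rintro ⟨a, b, rfl⟩
      refine ⟨b * Op + (-a : ℤ) * Om * Complex.I, (hL _).2 ⟨b, -a, rfl⟩, ?_⟩
      rw [hc]
      push_cast
      field_simp
      linear_combination (a * Om : ℂ) * Complex.I_sq

theorem c4_WN {m : ℤ} (hm : m % 4 = 1) : (WN m).c₄ = 481 * m ^ 2 := by
  obtain ⟨k, rfl⟩ : ∃ k, m = 4 * k + 1 := ⟨m / 4, by omega⟩
  rw [WN_k]
  simp only [WeierstrassCurve.c₄, WeierstrassCurve.b₂, WeierstrassCurve.b₄]
  ring

theorem c6_WN {m : ℤ} (hm : m % 4 = 1) : (WN m).c₆ = 4879 * m ^ 3 := by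
  obtain ⟨k, rfl⟩ : ∃ k, m = 4 * k + 1 := ⟨m / 4, by omega⟩
  rw [WN_k]
  simp only [WeierstrassCurve.c₆, WeierstrassCurve.b₂, WeierstrassCurve.b₄, WeierstrassCurve.b₆]
  ring

/-- the real period of the twist by `-n`, `n = 3 mod 4` -/
theorem per_WN (L : PeriodPair) (Op Om : ℝ) (hOp : 0 < Op) (hOm : 0 < Om)
    (hg2 : L.g₂ = 481 / 12) (hg3 : L.g₃ = 4879 / 216)
    (hL : ∀ w : ℂ, w ∈ L.lattice ↔ ∃ a b : ℤ, w = a * Op + b * Om * Complex.I)
    (n : ℕ) (h4 : n % 4 = 3) :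
    ∫ x in {x : ℝ | 0 < cubic (WN (-(n : ℤ))) x}, 1 / √(cubic (WN (-(n : ℤ))) x) = Om / √n := by
  refine per_neg L Op Om hOp hOm hg2 hg3 hL n (by omega) _ ?_ ?_
  · rw [c4_WN (by omega)]
    ring
  · rw [c6_WN (by omega)]
    ring

end Pool.Agent.N875.X15
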