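import Pool.Agent.N875.X15.Ap
import Pool.Agent.N974.MF.Lfin
import Pool.Agent.Y700.Lm

/-!
# The `L`-functions of the twists of `X_0(15)` by `-n`, `n = 3 mod 4`
-/

set_option autoImplicit false
set_option linter.style.haveILetI false

open Complex Filter Topology Set UpperHalfPlane MatrixGroups CongruenceSubgroup ZMod

namespace Pool.Agent.N875.X15

open Pool.Agent.W97.MT (ap affCount)
open Pool.Agent.H491R3.J (OS)
open Pool.Agent.N974.MF (E15 S_LAT exists_L II II_conj II_add_one)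
open Pool.Agent.Y700 (IsL)
open Pool.Agent.Y687 (p_cpow rr sum_rrC SS mem_rr)

theorem dvd_Δ {n : ℕ} (h4 : n % 4 = 3) {p : ℕ} (hp : p.Prime) :
    (p : ℤ) ∣ (WN (-(n : ℤ))).Δ ↔ p ∣ 15 ∨ p ∣ n := by
  rw [WN_Δ (by omega)]
  have e : ((3 : ℤ) ^ 4 * 5 ^ 4 * (-(n : ℤ)) ^ 6) = ((3 ^ 4 * 5 ^ 4 * n ^ 6 : ℕ) : ℤ) := by
    push_cast; ring
  rw [e, Int.natCast_dvd_natCast, hp.dvd_mul, hp.dvd_mul]
  constructor
  · rintro ((h | h) | h)
    · exact Or.inl ((hp.dvd_of_dvd_pow h).trans (by norm_num))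
    · exact Or.inl ((hp.dvd_of_dvd_pow h).trans (by norm_num))
    · exact Or.inr (hp.dvd_of_dvd_pow h)
  · rintro (h | h)
    · rw [show (15 : ℕ) = 3 * 5 by norm_num, hp.dvd_mul] at h
      rcases h with h | h
      · exact Or.inl (Or.inl (dvd_pow h (by norm_num)))
      · exact Or.inl (Or.inr (dvd_pow h (by norm_num)))
    · exact Or.inr (dvd_pow h (by norm_num))

/-- the square of the Gauss sum -/
theorem gs_sq3 (d : OS) (h4 : d.1 % 4 = 3) :
    (gaussSum (H491R3.J.chi d) (stdAddChar (N := d.1))) ^ 2 = -(d.1 : ℂ) := by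
  have h1 := Pool.Agent.W378.CY.gauss_prod d.1 (H491R3.J.chi d) (H491R3.J.chi_primitive d)
  rw [H491R3.J.chi_inv d, H491R3.J.chi_neg_one, if_neg (by omega)] at h1
  rw [sq]
  linear_combination -h1

/-- the `L`-function of the twist by `-n` -/
theorem exists_Ln (hlat : S_LAT) (n : ℕ) [NeZero n] (hsq : Squarefree n) (h4 : n % 4 = 3)
    (h15 : Nat.Coprime n 15) :
    ∃ (f : ℂ → ℂ) (τ : ℂ), IsL (WN (-(n : ℤ))) f ∧ τ ^ 2 = -(n : ℂ) ∧
      τ * f 1 = ∑ a ∈ rr n, ((jacobiSym (a : ℤ) n : ℤ) : ℂ) * II ((a : ℚ) / n) := by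
  classical
  have hodd : Odd n := Nat.odd_iff.2 (by omega)
  have h1 : 1 < n := by omega
  set d : OS := ⟨n, hodd, hsq, h1⟩ with hd
  obtain ⟨g, hg1, hg2, hg3⟩ := exists_L hlat (q := n) h15 (H491R3.J.chi d) (H491R3.J.chi_primitive d)
  have hchi : ∀ m : ℕ, H491R3.J.chi d (m : ZMod n) = ((jacobiSym (m : ℤ) n : ℤ) : ℂ) :=
    H491R3.J.chi_natCast d
  refine ⟨g, gaussSum (H491R3.J.chi d) (stdAddChar (N := n)), ⟨hg1, ?_⟩, gs_sq3 d h4, ?_⟩
  · intro s hs
    refine (congrArg (fun g => HasProd g _) (funext fun p => ?_)).mp (hg2 s hs)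
    have hpp : (p : ℕ).Prime := p.2
    rw [hchi, ap_WN h4 p hpp]
    by_cases hpM : (p : ℕ) ∣ n
    · have hbad : ((p : ℕ) : ℤ) ∣ (WN (-(n : ℤ))).Δ := (dvd_Δ h4 hpp).2 (Or.inr hpM)
      have h0 : jacobiSym ((p : ℕ) : ℤ) n = 0 := by
        rw [jacobiSym.eq_zero_iff_not_coprime, Int.gcd_natCast_natCast]
        intro hg
        have := Nat.dvd_gcd (dvd_refl (p : ℕ)) hpM
        rw [hg] at this
        exact hpp.one_lt.ne' (Nat.dvd_one.1 this)
      rw [h0, if_pos hbad]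
      simp
    · have hx : jacobiSym ((p : ℕ) : ℤ) n = 1 ∨ jacobiSym ((p : ℕ) : ℤ) n = -1 := by
        refine jacobiSym.eq_one_or_neg_one ?_
        rw [Int.gcd_natCast_natCast]
        exact (Nat.Prime.coprime_iff_not_dvd hpp).2 hpM
      have hx2 : ((jacobiSym ((p : ℕ) : ℤ) n : ℤ) : ℂ) ^ 2 = 1 := by
        rcases hx with h | h <;> rw [h] <;> norm_num
      rw [hx2]
      have hΔ : ((p : ℕ) : ℤ) ∣ (WN (-(n : ℤ))).Δ ↔ (p : ℕ) ∣ 15 := by
        rw [dvd_Δ h4 hpp]
        tauto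
      by_cases h15' : (p : ℕ) ∣ 15
      · rw [if_pos h15', if_pos (hΔ.2 h15')]
        push_cast
        ring
      · rw [if_neg h15', if_neg (fun h => h15' (hΔ.1 h)), mul_one, p_cpow hpp.ne_zero]
        push_cast
        ring
  · have hinv : (H491R3.J.chi d)⁻¹ = H491R3.J.chi d := H491R3.J.chi_inv d
    rw [hinv] at hg3
    rw [hg3, sum_rrC]
    refine Finset.sum_congr rfl fun u _ => ?_
    rw [← hchi, ZMod.natCast_zmod_val]

/-- the sum over the even part of the symbol is zero -/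
theorem SS_zero {sp : ℚ → ℤ} (hneg : ∀ r, sp (-r) = sp r) (hper : ∀ r, sp (r + 1) = sp r)
    {n : ℕ} (h4 : n % 4 = 3) : SS sp n n = 0 := by
  have h : SS sp n n = -SS sp n n := by
    unfold SS
    rw [← Finset.sum_neg_distrib]
    refine Finset.sum_bij' (fun a _ => n - a) (fun a _ => n - a) ?_ ?_ ?_ ?_ ?_
    · intro a ha
      rw [mem_rr] at ha ⊢
      have h0 : a ≠ 0 := by
        rintro rfl
        have := ha.2
        rw [Nat.coprime_zero_left] at this
        omega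
      refine ⟨by omega, ?_⟩
      exact (Nat.coprime_self_sub_left ha.1.le).2 ha.2
    · intro a ha
      rw [mem_rr] at ha ⊢
      have h0 : a ≠ 0 := by
        rintro rfl
        have := ha.2
        rw [Nat.coprime_zero_left] at this
        omega
      refine ⟨by omega, ?_⟩
      exact (Nat.coprime_self_sub_left ha.1.le).2 ha.2
    · intro a ha
      rw [mem_rr] at ha
      have := ha.1
      show n - (n - a) = a
      omega
    · intro a ha
      rw [mem_rr] at ha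
      have := ha.1
      show n - (n - a) = a
      omega
    · intro a ha
      rw [mem_rr] at ha
      have hn : (n : ℚ) ≠ 0 := by exact_mod_cast (by omega : n ≠ 0)
      have e1 : (((n - a : ℕ) : ℚ) / n) = -((a : ℚ) / n) + 1 := by
        rw [Nat.cast_sub ha.1.le]
        field_simp
        ring
      have e2 : jacobiSym (((n - a : ℕ)) : ℤ) n = -jacobiSym (a : ℤ) n := by
        rw [Nat.cast_sub ha.1.le, show ((n : ℤ) - (a : ℤ)) = -(a : ℤ) + n * 1 by ring]
        have e3 : jacobiSym (-(a : ℤ) + n * 1) n = jacobiSym (-(a : ℤ)) n := by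
          refine jacobiSym.mod_left' ?_
          rw [Int.add_mul_emod_self_left]
        rw [e3, jacobiSym.neg _ (Nat.odd_iff.2 (by omega)), ZMod.χ₄_nat_three_mod_four h4]
        ring
      rw [e1, hper, hneg, e2]
      ring
  omega

/-- **The central value.** -/
theorem value15 (hlat : S_LAT) {sp sm : ℚ → ℤ} {Op Om : ℝ}
    (hs : ∀ r : ℚ, (4 : ℂ) * II r = sp r * Op + 2 * sm r * Om * Complex.I)
    (hneg : ∀ r, sp (-r) = sp r) (hper : ∀ r, sp (r + 1) = sp r)
    {n : ℕ} (hsq : Squarefree n) (h4 : n % 4 = 3) (h15 : Nat.Coprime n 15) :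
    ∃ (f : ℂ → ℂ) (ε : ℤ), IsL (WN (-(n : ℤ))) f ∧ (ε = 1 ∨ ε = -1) ∧
      f 1 = ((ε * SS sm n n * Om / (2 * Real.sqrt n) : ℝ) : ℂ) := by
  haveI : NeZero n := ⟨by omega⟩
  obtain ⟨f, τ, hf, hτ, hv⟩ := exists_Ln hlat n hsq h4 h15
  have h0 := SS_zero hneg hper h4
  have h3 : (4 : ℂ) * ∑ a ∈ rr n, ((jacobiSym (a : ℤ) n : ℤ) : ℂ) * II ((a : ℚ) / n) =
      ((SS sp n n : ℤ) : ℂ) * Op + ((SS sm n n : ℤ) : ℂ) * (2 * Om) * Complex.I := by
    unfold SS
    push_cast
    rw [Finset.mul_sum, Finset.sum_mul, Finset.sum_mul, Finset.sum_mul,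
      ← Finset.sum_add_distrib]
    refine Finset.sum_congr rfl fun a _ => ?_
    have := hs ((a : ℚ) / n)
    linear_combination ((jacobiSym (a : ℤ) n : ℤ) : ℂ) * this
  rw [h0, ← hv] at h3
  have hn0 : (0 : ℝ) < n := by exact_mod_cast (by omega : 0 < n)
  have hsn : (0 : ℝ) < Real.sqrt n := Real.sqrt_pos.2 hn0
  have hs2 : (Real.sqrt n) ^ 2 = n := Real.sq_sqrt hn0.le
  have hsC : ((Real.sqrt n : ℝ) : ℂ) ^ 2 = (n : ℂ) := by
    rw [← Complex.ofReal_pow, hs2]
    simp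
  have hs0 : ((Real.sqrt n : ℝ) : ℂ) ≠ 0 := by exact_mod_cast hsn.ne'
  have hτ2 : (τ - Complex.I * (Real.sqrt n : ℝ)) * (τ + Complex.I * (Real.sqrt n : ℝ)) = 0 := by
    linear_combination hτ - hsC * Complex.I ^ 2 - (n : ℂ) * Complex.I_sq
  rcases mul_eq_zero.1 hτ2 with h | h
  · have hτ' : τ = Complex.I * (Real.sqrt n : ℝ) := by linear_combination h
    refine ⟨f, 1, hf, Or.inl rfl, ?_⟩
    rw [hτ'] at h3
    have h5 : Complex.I * (4 * (Real.sqrt n : ℝ) * f 1) =
        Complex.I * (((SS sm n n : ℤ) : ℂ) * (2 * Om)) := by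
      push_cast at h3
      linear_combination h3
    have h6 := mul_left_cancel₀ Complex.I_ne_zero h5
    push_cast
    field_simp
    linear_combination (1 / 2 : ℂ) * h6
  · have hτ' : τ = -(Complex.I * (Real.sqrt n : ℝ)) := by linear_combination h
    refine ⟨f, -1, hf, Or.inr rfl, ?_⟩
    rw [hτ'] at h3
    have h5 : Complex.I * (-(4 * (Real.sqrt n : ℝ) * f 1)) =
        Complex.I * (((SS sm n n : ℤ) : ℂ) * (2 * Om)) := by
      push_cast at h3
      linear_combination h3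
    have h6 := mul_left_cancel₀ Complex.I_ne_zero h5
    push_cast
    field_simp
    linear_combination (-1 / 2 : ℂ) * h6

end Pool.Agent.N875.X15
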