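import Pool.Agent.N875.X15.Ap
import Pool.Agent.N875.X15.MinE
import Pool.Agent.N875.X15.Per
import Pool.Agent.N875.X15.Lf
import Pool.Agent.N975.LfinE

/-!
# The `L`-functions of the twists of `X_0(15)` by all negative discriminants, and their central values
-/

set_option autoImplicit false
set_option linter.style.haveILetI false

open scoped Classical
open Complex Filter Topology Set UpperHalfPlane MatrixGroups CongruenceSubgroup ZMod

namespace Pool.Agent.N875.X15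

open Pool.Agent.W97.MT (affCount ap)
open Pool.Agent.N974.MF (E15 S_LAT exists_L_all II)
open Pool.Agent.N969.P15 (Ev chE un)
open Pool.Agent.Y700 (IsL)
open Pool.Agent.Y687 (p_cpow sum_rrC rr mem_rr)
open Pool.Agent.H491R3.J (OS)

/-! ### the coefficients of `E_m` -/

theorem affCount_Em (m : ℤ) (p : ℕ) [Fact p.Prime] (hp : p ≠ 2) :
    (affCount (Em m) p : ℤ) = p + ∑ x : ZMod p,
      quadraticChar (ZMod p) (x ^ 3 - 7 * (m : ZMod p) * x ^ 2 - 144 * (m : ZMod p) ^ 2 * x) := by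
  have hchar : ringChar (ZMod p) ≠ 2 := by rw [ZMod.ringChar_zmod_n]; exact hp
  set g : ZMod p → ZMod p := fun x =>
    x ^ 3 - 7 * (m : ZMod p) * x ^ 2 - 144 * (m : ZMod p) ^ 2 * x with hg
  have e1 : affCount (Em m) p = Nat.card {q : ZMod p × ZMod p // q.2 ^ 2 = g q.1} := by
    unfold affCount
    refine Nat.card_congr (Equiv.subtypeEquivRight fun P => ?_)
    rw [WeierstrassCurve.Affine.equation_iff]
    simp only [Em, WeierstrassCurve.map, map_zero, eq_intCast, hg]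
    push_cast
    constructor
    · intro h
      linear_combination h
    · intro h
      linear_combination h
  rw [e1, Pool.Agent.H82R3.EK.card_points hchar g, ZMod.card]

theorem ap_Em_one (p : ℕ) [Fact p.Prime] (hp : p ≠ 2) : ap (Em 1) p = ap E15 p := by
  rw [ap_E15]
  unfold ap
  rw [affCount_Em 1 p hp, affCount_odd (by norm_num) p hp]

/-- primes dividing the twisting factor -/
theorem ap_Em_dvd {m : ℤ} (p : ℕ) [Fact p.Prime] (hp : p ≠ 2) (h : (p : ℤ) ∣ m) :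
    ap (Em m) p = 0 := by
  have hM0 : (m : ZMod p) = 0 := (ZMod.intCast_zmod_eq_zero_iff_dvd m p).2 h
  have hchar : ringChar (ZMod p) ≠ 2 := by rw [ZMod.ringChar_zmod_n]; exact hp
  unfold ap
  rw [affCount_Em m p hp, hM0]
  have : ∑ x : ZMod p, quadraticChar (ZMod p) (x ^ 3 - 7 * 0 * x ^ 2 - 144 * 0 ^ 2 * x) =
      ∑ x : ZMod p, quadraticChar (ZMod p) x := by
    refine Finset.sum_congr rfl fun x _ => ?_
    have e : x ^ 3 - 7 * 0 * x ^ 2 - 144 * 0 ^ 2 * x = x ^ 2 * x := by ring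
    rw [e, map_mul]
    by_cases hx : x = 0
    · rw [hx]; simp
    · rw [quadraticChar_sq_one' hx, one_mul]
  rw [this, quadraticChar_sum_zero hchar]
  ring

theorem ap_Em_ndvd {m : ℤ} (p : ℕ) [Fact p.Prime] (hp : p ≠ 2) (h : ¬ (p : ℤ) ∣ m) :
    ap (Em m) p = jacobiSym m p * ap E15 p := by
  have hpp : p.Prime := Fact.out
  have hM0 : (m : ZMod p) ≠ 0 := by
    intro h1
    exact h ((ZMod.intCast_zmod_eq_zero_iff_dvd m p).1 h1)
  have h5 : quadraticChar (ZMod p) (m : ZMod p) = jacobiSym m p := by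
    rw [← jacobiSym.legendreSym.to_jacobiSym]
    rfl
  rw [← ap_Em_one p hp]
  unfold ap
  rw [affCount_Em m p hp, affCount_Em 1 p hp, ← h5, sub_add_cancel_left,
    sub_add_cancel_left, mul_neg, Finset.mul_sum]
  congr 1
  symm
  refine Fintype.sum_equiv (Equiv.mulLeft₀ (m : ZMod p) hM0) _ _ fun x => ?_
  have h4 : quadraticChar (ZMod p) (m : ZMod p) = quadraticChar (ZMod p) ((m : ZMod p) ^ 3) := by
    rw [pow_succ, map_mul, quadraticChar_sq_one' hM0, one_mul]
  rw [h4, ← map_mul, Equiv.mulLeft₀_apply]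
  congr 1
  push_cast
  ring

theorem ap_Em_two (m : ℤ) : ap (Em m) 2 = 0 := by
  unfold ap affCount
  have a0 : ((-144 * m ^ 2 : ℤ) : ZMod 2) = 0 :=
    (ZMod.intCast_zmod_eq_zero_iff_dvd _ 2).2 ⟨-72 * m ^ 2, by push_cast; ring⟩
  rcases Int.emod_two_eq_zero_or_one m with h | h
  · have b0 : ((-7 * m : ℤ) : ZMod 2) = 0 :=
      (ZMod.intCast_zmod_eq_zero_iff_dvd _ 2).2 (by push_cast; omega)
    have e : Nat.card {P : ZMod 2 × ZMod 2 //
        ((Em m).map (Int.castRingHom (ZMod 2))).toAffine.Equation P.1 P.2} =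
          Nat.card {P : ZMod 2 × ZMod 2 // P.2 ^ 2 = P.1 ^ 3} := by
      refine Nat.card_congr (Equiv.subtypeEquivRight fun P => ?_)
      rw [WeierstrassCurve.Affine.equation_iff]
      simp only [Em, WeierstrassCurve.map, map_zero, eq_intCast, a0, b0]
      ring_nf
    rw [e, Nat.card_eq_fintype_card]
    have e2 : Fintype.card {P : ZMod 2 × ZMod 2 // P.2 ^ 2 = P.1 ^ 3} = 2 := by
      decide
    simp only [e2]
    norm_num
  · have b0 : ((-7 * m : ℤ) : ZMod 2) = 1 := by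
      have : (-7 * m : ℤ) = 2 * ((-7 * m - 1) / 2) + 1 := by omega
      rw [this]
      push_cast
      have : (2 : ZMod 2) = 0 := rfl
      rw [this]
      ring
    have e : Nat.card {P : ZMod 2 × ZMod 2 //
        ((Em m).map (Int.castRingHom (ZMod 2))).toAffine.Equation P.1 P.2} =
          Nat.card {P : ZMod 2 × ZMod 2 // P.2 ^ 2 = P.1 ^ 3 + P.1 ^ 2} := by
      refine Nat.card_congr (Equiv.subtypeEquivRight fun P => ?_)
      rw [WeierstrassCurve.Affine.equation_iff]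
      simp only [Em, WeierstrassCurve.map, map_zero, eq_intCast, a0, b0]
      ring_nf
    rw [e, Nat.card_eq_fintype_card]
    have e2 : Fintype.card {P : ZMod 2 × ZMod 2 // P.2 ^ 2 = P.1 ^ 3 + P.1 ^ 2} = 2 := by
      decide
    simp only [e2]
    norm_num

open Pool.Agent.N975.ChE in
/-- **The coefficients of the twist by `-n`, `n = 4 m`.** -/
theorem ap_E {n : ℕ} (hE : Ev n) (p : ℕ) (hp : p.Prime) :
    ap (Em (-((n / 4 : ℕ) : ℤ))) p = ap E15 p * chE n p := by
  have : Fact p.Prime := ⟨hp⟩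
  have hn := ev_mod hE
  by_cases hp2 : p = 2
  · subst hp2
    rw [ap_Em_two, chE_zero hn (by
      intro h
      have h2 : 2 ∣ n := by omega
      have := Nat.eq_one_of_dvd_coprimes h dvd_rfl h2
      norm_num at this), mul_zero]
  · by_cases hd : (p : ℤ) ∣ -((n / 4 : ℕ) : ℤ)
    · rw [ap_Em_dvd p hp2 hd]
      have hd' : p ∣ n := by
        rw [dvd_neg] at hd
        have h1 : p ∣ n / 4 := by exact_mod_cast hd
        have e : n = 4 * (n / 4) := by omega
        rw [e]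
        exact h1.mul_left 4
      rw [chE_zero hn (fun h => hp.one_lt.ne' (Nat.eq_one_of_dvd_coprimes h dvd_rfl hd')), mul_zero]
    · rw [ap_Em_ndvd p hp2 hd, chE_prime hE hp hp2, mul_comm]

/-! ### the L-function in general -/

theorem exists_LG (hlat : S_LAT) (W : WeierstrassCurve ℤ) {q : ℕ} [NeZero q]
    (χ : DirichletCharacter ℂ q) (hχ : χ.IsPrimitive) (hinv : χ⁻¹ = χ) (hodd : χ (-1) = -1)
    (w : ℕ → ℤ) (hw : ∀ u : ℕ, χ (u : ZMod q) = (w u : ℂ))
    (hv : ∀ p : ℕ, p.Prime → w p = 0 ∨ w p = 1 ∨ w p = -1)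
    (ha : ∀ p : ℕ, p.Prime → ap W p = ap E15 p * w p)
    (hΔ : ∀ p : ℕ, p.Prime → ((p : ℤ) ∣ W.Δ ↔ p ∣ 15 ∨ w p = 0)) :
    ∃ (f : ℂ → ℂ) (τ : ℂ), IsL W f ∧ τ ^ 2 = -(q : ℂ) ∧
      τ * f 1 = ∑ a ∈ un q, (w a : ℂ) * II ((a : ℚ) / q) := by
  obtain ⟨g, hg1, hg2, hg3⟩ := exists_L_all hlat χ hχ
  refine ⟨g, gaussSum χ (stdAddChar (N := q)), ⟨hg1, ?_⟩, ?_, ?_⟩
  · intro s hs
    refine (congrArg (fun g => HasProd g _) (funext fun p => ?_)).mp (hg2 s hs)
    have hpp : (p : ℕ).Prime := p.2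
    rw [hw, ha p hpp]
    rcases hv p hpp with h0 | h0
    · have hbad : ((p : ℕ) : ℤ) ∣ W.Δ := (hΔ p hpp).2 (Or.inr h0)
      rw [h0, if_pos hbad]
      simp
    · have hne : w (p : ℕ) ≠ 0 := by rcases h0 with h | h <;> rw [h] <;> norm_num
      have hx2 : ((w (p : ℕ) : ℤ) : ℂ) ^ 2 = 1 := by
        rcases h0 with h | h <;> rw [h] <;> norm_num
      rw [hx2]
      have hΔ' : ((p : ℕ) : ℤ) ∣ W.Δ ↔ (p : ℕ) ∣ 15 := by
        rw [hΔ p hpp]
        tauto
      by_cases h15' : (p : ℕ) ∣ 15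
      · rw [if_pos h15', if_pos (hΔ'.2 h15')]
        push_cast
        ring
      · rw [if_neg h15', if_neg (fun h => h15' (hΔ'.1 h)), mul_one, p_cpow hpp.ne_zero]
        push_cast
        ring
  · have h1 := Pool.Agent.W378.CY.gauss_prod q χ hχ
    rw [hinv, hodd] at h1
    rw [sq]
    linear_combination -h1
  · rw [hinv] at hg3
    rw [hg3, Pool.Agent.N975.LfinE.sum_unC]
    refine Finset.sum_congr rfl fun u _ => ?_
    rw [← hw, ZMod.natCast_zmod_val]

/-- the sum over the even part of the symbol is zero -/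
theorem sum_zero {sp : ℚ → ℤ} (hneg : ∀ r, sp (-r) = sp r) (hper : ∀ r, sp (r + 1) = sp r)
    {n : ℕ} (hn : 1 < n) (w : ℕ → ℤ) (hw : ∀ a, a < n → 0 < a → w (n - a) = - w a) :
    ∑ u ∈ un n, w u * sp ((u : ℚ) / n) = 0 := by
  have mem : ∀ a, a ∈ un n ↔ a < n ∧ Nat.Coprime a n := by
    intro a
    unfold un
    rw [Finset.mem_filter, Finset.mem_range]
  have h : ∑ u ∈ un n, w u * sp ((u : ℚ) / n) = -∑ u ∈ un n, w u * sp ((u : ℚ) / n) := by
    rw [← Finset.sum_neg_distrib]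
    have h0 : ∀ a ∈ un n, 0 < a := by
      intro a ha
      rw [mem] at ha
      rcases Nat.eq_zero_or_pos a with h | h
      · rw [h, Nat.coprime_zero_left] at ha
        omega
      · exact h
    refine Finset.sum_bij' (fun a _ => n - a) (fun a _ => n - a) ?_ ?_ ?_ ?_ ?_
    · intro a ha
      have := h0 a ha
      rw [mem] at ha ⊢
      exact ⟨by omega, (Nat.coprime_self_sub_left ha.1.le).2 ha.2⟩
    · intro a ha
      have := h0 a ha
      rw [mem] at ha ⊢
      exact ⟨by omega, (Nat.coprime_self_sub_left ha.1.le).2 ha.2⟩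
    · intro a ha
      rw [mem] at ha
      have := ha.1
      show n - (n - a) = a
      omega
    · intro a ha
      rw [mem] at ha
      have := ha.1
      show n - (n - a) = a
      omega
    · intro a ha
      have h0' := h0 a ha
      rw [mem] at ha
      have hn : (n : ℚ) ≠ 0 := by exact_mod_cast (by omega : n ≠ 0)
      have e1 : (((n - a : ℕ) : ℚ) / n) = -((a : ℚ) / n) + 1 := by
        rw [Nat.cast_sub ha.1.le]
        field_simp
        ring
      rw [e1, hper, hneg, hw a ha.1 h0']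
      ring
  omega

/-- **The central value.** -/
theorem valueG (hlat : S_LAT) {sp sm : ℚ → ℤ} {Op Om : ℝ}
    (hs : ∀ r : ℚ, (4 : ℂ) * II r = sp r * Op + 2 * sm r * Om * Complex.I)
    (hneg : ∀ r, sp (-r) = sp r) (hper : ∀ r, sp (r + 1) = sp r)
    (W : WeierstrassCurve ℤ) {n : ℕ} [NeZero n] (hn1 : 1 < n)
    (χ : DirichletCharacter ℂ n) (hχ : χ.IsPrimitive) (hinv : χ⁻¹ = χ) (hodd : χ (-1) = -1)
    (w : ℕ → ℤ) (hw : ∀ u : ℕ, χ (u : ZMod n) = (w u : ℂ))
    (hv : ∀ p : ℕ, p.Prime → w p = 0 ∨ w p = 1 ∨ w p = -1)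
    (ha : ∀ p : ℕ, p.Prime → ap W p = ap E15 p * w p)
    (hΔ : ∀ p : ℕ, p.Prime → ((p : ℤ) ∣ W.Δ ↔ p ∣ 15 ∨ w p = 0)) :
    ∃ (f : ℂ → ℂ) (ε : ℤ), IsL W f ∧ (ε = 1 ∨ ε = -1) ∧
      f 1 = ((ε * (∑ u ∈ un n, w u * sm ((u : ℚ) / n) : ℤ) * Om / (2 * Real.sqrt n) : ℝ) : ℂ) := by
  obtain ⟨f, τ, hf, hτ, hv'⟩ := exists_LG hlat W χ hχ hinv hodd w hw hv ha hΔ
  have h0 := sum_zero hneg hper hn1 w (by
    intro a ha1 ha0
    have e1 : ((w (n - a) : ℤ) : ℂ) = ((-w a : ℤ) : ℂ) := by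
      rw [← hw, Nat.cast_sub ha1.le, ZMod.natCast_self, zero_sub, neg_eq_neg_one_mul, map_mul,
        hodd, hw]
      push_cast
      ring
    exact_mod_cast e1)
  set SM : ℤ := ∑ u ∈ un n, w u * sm ((u : ℚ) / n) with hSM
  have h3 : (4 : ℂ) * ∑ a ∈ un n, ((w a : ℤ) : ℂ) * II ((a : ℚ) / n) =
      ((∑ u ∈ un n, w u * sp ((u : ℚ) / n) : ℤ) : ℂ) * Op + ((SM : ℤ) : ℂ) * (2 * Om) * Complex.I := by
    rw [hSM]
    push_cast
    rw [Finset.mul_sum, Finset.sum_mul, Finset.sum_mul, Finset.sum_mul,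
      ← Finset.sum_add_distrib]
    refine Finset.sum_congr rfl fun a _ => ?_
    have := hs ((a : ℚ) / n)
    linear_combination ((w a : ℤ) : ℂ) * this
  rw [h0, ← hv'] at h3
  have hn0 : (0 : ℝ) < n := by exact_mod_cast (by omega : 0 < n)
  have hsn : (0 : ℝ) < Real.sqrt n := Real.sqrt_pos.2 hn0
  have hs2 : (Real.sqrt n) ^ 2 = n := Real.sq_sqrt hn0.le
  have hsC : ((Real.sqrt n : ℝ) : ℂ) ^ 2 = (n : ℂ) := by
    rw [← Complex.ofReal_pow, hs2]
    simp
  have hs0 : ((Real.sqrt n : ℝ) : ℂ) ≠ 0 := by exact_mod_cast hsn.ne'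
  have hτ2 : (τ - Complex.I * (Real.sqrt n : ℝ)) * (τ + Complex.I * (Real.sqrt n : ℝ)) = 0 := by
    linear_combination hτ - hsC * Complex.I ^ 2 - (n : ℂ) * Complex.I_sq
  rcases mul_eq_zero.1 hτ2 with h | h
  · have hτ' : τ = Complex.I * (Real.sqrt n : ℝ) := by linear_combination h
    refine ⟨f, 1, hf, Or.inl rfl, ?_⟩
    rw [hτ'] at h3
    have h5 : Complex.I * (4 * (Real.sqrt n : ℝ) * f 1) =
        Complex.I * (((SM : ℤ) : ℂ) * (2 * Om)) := by
      push_cast at h3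
      linear_combination h3
    have h6 := mul_left_cancel₀ Complex.I_ne_zero h5
    push_cast
    field_simp
    linear_combination (1 / 2 : ℂ) * h6
  · have hτ' : τ = -(Complex.I * (Real.sqrt n : ℝ)) := by linear_combination h
    refine ⟨f, -1, hf, Or.inr rfl, ?_⟩
    rw [hτ'] at h3
    have h5 : Complex.I * (-(4 * (Real.sqrt n : ℝ) * f 1)) =
        Complex.I * (((SM : ℤ) : ℂ) * (2 * Om)) := by
      push_cast at h3
      linear_combination h3
    have h6 := mul_left_cancel₀ Complex.I_ne_zero h5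
    push_cast
    field_simp
    linear_combination (-1 / 2 : ℂ) * h6

end Pool.Agent.N875.X15
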