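import Pool.Agent.N875.X15.Lin
import Pool.Agent.N875.X15.Crit
import Pool.Agent.N875.X15.Conv
import Pool.Agent.Y667.RP.Two

/-!
# The two sides of Redei's criterion for all negative discriminants
-/

set_option autoImplicit false

namespace Pool.Agent.N875.X15

open Finset

section lin

variable {ι : Type} [Fintype ι] [DecidableEq ι] (R : ι → ι → ZMod 2)

/-- the transposition in terms of sets -/
theorem transA [Nonempty ι] (s0 : Finset ι)
    (h : ∀ s : Finset ι, (∀ q, q ∉ s → ∑ p ∈ s, R q p = 0) →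
      (∀ q ∈ s, ∑ p ∈ univ.erase q, R p q + ∑ p ∈ s.erase q, R q p = 0) → s = ∅ ∨ s = s0)
    (s : Finset ι) (h1 : ∀ q, q ∉ s → ∑ p ∈ s, R p q = 0)
    (h2 : ∀ q ∈ s, ∑ p ∈ sᶜ, R p q = 0) : s = ∅ ∨ s = univ := by
  have h01 : ∀ c : ZMod 2, c = 0 ∨ c = 1 := by decide
  have hcc : ∀ c : ZMod 2, c + c = 0 := by decide
  let M : Matrix ι ι (ZMod 2) := Matrix.of fun q p =>
    if q = p then ∑ r ∈ univ.erase q, R r q else R p q
  let v : Finset ι → ι → ZMod 2 := fun s p => if p ∈ s then 1 else 0
  have vinj : ∀ s s' : Finset ι, v s = v s' → s = s' := by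
    intro s s' he
    ext p
    have := congrFun he p
    by_cases c1 : p ∈ s <;> by_cases c2 : p ∈ s' <;> simp [v, c1, c2] at this ⊢
  have vsur : ∀ y : ι → ZMod 2, ∃ s, v s = y := by
    intro y
    refine ⟨univ.filter fun p => y p = 1, ?_⟩
    funext p
    show (if p ∈ univ.filter (fun p => y p = 1) then (1 : ZMod 2) else 0) = y p
    rcases h01 (y p) with c | c
    · rw [c, if_neg (by simp [c])]
    · rw [c, if_pos (by simp [c])]
  have hM : ∀ (s : Finset ι) (q : ι), M.mulVec (v s) q =
      (∑ r ∈ univ.erase q, R r q) * v s q + ∑ p ∈ s.erase q, R p q := by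
    intro s q
    rw [Matrix.mulVec, dotProduct, ← Finset.add_sum_erase _ _ (Finset.mem_univ q)]
    congr 1
    · show (if q = q then _ else _) * _ = _
      rw [if_pos rfl]
    · have e1 : ∑ x ∈ univ.erase q, M q x * v s x = ∑ x ∈ univ.erase q, if x ∈ s then R x q else 0 := by
        refine Finset.sum_congr rfl fun p hp => ?_
        show (if q = p then _ else _) * (if p ∈ s then _ else _) = _
        rw [if_neg (Finset.ne_of_mem_erase hp).symm]
        split_ifs
        · rw [mul_one]
        · rw [mul_zero]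
      rw [e1, ← Finset.sum_filter]
      congr 1
      ext p
      simp only [mem_filter, mem_erase, mem_univ, and_true]
  have hMT : ∀ (s : Finset ι) (q : ι), M.transpose.mulVec (v s) q =
      (∑ r ∈ univ.erase q, R r q) * v s q + ∑ p ∈ s.erase q, R q p := by
    intro s q
    rw [Matrix.mulVec, dotProduct, ← Finset.add_sum_erase _ _ (Finset.mem_univ q)]
    congr 1
    · show (if q = q then _ else _) * _ = _
      rw [if_pos rfl]
    · have e1 : ∑ x ∈ univ.erase q, M.transpose q x * v s x =
          ∑ x ∈ univ.erase q, if x ∈ s then R q x else 0 := by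
        refine Finset.sum_congr rfl fun p hp => ?_
        show (if p = q then _ else _) * (if p ∈ s then _ else _) = _
        rw [if_neg (Finset.ne_of_mem_erase hp)]
        split_ifs
        · rw [mul_one]
        · rw [mul_zero]
      rw [e1, ← Finset.sum_filter]
      congr 1
      ext p
      simp only [mem_filter, mem_erase, mem_univ, and_true]
  have hT : ∀ x : ι → ZMod 2, M.transpose.mulVec x = 0 → x = 0 ∨ x = v s0 := by
    intro x hx
    obtain ⟨s, rfl⟩ := vsur x
    have e0 : v ∅ = 0 := by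
      funext p
      simp [v]
    rw [← e0]
    rcases h s (fun q hq => by
        have h3 := congrFun hx q
        rw [hMT, Finset.erase_eq_of_notMem hq] at h3
        have h4 : v s q = 0 := by simp [v, hq]
        rw [h4, mul_zero, zero_add] at h3
        exact h3) (fun q hq => by
        have h3 := congrFun hx q
        rw [hMT] at h3
        have h4 : v s q = 1 := by simp [v, hq]
        rw [h4, mul_one] at h3
        exact h3) with h5 | h5
    · left; rw [h5]
    · right; rw [h5]
  have e1 : v univ = 1 := by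
    funext p
    simp [v]
  have hne : v univ ≠ 0 := by
    intro h3
    have h4 := congrFun h3 (Classical.arbitrary ι)
    rw [e1] at h4
    exact one_ne_zero (α := ZMod 2) h4
  have h1' : M.mulVec (v univ) = 0 := by
    funext q
    rw [hM]
    have : v univ q = 1 := by simp [v]
    rw [this, mul_one]
    exact hcc _
  have hs : M.mulVec (v s) = 0 := by
    funext q
    rw [hM, Pi.zero_apply]
    by_cases hq : q ∈ s
    · have h3 : v s q = 1 := by simp [v, hq]
      rw [h3, mul_one]
      have h4 : ∑ r ∈ univ.erase q, R r q = ∑ p ∈ s.erase q, R p q + ∑ p ∈ sᶜ, R p q := by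
        rw [← Finset.sum_union]
        · congr 1
          ext p
          simp only [mem_erase, mem_univ, and_true, mem_union, mem_compl]
          constructor
          · intro hp
            by_cases c : p ∈ s
            · exact Or.inl ⟨hp, c⟩
            · exact Or.inr c
          · rintro (⟨hp, -⟩ | hp)
            · exact hp
            · rintro rfl
              exact hp hq
        · rw [Finset.disjoint_left]
          intro p hp hp'
          rw [mem_compl] at hp'
          exact hp' (mem_erase.1 hp).2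
      rw [h4, h2 q hq, add_zero]
      exact hcc _
    · have h3 : v s q = 0 := by simp [v, hq]
      rw [h3, mul_zero, zero_add, Finset.erase_eq_of_notMem hq]
      exact h1 q hq
  rcases ker_transpose M (v s0) hT (v univ) hne h1' (v s) hs with h3 | h3
  · left
    apply vinj
    rw [h3]
    funext p
    simp [v]
  · right
    exact vinj _ _ h3

end lin

/-! ### the characters -/

/-- the quadratic character at `q` of the numbers prime to `q` (which are `1 mod 4` if `q = 2`) -/
def ch (q : ℕ) (a : ℤ) : ℤ := if q = 2 then (if a % 8 = 1 then 1 else -1) else jacobiSym a q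

/-- the domain of the character -/
def Gd (q : ℕ) (a : ℤ) : Prop := if q = 2 then a % 4 = 1 else ¬ (q : ℤ) ∣ a

lemma ch_two (a : ℤ) : ch 2 a = if a % 8 = 1 then 1 else -1 := by
  unfold ch
  rw [if_pos rfl]

lemma ch_odd {q : ℕ} (hq : q ≠ 2) (a : ℤ) : ch q a = jacobiSym a q := by
  unfold ch
  rw [if_neg hq]

lemma gd_two (a : ℤ) : Gd 2 a ↔ a % 4 = 1 := by
  unfold Gd
  rw [if_pos rfl]

lemma gd_odd {q : ℕ} (hq : q ≠ 2) (a : ℤ) : Gd q a ↔ ¬ (q : ℤ) ∣ a := by
  unfold Gd
  rw [if_neg hq]

lemma ch_mul {q : ℕ} {a b : ℤ} (ha : Gd q a) (hb : Gd q b) : ch q (a * b) = ch q a * ch q b := by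
  by_cases h : q = 2
  · subst h
    rw [gd_two] at ha hb
    rw [ch_two, ch_two, ch_two]
    have e1 : a % 8 = 1 ∨ a % 8 = 5 := by omega
    have e2 : b % 8 = 1 ∨ b % 8 = 5 := by omega
    have e3 := Int.mul_emod a b 8
    rcases e1 with e1 | e1 <;> rcases e2 with e2 | e2 <;> rw [e1, e2] at e3 <;> rw [e3, e1, e2] <;>
      norm_num
  · rw [ch_odd h, ch_odd h, ch_odd h]
    exact jacobiSym.mul_left _ _ _

lemma gd_one {q : ℕ} (hq : q.Prime) : Gd q 1 := by
  by_cases h : q = 2
  · subst h
    rw [gd_two]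
    norm_num
  · rw [gd_odd h]
    intro h1
    have h2 : q ∣ 1 := by exact_mod_cast h1
    exact hq.one_lt.ne' (Nat.dvd_one.1 h2)

lemma gd_mul {q : ℕ} (hq : q.Prime) {a b : ℤ} (ha : Gd q a) (hb : Gd q b) : Gd q (a * b) := by
  by_cases h : q = 2
  · subst h
    rw [gd_two] at ha hb ⊢
    rw [Int.mul_emod, ha, hb]
    norm_num
  · rw [gd_odd h] at ha hb ⊢
    intro hab
    rcases (Nat.prime_iff_prime_int.1 hq).dvd_or_dvd hab with h1 | h1
    · exact ha h1
    · exact hb h1

lemma ch_pm {q : ℕ} (hq : q.Prime) {a : ℤ} (ha : Gd q a) : ch q a = 1 ∨ ch q a = -1 := by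
  by_cases h : q = 2
  · subst h
    rw [ch_two]
    split_ifs
    · exact Or.inl rfl
    · exact Or.inr rfl
  · rw [gd_odd h] at ha
    rw [ch_odd h]
    refine jacobiSym.eq_one_or_neg_one ?_
    rw [← Int.isCoprime_iff_gcd_eq_one]
    exact ((Nat.prime_iff_prime_int.1 hq).coprime_iff_not_dvd.2 ha).symm

/-- integers congruent to `1` modulo `8` -/
lemma sq_int {a : ℤ} (h : a % 8 = 1) : IsSquare (a : ℚ_[2]) := by
  have h1 := sq_of_mod8 (a : ℤ_[2]) (by
    rw [map_intCast]
    have e : a = 8 * (a / 8) + 1 := by omega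
    rw [e]
    push_cast
    have : (8 : ZMod (2 ^ 3)) = 0 := by decide
    rw [this]
    ring)
  simpa using h1

lemma ch_iff {q : ℕ} [hq : Fact q.Prime] {a : ℤ} (ha : Gd q a) : ch q a = 1 ↔ IsSquare (a : ℚ_[q]) := by
  by_cases h : q = 2
  · subst h
    rw [gd_two] at ha
    rw [ch_two]
    constructor
    · intro h1
      split_ifs at h1 with h2
      exact sq_int h2
    · intro h1
      rw [if_pos (Pool.Agent.Y667.RP.mod_of_sq (by omega) h1)]
  · rw [gd_odd h] at ha
    rw [ch_odd h]
    constructor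
    · intro h1
      refine sq_of_zmod h ha ?_
      rw [← jacobiSym.legendreSym.to_jacobiSym] at h1
      exact (legendreSym.eq_one_iff q (fun h0 => ha ((ZMod.intCast_zmod_eq_zero_iff_dvd a q).1 h0))).1 h1
    · exact jac_of_sq ha

lemma gd_prod {ι : Type} {q : ℕ} (hq : q.Prime) (s : Finset ι) (f : ι → ℤ)
    (h : ∀ p ∈ s, Gd q (f p)) : Gd q (∏ p ∈ s, f p) := by
  classical
  induction s using Finset.induction_on with
  | empty => rw [Finset.prod_empty]; exact gd_one hq
  | insert a s ha ih =>
    rw [Finset.prod_insert ha]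
    exact gd_mul hq (h a (Finset.mem_insert_self _ _))
      (ih fun p hp => h p (Finset.mem_insert_of_mem hp))

/-- the additive form of the character -/
def ra (q : ℕ) (a : ℤ) : ZMod 2 := if ch q a = 1 then 0 else 1

lemma sg_ra {q : ℕ} (hq : q.Prime) {a : ℤ} (ha : Gd q a) : sg (ra q a) = ch q a := by
  unfold ra
  rcases ch_pm hq ha with h | h
  · rw [if_pos h, h]
    rfl
  · rw [h, if_neg (by decide)]
    rfl

lemma sg_sum_ra {ι : Type} {q : ℕ} (hq : q.Prime) (s : Finset ι) (f : ι → ℤ)
    (h : ∀ p ∈ s, Gd q (f p)) : sg (∑ p ∈ s, ra q (f p)) = ch q (∏ p ∈ s, f p) := by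
  classical
  induction s using Finset.induction_on with
  | empty =>
    rw [Finset.sum_empty, Finset.prod_empty]
    by_cases h2 : q = 2
    · subst h2
      rw [ch_two]
      rfl
    · rw [ch_odd h2, jacobiSym.one_left]
      rfl
  | insert a s ha ih =>
    rw [Finset.sum_insert ha, Finset.prod_insert ha, sg_add, sg_ra hq (h a (Finset.mem_insert_self _ _)),
      ih fun p hp => h p (Finset.mem_insert_of_mem hp), ch_mul (h a (Finset.mem_insert_self _ _))
        (gd_prod hq s f fun p hp => h p (Finset.mem_insert_of_mem hp))]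

lemma sum_ra {ι : Type} {q : ℕ} (hq : q.Prime) (s : Finset ι) (f : ι → ℤ)
    (h : ∀ p ∈ s, Gd q (f p)) : ∑ p ∈ s, ra q (f p) = 0 ↔ ch q (∏ p ∈ s, f p) = 1 := by
  rw [← sg_inj, sg_sum_ra hq s f h]

/-! ### reciprocity -/

/-- the prime discriminants -/
def sgp (p : ℕ) : ℤ := if p % 4 = 1 then p else -p

lemma sgp_mod {p : ℕ} (hp : p.Prime) (h2 : p ≠ 2) : sgp p % 4 = 1 := by
  unfold sgp
  have := hp.eq_two_or_odd
  split_ifs <;> omega

lemma sgp_abs (p : ℕ) : (sgp p).natAbs = p := by
  unfold sgp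
  split_ifs
  · exact Int.natAbs_natCast p
  · rw [Int.natAbs_neg, Int.natAbs_natCast]

lemma dvd_sgp {p q : ℕ} : (q : ℤ) ∣ sgp p ↔ q ∣ p := by
  rw [Int.natCast_dvd, sgp_abs]

/-- **reciprocity** -/
theorem recip_ch {p q : ℕ} (hp : p.Prime) (hq : q.Prime) (hq2 : q ≠ 2) :
    ch p (sgp q) = jacobiSym p q := by
  have hqo : q % 2 = 1 := hq.eq_two_or_odd.resolve_left hq2
  by_cases h : p = 2
  · subst h
    rw [ch_two]
    have e : jacobiSym ((2 : ℕ) : ℤ) q = if q % 8 = 1 ∨ q % 8 = 7 then 1 else -1 := by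
      have e1 : jacobiSym ((2 : ℕ) : ℤ) q = jacobiSym 2 q := by norm_num
      have e2 : ¬ q % 2 = 0 := by omega
      rw [e1, jacobiSym.at_two (Nat.odd_iff.2 hqo), ZMod.χ₈_nat_eq_if_mod_eight, if_neg e2]
    rw [e]
    unfold sgp
    split_ifs <;> first | rfl | omega
  · rw [ch_odd h, recip (sgp_mod hq hq2) (hp.odd_of_ne_two h), sgp_abs]

end Pool.Agent.N875.X15
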