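import Pool.Agent.W22.RK.Loc

/-!
# Local conditions at odd primes

`u`, `v`, `w` are the three differences `x - e₁`, `x - e₂`, `x - e₃` of a point with coordinates in
`ℚ_[p]` on a curve `y² = (x - e₁)(x - e₂)(x - e₃)`.
-/

set_option autoImplicit false

namespace Pool.Agent.N875.X15

variable {p : ℕ} [hp : Fact p.Prime]

lemma norm_lt_iff {x y : ℚ_[p]} (hx : x ≠ 0) (hy : y ≠ 0) :
    ‖x‖ < ‖y‖ ↔ y.valuation < x.valuation := by
  rw [Padic.norm_eq_zpow_neg_valuation hx, Padic.norm_eq_zpow_neg_valuation hy]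
  have h1 : (1 : ℝ) < p := by exact_mod_cast hp.out.one_lt
  rw [zpow_lt_zpow_iff_right₀ h1]
  omega

lemma norm_le_iff {x y : ℚ_[p]} (hx : x ≠ 0) (hy : y ≠ 0) :
    ‖x‖ ≤ ‖y‖ ↔ y.valuation ≤ x.valuation := by
  rw [← not_lt, norm_lt_iff hy hx, not_lt]

lemma norm_eq_iff {x y : ℚ_[p]} (hx : x ≠ 0) (hy : y ≠ 0) :
    ‖x‖ = ‖y‖ ↔ x.valuation = y.valuation := by
  rw [le_antisymm_iff, norm_le_iff hx hy, norm_le_iff hy hx]
  omega

/-- close numbers have the same square class -/
lemma close (hp2 : p ≠ 2) {x y : ℚ_[p]} (hy : y ≠ 0) (h : ‖x - y‖ < ‖y‖) :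
    IsSquare (x * y) ∧ ‖x‖ = ‖y‖ := by
  have h1 : ‖(x - y) / y‖ < 1 := by
    rw [norm_div, div_lt_one (norm_pos_iff.2 hy)]
    exact h
  obtain ⟨r, hr⟩ := Pool.Agent.W22.RK.isSquare_one_add hp2 _ h1
  refine ⟨⟨r * y, ?_⟩, ?_⟩
  · have : r * y * (r * y) = (r * r) * (y * y) := by ring
    rw [this, ← hr]
    field_simp
    ring
  · have h2 : x = y + (x - y) := by ring
    rw [h2]
    exact (IsUltrametricDist.norm_add_eq_max_of_norm_ne_norm h.ne').trans (max_eq_left h.le)

/-- the same with valuations -/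
lemma closeV (hp2 : p ≠ 2) {x y : ℚ_[p]} (hx : x ≠ 0) (hy : y ≠ 0) (hxy : x - y ≠ 0)
    (h : y.valuation < (x - y).valuation) :
    IsSquare (x * y) ∧ x.valuation = y.valuation := by
  obtain ⟨h1, h2⟩ := close hp2 hy ((norm_lt_iff hxy hy).2 h)
  exact ⟨h1, (norm_eq_iff hx hy).1 h2⟩

/-- the sum of two elements of large valuation -/
lemma val_add_ge {x y : ℚ_[p]} (hxy : x + y ≠ 0) {k : ℤ}
    (h1 : k ≤ x.valuation) (h2 : k ≤ y.valuation) : k ≤ (x + y).valuation :=
  le_trans (le_min h1 h2) (Padic.le_valuation_add hxy)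

lemma even_val {x : ℚ_[p]} (hx : x ≠ 0) (h : IsSquare x) : Even x.valuation := by
  obtain ⟨r, rfl⟩ := h
  have hr : r ≠ 0 := fun h => hx (by rw [h, mul_zero])
  rw [Padic.valuation_mul hr hr]
  exact ⟨_, rfl⟩

lemma sq_cancel {K : Type} [Field K] {x y : K} (hx : x ≠ 0) (h1 : IsSquare x)
    (h2 : IsSquare (x * y)) : IsSquare y := by
  obtain ⟨r, rfl⟩ := h1
  obtain ⟨s, hs⟩ := h2
  have hr : r ≠ 0 := fun h => hx (by rw [h, mul_zero])
  refine ⟨s / r, ?_⟩
  field_simp
  rw [pow_two, pow_two, ← hs]
  ring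

lemma sq_trans {K : Type} [Field K] {x y z : K} (hy : y ≠ 0) (h1 : IsSquare (x * y))
    (h2 : IsSquare (y * z)) : IsSquare (x * z) := by
  have h3 : IsSquare ((y * y) * (x * z)) := by
    have := h1.mul h2
    have e : (y * y) * (x * z) = x * y * (y * z) := by ring
    rwa [e]
  exact sq_cancel (mul_ne_zero hy hy) ⟨y, rfl⟩ h3

/-- **The ramified case**: all three differences of the roots have odd valuations. -/
theorem loc_ram (hp2 : p ≠ 2) {u v w : ℚ_[p]} (hu : u ≠ 0) (hv : v ≠ 0) (hw : w ≠ 0)
    (hs : IsSquare (u * v * w)) (huv : v - u ≠ 0) (huw : w - u ≠ 0) (hvw : w - v ≠ 0) {l k : ℤ}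
    (h1 : (v - u).valuation = l) (h2 : (w - u).valuation = k) (h3 : (w - v).valuation = k)
    (hkl : k ≤ l) (hk : Odd k) :
    (IsSquare u ∧ IsSquare v) ∨ (IsSquare (v * (v - u)) ∧ IsSquare (w * (w - u))) ∨
    (IsSquare (u * (u - v)) ∧ IsSquare (w * (w - v))) ∨
    (IsSquare (u * (u - w)) ∧ IsSquare (v * (v - w))) := by
  have hsum : Even (u.valuation + v.valuation + w.valuation) := by
    have := even_val (mul_ne_zero (mul_ne_zero hu hv) hw) hs
    rwa [Padic.valuation_mul (mul_ne_zero hu hv) hw, Padic.valuation_mul hu hv] at this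
  have neg : ∀ x : ℚ_[p], (-x).valuation = x.valuation := by
    intro x
    by_cases hx : x = 0
    · rw [hx, neg_zero]
    exact (norm_eq_iff (neg_ne_zero.2 hx) hx).1 (norm_neg x)
  have hvu : u - v ≠ 0 := by rwa [← neg_ne_zero, neg_sub]
  have hwu : u - w ≠ 0 := by rwa [← neg_ne_zero, neg_sub]
  have hwv : v - w ≠ 0 := by rwa [← neg_ne_zero, neg_sub]
  have h1' : (u - v).valuation = l := by rw [← neg, neg_sub, h1]
  have h2' : (u - w).valuation = k := by rw [← neg, neg_sub, h2]
  have h3' : (v - w).valuation = k := by rw [← neg, neg_sub, h3]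
  rcases lt_or_ge u.valuation k with c1 | c1
  · -- all three are close
    left
    obtain ⟨a1, -⟩ := closeV hp2 hv hu huv (by omega)
    obtain ⟨a2, -⟩ := closeV hp2 hw hu huw (by omega)
    have a3 : IsSquare u := by
      have e : (v * u) * (w * u) * u = (u * u) * (u * v * w) := by ring
      have := (a1.mul a2)
      have h5 : IsSquare ((v * u) * (w * u) * u) := by
        rw [e]
        exact (IsSquare.mul_self u).mul hs
      exact sq_cancel (mul_ne_zero (mul_ne_zero hv hu) (mul_ne_zero hw hu)) this h5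
    exact ⟨a3, sq_cancel hu a3 (by rwa [mul_comm])⟩
  · rcases lt_or_ge k w.valuation with c2 | c2
    · right; right; right
      constructor
      · exact (closeV hp2 hu hwu (by rw [sub_sub_cancel]; exact hw)
          (by rw [sub_sub_cancel]; omega)).1
      · exact (closeV hp2 hv hwv (by rw [sub_sub_cancel]; exact hw)
          (by rw [sub_sub_cancel]; omega)).1
    · have c3 : k ≤ w.valuation := by
        have := val_add_ge (x := w - u) (y := u) (by rwa [sub_add_cancel]) (k := k)
          (by omega) c1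
        rwa [sub_add_cancel] at this
      have c4 : w.valuation = k := le_antisymm c2 c3
      rcases lt_trichotomy u.valuation l with c5 | c5 | c5
      · exfalso
        obtain ⟨-, a1⟩ := closeV hp2 hv hu huv (by omega)
        rw [a1, c4] at hsum
        obtain ⟨r, hr⟩ := hsum
        obtain ⟨s, hs'⟩ := hk
        omega
      · right; right; left
        have c6 : l ≤ v.valuation := by
          have := val_add_ge (x := v - u) (y := u) (by rwa [sub_add_cancel]) (k := l)
            (by omega) (by omega)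
          rwa [sub_add_cancel] at this
        have c7 : v.valuation ≠ l := by
          intro h
          rw [h, c4, c5] at hsum
          obtain ⟨r, hr⟩ := hsum
          obtain ⟨s, hs'⟩ := hk
          omega
        constructor
        · exact (closeV hp2 hu hvu (by rw [sub_sub_cancel]; exact hv)
            (by rw [sub_sub_cancel]; omega)).1
        · exact (closeV hp2 hw hvw (by rw [sub_sub_cancel]; exact hv)
            (by rw [sub_sub_cancel]; omega)).1
      · right; left
        constructor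
        · exact (closeV hp2 hv huv (by rw [sub_sub_cancel]; exact hu)
            (by rw [sub_sub_cancel]; omega)).1
        · exact (closeV hp2 hw huw (by rw [sub_sub_cancel]; exact hu)
            (by rw [sub_sub_cancel]; omega)).1

/-- **The unramified case**: all three differences of the roots have even valuations. -/
theorem loc_unr (hp2 : p ≠ 2) {u v w : ℚ_[p]} (hu : u ≠ 0) (hv : v ≠ 0) (hw : w ≠ 0)
    (hs : IsSquare (u * v * w)) (huv : v - u ≠ 0) (huw : w - u ≠ 0) (hvw : w - v ≠ 0) {l k : ℤ}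
    (h1 : (v - u).valuation = l) (h2 : (w - u).valuation = k) (h3 : (w - v).valuation = k)
    (hkl : k ≤ l) (hk : Even k) (hl : Even l) (hn : k < l → ¬ IsSquare (w - u)) :
    Even u.valuation ∧ Even v.valuation ∧ Even w.valuation := by
  have hsum : Even (u.valuation + v.valuation + w.valuation) := by
    have := even_val (mul_ne_zero (mul_ne_zero hu hv) hw) hs
    rwa [Padic.valuation_mul (mul_ne_zero hu hv) hw, Padic.valuation_mul hu hv] at this
  have neg : ∀ x : ℚ_[p], (-x).valuation = x.valuation := by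
    intro x
    by_cases hx : x = 0
    · rw [hx, neg_zero]
    exact (norm_eq_iff (neg_ne_zero.2 hx) hx).1 (norm_neg x)
  have hvu : u - v ≠ 0 := by rwa [← neg_ne_zero, neg_sub]
  have hwu : u - w ≠ 0 := by rwa [← neg_ne_zero, neg_sub]
  have hwv : v - w ≠ 0 := by rwa [← neg_ne_zero, neg_sub]
  have h1' : (u - v).valuation = l := by rw [← neg, neg_sub, h1]
  have h2' : (u - w).valuation = k := by rw [← neg, neg_sub, h2]
  have h3' : (v - w).valuation = k := by rw [← neg, neg_sub, h3]
  obtain ⟨r, hr⟩ := hsum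
  obtain ⟨s, hs'⟩ := hk
  obtain ⟨t, ht⟩ := hl
  rcases lt_or_ge u.valuation k with c1 | c1
  · obtain ⟨-, a1⟩ := closeV hp2 hv hu huv (by omega)
    obtain ⟨-, a2⟩ := closeV hp2 hw hu huw (by omega)
    have : Even u.valuation := ⟨r - u.valuation, by omega⟩
    exact ⟨this, by rw [a1]; exact this, by rw [a2]; exact this⟩
  · rcases lt_or_ge k w.valuation with c2 | c2
    · obtain ⟨-, a1⟩ := closeV hp2 hu hwu (by rw [sub_sub_cancel]; exact hw)
          (by rw [sub_sub_cancel]; omega)
      obtain ⟨-, a2⟩ := closeV hp2 hv hwv (by rw [sub_sub_cancel]; exact hw)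
          (by rw [sub_sub_cancel]; omega)
      refine ⟨⟨s, by omega⟩, ⟨s, by omega⟩, ⟨r - k, by omega⟩⟩
    · have c3 : k ≤ w.valuation := by
        have := val_add_ge (x := w - u) (y := u) (by rwa [sub_add_cancel]) (k := k)
          (by omega) c1
        rwa [sub_add_cancel] at this
      have c4 : w.valuation = k := le_antisymm c2 c3
      rcases lt_trichotomy u.valuation l with c5 | c5 | c5
      · obtain ⟨a0, a1⟩ := closeV hp2 hv hu huv (by omega)
        rcases eq_or_lt_of_le c1 with c6 | c6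
        · refine ⟨⟨s, by omega⟩, ⟨s, by omega⟩, ⟨s, by omega⟩⟩
        · exfalso
          refine hn (by omega) ?_
          obtain ⟨b0, -⟩ := closeV hp2 (x := w) (y := w - u) hw huw
            (by rw [sub_sub_cancel]; exact hu) (by rw [sub_sub_cancel]; omega)
          have b1 : IsSquare w := by
            have e : u * v * w = v * u * w := by ring
            rw [e] at hs
            exact sq_cancel (mul_ne_zero hv hu) a0 hs
          exact sq_cancel hw b1 b0
      · refine ⟨⟨t, by omega⟩, ⟨r - t - s, by omega⟩, ⟨s, by omega⟩⟩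
      · obtain ⟨-, a1⟩ := closeV hp2 hv huv (by rw [sub_sub_cancel]; exact hu)
            (by rw [sub_sub_cancel]; omega)
        refine ⟨⟨r - t - s, by omega⟩, ⟨t, by omega⟩, ⟨s, by omega⟩⟩

end Pool.Agent.N875.X15
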