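import Pool.Agent.N875.X15.AsmA
import Pool.Agent.N975.AllPC
import Pool.Agent.N575.P15.PCE

/-!
# The 2-part of the strong formula for the twists of `X_0(15)`: the relation for all classes
-/

set_option autoImplicit false

open Finset

namespace Pool.Agent.N875.X15

open Pool.Agent.N969.P15 (Cls0 Cls0e S_DIAG S_PAR S_DIAGE S_PARE cc un Fp chE Ev Qe)
open Pool.Agent.N973.P15 (Cl3 Cl3e Cl15 Cl15e Cl5 Cl5e FA)
open Pool.Agent.N974.MF (Symb15)
open Pool.Agent.N975.All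

theorem s_PCE : Pool.Agent.N969.P15.S_PCE := Pool.Agent.N575.P15.PCE.t_PCE

theorem s_PC5E : Pool.Agent.N973.P15.S_PC5E := Pool.Agent.N575.P15.PCE.t_PC5E

theorem sumB : Pool.Agent.N973.P15.S_SUMB :=
  Pool.Agent.N975.CHB.t_SUMB Pool.Agent.N973.P15.SB.t_SYMB

/-- `n = 3` -/
theorem qc3 : Pool.Agent.N969.P15.Qc 3 := by
  intro b c h _ _
  have h3 := Nat.prime_three
  rcases (Nat.dvd_prime h3).1 ⟨c, h.symm⟩ with h1 | h1
  · exact Or.inl h1
  · right
    subst h1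
    omega

theorem rel_odd {n : ℕ} (h : Ao n) : Rel n (fun u => jacobiSym u n) (Pool.Agent.N969.P15.Qc n) := by
  have hn : n ≠ 0 := h.1.ne_zero
  rcases ao_cases h with h' | h' | h' | h'
  · obtain ⟨h1, h2⟩ := id h'
    exact rel_0 hn (by omega) (by omega) (Pool.Agent.N975.T1.s_DIAG n h')
      (Pool.Agent.N871.P15.s_PAR n h')
  · obtain ⟨h1, h2, h3, h4⟩ := id h'
    refine rel_3 Pool.Agent.N973.P15.SA.t_SYMA hn h3 (by omega) (s_DIAG3 n h') ?_
    by_cases hn3 : n = 3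
    · subst hn3
      refine ⟨-3, ?_, ?_⟩
      · have h2 : cc ((3 : ℕ) : ℤ) = -6 := by exact_mod_cast cc3
        rw [h2, Nat.prime_three.primeFactors]
        rfl
      · exact ⟨fun _ => qc3, fun _ => by decide⟩
    · exact Pool.Agent.N218.P15.s_PARA3 n h' (by omega)
  · obtain ⟨h1, h2, h3, h4⟩ := id h'
    exact rel_15 Pool.Agent.N973.P15.SA.t_SYMA hn h3 h4 (s_DIAG15 n h')
      (Pool.Agent.N218.P15.s_PARA5 n (Or.inl h'))
  · obtain ⟨h1, h2, h3, h4⟩ := id h'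
    exact rel_5 hn (by omega) h4 (fun s a hs => (sumB s a hs).1 n h') (s_DIAG5 n h')
      (Pool.Agent.N218.P15.s_PARA5 n (Or.inr h'))

theorem rel_even {n : ℕ} (h : Ae n) : Rel n (fun u => chE n u) (Qe n) := by
  have hn : n ≠ 0 := by
    have := Pool.Agent.N975.ChE.ev_pos h.1
    omega
  rcases ae_cases h with h' | h' | h' | h'
  · obtain ⟨h1, h2, h3⟩ := id h'
    exact rel_0 hn (by omega) (by omega) (s_DIAGE s_PCE n h') (s_PARE n h')
  · obtain ⟨h1, h2, h3⟩ := id h'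
    exact rel_3 Pool.Agent.N973.P15.SA.t_SYMA hn h2 (by omega) (s_DIAG3E s_PCE n h')
      (Pool.Agent.N218.P15.s_PARA3E n h')
  · obtain ⟨h1, h2, h3⟩ := id h'
    exact rel_15 Pool.Agent.N973.P15.SA.t_SYMA hn h2 h3 (s_DIAG15E s_PC5E n h')
      (Pool.Agent.N218.P15.s_PARA5E n (Or.inl h'))
  · obtain ⟨h1, h2, h3⟩ := id h'
    exact rel_5 hn (by omega) h3 (fun s a hs => (sumB s a hs).2 n h') (s_DIAG5E s_PC5E n h')
      (Pool.Agent.N218.P15.s_PARA5E n (Or.inr h'))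

end Pool.Agent.N875.X15
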