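import Pool.Agent.N875.X15.Lf
import Pool.Agent.N875.X15.Sy
import Pool.Agent.N875.X15.Per
import Pool.Agent.N875.X15.Tors
import Pool.Agent.N875.X15.Short
import Pool.Agent.N975.SymFin
import Pool.Agent.N975.Lat15
import Pool.Agent.Y700.Fin

/-!
# The 2-part of the strong formula for the twists of `X_0(15)` by `-n`: assembly
-/

set_option autoImplicit false
set_option linter.style.haveILetI false

open Finset

namespace Pool.Agent.N875.X15

open Pool.Agent.N969.P15 (Cls0 S_DIAG S_PAR cc un Fp)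
open Pool.Agent.N974.MF (E15 S_LAT II Symb15)
open Pool.Agent.N975.Sym (SymbM)
open Pool.Agent.Y700 (IsL tam tamProd Omega psi)
open Pool.Agent.W97.MT (ap IsGloballyMinimal)
open Pool.Agent.Y687 (rr SS mem_rr)

/-! ### Tamagawa numbers -/

theorem pf_Δ {n : ℕ} (h4 : n % 4 = 3) :
    (WN (-(n : ℤ))).Δ.natAbs.primeFactors = insert 3 (insert 5 n.primeFactors) := by
  have hn0 : n ≠ 0 := by omega
  ext p
  rw [Nat.mem_primeFactors, Finset.mem_insert, Finset.mem_insert, Nat.mem_primeFactors]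
  have e : (WN (-(n : ℤ))).Δ ≠ 0 := by
    rw [WN_Δ (by omega)]
    exact mul_ne_zero (by norm_num) (pow_ne_zero _ (by omega))
  constructor
  · rintro ⟨hp, hd, -⟩
    rcases (dvd_Δ h4 hp).1 (Int.natCast_dvd.2 hd) with h | h
    · rw [show (15 : ℕ) = 3 * 5 by norm_num, hp.dvd_mul] at h
      rcases h with h | h
      · exact Or.inl ((Nat.prime_dvd_prime_iff_eq hp Nat.prime_three).1 h)
      · exact Or.inr (Or.inl ((Nat.prime_dvd_prime_iff_eq hp (by norm_num)).1 h))
    · exact Or.inr (Or.inr ⟨hp, h, hn0⟩)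
  · intro h
    have h' : p.Prime ∧ (p ∣ 15 ∨ p ∣ n) := by
      rcases h with rfl | rfl | ⟨hp, h, -⟩
      · exact ⟨Nat.prime_three, Or.inl (by norm_num)⟩
      · exact ⟨by norm_num, Or.inl (by norm_num)⟩
      · exact ⟨hp, Or.inr h⟩
    refine ⟨h'.1, Int.natCast_dvd.1 ((dvd_Δ h4 h'.1).2 h'.2), Int.natAbs_ne_zero.2 e⟩

/-- **The product of the Tamagawa numbers.** -/
theorem tam_prod {n : ℕ} (h : Cls0 n) : tamProd (WN (-(n : ℤ))) = 4 ^ (n.primeFactors.card + 1) := by
  obtain ⟨hs, h60⟩ := h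
  have h4 : n % 4 = 3 := by omega
  have m4 : (-(n : ℤ)) % 4 = 1 := by omega
  have hsm : Squarefree (-(n : ℤ)) := by
    intro x hx
    rw [dvd_neg] at hx
    exact Int.squarefree_natCast.2 hs x hx
  have h3 : ¬ 3 ∣ n := by omega
  have h5 : ¬ 5 ∣ n := by omega
  unfold tamProd
  rw [pf_Δ h4, Finset.prod_insert, Finset.prod_insert]
  · have e3 : (if h : Nat.Prime 3 then (haveI := Fact.mk h; tam (WN (-(n : ℤ))) 3) else 1) = 2 := by
      rw [dif_pos Nat.prime_three]
      exact tam_WN_three m4 (by omega)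
    have e5 : (if h : Nat.Prime 5 then (haveI := Fact.mk h; tam (WN (-(n : ℤ))) 5) else 1) = 2 := by
      have p5 : Nat.Prime 5 := by norm_num
      rw [dif_pos p5]
      haveI := Fact.mk p5
      exact tam_WN_five m4 (by omega)
    rw [e3, e5]
    have ep : ∀ p ∈ n.primeFactors,
        (if h : p.Prime then (haveI := Fact.mk h; tam (WN (-(n : ℤ))) p) else 1) = 4 := by
      intro p hp
      obtain ⟨h1, h2, -⟩ := Nat.mem_primeFactors.1 hp
      rw [dif_pos h1]
      haveI := Fact.mk h1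
      exact tam_WN_ram m4 hsm (by rw [dvd_neg]; exact_mod_cast h2)
    rw [Finset.prod_congr rfl ep, Finset.prod_const, pow_succ]
    ring
  · intro hh
    exact h5 (Nat.dvd_of_mem_primeFactors hh)
  · intro hh
    rcases Finset.mem_insert.1 hh with hh | hh
    · norm_num at hh
    · exact h3 (Nat.dvd_of_mem_primeFactors hh)

/-! ### The real period -/

theorem omega_eq (W : WeierstrassCurve ℤ) : Omega W = 2 * ∫ x in {x : ℝ |
    0 < Pool.Agent.Y702.G.cubic W x}, 1 / √(Pool.Agent.Y702.G.cubic W x) := by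
  unfold Omega
  rw [← MeasureTheory.integral_const_mul]
  show ∫ x in {x : ℝ | 0 < psi W x}, 2 / √(psi W x) = ∫ x in {x : ℝ | 0 < psi W x},
    2 * (1 / √(psi W x))
  congr 1
  funext x
  rw [mul_one_div]

/-! ### The value -/

theorem un_eq (n : ℕ) : un n = rr n := rfl

/-- the structure used for the comparison with the counting function -/
theorem symbM {s : ℚ → ℤ} (h : Symb15 s (fun q => ap E15 q)) : SymbM s := by
  refine ⟨h.per, h.neg, ?_, ?_⟩
  · intro x
    have h1 := h.hecke 2 Nat.prime_two (by norm_num) x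
    have h2 := h.a2
    rw [Finset.sum_range_succ, Finset.sum_range_succ, Finset.sum_range_zero] at h1
    rw [h2] at h1
    push_cast at h1
    rw [zero_add, add_zero] at h1
    linarith
  · intro A B C D hdet x c hco
    obtain ⟨u, v, huv⟩ := hco
    have hc : c ≠ 0 := by
      rintro rfl
      have : (15 : ℤ) ∣ 1 := ⟨u * x, by linarith⟩
      norm_num at this
    refine h.aff' hdet hc ?_
    intro hK
    have e1 : c = 15 * (-C * (A * x + B * c)) := by
      linear_combination (-c) * hdet + A * hK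
    have : (15 : ℤ) ∣ 1 := ⟨u * x + v * (-C * (A * x + B * c)), by
      rw [← huv]
      linear_combination v * e1⟩
    norm_num at this

lemma odd_val {z : ℤ} (h : Odd z) : padicValRat 2 (z : ℚ) = 0 := by
  rw [padicValRat.of_int]
  have : padicValInt 2 z = 0 := by
    refine padicValInt.eq_zero_of_not_dvd ?_
    intro hd
    have h5 := Int.odd_iff.1 h
    omega
  rw [this]
  rfl

/-- the form of the theorem -/
theorem strong (hD : S_DIAG) (hP : S_PAR) {n : ℕ} (h : Cls0 n) :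
    IsGloballyMinimal (WN (-(n : ℤ))) ∧ 0 < Omega (WN (-(n : ℤ))) ∧
    ∃ (f : ℂ → ℂ) (w : ℚ) (y : ℤ), IsL (WN (-(n : ℤ))) f ∧ w ≠ 0 ∧ padicValRat 2 w = 0 ∧
      (Odd y ↔ Pool.Agent.N969.P15.Qc n) ∧
      f 1 = (((w : ℝ) * (y : ℝ) ^ 2 * (Omega (WN (-(n : ℤ))) * tamProd (WN (-(n : ℤ))) /
        (Nat.card (AddCommGroup.torsion (WNQ (-(n : ℤ))).toAffine.Point) : ℝ) ^ 2) : ℝ) : ℂ) := by
  obtain ⟨hs, h60⟩ := id h
  have h4 : n % 4 = 3 := by omega
  have m4 : (-(n : ℤ)) % 4 = 1 := by omega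
  have hsm : Squarefree (-(n : ℤ)) := by
    intro x hx
    rw [dvd_neg] at hx
    exact Int.squarefree_natCast.2 hs x hx
  have hn0 : (0 : ℝ) < n := by exact_mod_cast (by omega : 0 < n)
  have hsn : (0 : ℝ) < √(n : ℝ) := Real.sqrt_pos.2 hn0
  have h15 : Nat.Coprime n 15 := (Pool.Agent.N975.Sym.cls0_cop h).symm
  have hlat : S_LAT := Pool.Agent.N975.Lat15.s_lat
  obtain ⟨L, Op, Om, hOp, hOm, g2, g3, hL⟩ := id hlat
  obtain ⟨sp, sm, hsy, hneg, hper, hsym⟩ := Sy.exists_symbL L Op Om hOp hOm g2 g3 hL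
  have hΩ : Omega (WN (-(n : ℤ))) = 2 * Om / √n := by
    rw [omega_eq, per_WN L Op Om hOp hOm g2 g3 hL n h4]
    ring
  obtain ⟨f, ε, hf, hε, hval⟩ := value15 hlat hsy hneg hper hs h4 h15
  refine ⟨min_WN m4 hsm, by rw [hΩ]; positivity, ?_⟩
  obtain ⟨y, hy, hyQ⟩ := hP n h
  obtain ⟨t, ht, htor⟩ := tors_WN m4 (by omega) (by
    have e : (-(((-(n : ℤ)) : ℤ) : ℚ)) = ((n : ℤ) : ℚ) := by push_cast; ring
    rw [e, Rat.isSquare_intCast_iff]
    rintro ⟨r, hr⟩
    have h7 : (n : ℤ) % 4 = 3 := by omega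
    rw [hr] at h7
    have h8 : r % 4 = 0 ∨ r % 4 = 1 ∨ r % 4 = 2 ∨ r % 4 = 3 := by omega
    rcases h8 with h8 | h8 | h8 | h8 <;> rw [Int.mul_emod, h8] at h7 <;> norm_num at h7)
  -- the symbol
  have hM : SymbM sm := symbM hsym
  have h12 : sm (1 / 4) = 2 * sm (1 / 3) := hsym.s14
  have hodd : Odd (sm (1 / 3)) := by
    refine hsym.odd3 _ ?_ ?_
    · norm_num
    · norm_num
  have hsum : 18 * SS sm n n = sm (1 / 4) * cc n ^ 2 := Pool.Agent.N975.Sym.sum_symb_eq hD hM h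
  have hTam := tam_prod h
  have : Fact (Nat.Prime 2) := ⟨Nat.prime_two⟩
  have hεo : Odd ε := by rcases hε with rfl | rfl <;> decide
  have hzo : Odd (ε * sm (1 / 3) * (t : ℤ) ^ 2) :=
    (hεo.mul hodd).mul ((Int.odd_coe_nat t).2 ht).pow
  have hz0 : ε * sm (1 / 3) * (t : ℤ) ^ 2 ≠ 0 := by
    intro h0
    rw [h0] at hzo
    exact absurd hzo (by decide)
  have ht0 : (t : ℝ) ≠ 0 := by
    have : t ≠ 0 := by rintro rfl; exact absurd ht (by decide)
    exact_mod_cast this
  refine ⟨f, ((ε * sm (1 / 3) * (t : ℤ) ^ 2 : ℤ) : ℚ) / ((9 : ℤ) : ℚ), y, hf, ?_, ?_, hyQ, ?_⟩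
  · exact div_ne_zero (by exact_mod_cast hz0) (by norm_num)
  · rw [padicValRat.div (by exact_mod_cast hz0) (by norm_num), odd_val hzo, odd_val (by decide)]
    rfl
  · have h9 : (9 : ℝ) * (SS sm n n : ℝ) = (sm (1 / 3) : ℝ) * ((cc n : ℤ) : ℝ) ^ 2 := by
      have e : 9 * SS sm n n = sm (1 / 3) * cc n ^ 2 := by
        rw [h12] at hsum
        have e2 : 2 * (9 * SS sm n n) = 2 * (sm (1 / 3) * cc n ^ 2) := by linarith
        linarith
      exact_mod_cast e
    rw [hval, hΩ, hTam, htor]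
    congr 1
    rw [hy] at h9
    push_cast at h9 ⊢
    have e4 : ((4 : ℝ)) ^ (n.primeFactors.card + 1) = 4 * (2 ^ n.primeFactors.card) ^ 2 := by
      rw [pow_succ, ← pow_mul, mul_comm (n.primeFactors.card) 2, pow_mul]
      norm_num
      ring
    rw [e4]
    field_simp
    linear_combination 4 * (ε : ℝ) * h9

end Pool.Agent.N875.X15
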