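import Pool.Agent.N875.X15.ApE
import Pool.Agent.N875.X15.Asm
import Pool.Agent.N875.X15.Conv3
import Pool.Agent.N875.X15.ClE
import Pool.Agent.N975.All
import Pool.Agent.N975.CHB

/-!
# The 2-part of the strong formula for the twists of `X_0(15)` by all negative discriminants: assembly
-/

set_option autoImplicit false
set_option linter.style.haveILetI false

open Finset

namespace Pool.Agent.N875.X15

open Pool.Agent.N969.P15 (Cls0 Cls0e S_DIAG S_PAR S_DIAGE S_PARE cc un Fp chE Ev Qe)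
open Pool.Agent.N973.P15 (Cl3 Cl3e Cl15 Cl15e Cl5 Cl5e FA S_SYMA S_SYMB S_DIAG3 S_DIAG3E S_DIAG15
  S_DIAG15E S_DIAG5 S_DIAG5E S_PARA3 S_PARA3E S_PARA5 S_PARA5E)
open Pool.Agent.N974.MF (E15 S_LAT II Symb15)
open Pool.Agent.N975.T1 (symbM_of)
open Pool.Agent.Y700 (IsL tam tamProd Omega psi)
open Pool.Agent.W97.MT (ap IsGloballyMinimal)
open Pool.Agent.Y687 (rr mem_rr)

/-- the central value in terms of the symbol -/
def Rel (n : ℕ) (w : ℕ → ℤ) (Q : Prop) : Prop := ∃ y : ℤ, (Odd y ↔ Q) ∧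
  ∀ (s : ℚ → ℤ) (a : ℕ → ℤ), Symb15 s a → 36 * ∑ u ∈ un n, w u * s ((u : ℚ) / n) =
    s (1 / 3) * ((4 ^ n.primeFactors.card * (t2 3 n * t2 5 n) : ℕ) : ℤ) * y ^ 2

lemma pow4 (k : ℕ) (y : ℤ) : (2 ^ k * y) ^ 2 = 4 ^ k * y ^ 2 := by
  rw [mul_pow, ← pow_mul, mul_comm k 2, pow_mul]
  norm_num

lemma pow4' {k : ℕ} (hk : 0 < k) (y : ℤ) : 4 * (2 ^ (k - 1) * y) ^ 2 = 4 ^ k * y ^ 2 := by
  obtain ⟨j, rfl⟩ : ∃ j, k = j + 1 := ⟨k - 1, by omega⟩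
  rw [Nat.add_sub_cancel, pow4, pow_succ]
  ring

lemma card_pos {n p : ℕ} (hn : n ≠ 0) (hp : p.Prime) (h : p ∣ n) : 0 < n.primeFactors.card :=
  Finset.card_pos.2 ⟨p, Nat.mem_primeFactors.2 ⟨hp, h, hn⟩⟩

/-- `15` prime to `n` -/
theorem rel_0 {n : ℕ} (hn : n ≠ 0) (h3 : ¬ 3 ∣ n) (h5 : ¬ 5 ∣ n) {w : ℕ → ℤ} {Q : Prop}
    (hD : 18 * ∑ u ∈ un n, w u * Fp u n = cc n ^ 2)
    (hP : ∃ y : ℤ, cc n = 2 ^ n.primeFactors.card * y ∧ (Odd y ↔ Q)) : Rel n w Q := by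
  obtain ⟨y, hy, hQ⟩ := hP
  refine ⟨y, hQ, fun s a h => ?_⟩
  have h15 : Nat.Coprime 15 n := by
    rw [show (15 : ℕ) = 3 * 5 by norm_num]
    refine Nat.Coprime.mul_left ?_ ?_
    · exact (Nat.Prime.coprime_iff_not_dvd Nat.prime_three).2 h3
    · exact (Nat.Prime.coprime_iff_not_dvd (by norm_num)).2 h5
  rw [Pool.Agent.N975.T2.sum_symb (symbM_of h) hn h15 w, h.s14]
  rw [hy, pow4] at hD
  unfold t2
  rw [if_neg h3, if_neg h5]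
  push_cast
  linear_combination 4 * s (1 / 3) * hD

/-- `3 ∣ n`, `5` prime to `n` -/
theorem rel_3 (hS : S_SYMA) {n : ℕ} (hn : n ≠ 0) (h3 : 3 ∣ n) (h5 : ¬ 5 ∣ n) {w : ℕ → ℤ} {Q : Prop}
    (hD : 18 * ∑ u ∈ un n, w u * FA u n = -cc n ^ 2)
    (hP : ∃ y : ℤ, cc n = 2 ^ n.primeFactors.card * y ∧ (Odd y ↔ Q)) : Rel n w Q := by
  obtain ⟨y, hy, hQ⟩ := hP
  refine ⟨y, hQ, fun s a h => ?_⟩
  rw [Pool.Agent.N975.T3.sum_symbA hS h hn h3 w]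
  rw [hy, pow4] at hD
  unfold t2
  rw [if_pos h3, if_neg h5]
  push_cast
  linear_combination -2 * s (1 / 3) * hD

/-- `15 ∣ n` -/
theorem rel_15 (hS : S_SYMA) {n : ℕ} (hn : n ≠ 0) (h3 : 3 ∣ n) (h5 : 5 ∣ n) {w : ℕ → ℤ} {Q : Prop}
    (hD : 9 * ∑ u ∈ un n, w u * FA u n = -cc n ^ 2)
    (hP : ∃ y : ℤ, cc n = 2 ^ (n.primeFactors.card - 1) * y ∧ (Odd y ↔ Q)) : Rel n w Q := by
  obtain ⟨y, hy, hQ⟩ := hP
  refine ⟨y, hQ, fun s a h => ?_⟩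
  rw [Pool.Agent.N975.T3.sum_symbA hS h hn h3 w]
  have h6 := pow4' (card_pos hn Nat.prime_three h3) y
  rw [← hy] at h6
  unfold t2
  rw [if_pos h3, if_pos h5]
  push_cast
  linear_combination (-4) * s (1 / 3) * hD + s (1 / 3) * h6

/-- `5 ∣ n`, `3` prime to `n` -/
theorem rel_5 {n : ℕ} (hn : n ≠ 0) (h3 : ¬ 3 ∣ n) (h5 : 5 ∣ n) {w : ℕ → ℤ} {Q : Prop}
    (hS : ∀ (s : ℚ → ℤ) (a : ℕ → ℤ), Symb15 s a → ∑ u ∈ un n, w u * s ((u : ℚ) / n) =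
      -s (1 / 3) * ∑ u ∈ un n, w u * FA u n)
    (hD : 9 * ∑ u ∈ un n, w u * FA u n = -(2 * cc n ^ 2))
    (hP : ∃ y : ℤ, cc n = 2 ^ (n.primeFactors.card - 1) * y ∧ (Odd y ↔ Q)) : Rel n w Q := by
  obtain ⟨y, hy, hQ⟩ := hP
  refine ⟨y, hQ, fun s a h => ?_⟩
  rw [hS s a h]
  have h6 := pow4' (card_pos hn (by norm_num) h5) y
  rw [← hy] at h6
  unfold t2
  rw [if_neg h3, if_pos h5]
  push_cast
  linear_combination (-4) * s (1 / 3) * hD + 2 * s (1 / 3) * h6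

/-- **the assembly** -/
theorem core {n : ℕ} [NeZero n] (hn1 : 1 < n) (W : WeierstrassCurve ℤ)
    (h4 : W.c₄ = 481 * (n : ℤ) ^ 2) (h6 : W.c₆ = -(4879 * (n : ℤ) ^ 3))
    (χ : DirichletCharacter ℂ n) (hχ : χ.IsPrimitive) (hinv : χ⁻¹ = χ) (hodd : χ (-1) = -1)
    (w : ℕ → ℤ) (hw : ∀ u : ℕ, χ (u : ZMod n) = (w u : ℂ))
    (hv : ∀ p : ℕ, p.Prime → w p = 0 ∨ w p = 1 ∨ w p = -1)
    (ha : ∀ p : ℕ, p.Prime → ap W p = ap E15 p * w p)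
    (hΔ : ∀ p : ℕ, p.Prime → ((p : ℤ) ∣ W.Δ ↔ p ∣ 15 ∨ w p = 0))
    (hT : tamProd W = 4 ^ n.primeFactors.card * (t2 3 n * t2 5 n))
    (htor : ∃ t : ℕ, Odd t ∧
      Nat.card (AddCommGroup.torsion (W.map (Int.castRingHom ℚ)).toAffine.Point) = 4 * t)
    {Q : Prop} (hR : Rel n w Q) :
    0 < Omega W ∧
    ∃ (f : ℂ → ℂ) (v : ℚ) (y : ℤ), IsL W f ∧ v ≠ 0 ∧ padicValRat 2 v = 0 ∧ (Odd y ↔ Q) ∧
      f 1 = (((v : ℝ) * (y : ℝ) ^ 2 * (Omega W * tamProd W /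
        (Nat.card (AddCommGroup.torsion (W.map (Int.castRingHom ℚ)).toAffine.Point) : ℝ) ^ 2) : ℝ) :
          ℂ) := by
  have hn0 : (0 : ℝ) < n := by exact_mod_cast (by omega : 0 < n)
  have hsn : (0 : ℝ) < √(n : ℝ) := Real.sqrt_pos.2 hn0
  have hlat : S_LAT := Pool.Agent.N975.Lat15.s_lat
  obtain ⟨L, Op, Om, hOp, hOm, g2, g3, hL⟩ := id hlat
  obtain ⟨sp, sm, hsy, hneg, hper, hsym⟩ := Sy.exists_symbL L Op Om hOp hOm g2 g3 hL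
  have hΩ : Omega W = 2 * Om / √n := by
    rw [omega_eq, per_neg L Op Om hOp hOm g2 g3 hL n (by omega) W h4 h6]
    ring
  obtain ⟨f, ε, hf, hε, hval⟩ := valueG hlat hsy hneg hper W hn1 χ hχ hinv hodd w hw hv ha hΔ
  refine ⟨by rw [hΩ]; positivity, ?_⟩
  obtain ⟨y, hyQ, hrel⟩ := hR
  obtain ⟨t, ht, htor⟩ := htor
  have hr := hrel sm _ hsym
  have hodd3 : Odd (sm (1 / 3)) := by
    refine hsym.odd3 _ ?_ ?_
    · norm_num
    · norm_num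
  have : Fact (Nat.Prime 2) := ⟨Nat.prime_two⟩
  have hεo : Odd ε := by rcases hε with rfl | rfl <;> decide
  have hzo : Odd (ε * sm (1 / 3) * (t : ℤ) ^ 2) :=
    (hεo.mul hodd3).mul ((Int.odd_coe_nat t).2 ht).pow
  have hz0 : ε * sm (1 / 3) * (t : ℤ) ^ 2 ≠ 0 := by
    intro h0
    rw [h0] at hzo
    exact absurd hzo (by decide)
  have ht0 : (t : ℝ) ≠ 0 := by
    have : t ≠ 0 := by rintro rfl; exact absurd ht (by decide)
    exact_mod_cast this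
  refine ⟨f, ((ε * sm (1 / 3) * (t : ℤ) ^ 2 : ℤ) : ℚ) / ((9 : ℤ) : ℚ), y, hf, ?_, ?_, hyQ, ?_⟩
  · exact div_ne_zero (by exact_mod_cast hz0) (by norm_num)
  · rw [padicValRat.div (by exact_mod_cast hz0) (by norm_num), odd_val hzo, odd_val (by decide)]
    rfl
  · rw [hval, hΩ, htor, hT]
    have hr' : (36 : ℝ) * ((∑ u ∈ un n, w u * sm ((u : ℚ) / n) : ℤ) : ℝ) =
        (sm (1 / 3) : ℝ) * ((4 ^ n.primeFactors.card * (t2 3 n * t2 5 n) : ℕ) : ℝ) * (y : ℝ) ^ 2 := by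
      exact_mod_cast hr
    set S : ℝ := ((∑ u ∈ un n, w u * sm ((u : ℚ) / n) : ℤ) : ℝ) with hS
    set T : ℝ := ((4 ^ n.primeFactors.card * (t2 3 n * t2 5 n) : ℕ) : ℝ) with hTd
    congr 1
    have hS' : S = (sm (1 / 3) : ℝ) * T * (y : ℝ) ^ 2 / 36 := by linarith
    rw [hS']
    push_cast
    field_simp
    ring

/-- **Odd discriminants.** -/
theorem strongO {n : ℕ} (h : Ao n) {Q : Prop} (hR : Rel n (fun u => jacobiSym u n) Q) :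
    IsGloballyMinimal (WN (-(n : ℤ))) ∧
    tamProd (WN (-(n : ℤ))) = 4 ^ n.primeFactors.card * (t2 3 n * t2 5 n) ∧
    (∃ t : ℕ, Odd t ∧ Nat.card (AddCommGroup.torsion (WNQ (-(n : ℤ))).toAffine.Point) = 4 * t) ∧
    0 < Omega (WN (-(n : ℤ))) ∧
    ∃ (f : ℂ → ℂ) (v : ℚ) (y : ℤ), IsL (WN (-(n : ℤ))) f ∧ v ≠ 0 ∧ padicValRat 2 v = 0 ∧
      (Odd y ↔ Q) ∧
      f 1 = (((v : ℝ) * (y : ℝ) ^ 2 * (Omega (WN (-(n : ℤ))) * tamProd (WN (-(n : ℤ))) /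
        (Nat.card (AddCommGroup.torsion (WNQ (-(n : ℤ))).toAffine.Point) : ℝ) ^ 2) : ℝ) : ℂ) := by
  classical
  have hcl := cls_ao h
  obtain ⟨hs, h4, h3, h5⟩ := id h
  have m4 : (-(n : ℤ)) % 4 = 1 := by omega
  haveI : NeZero n := ⟨by omega⟩
  have hodd : Odd n := Nat.odd_iff.2 (by omega)
  set d : Pool.Agent.H491R3.J.OS := ⟨n, hodd, hs, by omega⟩ with hd
  have hchi : ∀ m : ℕ, H491R3.J.chi d (m : ZMod n) = ((jacobiSym (m : ℤ) n : ℤ) : ℂ) :=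
    H491R3.J.chi_natCast d
  have hns : ¬ IsSquare (-(((-(n : ℤ)) : ℤ) : ℚ)) := by
    have e : (-(((-(n : ℤ)) : ℤ) : ℚ)) = ((n : ℤ) : ℚ) := by push_cast; ring
    rw [e, Rat.isSquare_intCast_iff]
    rintro ⟨r, hr⟩
    have h7 : (n : ℤ) % 4 = 3 := by omega
    rw [hr] at h7
    have h8 : r % 4 = 0 ∨ r % 4 = 1 ∨ r % 4 = 2 ∨ r % 4 = 3 := by omega
    rcases h8 with h8 | h8 | h8 | h8 <;> rw [Int.mul_emod, h8] at h7 <;> norm_num at h7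
  have htor := tors_WN m4 hcl.neg hns
  refine ⟨min_WN m4 hcl.sqf, tamProd_N h, htor, ?_⟩
  have jz : ∀ p : ℕ, p.Prime → (jacobiSym (p : ℤ) n = 0 ↔ p ∣ n) := by
    intro p hp
    rw [jacobiSym.eq_zero_iff_not_coprime, Int.gcd_natCast_natCast]
    have h9 : Nat.gcd p n = 1 ↔ ¬ p ∣ n := Nat.Prime.coprime_iff_not_dvd hp
    rw [ne_eq, h9, not_not]
  refine core (by omega) (WN (-(n : ℤ))) ?_ ?_ (H491R3.J.chi d) (H491R3.J.chi_primitive d)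
    (H491R3.J.chi_inv d) ?_ (fun u => jacobiSym u n) hchi ?_ ?_ ?_ (tamProd_N h) htor hR
  · rw [c4_WN m4]; ring
  · rw [c6_WN m4]; ring
  · have h9 := H491R3.J.chi_neg_one d
    have h10 : ¬ (d.1 % 4 = 1) := by
      change ¬ (n % 4 = 1)
      omega
    rw [h9, if_neg h10]
  · intro p hp
    by_cases hpn : p ∣ n
    · exact Or.inl ((jz p hp).2 hpn)
    · right
      refine jacobiSym.eq_one_or_neg_one ?_
      rw [Int.gcd_natCast_natCast]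
      exact (Nat.Prime.coprime_iff_not_dvd hp).2 hpn
  · intro p hp
    exact ap_WN h4 p hp
  · intro p hp
    rw [dvd_Δ h4 hp, jz p hp]

open Pool.Agent.N975.ChE in
/-- **Even discriminants.** -/
theorem strongE {n : ℕ} (h : Ae n) {Q : Prop} (hR : Rel n (fun u => chE n u) Q) :
    IsGloballyMinimal (Em (-((n / 4 : ℕ) : ℤ))) ∧
    tamProd (Em (-((n / 4 : ℕ) : ℤ))) = 4 ^ n.primeFactors.card * (t2 3 n * t2 5 n) ∧
    (∃ t : ℕ, Odd t ∧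
      Nat.card (AddCommGroup.torsion (EQm (-((n / 4 : ℕ) : ℤ))).toAffine.Point) = 4 * t) ∧
    0 < Omega (Em (-((n / 4 : ℕ) : ℤ))) ∧
    ∃ (f : ℂ → ℂ) (v : ℚ) (y : ℤ), IsL (Em (-((n / 4 : ℕ) : ℤ))) f ∧ v ≠ 0 ∧
      padicValRat 2 v = 0 ∧ (Odd y ↔ Q) ∧
      f 1 = (((v : ℝ) * (y : ℝ) ^ 2 * (Omega (Em (-((n / 4 : ℕ) : ℤ))) *
        tamProd (Em (-((n / 4 : ℕ) : ℤ))) /
        (Nat.card (AddCommGroup.torsion (EQm (-((n / 4 : ℕ) : ℤ))).toAffine.Point) : ℝ) ^ 2) : ℝ) :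
          ℂ) := by
  classical
  have hcl := cls_ae h
  obtain ⟨hE, h3, h5⟩ := id h
  have hm := ev_mod hE
  obtain ⟨m, hnm⟩ : ∃ m, n = 4 * m := ⟨n / 4, by omega⟩
  have e4 : n / 4 = m := by omega
  haveI : NeZero n := ⟨by omega⟩
  have m4 : (-((n / 4 : ℕ) : ℤ)) % 4 ≠ 1 := by
    obtain ⟨k, hk, hs, h4⟩ := hE
    have : k = m := by omega
    subst this
    rw [e4]
    omega
  have hns : ¬ IsSquare (-(((-((n / 4 : ℕ) : ℤ)) : ℤ) : ℚ)) := by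
    intro hsq
    have h1 : IsSquare (((1 : ℕ) : ℚ) * ((n / 4 : ℕ) : ℚ)) := by
      have e9 : (-(((-((n / 4 : ℕ) : ℤ)) : ℤ) : ℚ)) = ((1 : ℕ) : ℚ) * ((n / 4 : ℕ) : ℚ) := by
        rw [Int.cast_neg, neg_neg, Int.cast_natCast, Nat.cast_one, one_mul]
      rwa [e9] at hsq
    have hsM : Squarefree (n / 4) := by
      rw [← Int.squarefree_natCast]
      intro x hx
      exact hcl.sqf x (by rwa [dvd_neg])
    have h2 := eq_of_sq_mul squarefree_one hsM h1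
    have := hcl.m3
    rw [← h2] at this
    norm_num at this
  have htor := tors_Em hcl.neg hns
  refine ⟨min_Em m4 hcl.sqf, tamProd_E h, htor, ?_⟩
  have jz : ∀ p : ℕ, p.Prime → (chE n p = 0 ↔ p ∣ n) := by
    intro p hp
    constructor
    · intro h0
      by_contra hcon
      rcases chE_pm hm ((Nat.Prime.coprime_iff_not_dvd hp).2 hcon) with h | h <;>
        rw [h] at h0 <;> norm_num at h0
    · intro h0
      exact chE_zero hm fun h => hp.one_lt.ne' (Nat.eq_one_of_dvd_coprimes h dvd_rfl h0)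
  refine core (by omega) (Em (-((n / 4 : ℕ) : ℤ))) ?_ ?_ (chi n hm) (chi_primitive hE)
    (chi_inv n hm) ?_ (fun u => chE n u) (chi_nat n hm) ?_ ?_ ?_ (tamProd_E h) htor hR
  · rw [c4_Em, e4, hnm]; push_cast; ring
  · rw [c6_Em, e4, hnm]; push_cast; ring
  · have h1 : ((n - 1 : ℕ) : ZMod n) = -1 := by
      rw [Nat.cast_sub (by omega), ZMod.natCast_self, Nat.cast_one, zero_sub]
    have h2 : chE n ((n - 1 : ℕ) : ℤ) = -1 := by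
      rw [chE_mod hm (u := ((n - 1 : ℕ) : ℤ)) (v := -1) ⟨1, by omega⟩]
      exact Pool.Agent.N975.CHB.chE_neg_one hE
    rw [← h1, chi_nat n hm, h2]
    norm_num
  · intro p hp
    by_cases hpn : p ∣ n
    · exact Or.inl ((jz p hp).2 hpn)
    · exact Or.inr (chE_pm hm ((Nat.Prime.coprime_iff_not_dvd hp).2 hpn))
  · intro p hp
    exact ap_E hE p hp
  · intro p hp
    rw [jz p hp, Em_Δ, e4]
    have e : ((2 : ℤ) ^ 12 * 3 ^ 4 * 5 ^ 4 * (-(m : ℤ)) ^ 6) =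
        ((15 ^ 4 * (2 ^ 12 * m ^ 6) : ℕ) : ℤ) := by
      push_cast; ring
    rw [e, Int.natCast_dvd_natCast, hp.dvd_mul, hp.dvd_mul, hnm, hp.dvd_mul]
    have k4 : p ∣ 4 ↔ p ∣ 2 ^ 12 := by
      rw [show (4 : ℕ) = 2 ^ 2 by norm_num]
      constructor
      · intro h; exact dvd_pow (hp.dvd_of_dvd_pow h) (by norm_num)
      · intro h; exact dvd_pow (hp.dvd_of_dvd_pow h) (by norm_num)
    have km : p ∣ m ^ 6 ↔ p ∣ m := ⟨fun h => hp.dvd_of_dvd_pow h, fun h => dvd_pow h (by norm_num)⟩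
    have k15 : p ∣ 15 ^ 4 ↔ p ∣ 15 :=
      ⟨fun h => hp.dvd_of_dvd_pow h, fun h => dvd_pow h (by norm_num)⟩
    rw [k4, km, k15]

end Pool.Agent.N875.X15
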