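import Pool.Agent.N875.X15.All

/-!
# The converse for `m ≢ 1 mod 4`: the condition at 2 by reciprocity
-/

set_option autoImplicit false

namespace Pool.Agent.N875.X15

open Pool.Agent.Z702 (LocI)
open Pool.Agent.TH841.SH.D (Sha)

lemma jac_one {a : ℤ} {b : ℕ} (h : ∀ p : ℕ, p.Prime → p ∣ b → jacobiSym a p = 1) :
    jacobiSym a b = 1 := by
  induction b using Nat.recOnMul with
  | zero => exact jacobiSym.zero_right a
  | one => exact jacobiSym.one_right a
  | prime p hp => exact h p hp dvd_rfl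
  | mul x y hx hy =>
    by_cases hx0 : x = 0
    · rw [hx0, zero_mul]; exact jacobiSym.zero_right a
    by_cases hy0 : y = 0
    · rw [hy0, mul_zero]; exact jacobiSym.zero_right a
    have : NeZero x := ⟨hx0⟩
    have : NeZero y := ⟨hy0⟩
    rw [jacobiSym.mul_right, hx fun p hp hd => h p hp (hd.mul_right y),
      hy fun p hp hd => h p hp (hd.mul_left x), one_mul]

section

variable {p : ℕ} [hp : Fact p.Prime]

lemma jac_ndvd {d M : ℕ} (hd : ¬ p ∣ d) (hM : Squarefree M) (hpM : p ∣ M)
    (h : IsSquare (d : ℚ_[p]) ∨ IsSquare ((d : ℚ_[p]) * M)) : jacobiSym d p = 1 := by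
  have hpd : ¬ (p : ℤ) ∣ (d : ℤ) := fun h1 => hd (by exact_mod_cast h1)
  have hd0 : ((d : ℕ) : ℚ_[p]) ≠ 0 := by
    have : d ≠ 0 := by rintro rfl; exact hd (dvd_zero _)
    exact_mod_cast this
  rcases h with h | h
  · exact jac_of_sq hpd (by exact_mod_cast h)
  · exfalso
    have hM0 : ((M : ℕ) : ℚ_[p]) ≠ 0 := by exact_mod_cast hM.ne_zero
    have h2 := even_val (mul_ne_zero hd0 hM0) h
    have h3 := val_zero (p := p) hpd
    have h4 := val_one (p := p) (n := (M : ℤ)) (by exact_mod_cast hpM)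
      (Int.squarefree_natCast.2 hM)
    push_cast at h3 h4
    rw [Padic.valuation_mul hd0 hM0, h3, h4] at h2
    exact absurd h2 (by decide)

lemma jac_dvd {d M e c : ℕ} (hd : Squarefree d) (hpd : p ∣ d) (he : e ≠ 0)
    (hc : ¬ p ∣ c) (hdM : d * M = e * e * c)
    (h : IsSquare (d : ℚ_[p]) ∨ IsSquare ((d : ℚ_[p]) * M)) : jacobiSym c p = 1 := by
  have hpc : ¬ (p : ℤ) ∣ (c : ℤ) := fun h1 => hc (by exact_mod_cast h1)
  rcases h with h | h
  · refine absurd ?_ (not_sq (p := p) (Int.squarefree_natCast.2 hd) (by exact_mod_cast hpd))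
    exact_mod_cast h
  · refine jac_of_sq hpc ?_
    have he0 : ((e : ℕ) : ℚ_[p]) ≠ 0 := by exact_mod_cast he
    have e1 : (d : ℚ_[p]) * M = (e * e) * ((c : ℤ) : ℚ_[p]) := by
      have := congrArg (Nat.cast : ℕ → ℚ_[p]) hdM
      push_cast at this ⊢
      exact this
    rw [e1] at h
    exact sq_cancel (mul_ne_zero he0 he0) (IsSquare.mul_self _) h

end

lemma jac2 {b : ℕ} (hb : b % 2 = 1) :
    (jacobiSym 2 b = 1 ∧ (b % 8 = 1 ∨ b % 8 = 7)) ∨ (jacobiSym 2 b = -1 ∧ (b % 8 = 3 ∨ b % 8 = 5)) := by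
  rw [jacobiSym.at_two (Nat.odd_iff.2 hb), ZMod.χ₈_nat_eq_if_mod_eight]
  rw [if_neg (by omega)]
  by_cases h : b % 8 = 1 ∨ b % 8 = 7
  · rw [if_pos h]
    exact Or.inl ⟨rfl, h⟩
  · rw [if_neg h]
    exact Or.inr ⟨rfl, by omega⟩

lemma jrec {a b : ℕ} (ha : a % 2 = 1) (hb : b % 2 = 1) :
    ((a % 4 = 1 ∨ b % 4 = 1) ∧ jacobiSym a b = jacobiSym b a) ∨
    (a % 4 = 3 ∧ b % 4 = 3 ∧ jacobiSym a b = - jacobiSym b a) := by
  by_cases h1 : a % 4 = 1
  · exact Or.inl ⟨Or.inl h1, jacobiSym.quadratic_reciprocity_one_mod_four h1 (Nat.odd_iff.2 hb)⟩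
  · by_cases h2 : b % 4 = 1
    · exact Or.inl ⟨Or.inr h2,
        (jacobiSym.quadratic_reciprocity_one_mod_four h2 (Nat.odd_iff.2 ha)).symm⟩
    · exact Or.inr ⟨by omega, by omega,
        jacobiSym.quadratic_reciprocity_three_mod_four (by omega) (by omega)⟩

/-- **The condition at 2.** -/
theorem at_two {M d : ℕ} (hM : Squarefree M) (h4 : M % 4 ≠ 3) (hd : Squarefree d)
    (hsup : ∀ p : ℕ, p.Prime → p ≠ 2 → p ∣ d → p ∣ M)
    (hloc : ∀ (p : ℕ) [Fact p.Prime], p ≠ 2 → p ∣ M →
      IsSquare (d : ℚ_[p]) ∨ IsSquare ((d : ℚ_[p]) * M)) :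
    (M % 2 = 0 ∧ (d * (1 + M)) % 8 = 1) ∨
    (d % 8 = 1) ∨ (M % 2 = 1 ∧ (d * 5) % 8 = 1) ∨
    (∃ k : ℕ, d * M = 4 * k ∧ (k % 8 = 1 ∨ k * (1 + M) % 8 = 1) ∧ M % 2 = 0) ∨
    (∃ k : ℕ, d = 2 * k ∧ M % 2 = 1 ∧ (k * ((1 + M) / 2)) % 4 = 1) := by
  have hdz := hd.ne_zero
  have hMz := hM.ne_zero
  -- divisibility
  have dvdM : ∀ e : ℕ, e % 2 = 1 → Squarefree e → (∀ p : ℕ, p.Prime → p ∣ e → p ∣ d) → e ∣ M := by
    intro e he hes h
    refine dvd_of_primes hes fun p hp hpe => hsup p hp ?_ (h p hp hpe)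
    rintro rfl
    omega
  have p2 : ∀ (p k : ℕ), p.Prime → p ∣ k → k % 2 = 1 → p ≠ 2 := by
    rintro p k - hpk hk rfl
    omega
  rcases Nat.mod_two_eq_zero_or_one d with hd2 | hd2
  · -- `d = 2 k`
    obtain ⟨k, rfl⟩ : ∃ k, d = 2 * k := ⟨d / 2, by omega⟩
    have hk2 : k % 2 = 1 := by
      by_contra hcon
      have h1 := hd 2 ⟨k / 2, by omega⟩
      exact absurd (Nat.isUnit_iff.1 h1) (by norm_num)
    have hks : Squarefree k := hd.squarefree_of_dvd ⟨2, by ring⟩
    have hkM : k ∣ M := dvdM k hk2 hks fun p _ h => h.mul_left 2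
    obtain ⟨c, hc⟩ := hkM
    have hcop : Nat.Coprime k c := by
      rw [hc] at hM
      exact Nat.coprime_of_squarefree_mul hM
    rcases Nat.mod_two_eq_zero_or_one c with hc2 | hc2
    · -- `M` even, `M = 2 k c0`
      obtain ⟨c0, rfl⟩ : ∃ c0, c = 2 * c0 := ⟨c / 2, by omega⟩
      have hc0 : c0 % 2 = 1 := by
        by_contra hcon
        have h1 := hM 2 ⟨k * (c0 / 2), by
          rw [hc]
          obtain ⟨t, ht⟩ : ∃ t, c0 = 2 * t := ⟨c0 / 2, by omega⟩
          rw [ht, Nat.mul_div_cancel_left t two_pos]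
          ring⟩
        exact absurd (Nat.isUnit_iff.1 h1) (by norm_num)
      -- `(2 k / c0) = 1`
      have j1 : jacobiSym ((2 * k : ℕ) : ℤ) c0 = 1 := by
        refine jac_one fun p hp hpc => ?_
        have : Fact p.Prime := ⟨hp⟩
        have hp2 := p2 p c0 hp hpc hc0
        have hpM : p ∣ M := by
          rw [hc]; exact (hpc.mul_left 2).mul_left k
        refine jac_ndvd (p := p) ?_ hM hpM (hloc p hp2 hpM)
        intro h
        rcases hp.dvd_mul.1 h with h | h
        · exact hp2 ((Nat.prime_dvd_prime_iff_eq hp Nat.prime_two).1 h)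
        · exact hp.one_lt.ne' (Nat.eq_one_of_dvd_coprimes hcop h (hpc.mul_left 2))
      have j2 : jacobiSym ((c0 : ℕ) : ℤ) k = 1 := by
        refine jac_one fun p hp hpk => ?_
        have : Fact p.Prime := ⟨hp⟩
        have hp2 := p2 p k hp hpk hk2
        have hpM : p ∣ M := by rw [hc]; exact hpk.mul_right _
        refine jac_dvd (p := p) (e := 2 * k) hd (hpk.mul_left 2) (by omega) ?_ ?_
          (hloc p hp2 hpM)
        · intro h
          exact hp.one_lt.ne' (Nat.eq_one_of_dvd_coprimes hcop hpk (h.mul_left 2))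
        · rw [hc]; ring
      have j3 : jacobiSym (2 : ℤ) c0 * jacobiSym (k : ℤ) c0 = 1 := by
        rw [← jacobiSym.mul_left]
        exact_mod_cast j1
      right; right; right; left
      refine ⟨k * k * c0, by rw [hc]; ring, ?_, by
        rw [hc, show k * (2 * c0) = 2 * (k * c0) by ring]; omega⟩
      have hkk : k * k % 8 = 1 := by
        have h : k % 8 = 1 ∨ k % 8 = 3 ∨ k % 8 = 5 ∨ k % 8 = 7 := by omega
        rw [Nat.mul_mod]
        rcases h with h | h | h | h <;> rw [h]
      have e1 : k * k * c0 % 8 = c0 % 8 := by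
        rw [Nat.mul_mod, hkk, one_mul, Nat.mod_mod]
      rcases jac2 hc0 with ⟨a1, a2⟩ | ⟨a1, a2⟩
      · rw [a1, one_mul] at j3
        rcases a2 with a2 | a2
        · left; rw [e1]; exact a2
        · right
          rcases jrec hk2 hc0 with ⟨b1, -⟩ | ⟨b1, b2, b3⟩
          · have hk4 : k % 4 = 1 := by omega
            have e2 : (k * k * c0) * (1 + M) % 8 = (7 * (1 + 2 * (k % 8) * 7)) % 8 := by
              have h1 : k * k * c0 ≡ 7 [MOD 8] := by
                show k * k * c0 % 8 = 7 % 8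
                rw [e1]; omega
              have h2 : c0 ≡ 7 [MOD 8] := by
                show c0 % 8 = 7 % 8
                omega
              have h3 : k ≡ k % 8 [MOD 8] := (Nat.mod_modEq k 8).symm
              have h4 : 1 + M ≡ 1 + 2 * (k % 8) * 7 [MOD 8] := by
                rw [hc, show k * (2 * c0) = 2 * k * c0 by ring]
                exact (Nat.ModEq.refl 1).add (((Nat.ModEq.refl 2).mul h3).mul h2)
              exact h1.mul h4
            rw [e2]
            have : k % 8 = 1 ∨ k % 8 = 5 := by omega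
            rcases this with h | h <;> rw [h]
          · rw [j3, j2] at b3
            norm_num at b3
      · rw [a1] at j3
        have j4 : jacobiSym (k : ℤ) c0 = -1 := by linarith
        rcases jrec hk2 hc0 with ⟨b1, b2⟩ | ⟨b1, b2, b3⟩
        · rw [j4, j2] at b2
          norm_num at b2
        · right
          have e2 : (k * k * c0) * (1 + M) % 8 = (3 * (1 + 2 * (k % 8) * 3)) % 8 := by
            have h1 : k * k * c0 ≡ 3 [MOD 8] := by
              show k * k * c0 % 8 = 3 % 8
              rw [e1]; omega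
            have h2 : c0 ≡ 3 [MOD 8] := by
              show c0 % 8 = 3 % 8
              omega
            have h3 : k ≡ k % 8 [MOD 8] := (Nat.mod_modEq k 8).symm
            have h4 : 1 + M ≡ 1 + 2 * (k % 8) * 3 [MOD 8] := by
              rw [hc, show k * (2 * c0) = 2 * k * c0 by ring]
              exact (Nat.ModEq.refl 1).add (((Nat.ModEq.refl 2).mul h3).mul h2)
            exact h1.mul h4
          rw [e2]
          have : k % 8 = 3 ∨ k % 8 = 7 := by omega
          rcases this with h | h <;> rw [h]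
    · -- `M` odd
      have hM2 : M % 2 = 1 := by rw [hc, Nat.mul_mod, hk2, hc2]
      have hM4 : M % 4 = 1 := by omega
      have j1 : jacobiSym ((2 * k : ℕ) : ℤ) c = 1 := by
        refine jac_one fun p hp hpc => ?_
        have : Fact p.Prime := ⟨hp⟩
        have hp2 := p2 p c hp hpc hc2
        have hpM : p ∣ M := by
          rw [hc]; exact hpc.mul_left k
        refine jac_ndvd (p := p) ?_ hM hpM (hloc p hp2 hpM)
        intro h
        rcases hp.dvd_mul.1 h with h | h
        · exact hp2 ((Nat.prime_dvd_prime_iff_eq hp Nat.prime_two).1 h)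
        · exact hp.one_lt.ne' (Nat.eq_one_of_dvd_coprimes hcop h hpc)
      have j2 : jacobiSym ((2 * c : ℕ) : ℤ) k = 1 := by
        refine jac_one fun p hp hpk => ?_
        have : Fact p.Prime := ⟨hp⟩
        have hp2 := p2 p k hp hpk hk2
        have hpM : p ∣ M := by rw [hc]; exact hpk.mul_right _
        refine jac_dvd (p := p) (e := k) hd (hpk.mul_left 2) (by omega) ?_ ?_
          (hloc p hp2 hpM)
        · intro h
          rcases hp.dvd_mul.1 h with h | h
          · exact hp2 ((Nat.prime_dvd_prime_iff_eq hp Nat.prime_two).1 h)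
          · exact hp.one_lt.ne' (Nat.eq_one_of_dvd_coprimes hcop hpk h)
        · rw [hc]; ring
      have j3 : jacobiSym (2 : ℤ) c * jacobiSym (k : ℤ) c = 1 := by
        rw [← jacobiSym.mul_left]
        exact_mod_cast j1
      have j4 : jacobiSym (2 : ℤ) k * jacobiSym (c : ℤ) k = 1 := by
        rw [← jacobiSym.mul_left]
        exact_mod_cast j2
      right; right; right; right
      refine ⟨k, rfl, hM2, ?_⟩
      have hM8 : M % 8 = (k % 8) * (c % 8) % 8 := by rw [hc, Nat.mul_mod]
      have key : (M % 8 = 1 ∧ k % 4 = 1) ∨ (M % 8 = 5 ∧ k % 4 = 3) := by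
        rcases jac2 hc2 with ⟨a1, a2⟩ | ⟨a1, a2⟩ <;> rcases jac2 hk2 with ⟨b1, b2⟩ | ⟨b1, b2⟩ <;>
        rw [a1] at j3 <;> rw [b1] at j4 <;>
        rcases jrec hk2 hc2 with ⟨f1, f2⟩ | ⟨f1, f2, f3⟩ <;>
        rcases a2 with a2 | a2 <;> rcases b2 with b2 | b2 <;>
        rw [a2, b2] at hM8 <;> norm_num at hM8 <;> omega
      rcases key with ⟨k1, k2⟩ | ⟨k1, k2⟩
      · obtain ⟨t, ht⟩ : ∃ t, M = 8 * t + 1 := ⟨M / 8, by omega⟩
        have : (1 + M) / 2 = 4 * t + 1 := by omega
        rw [this, Nat.mul_mod, k2]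
        omega
      · obtain ⟨t, ht⟩ : ∃ t, M = 8 * t + 5 := ⟨M / 8, by omega⟩
        have : (1 + M) / 2 = 4 * t + 3 := by omega
        rw [this, Nat.mul_mod, k2]
        omega
  · -- `d` odd
    have hdM : d ∣ M := dvdM d hd2 hd fun p _ h => h
    obtain ⟨c, hc⟩ := hdM
    have hcop : Nat.Coprime d c := by
      rw [hc] at hM
      exact Nat.coprime_of_squarefree_mul hM
    rcases Nat.mod_two_eq_zero_or_one c with hc2 | hc2
    · -- `M = 2 d c0`
      obtain ⟨c0, rfl⟩ : ∃ c0, c = 2 * c0 := ⟨c / 2, by omega⟩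
      have hc0 : c0 % 2 = 1 := by
        by_contra hcon
        have h1 := hM 2 ⟨d * (c0 / 2), by
          rw [hc]
          obtain ⟨t, ht⟩ : ∃ t, c0 = 2 * t := ⟨c0 / 2, by omega⟩
          rw [ht, Nat.mul_div_cancel_left t two_pos]
          ring⟩
        exact absurd (Nat.isUnit_iff.1 h1) (by norm_num)
      have j1 : jacobiSym (d : ℤ) c0 = 1 := by
        refine jac_one fun p hp hpc => ?_
        have : Fact p.Prime := ⟨hp⟩
        have hp2 := p2 p c0 hp hpc hc0
        have hpM : p ∣ M := by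
          rw [hc]; exact (hpc.mul_left 2).mul_left d
        refine jac_ndvd (p := p) ?_ hM hpM (hloc p hp2 hpM)
        intro h
        exact hp.one_lt.ne' (Nat.eq_one_of_dvd_coprimes hcop h (hpc.mul_left 2))
      have j2 : jacobiSym ((2 * c0 : ℕ) : ℤ) d = 1 := by
        refine jac_one fun p hp hpk => ?_
        have : Fact p.Prime := ⟨hp⟩
        have hp2 := p2 p d hp hpk hd2
        have hpM : p ∣ M := by rw [hc]; exact hpk.mul_right _
        refine jac_dvd (p := p) (e := d) hd hpk (by omega) ?_ ?_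
          (hloc p hp2 hpM)
        · intro h
          exact hp.one_lt.ne' (Nat.eq_one_of_dvd_coprimes hcop hpk h)
        · rw [hc]; ring
      have j4 : jacobiSym (2 : ℤ) d * jacobiSym (c0 : ℤ) d = 1 := by
        rw [← jacobiSym.mul_left]
        exact_mod_cast j2
      have hM2 : M % 2 = 0 := by rw [hc, show d * (2 * c0) = 2 * (d * c0) by ring]; omega
      have hMm : M = 2 * d * c0 := by rw [hc]; ring
      rcases jac2 hd2 with ⟨a1, a2⟩ | ⟨a1, a2⟩
      · rcases a2 with a2 | a2
        · right; left; exact a2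
        · left
          refine ⟨hM2, ?_⟩
          rw [a1, one_mul] at j4
          rcases jrec hd2 hc0 with ⟨b1, -⟩ | ⟨b1, b2, b3⟩
          · have h1 : d ≡ 7 [MOD 8] := by
              show d % 8 = 7 % 8
              omega
            have h3 : c0 ≡ c0 % 8 [MOD 8] := (Nat.mod_modEq c0 8).symm
            have e3 : d * (1 + M) % 8 = (7 * (1 + 2 * 7 * (c0 % 8))) % 8 := by
              rw [hMm]
              exact h1.mul ((Nat.ModEq.refl 1).add (((Nat.ModEq.refl 2).mul h1).mul h3))
            rw [e3]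
            have : c0 % 8 = 1 ∨ c0 % 8 = 5 := by omega
            rcases this with h | h <;> rw [h]
          · rw [j1, j4] at b3
            norm_num at b3
      · rw [a1] at j4
        have j5 : jacobiSym (c0 : ℤ) d = -1 := by linarith
        rcases jrec hd2 hc0 with ⟨b1, b2⟩ | ⟨b1, b2, b3⟩
        · rw [j1, j5] at b2
          norm_num at b2
        · left
          refine ⟨hM2, ?_⟩
          have h1 : d ≡ 3 [MOD 8] := by
            show d % 8 = 3 % 8
            omega
          have h3 : c0 ≡ c0 % 8 [MOD 8] := (Nat.mod_modEq c0 8).symm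
          have e3 : d * (1 + M) % 8 = (3 * (1 + 2 * 3 * (c0 % 8))) % 8 := by
            rw [hMm]
            exact h1.mul ((Nat.ModEq.refl 1).add (((Nat.ModEq.refl 2).mul h1).mul h3))
          rw [e3]
          have : c0 % 8 = 3 ∨ c0 % 8 = 7 := by omega
          rcases this with h | h <;> rw [h]
    · -- `M` odd
      have hM2 : M % 2 = 1 := by rw [hc, Nat.mul_mod, hd2, hc2]
      have hM4 : M % 4 = 1 := by omega
      have j1 : jacobiSym (d : ℤ) c = 1 := by
        refine jac_one fun p hp hpc => ?_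
        have : Fact p.Prime := ⟨hp⟩
        have hp2 := p2 p c hp hpc hc2
        have hpM : p ∣ M := by
          rw [hc]; exact hpc.mul_left d
        refine jac_ndvd (p := p) ?_ hM hpM (hloc p hp2 hpM)
        intro h
        exact hp.one_lt.ne' (Nat.eq_one_of_dvd_coprimes hcop h hpc)
      have j2 : jacobiSym (c : ℤ) d = 1 := by
        refine jac_one fun p hp hpk => ?_
        have : Fact p.Prime := ⟨hp⟩
        have hp2 := p2 p d hp hpk hd2
        have hpM : p ∣ M := by rw [hc]; exact hpk.mul_right _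
        refine jac_dvd (p := p) (e := d) hd hpk (by omega) ?_ ?_
          (hloc p hp2 hpM)
        · intro h
          exact hp.one_lt.ne' (Nat.eq_one_of_dvd_coprimes hcop hpk h)
        · rw [hc]; ring
      have h5 : d % 4 = 1 := by
        rcases jrec hd2 hc2 with ⟨f1, f2⟩ | ⟨f1, f2, f3⟩
        · rcases f1 with f1 | f1
          · exact f1
          · have h6 : (d % 4) * (c % 4) % 4 = 1 := by rw [← Nat.mul_mod, ← hc, hM4]
            rw [f1, mul_one] at h6
            omega
        · rw [j1, j2] at f3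
          norm_num at f3
      have h6 : d % 8 = 1 ∨ d % 8 = 5 := by omega
      rcases h6 with h6 | h6
      · exact Or.inr (Or.inl h6)
      · exact Or.inr (Or.inr (Or.inl ⟨hM2, by omega⟩))

end Pool.Agent.N875.X15
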