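import Pool.Agent.N875.X15.Rank
import Pool.Agent.Y809.BSD14.Tam2
import Pool.Agent.Y809.BSD14.E0

/-!
# The Tamagawa numbers of `E_m : y² = x (x + 9 m) (x - 16 m)` at the odd primes
-/

set_option autoImplicit false

namespace Pool.Agent.N875.X15

open WeierstrassCurve
open Pool.Agent.TH841.SH (IsR)
open Pool.Agent.Y700 (PtP SingRed E0 tam)
open Pool.Agent.Y809.BSD14 (index_of t_E0)

open scoped Classical

section add

variable {K : Type} [Field K] [DecidableEq K] {W : WeierstrassCurve K} {a b c : K}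

omit [DecidableEq K] in
lemma isR_eqn (h : IsR W a b c) {x y : K} :
    W.toAffine.Equation x y ↔ y ^ 2 = (x - a) * (x - b) * (x - c) := by
  rw [Affine.equation_iff, h.h1, h.h2, h.h3, h.h4, h.h6]
  constructor <;> intro h <;> linear_combination h

/-- the sum with a point of order two -/
lemma add_T (h : IsR W a b c) {x y : K} (hP : W.toAffine.Nonsingular x y)
    (hT : W.toAffine.Nonsingular a 0) (hx : x ≠ a) :
    ∃ X Y H, (Affine.Point.some x y hP + Affine.Point.some a 0 hT : W.toAffine.Point) =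
      Affine.Point.some X Y H ∧ X - a = (a - b) * (a - c) / (x - a) := by
  rw [Affine.Point.add_of_X_ne hx]
  refine ⟨_, _, _, rfl, ?_⟩
  have hx' : x - a ≠ 0 := sub_ne_zero.2 hx
  have q1 := (isR_eqn h).1 hP.1
  rw [Affine.slope_of_X_ne hx, Affine.addX, h.h1, h.h2, sub_zero, zero_mul, add_zero]
  field_simp
  linear_combination q1

/-- a point killed by two -/
lemma two_tor (h : IsR W a b c) (h2 : (2 : K) ≠ 0) {P : W.toAffine.Point} (hP : P + P = 0)
    (h0 : P ≠ 0) : ∃ x hx, P = Affine.Point.some x 0 hx ∧ (x = a ∨ x = b ∨ x = c) := by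
  cases P with
  | zero => exact absurd rfl h0
  | some x y hn =>
    have h1 : (Affine.Point.some x y hn : W.toAffine.Point) =
        -Affine.Point.some x y hn := eq_neg_of_add_eq_zero_left hP
    rw [Affine.Point.neg_some] at h1
    have h3 : y = W.toAffine.negY x y := by
      simpa using h1
    have h4 : y = 0 := by
      rw [Affine.negY, h.h1, h.h3] at h3
      have : 2 * y = 0 := by linear_combination h3
      exact (mul_eq_zero.1 this).resolve_left h2
    subst h4
    refine ⟨x, hn, rfl, ?_⟩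
    have q1 := (isR_eqn h).1 hn.1
    have q2 : (x - a) * (x - b) * (x - c) = 0 := by rw [← q1]; ring
    rcases mul_eq_zero.1 q2 with h5 | h5
    · rcases mul_eq_zero.1 h5 with h6 | h6
      · exact Or.inl (sub_eq_zero.1 h6)
      · exact Or.inr (Or.inl (sub_eq_zero.1 h6))
    · exact Or.inr (Or.inr (sub_eq_zero.1 h5))

lemma dbl_T (h : IsR W a b c) {r : K} (hT : W.toAffine.Nonsingular r 0) :
    (Affine.Point.some r 0 hT + Affine.Point.some r 0 hT : W.toAffine.Point) = 0 := by
  refine Affine.Point.add_of_Y_eq rfl ?_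
  rw [Affine.negY, h.h1, h.h3]
  ring

end add

section val

variable {p : ℕ} [hp : Fact p.Prime]

lemma val_neg (x : ℚ_[p]) : (-x).valuation = x.valuation := by
  by_cases hx : x = 0
  · rw [hx, neg_zero]
  exact (norm_eq_iff (neg_ne_zero.2 hx) hx).1 (norm_neg x)

/-- the valuations in the ramified case -/
theorem val_ram (hp2 : p ≠ 2) {u v w : ℚ_[p]} (hu : u ≠ 0) (hv : v ≠ 0) (hw : w ≠ 0)
    (hs : IsSquare (u * v * w)) (huv : v - u ≠ 0) {l k : ℤ}
    (h1 : (v - u).valuation = l) (h2 : (w - u).valuation = k) (_hkl : k ≤ l) (hk : Odd k) :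
    u.valuation < k ∨ l < u.valuation ∨ l < v.valuation ∨ k < w.valuation := by
  have hsum : Even (u.valuation + v.valuation + w.valuation) := by
    have := even_val (mul_ne_zero (mul_ne_zero hu hv) hw) hs
    rwa [Padic.valuation_mul (mul_ne_zero hu hv) hw, Padic.valuation_mul hu hv] at this
  rcases lt_or_ge u.valuation k with c1 | c1
  · exact Or.inl c1
  · rcases lt_or_ge k w.valuation with c2 | c2
    · exact Or.inr (Or.inr (Or.inr c2))
    · have c3 : k ≤ w.valuation := by
        have := val_add_ge (x := w - u) (y := u) (by rwa [sub_add_cancel]) (k := k)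
          (by omega) c1
        rwa [sub_add_cancel] at this
      have c4 : w.valuation = k := le_antisymm c2 c3
      rcases lt_trichotomy u.valuation l with c5 | c5 | c5
      · exfalso
        obtain ⟨-, a1⟩ := closeV hp2 hv hu huv (by omega)
        rw [a1, c4] at hsum
        obtain ⟨r, hr⟩ := hsum
        obtain ⟨s, hs'⟩ := hk
        omega
      · right; right; left
        have c6 : l ≤ v.valuation := by
          have := val_add_ge (x := v - u) (y := u) (by rwa [sub_add_cancel]) (k := l)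
            (by omega) (by omega)
          rwa [sub_add_cancel] at this
        refine lt_of_le_of_ne c6 ?_
        intro h
        rw [← h, c4, c5] at hsum
        obtain ⟨r, hr⟩ := hsum
        obtain ⟨s, hs'⟩ := hk
        omega
      · exact Or.inr (Or.inl c5)

/-- the valuations in the unramified case with a nonsquare -/
theorem val_unr (hp2 : p ≠ 2) {u v w : ℚ_[p]} (hu : u ≠ 0) (hv : v ≠ 0) (hw : w ≠ 0)
    (hs : IsSquare (u * v * w)) (huv : v - u ≠ 0) (huw : w - u ≠ 0) {l : ℤ}
    (h1 : (v - u).valuation = l) (h2 : (w - u).valuation = 0) (hn : ¬ IsSquare (w - u)) :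
    u.valuation ≤ 0 ∨ l ≤ u.valuation := by
  by_contra hcon
  push Not at hcon
  obtain ⟨c1, c2⟩ := hcon
  obtain ⟨a0, a1⟩ := closeV hp2 hv hu huv (by omega)
  obtain ⟨b0, -⟩ := closeV hp2 (x := w) (y := w - u) hw huw
    (by rw [sub_sub_cancel]; exact hu) (by rw [sub_sub_cancel]; omega)
  have b1 : IsSquare w := by
    have e : u * v * w = v * u * w := by ring
    rw [e] at hs
    exact sq_cancel (mul_ne_zero hv hu) a0 hs
  exact hn (sq_cancel hw b1 b0)

end val

section tam

variable {p : ℕ} [hp : Fact p.Prime] {m : ℤ}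

/-- the curve over `ℚ_p` -/
lemma isRp (p : ℕ) [Fact p.Prime] (m : ℤ) : IsR ((Em m).map (Int.castRingHom ℚ_[p]))
    (0 : ℚ_[p]) (-9 * m) (16 * m) := by
  refine ⟨?_, ?_, ?_, ?_, ?_⟩ <;> simp [Em] <;> ring

lemma eqnp {x y : ℚ_[p]} (h : ((Em m).map (Int.castRingHom ℚ_[p])).toAffine.Nonsingular x y) :
    y ^ 2 = x * (x + 9 * m) * (x - 16 * m) := by
  have := (isR_eqn (isRp p m)).1 h.1
  rw [this]
  ring

lemma nonsingp (hm : m ≠ 0) {x : ℚ_[p]} (hx : x = 0 ∨ x = -9 * m ∨ x = 16 * m) :
    ((Em m).map (Int.castRingHom ℚ_[p])).toAffine.Nonsingular x 0 := by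
  have hm' : (m : ℚ_[p]) ≠ 0 := by exact_mod_cast hm
  rw [Affine.nonsingular_iff, Affine.equation_iff]
  simp only [Em, map_a₁, map_a₂, map_a₃, map_a₄, map_a₆, eq_intCast]
  push_cast
  have h3 : (m : ℚ_[p]) ^ 2 ≠ 0 := pow_ne_zero 2 hm'
  constructor
  · rcases hx with rfl | rfl | rfl <;> ring
  · left
    intro h
    apply h3
    rcases hx with rfl | rfl | rfl
    · linear_combination (1 / 144 : ℚ_[p]) * h
    · linear_combination (-1 / 225 : ℚ_[p]) * h
    · linear_combination (-1 / 400 : ℚ_[p]) * h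

/-- the points of order two -/
noncomputable def Tp (hm : m ≠ 0) {x : ℚ_[p]} (hx : x = 0 ∨ x = -9 * m ∨ x = 16 * m) :
    PtP (Em m) p := Affine.Point.some x 0 (nonsingp hm hx)

lemma normlt_iff {x : ℚ_[p]} (hx : x ≠ 0) : ‖x‖ < 1 ↔ 0 < x.valuation := by
  have := norm_lt_iff hx (one_ne_zero (α := ℚ_[p]))
  rw [norm_one, Padic.valuation_one] at this
  exact this

lemma normle_iff {x : ℚ_[p]} (hx : x ≠ 0) : ‖x‖ ≤ 1 ↔ 0 ≤ x.valuation := by
  have := norm_le_iff hx (one_ne_zero (α := ℚ_[p]))
  rw [norm_one, Padic.valuation_one] at this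
  exact this

lemma norm_add_lt {x y : ℚ_[p]} (hx : ‖x‖ < 1) (hy : ‖y‖ < 1) : ‖x + y‖ < 1 :=
  lt_of_le_of_lt (Padic.nonarchimedean x y) (max_lt hx hy)

lemma norm_sub_lt {x y : ℚ_[p]} (hx : ‖x‖ < 1) (hy : ‖y‖ < 1) : ‖x - y‖ < 1 := by
  rw [sub_eq_add_neg]
  exact norm_add_lt hx (by rwa [norm_neg])

lemma norm_mul_lt {x y : ℚ_[p]} (hx : ‖x‖ < 1) (hy : ‖y‖ ≤ 1) : ‖x * y‖ < 1 := by
  rw [norm_mul]
  exact mul_lt_one_of_nonneg_of_lt_one_left (norm_nonneg _) hx hy

lemma norm_mul_lt' {x y : ℚ_[p]} (hx : ‖x‖ ≤ 1) (hy : ‖y‖ < 1) : ‖x * y‖ < 1 := by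
  rw [mul_comm]
  exact norm_mul_lt hy hx

lemma norm_int (k : ℤ) : ‖(k : ℚ_[p])‖ ≤ 1 := Padic.norm_int_le_one k

lemma norm_two (hp2 : p ≠ 2) : ‖(2 : ℚ_[p])‖ = 1 := by
  have h1 : ‖((2 : ℤ) : ℚ_[p])‖ = 1 := by
    refine le_antisymm (norm_int 2) ?_
    rw [← not_lt, Padic.norm_intCast_lt_one_iff]
    exact not_dvd_of_prime Nat.prime_two hp2
  exact_mod_cast h1

lemma norm_sq_lt {y : ℚ_[p]} (h : ‖y ^ 2‖ < 1) : ‖y‖ < 1 := by
  rw [norm_pow] at h
  by_contra hcon
  push Not at hcon
  nlinarith

/-- the reduction at the primes dividing `m` -/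
lemma sing_ram (hp2 : p ≠ 2) (hpm : (p : ℤ) ∣ m) {x y : ℚ_[p]}
    (h : ((Em m).map (Int.castRingHom ℚ_[p])).toAffine.Nonsingular x y) :
    SingRed (Em m) p x y ↔ ‖x‖ < 1 := by
  have e := eqnp h
  have hm1 : ‖(m : ℚ_[p])‖ < 1 := (Padic.norm_intCast_lt_one_iff).2 hpm
  unfold SingRed
  simp only [Em]
  push_cast
  constructor
  · rintro ⟨h1, h2, h3, h4⟩
    by_contra hcon
    push Not at hcon
    have hx : ‖x‖ = 1 := le_antisymm h1 hcon
    have h5 : ‖y‖ < 1 := by
      have e1 : (2 : ℚ_[p]) * y + 0 * x + 0 = 2 * y := by ring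
      rw [e1, norm_mul, norm_two hp2, one_mul] at h4
      exact h4
    have h6 : ‖x ^ 3‖ < 1 := by
      have e2 : x ^ 3 = y ^ 2 + m * (7 * x ^ 2 + 144 * m * x) := by rw [e]; ring
      rw [e2]
      refine norm_add_lt ?_ (norm_mul_lt hm1 ?_)
      · rw [norm_pow]
        exact pow_lt_one₀ (norm_nonneg _) h5 two_ne_zero
      · refine (Padic.nonarchimedean _ _).trans (max_le ?_ ?_)
        · rw [norm_mul, norm_pow, hx]
          have := norm_int (p := p) 7
          push_cast at this
          simpa using this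
        · rw [norm_mul, norm_mul, hx, mul_one]
          have := norm_int (p := p) 144
          push_cast at this
          exact mul_le_one₀ this (norm_nonneg _) hm1.le
    rw [norm_pow, hx] at h6
    norm_num at h6
  · intro hx
    have hy : ‖y‖ < 1 := by
      apply norm_sq_lt
      rw [e]
      refine norm_mul_lt (norm_mul_lt hx ?_) ?_
      · refine (Padic.nonarchimedean _ _).trans (max_le hx.le ?_)
        have := norm_int (p := p) 9
        push_cast at this
        rw [norm_mul]
        exact mul_le_one₀ this (norm_nonneg _) hm1.le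
      · rw [sub_eq_add_neg]
        refine (Padic.nonarchimedean _ _).trans (max_le hx.le ?_)
        have := norm_int (p := p) 16
        push_cast at this
        rw [norm_neg, norm_mul]
        exact mul_le_one₀ this (norm_nonneg _) hm1.le
    refine ⟨hx.le, hy.le, ?_, ?_⟩
    · have e1 : 0 * y - (3 * x ^ 2 + 2 * (-7 * (m : ℚ_[p])) * x + -144 * (m : ℚ_[p]) ^ 2) =
          x * (((-3 : ℤ) : ℚ_[p]) * x + ((14 : ℤ) : ℚ_[p]) * m) + m * (((144 : ℤ) : ℚ_[p]) * m) := by
        push_cast; ring
      rw [e1]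
      refine norm_add_lt (norm_mul_lt hx ?_) (norm_mul_lt hm1 ?_)
      · refine (Padic.nonarchimedean _ _).trans (max_le ?_ ?_)
        · rw [norm_mul]
          exact mul_le_one₀ (norm_int _) (norm_nonneg _) hx.le
        · rw [norm_mul]
          exact mul_le_one₀ (norm_int _) (norm_nonneg _) hm1.le
      · rw [norm_mul]
        exact mul_le_one₀ (norm_int _) (norm_nonneg _) hm1.le
    · have e1 : (2 : ℚ_[p]) * y + 0 * x + 0 = 2 * y := by ring
      rw [e1, norm_mul, norm_two hp2, one_mul]
      exact hy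

/-- the coset representatives -/
noncomputable def rp (hm : m ≠ 0) (i : Fin 4) : PtP (Em m) p :=
  if i = 0 then 0 else if i = 1 then Tp hm (Or.inl rfl) else
    if i = 2 then Tp hm (Or.inr (Or.inl rfl)) else Tp hm (Or.inr (Or.inr rfl))

lemma rp_dbl (hm : m ≠ 0) (i : Fin 4) : rp (p := p) hm i + rp hm i = 0 := by
  unfold rp
  split_ifs
  · exact add_zero 0
  · exact dbl_T (isRp p m) _
  · exact dbl_T (isRp p m) _
  · exact dbl_T (isRp p m) _

lemma Tp_inj (hm : m ≠ 0) {x x' : ℚ_[p]} (hx : x = 0 ∨ x = -9 * m ∨ x = 16 * m)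
    (hx' : x' = 0 ∨ x' = -9 * m ∨ x' = 16 * m) (h : Tp hm hx = Tp hm hx') : x = x' := by
  unfold Tp at h
  injection h

lemma Tp_ne (hm : m ≠ 0) {x : ℚ_[p]} (hx : x = 0 ∨ x = -9 * m ∨ x = 16 * m) :
    Tp hm hx ≠ 0 := Affine.Point.some_ne_zero _

lemma rp_inj (hm : m ≠ 0) : Function.Injective (rp (p := p) hm) := by
  have hm' : (m : ℚ_[p]) ≠ 0 := by exact_mod_cast hm
  have q9 : (-9 * (m : ℚ_[p])) ≠ 0 := mul_ne_zero (by norm_num) hm'
  have q16 : (16 * (m : ℚ_[p])) ≠ 0 := mul_ne_zero (by norm_num) hm'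
  have q25 : (-9 * (m : ℚ_[p])) ≠ 16 * m := by
    intro h
    apply hm'
    linear_combination (-1 / 25 : ℚ_[p]) * h
  have r0 : rp (p := p) hm 0 = 0 := rfl
  have r1 : rp (p := p) hm 1 = Tp hm (Or.inl rfl) := rfl
  have r2 : rp (p := p) hm 2 = Tp hm (Or.inr (Or.inl rfl)) := rfl
  have r3 : rp (p := p) hm 3 = Tp hm (Or.inr (Or.inr rfl)) := rfl
  intro i j hij
  fin_cases i <;> fin_cases j <;> first | rfl | (exfalso; revert hij; simp only [Fin.zero_eta, Fin.mk_one, Fin.reduceFinMk, r0, r1, r2, r3]; intro hij)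
  · exact Tp_ne hm _ hij.symm
  · exact Tp_ne hm _ hij.symm
  · exact Tp_ne hm _ hij.symm
  · exact Tp_ne hm _ hij
  · exact q9 (Tp_inj hm _ _ hij).symm
  · exact q16 (Tp_inj hm _ _ hij).symm
  · exact Tp_ne hm _ hij
  · exact q9 (Tp_inj hm _ _ hij)
  · exact q25 (Tp_inj hm _ _ hij)
  · exact Tp_ne hm _ hij
  · exact q16 (Tp_inj hm _ _ hij)
  · exact q25 (Tp_inj hm _ _ hij).symm

/-- translation by a point of order two -/
lemma shift (hp2 : p ≠ 2) (hpm : (p : ℤ) ∣ m) {a b c : ℚ_[p]}
    (h : IsR ((Em m).map (Int.castRingHom ℚ_[p])) a b c) (ha : ‖a‖ < 1) {x y : ℚ_[p]}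
    (hP : ((Em m).map (Int.castRingHom ℚ_[p])).toAffine.Nonsingular x y)
    (hT : ((Em m).map (Int.castRingHom ℚ_[p])).toAffine.Nonsingular a 0) (hx : x ≠ a)
    (hv : ‖x - a‖ ≤ ‖(a - b) * (a - c)‖) :
    (Affine.Point.some x y hP + Affine.Point.some a 0 hT : PtP (Em m) p) ∈ E0 (Em m) p := by
  obtain ⟨X, Y, H, e, hX⟩ := add_T h hP hT hx
  rw [e, t_E0]
  intro x' y' h' he hsing
  injection he with e1 e2
  subst e1
  subst e2
  rw [sing_ram hp2 hpm h'] at hsing
  have h1 : 1 ≤ ‖X - a‖ := by
    rw [hX, norm_div, one_le_div (norm_pos_iff.2 (sub_ne_zero.2 hx))]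
    exact hv
  have h2 := norm_sub_lt hsing ha
  linarith

/-- **The Tamagawa numbers at the odd primes dividing `m`.** -/
theorem tam_ram (hp2 : p ≠ 2) (hm : Squarefree m) (hpm : (p : ℤ) ∣ m) : tam (Em m) p = 4 := by
  have hm0 : m ≠ 0 := hm.ne_zero
  have hm' : (m : ℚ_[p]) ≠ 0 := by exact_mod_cast hm0
  have hm1 : ‖(m : ℚ_[p])‖ < 1 := (Padic.norm_intCast_lt_one_iff).2 hpm
  have hR := isRp p m
  have vm := val_one hpm hm
  have hpr : Prime (p : ℤ) := Nat.prime_iff_prime_int.1 hp.out
  have n2 : ¬ (p : ℤ) ∣ (2 : ℤ) := not_dvd_of_prime Nat.prime_two hp2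
  have v16 : (16 * (m : ℚ_[p])).valuation = 1 := by
    have := val_mul_unit (p := p) (n := m) 16 (fun h => n2 (by
      have : (16 : ℤ) = 2 ^ 4 := by norm_num
      rw [this] at h
      exact hpr.dvd_of_dvd_pow h)) hm0
    push_cast at this
    rw [this, vm]
  have n9 : (9 * (m : ℚ_[p])) ≠ 0 := mul_ne_zero (by norm_num) hm'
  have n16 : (16 * (m : ℚ_[p])) ≠ 0 := mul_ne_zero (by norm_num) hm'
  have n25 : (25 * (m : ℚ_[p])) ≠ 0 := mul_ne_zero (by norm_num) hm'
  have r0 : rp (p := p) hm0 0 = 0 := rfl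
  have r1 : rp (p := p) hm0 1 = Tp hm0 (Or.inl rfl) := rfl
  have r2 : rp (p := p) hm0 2 = Tp hm0 (Or.inr (Or.inl rfl)) := rfl
  have r3 : rp (p := p) hm0 3 = Tp hm0 (Or.inr (Or.inr rfl)) := rfl
  have nrm : ∀ k : ℤ, ‖(k : ℚ_[p]) * m‖ < 1 := fun k => norm_mul_lt' (norm_int k) hm1
  refine index_of (E0 (Em m) p) (rp (p := p) hm0) (rp_dbl hm0) ?_ ?_
  · intro P
    rcases P with _ | ⟨x, y, h⟩
    · exact ⟨0, by rw [r0]; exact (E0 (Em m) p).zero_mem⟩
    by_cases hx1 : ‖x‖ < 1
    swap
    · refine ⟨0, ?_⟩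
      rw [r0, add_zero, t_E0]
      intro x' y' h' he hsing
      injection he with e1 e2
      subst e1
      subst e2
      exact hx1 ((sing_ram hp2 hpm h').1 hsing)
    have hE := eqnp h
    by_cases hy : y = 0
    · subst hy
      have h3 : x = 0 ∨ x = -9 * m ∨ x = 16 * m := by
        have h4 : x * (x + 9 * m) * (x - 16 * m) = 0 := by rw [← hE]; ring
        rcases mul_eq_zero.1 h4 with h5 | h5
        · rcases mul_eq_zero.1 h5 with h6 | h6
          · exact Or.inl h6
          · exact Or.inr (Or.inl (by linear_combination h6))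
        · exact Or.inr (Or.inr (by linear_combination h5))
      have hz : (Affine.Point.some x 0 h : PtP (Em m) p) + Affine.Point.some x 0 h = 0 := dbl_T hR h
      rcases h3 with rfl | rfl | rfl
      · exact ⟨1, by rw [r1]; unfold Tp; rw [hz]; exact (E0 (Em m) p).zero_mem⟩
      · exact ⟨2, by rw [r2]; unfold Tp; rw [hz]; exact (E0 (Em m) p).zero_mem⟩
      · exact ⟨3, by rw [r3]; unfold Tp; rw [hz]; exact (E0 (Em m) p).zero_mem⟩
    · have h0 : x * (x + 9 * m) * (x - 16 * m) ≠ 0 := by
        rw [← hE]; exact pow_ne_zero 2 hy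
      have hu : x ≠ 0 := left_ne_zero_of_mul (left_ne_zero_of_mul h0)
      have hv : x + 9 * m ≠ 0 := right_ne_zero_of_mul (left_ne_zero_of_mul h0)
      have hw : x - 16 * m ≠ 0 := right_ne_zero_of_mul h0
      have hs : IsSquare (x * (x + 9 * m) * (x - 16 * m)) := ⟨y, by rw [← hE, pow_two]⟩
      have hvx : 0 < x.valuation := (normlt_iff hu).1 hx1
      have E1 : x + 9 * (m : ℚ_[p]) - x = 9 * m := by ring
      have E2 : x - 16 * (m : ℚ_[p]) - x = -(16 * m) := by ring
      have E3 : x - 16 * (m : ℚ_[p]) - (x + 9 * m) = -(25 * m) := by ring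
      have E1' : x - (x + 9 * (m : ℚ_[p])) = -(9 * m) := by ring
      -- the three translations
      have s0 : (9 * (m : ℚ_[p])).valuation + 1 ≤ x.valuation →
          ∃ i, (Affine.Point.some x y h : PtP (Em m) p) + rp hm0 i ∈ E0 (Em m) p := by
        intro hval
        refine ⟨1, ?_⟩
        rw [r1]
        refine shift hp2 hpm hR (by rw [norm_zero]; exact one_pos) h _ hu ?_
        have e : (0 - -9 * (m : ℚ_[p])) * (0 - 16 * m) = -((9 * m) * (16 * m)) := by ring
        rw [e, sub_zero, norm_neg, norm_le_iff hu (mul_ne_zero n9 n16),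
          Padic.valuation_mul n9 n16, v16]
        exact hval
      have s1 : (9 * (m : ℚ_[p])).valuation + (25 * (m : ℚ_[p])).valuation ≤
          (x + 9 * m).valuation →
          ∃ i, (Affine.Point.some x y h : PtP (Em m) p) + rp hm0 i ∈ E0 (Em m) p := by
        intro hval
        refine ⟨2, ?_⟩
        rw [r2]
        refine shift hp2 hpm hR.rot ?_ h _ ?_ ?_
        · have := nrm (-9)
          push_cast at this
          exact this
        · intro hx
          apply hv
          rw [hx]; ring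
        · have e : (-9 * (m : ℚ_[p]) - 16 * m) * (-9 * m - 0) = (9 * m) * (25 * m) := by ring
          have e' : x - -9 * (m : ℚ_[p]) = x + 9 * m := by ring
          rw [e, e', norm_le_iff hv (mul_ne_zero n9 n25), Padic.valuation_mul n9 n25]
          exact hval
      have s2 : 1 + (25 * (m : ℚ_[p])).valuation ≤ (x - 16 * m).valuation →
          ∃ i, (Affine.Point.some x y h : PtP (Em m) p) + rp hm0 i ∈ E0 (Em m) p := by
        intro hval
        refine ⟨3, ?_⟩
        rw [r3]
        refine shift hp2 hpm hR.rot.rot ?_ h _ ?_ ?_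
        · have := nrm 16
          push_cast at this
          exact this
        · intro hx
          apply hw
          rw [hx]; ring
        · have e : (16 * (m : ℚ_[p]) - 0) * (16 * m - -9 * m) = (16 * m) * (25 * m) := by ring
          rw [e, norm_le_iff hw (mul_ne_zero n16 n25), Padic.valuation_mul n16 n25, v16]
          exact hval
      by_cases h5 : p = 5
      · have v9 : (9 * (m : ℚ_[p])).valuation = 1 := by
          have := val_mul_unit (p := p) (n := m) 9 (by rw [h5]; norm_num) hm0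
          push_cast at this
          rw [this, vm]
        have v25 : (25 * (m : ℚ_[p])).valuation = 3 := by
          have e : (25 : ℚ_[p]) = ((p : ℕ) : ℚ_[p]) ^ 2 := by
            have h5' : ((p : ℕ) : ℚ_[p]) = 5 := by
              have := congrArg (Nat.cast : ℕ → ℚ_[p]) h5
              rw [this]
              norm_num
            rw [h5']
            norm_num
          rw [Padic.valuation_mul (by norm_num) hm', vm, e, Padic.valuation_pow, val_p]
          norm_num
        have hs' : IsSquare ((x + 9 * (m : ℚ_[p])) * (x - 16 * m) * x) := by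
          have e : (x + 9 * (m : ℚ_[p])) * (x - 16 * m) * x = x * (x + 9 * m) * (x - 16 * m) := by
            ring
          rwa [e]
        have := val_ram hp2 (u := x + 9 * (m : ℚ_[p])) (v := x - 16 * m) (w := x) hv hw hu hs'
          (by rw [E3]; exact neg_ne_zero.2 n25) (l := 3) (k := 1) (by rw [E3, val_neg, v25])
          (by rw [E1', val_neg, v9]) (by norm_num) (by decide)
        rcases this with c | c | c | c
        · exfalso
          have h6 : ‖x + 9 * (m : ℚ_[p])‖ < 1 := norm_add_lt hx1 (by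
            have := nrm 9
            push_cast at this
            exact this)
          have := (normlt_iff hv).1 h6
          omega
        · exact s1 (by rw [v9, v25]; omega)
        · exact s2 (by rw [v25]; omega)
        · exact s0 (by rw [v9]; omega)
      · have v25 : (25 * (m : ℚ_[p])).valuation = 1 := by
          have := val_mul_unit (p := p) (n := m) 25 (fun h => by
            have e : (25 : ℤ) = (5 : ℕ) ^ 2 := by norm_num
            rw [e] at h
            exact not_dvd_of_prime (by norm_num) h5 (hpr.dvd_of_dvd_pow h)) hm0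
          push_cast at this
          rw [this, vm]
        have v9 : ∃ l : ℤ, (9 * (m : ℚ_[p])).valuation = l ∧ 1 ≤ l := by
          by_cases h3 : p = 3
          · refine ⟨3, ?_, by norm_num⟩
            have e : (9 : ℚ_[p]) = ((p : ℕ) : ℚ_[p]) ^ 2 := by
              have h3' : ((p : ℕ) : ℚ_[p]) = 3 := by
                have := congrArg (Nat.cast : ℕ → ℚ_[p]) h3
                rw [this]
                norm_num
              rw [h3']
              norm_num
            rw [Padic.valuation_mul (by norm_num) hm', vm, e, Padic.valuation_pow, val_p]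
            norm_num
          · refine ⟨1, ?_, le_refl _⟩
            have := val_mul_unit (p := p) (n := m) 9 (fun h => by
              have e : (9 : ℤ) = (3 : ℕ) ^ 2 := by norm_num
              rw [e] at h
              exact not_dvd_of_prime (by norm_num) h3 (hpr.dvd_of_dvd_pow h)) hm0
            push_cast at this
            rw [this, vm]
        obtain ⟨l, v9, hl⟩ := v9
        have := val_ram hp2 (u := x) (v := x + 9 * (m : ℚ_[p])) (w := x - 16 * m) hu hv hw hs
          (by rw [E1]; exact n9) (l := l) (k := 1) (by rw [E1, v9])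
          (by rw [E2, val_neg, v16]) hl (by decide)
        rcases this with c | c | c | c
        · exfalso
          omega
        · exact s0 (by rw [v9]; omega)
        · exact s1 (by rw [v9, v25]; omega)
        · exact s2 (by rw [v25]; omega)
  · intro i j hij
    by_contra hne
    have h1 : rp (p := p) hm0 i + rp hm0 j ≠ 0 := by
      intro h
      apply hne
      apply rp_inj (p := p) hm0
      have h2 := rp_dbl (p := p) hm0 j
      have h3 : rp (p := p) hm0 i = -rp hm0 j := eq_neg_of_add_eq_zero_left h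
      have h4 : rp (p := p) hm0 j = -rp hm0 j := eq_neg_of_add_eq_zero_left h2
      rw [h3, ← h4]
    have h2 : (rp (p := p) hm0 i + rp hm0 j) + (rp hm0 i + rp hm0 j) = 0 := by
      have e1 := rp_dbl (p := p) hm0 i
      have e2 := rp_dbl (p := p) hm0 j
      have e : (rp (p := p) hm0 i + rp hm0 j) + (rp hm0 i + rp hm0 j) =
        (rp hm0 i + rp hm0 i) + (rp hm0 j + rp hm0 j) := by abel
      rw [e, e1, e2, add_zero]
    obtain ⟨x, hx, hP, hxx⟩ := two_tor hR two_ne_zero h2 h1
    rw [hP] at hij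
    have hij' := (t_E0 (W := Em m) (p := p) _).1 hij
    refine hij' x 0 hx rfl ?_
    rw [sing_ram hp2 hpm hx]
    rcases hxx with rfl | rfl | rfl
    · rw [norm_zero]; exact one_pos
    · have e := nrm (-9)
      push_cast at e
      exact e
    · have e := nrm 16
      push_cast at e
      exact e

end tam

end Pool.Agent.N875.X15
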